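import Pool.Agent.Lib.MP_30b5b4_an.C.Alg1

/-! The algebra of one step: the new movers. -/

open scoped CStarAlgebra ComplexOrder Topology
open Filter

set_option linter.unusedSectionVars false
set_option linter.style.haveILetI false
set_option linter.unusedVariables false
set_option linter.unusedSimpArgs false
set_option synthInstance.maxSize 1000000

namespace Pool.Agent.Lib.MP_30b5b4_an

universe u v

variable {B : Type u} [CStarAlgebra B] [PartialOrder B] [StarOrderedRing B]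

namespace Alg

noncomputable def ph (M k : ℕ) (s : ℝ) : ℝ := √(cl (M * s - k + 1) - cl (M * s - k))

@[fun_prop] lemma ph_cont (M k : ℕ) : Continuous (ph M k) := by unfold ph; fun_prop

lemma cl_step (y : ℝ) : 0 ≤ cl (y + 1) - cl y ∧ y * y * (cl (y + 1) - cl y) ≤ cl (y + 1) - cl y := by
  rcases le_total y (-1) with h | h
  · rw [cl_of_nonpos (by linarith), cl_of_nonpos (by linarith)]; simp
  rcases le_total 1 y with h' | h'
  · rw [cl_of_one_le (by linarith), cl_of_one_le h']; simp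
  have h1 : 0 ≤ cl (y + 1) - cl y := sub_nonneg.2 (max_le_max le_rfl (min_le_min le_rfl (by simp)))
  exact ⟨h1, mul_le_of_le_one_left h1 (by nlinarith)⟩

lemma ph_sq (M k : ℕ) (s : ℝ) : ph M k s * ph M k s = cl (M * s - k + 1) - cl (M * s - k) :=
  Real.mul_self_sqrt (cl_step _).1

lemma ph_sum {M : ℕ} {s : ℝ} (h0 : 0 ≤ s) (h1 : s ≤ 1) :
    ∑ k : Fin (M + 1), ph M k s * ph M k s = 1 := by
  have M0 : (0 : ℝ) ≤ M := by positivity
  rw [Fin.sum_univ_eq_sum_range (fun k => ph M k s * ph M k s),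
    Finset.sum_congr rfl (g := fun k : ℕ => cl (M * s - k + 1) - cl (M * s - (k + 1 : ℕ) + 1))
      fun k _ => by rw [ph_sq]; congr 2; push_cast; ring,
    Finset.sum_range_sub' fun k : ℕ => cl (M * s - k + 1), cl_of_one_le (by simp; positivity),
    cl_of_nonpos (by push_cast; nlinarith), sub_zero]

lemma ph_lev {M : ℕ} (hM : 0 < M) (k : ℕ) (s : ℝ) :
    ((k / M - s) * ph M k s) * ((k / M - s) * ph M k s) ≤ (1 / M) ^ 2 * (ph M k s * ph M k s) := by
  have M0 : (0 : ℝ) < M := by exact_mod_cast hM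
  have h := (cl_step (M * s - k)).2
  rw [← ph_sq] at h
  calc _ = (1 / M) ^ 2 * ((M * s - k) * (M * s - k) * (ph M k s * ph M k s)) := by field_simp; ring
    _ ≤ _ := by gcongr

noncomputable def WN {M : ℕ} (t n La W : B) (V : Fin (M + 1) → B) : B :=
  W * (1 - tA 7 t) * sq (1 - n) + (∑ k, V k * cfc (ph M k) La) * sq n

lemma cut_V {m : ℕ} (hm : m < 16) {t V : B} (t0 : 0 ≤ t) (h : t * V = V) : (1 - tA m t) * V = 0 := by
  rw [sub_mul, one_mul, tA_mul hm t0 h, sub_self]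

lemma cut_sum {ι : Type*} [Fintype ι] {m : ℕ} (hm : m < 16) {t : B} {V : ι → B} (t0 : 0 ≤ t)
    (h : ∀ k, t * V k = V k) (c : ι → B) : (1 - tA m t) * ∑ k, V k * c k = 0 := by
  rw [Finset.mul_sum]
  exact Finset.sum_eq_zero fun k _ => by rw [← mul_assoc, cut_V hm t0 (h k), zero_mul]

lemma cross {ι : Type*} [Fintype ι] {t W : B} {V : ι → B} (t0 : 0 ≤ t) (hW : Commute t W)
    (h : ∀ k, t * V k = V k) (c : ι → B) : star (W * (1 - tA 7 t)) * ∑ k, V k * c k = 0 := by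
  rw [← (tA_comm' 7 hW).eq, star_mul, star_sub, star_one, tA_star, mul_assoc,
    cut_sum (by norm_num) t0 h, mul_zero]

lemma WN_orth {M : ℕ} {t n n' La La' W W' : B} {V V' : Fin (M + 1) → B} (t0 : 0 ≤ t)
    (hW : Commute t W) (hW' : Commute t W') (h : ∀ k, t * V k = V k) (h' : ∀ k, t * V' k = V' k)
    (h1 : star W * W' = 0) (h2 : ∀ k k', star (V k) * V' k' = 0) :
    star (WN t n La W V) * WN t n' La' W' V' = 0 := by
  have e : ∀ {x y : B} (s s' : B), star x * y = 0 → star (x * s) * (y * s') = 0 :=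
    fun {x y} s s' h => by rw [star_mul, mul_assoc, ← mul_assoc (star x), h, zero_mul, mul_zero]
  have e1 := congrArg star (cross t0 hW' h fun k => cfc (ph M k) La)
  rw [star_mul, star_star, star_zero] at e1
  rw [WN, WN, star_add, add_mul, mul_add, mul_add, e _ _ (e _ _ h1), e _ _ (cross t0 hW h' _),
    e _ _ e1, e]
  · simp
  · rw [star_sum, Finset.sum_mul_sum]
    exact Finset.sum_eq_zero fun k _ => Finset.sum_eq_zero fun k' _ => e _ _ (h2 k k')

lemma sq_sum {n : B} (n0 : 0 ≤ n) (n1 : n ≤ 1) :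
    star (sq (1 - n)) * sq (1 - n) + star (sq n) * sq n = 1 := by
  rw [sq_star, sq_star, sq_mul_sq n0, sq_mul_sq (sub_nonneg.2 n1), sub_add_cancel]

lemma cfc_ph_sum (M : ℕ) {La : B} (L0 : 0 ≤ La) (L1 : La ≤ 1) :
    ∑ k : Fin (M + 1), star (cfc (ph M k) La) * cfc (ph M k) La = 1 := by
  simp only [IsSelfAdjoint.cfc.star_eq, cfc_mul' (ph_cont _ _) (ph_cont _ _)]
  rw [← cfc_sum_univ _ _ fun k => by fun_prop, ← cfc_const_one ℝ La]
  exact cfc_congr fun s hs => by simpa using ph_sum (spec_mem L0 L1 hs).1 (spec_mem L0 L1 hs).2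

lemma WN_norm {M : ℕ} {t n La W : B} {V : Fin (M + 1) → B} (t0 : 0 ≤ t) (hW : Commute t W)
    (h : ∀ k, t * V k = V k) (W1 : ‖W‖ ≤ 1) (V1 : ∀ k, ‖V k‖ ≤ 1)
    (hV : ∀ k k', k ≠ k' → star (V k) * V k' = 0) (n0 : 0 ≤ n) (n1 : n ≤ 1) (L0 : 0 ≤ La)
    (L1 : La ≤ 1) : ‖WN t n La W V‖ ≤ 1 :=
  norm_add_orth (cross t0 hW h _) ((norm_mul_le _ _).trans
    (mul_le_one₀ W1 (norm_nonneg _) (norm_one_sub (tA_mem 7 t).1 (tA_mem 7 t).2)))
    (norm_sum_orth hV V1 zero_le_one (by simp [cfc_ph_sum M L0 L1])) (sq_sum n0 n1)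

lemma WN_comm {M : ℕ} {t n La W x : B} {V : Fin (M + 1) → B} (ht : Commute t x) (hn : Commute n x)
    (hL : Commute La x) (hW : Commute W x) (hV : ∀ k, Commute (V k) x) :
    Commute (WN t n La W V) x :=
  ((hW.mul_left (tA_comm' 7 ht)).mul_left (((Commute.one_left _).sub_left hn).cfc_real _)).add_left
    ((Commute.sum_left _ _ _ fun k _ => (hV k).mul_left (hL.cfc_real _)).mul_left (hn.cfc_real _))

lemma WN_kill {M : ℕ} {t g w k p P n n' La W : B} {V : Fin (M + 1) → B} (hR : Rm t k p P)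
    (tg : Commute t g) (tw : Commute t w) (n1 : n ≤ 1) (nn : n' * n = n') (c1 : Commute n' t)
    (c2 : Commute n' w) (c3 : Commute n' k) (c4 : Commute n' p) (c5 : Commute n' P)
    (c6 : Commute n' W) (hW : (g - w) * W = 0) (h : ∀ k, t * V k = V k) (h' : ∀ k, n' * V k = 0) :
    ((1 - tA 3 t) * g + GN t k p P - (1 - n') * ((1 - tA 3 t) * w + GN t k p P)) *
      WN t n La W V = 0 := by
  have e1 : (1 - tA 3 t) * g + GN t k p P - (1 - n') * ((1 - tA 3 t) * w + GN t k p P) =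
      (1 - tA 3 t) * (g - w) + ((1 - tA 3 t) * w + GN t k p P) * n' := by
    rw [← (((tA_comm' 3 c1.symm).symm.mul_right c2).add_right (hR.comm' c1 c3 c4 c5)).eq]
    noncomm_ring
  have e2 : n' * sq (1 - n) = 0 := mul_cfc_eq_zero (sub_nonneg.2 n1).isSelfAdjoint
    (by rw [mul_sub, mul_one, nn, sub_self]) Real.continuous_sqrt Real.sqrt_zero
  have e3 : n' * WN t n La W V = 0 := by
    rw [WN, mul_add, ← mul_assoc n', (c6.mul_right (tA_comm' 7 c1.symm).symm).eq, mul_assoc, e2,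
      ← mul_assoc n', Finset.mul_sum, Finset.sum_eq_zero fun k _ => by rw [← mul_assoc, h', zero_mul]]
    simp
  rw [e1, add_mul, mul_assoc _ n', e3, mul_zero, add_zero, WN, mul_add, mul_assoc W,
    mul_assoc (1 - tA 3 t), ← mul_assoc (g - w), hW, (tA_comm' 3 (tg.sub_right tw)).eq,
    mul_assoc (g - w), ← mul_assoc (1 - tA 3 t) (∑ k, _), cut_sum (by norm_num) hR.t0 h]
  simp

lemma WN_main {M : ℕ} (hM : 0 < M) {t g z a b k p P u u' sr al W : B} {n : Fin 4 → B}
    {V : Fin (M + 1) → B} {μ : ℝ} (hR : Rm t k p P) (z0 : 0 ≤ z) (a0 : 0 ≤ a) (b0 : 0 ≤ b)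
    (n0 : ∀ m, 0 ≤ n m) (n1 : ∀ m, n m ≤ 1) (nn : ∀ m m', m < m' → n m * n m' = n m')
    (c0 : Commute t g ∧ Commute t z ∧ Commute t a ∧ Commute t b)
    (c1 : Commute a z ∧ Commute b z ∧ Commute b a) (c2 : Commute k z ∧ Commute k a ∧ Commute k b)
    (c3 : ∀ m, Commute (n m) t ∧ Commute (n m) z ∧ Commute (n m) a ∧ Commute (n m) b ∧
      Commute (n m) k)
    (c4 : ∀ y ∈ ({sr, al, u'} : Set B), Commute t y ∧ Commute z y ∧ Commute a y ∧ Commute b y ∧
      Commute k y ∧ ∀ m, Commute (n m) y)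
    (tW : Commute t W) (kW : Commute k W) (hu : u * (1 - tA 5 t) = 1 - tA 5 t) (al1 : ‖al‖ ≤ 1)
    (L0 : 0 ≤ aN t a k (n 2) + μ • bN t b (n 2)) (L1 : aN t a k (n 2) + μ • bN t b (n 2) ≤ 1)
    (w1 : star W * W * (z * sr * u) = z * sr * u)
    (w2 : ‖(g * W - W * (a + μ • b)) * al‖ ≤ 1 / M) (V1 : ∀ k, ‖V k‖ ≤ 1)
    (v1 : ∀ k, t * V k = V k) (v2 : ∀ k', (p * V k' - (((k' : ℕ) : ℝ) / M) • V k') * al = 0)
    (v3 : ∀ k', (P * V k' - V k') * al = 0) (v4 : ∀ k k', k ≠ k' → star (V k) * V k' = 0)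
    (v5 : ∀ k', star (V k') * V k' * (n 0 * sr * u') = n 0 * sr * u') {W' : B}
    (hW' : W' = WN t (n 1) (aN t a k (n 2) + μ • bN t b (n 2)) W V) :
    star W' * W' * (zN t z (n 2) * sr * u') = zN t z (n 2) * sr * u' ∧
      ‖(((1 - tA 3 t) * g + GN t k p P) * W' - W' * (aN t a k (n 2) + μ • bN t b (n 2))) * al‖ ≤
        1 / M := by
  obtain ⟨t1, t2, t3, t4⟩ := c0
  obtain ⟨d1, d2, d3⟩ := c1
  obtain ⟨k1, k2, k3⟩ := c2
  have t0 := hR.t0
  have kt := hR.kt
  have c5 : ∀ m m', Commute (n m) (n m') := fun m m' => by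
    have q : ∀ m m', m < m' → Commute (n m) (n m') := fun m m' h => (nn m m' h).trans (by
      simpa [(n0 _).star_eq] using congrArg star (nn m m' h).symm)
    rcases lt_trichotomy m m' with h | rfl | h
    exacts [q _ _ h, Commute.refl _, (q _ _ h).symm]
  have gV : ∀ k', ((1 - tA 3 t) * g + GN t k p P) * V k' * al = (((k' : ℕ) : ℝ) / M) • (V k' * al) :=
    fun k' => by
      have q1 := v2 k'
      have q2 := v3 k'
      rw [sub_mul, sub_eq_zero] at q1 q2
      rw [add_mul, (tA_comm' 3 t1).eq, mul_assoc g, cut_V (by norm_num) t0 (v1 k'), mul_zero,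
        zero_add, GN, ((tA_comm 3 kt.symm).sub_left hR.kP.symm).eq, add_mul, add_mul, q1,
        mul_assoc k, mul_assoc k, sub_mul, sub_mul, tA_mul (by norm_num) t0 (v1 k'), q2, sub_self,
        mul_zero, add_zero, smul_mul_assoc]
  have gW : ((1 - tA 3 t) * g + GN t k p P) * (W * (1 - tA 7 t)) =
      ((1 - tA 3 t) * (g * W) + W * (tA 3 t * k)) * (1 - tA 7 t) := by
    rw [Rm.eq, ← add_assoc, add_mul, ← (tA_comm' 7 tW).eq, hR.r0 (by norm_num), add_zero,
      (tA_comm' 7 tW).eq, ← mul_assoc, add_mul, ((tA_comm 3 tW).mul_left kW).eq, mul_assoc _ g]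
  have cr := cross t0 tW v1
  have c3V := cut_sum (m := 3) (by norm_num) t0 v1
  have c3W := (tA_comm' 3 tW).eq
  have s12 := sq_sum (n0 1) (n1 1)
  have φ1 := cfc_ph_sum M L0 L1
  have nc3 := norm_one_sub (tA_mem 3 t).1 (tA_mem 3 t).2
  have nc7 := norm_one_sub (tA_mem 7 t).1 (tA_mem 7 t).2
  have k0 := hR.k0
  rw [WN] at hW'
  generalize (1 - tA 3 t) * g + GN t k p P = g' at gV gW ⊢
  clear hR v2 v3 t1
  obtain ⟨X, _, _, ρ, f, J, hf, hz⟩ := exists_jc (Sum.elim ![t, z, a, b, k] n) (by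
    rintro (i | i)
    · fin_cases i
      exacts [t0.isSelfAdjoint, z0.isSelfAdjoint, a0.isSelfAdjoint, b0.isSelfAdjoint,
        k0.isSelfAdjoint]
    · exact (n0 i).isSelfAdjoint) (by
    have q : ∀ m i, Commute (n m) (![t, z, a, b, k] i) := fun m i => by
      obtain ⟨q1, q2, q3, q4, q5⟩ := c3 m
      fin_cases i <;> assumption
    rintro (i | i) (j | j)
    · revert i j
      simp [Fin.forall_fin_succ, t2, t3, t4, d1, d2, d3, k1, k2, k3, kt, t2.symm, t3.symm, t4.symm,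
        d1.symm, d2.symm, d3.symm, k1.symm, k2.symm, k3.symm, kt.symm]
    exacts [(q j i).symm, q i j, c5 i j])
  obtain rfl : ρ (f (.inl 0)) = t := hf (.inl 0)
  obtain rfl : ρ (f (.inl 1)) = z := hf (.inl 1)
  obtain rfl : ρ (f (.inl 2)) = a := hf (.inl 2)
  obtain rfl : ρ (f (.inl 3)) = b := hf (.inl 3)
  obtain rfl : ρ (f (.inl 4)) = k := hf (.inl 4)
  obtain rfl : (fun m => ρ (f (.inr m))) = n := funext fun m => hf (.inr m)
  have hy : ∀ y ∈ ({sr, al, u'} : Set B), ∀ x, Commute (ρ x) y := fun y hy => hz y (by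
    obtain ⟨q1, q2, q3, q4, q5, q6⟩ := c4 y hy
    rintro (i | i)
    · fin_cases i <;> assumption
    · exact q6 i)
  clear hf hz c3 c4 c5 t2 t3 t4 d1 d2 d3 k1 k2 k3 kt z0 a0 b0 k0 n0 n1
  have h1 := hy sr (by simp)
  have h2 := hy al (by simp)
  have h3 := hy u' (by simp)
  let e : ℕ → C(X, ℝ) := fun m => ⟨fun s => rp (1 / 16) m (f (.inl 0) s), by fun_prop⟩
  have he : ∀ m, tA m (ρ (f (.inl 0))) = ρ (e m) := fun m => J.cfc _ _ _ (rp_cont _ _) fun _ => rfl
  let s1 : C(X, ℝ) := ⟨fun s => √(1 - f (.inr 1) s), by fun_prop⟩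
  let s2 : C(X, ℝ) := ⟨fun s => √(f (.inr 1) s), by fun_prop⟩
  have hs1 : sq (ρ (1 - f (.inr 1))) = ρ s1 := J.cfc _ _ _ Real.continuous_sqrt fun _ => rfl
  have hs2 : sq (ρ (f (.inr 1))) = ρ s2 := J.cfc _ _ _ Real.continuous_sqrt fun _ => rfl
  simp only [aN, bN, zN, he, JC.aSub, ← map_mul, ← map_add, ← map_smul, hs1, hs2] at *
  generalize hL : (1 - f (.inr 2)) * ((1 - e 3) * f (.inl 2) + e 3 * f (.inl 4)) +
    μ • ((1 - f (.inr 2)) * ((1 - e 3) * f (.inl 3)) + f (.inr 2)) = La at *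
  generalize hZ : 1 - (1 - f (.inl 1) * (1 - e 5)) * (1 - f (.inr 2)) = Z at *
  let φ : Fin (M + 1) → C(X, ℝ) := fun k => ⟨fun s => ph M k (La s), by fun_prop⟩
  have hφ : ∀ k : Fin (M + 1), cfc (ph M k) (ρ La) = ρ (φ k) := fun k =>
    J.cfc _ _ _ (ph_cont _ _) fun _ => rfl
  simp only [hφ, J.sa] at hW' φ1 s12
  have r1 : f (.inr 2) * s1 = 0 := ContinuousMap.ext fun s => by
    have q := J.aEq.1 (nn 1 2 (by decide)) s
    change f (.inr 1) s * f (.inr 2) s = f (.inr 2) s at q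
    change f (.inr 2) s * √(1 - f (.inr 1) s) = 0
    rcases mul_eq_zero.1 (show f (.inr 2) s * (1 - f (.inr 1) s) = 0 by linarith) with h | h
    · rw [h, zero_mul]
    · rw [h, Real.sqrt_zero, mul_zero]
  have r2 : f (.inr 0) * s2 = s2 := ContinuousMap.ext fun s => by
    have q := J.aEq.1 (nn 0 1 (by decide)) s
    change f (.inr 0) s * f (.inr 1) s = f (.inr 1) s at q
    change f (.inr 0) s * √(f (.inr 1) s) = √(f (.inr 1) s)
    rcases mul_eq_zero.1 (show (f (.inr 0) s - 1) * f (.inr 1) s = 0 by linarith) with h | h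
    · rw [sub_eq_zero.1 h, one_mul]
    · rw [h, Real.sqrt_zero, mul_zero]
  have r3 : e 5 * e 7 = e 7 := ContinuousMap.ext fun s => lv_rp_mul (by norm_num)
  constructor
  · have q0 : star W' * W' = ρ s1 * (star (W * ρ (1 - e 7)) * (W * ρ (1 - e 7))) * ρ s1 +
        ρ s2 * (∑ k, star (V k * ρ (φ k)) * (V k * ρ (φ k))) * ρ s2 := by
      have q1 := cr fun k => ρ (φ k)
      have q2 := congrArg star q1
      rw [star_mul, star_star, star_zero] at q2
      rw [← star_sum_orth _ v4, hW']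
      generalize W * ρ (1 - e 7) = Y at q1 q2
      generalize ∑ k, V k * ρ (φ k) = Y' at q1 q2
      have q3 : ∀ x, star Y * (Y' * x) = 0 := fun x => by rw [← mul_assoc, q1, zero_mul]
      have q4 : ∀ x, star Y' * (Y * x) = 0 := fun x => by rw [← mul_assoc, q2, zero_mul]
      simp only [star_add, star_mul, J.sa, add_mul, mul_add, mul_assoc, q3, q4, mul_zero, add_zero,
        zero_add]
    have q5 : ∀ x, ρ (f (.inl 1) * ((1 - e 5) * x)) * sr * u' =
        ρ (f (.inl 1)) * sr * u * (ρ ((1 - e 5) * x) * u') := fun x => by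
      rw [mul_assoc _ u, ← mul_assoc u, map_mul ρ (1 - e 5), ← mul_assoc u, hu, ← map_mul,
        map_mul ρ (f (.inl 1)), mul_assoc _ _ sr, (h1 _).eq]
      simp only [mul_assoc]
    have q6 : s1 * Z = f (.inl 1) * ((1 - e 5) * s1) := by
      rw [← hZ]; linear_combination (1 - f (.inl 1) * (1 - e 5)) * r1
    have q7 : (1 - e 7) * (s1 * Z) = s1 * Z := by
      rw [q6]; linear_combination f (.inl 1) * s1 * r3
    have q8 : ∀ x y, ρ x * (ρ y * sr * u') = ρ (x * y) * sr * u' := fun x y => by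
      simp only [map_mul, mul_assoc]
    have q9 : star (W * ρ (1 - e 7)) * (W * ρ (1 - e 7)) * (ρ (s1 * Z) * sr * u') =
        ρ (s1 * Z) * sr * u' := by
      have q : star W * (W * (ρ (s1 * Z) * sr * u')) = ρ (s1 * Z) * sr * u' := by
        rw [q6, q5, ← mul_assoc, ← mul_assoc, w1]
      rw [star_mul, J.sa, mul_assoc, mul_assoc, mul_assoc W, q8, q7, q, q8, q7]
    have q10 : ∀ k, star (V k * ρ (φ k)) * (V k * ρ (φ k)) * (ρ (s2 * Z) * sr * u') =
        ρ (φ k) * ρ (φ k) * (ρ (s2 * Z) * sr * u') := fun k => by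
      have q : ρ (φ k * (s2 * Z)) * sr * u' = ρ (f (.inr 0)) * sr * u' * ρ (φ k * (s2 * Z)) := by
        rw [mul_assoc (ρ (f (.inr 0))), mul_assoc (ρ (f (.inr 0))), ← ((h1 _).mul_right (h3 _)).eq,
          ← mul_assoc _ sr, q8]
        congr 3
        linear_combination (-(φ k * Z)) * r2
      rw [star_mul, J.sa, mul_assoc, mul_assoc, mul_assoc (V k), mul_assoc (ρ (φ k)), q8, q,
        ← mul_assoc (star _), ← mul_assoc (star _ * _), v5]
    rw [q0, add_mul, mul_assoc _ (ρ s1), mul_assoc _ (ρ s2), q8, q8, mul_assoc (ρ s1),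
      mul_assoc (ρ s2), q9, Finset.sum_mul, Finset.sum_congr rfl fun k _ => q10 k, ← Finset.sum_mul,
      φ1, one_mul, ← q8 s1, ← q8 s2, ← mul_assoc, ← mul_assoc (ρ s2), ← add_mul, s12, one_mul]
  · let ψ : Fin (M + 1) → C(X, ℝ) := fun k => (algebraMap ℝ _ (((k : ℕ) : ℝ) / M) - La) * φ k
    have q1 : (1 - e 7) * (s1 * La) = ((1 - e 3) * (f (.inl 2) + μ • f (.inl 3)) +
        e 3 * f (.inl 4)) * ((1 - e 7) * s1) := by
      rw [← hL]
      simp only [Algebra.smul_def]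
      linear_combination (1 - e 7) * (algebraMap ℝ _ μ * (1 - (1 - e 3) * f (.inl 3)) -
        ((1 - e 3) * f (.inl 2) + e 3 * f (.inl 4))) * r1
    have q2 : (g' * (W * ρ (1 - e 7) * ρ s1) - W * ρ (1 - e 7) * ρ s1 * ρ La) * al =
        ρ (1 - e 3) * ((g * W - W * ρ (f (.inl 2) + μ • f (.inl 3))) * al) * ρ (1 - e 7) * ρ s1 := by
      have q : ρ (1 - e 7) * (ρ s1 * al) = al * (ρ (1 - e 7) * ρ s1) := by
        rw [← mul_assoc, ((h2 _).mul_left (h2 _)).eq]
      have q' : ∀ x, ρ (1 - e 3) * (W * x) = W * (ρ (1 - e 3) * x) := fun x => by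
        rw [← mul_assoc, c3W, mul_assoc]
      rw [← mul_assoc g', gW, mul_assoc W, mul_assoc W, mul_assoc (ρ (1 - e 7)), ← map_mul ρ s1,
        ← map_mul ρ (1 - e 7), q1, map_mul ρ (_ + _), map_add ρ (_ * _), map_mul ρ (1 - e 3),
        map_mul ρ (1 - e 7)]
      simp only [mul_add, add_mul, mul_sub, sub_mul, mul_assoc, q, q']
      abel
    have q3 : (g' * ((∑ k, V k * ρ (φ k)) * ρ s2) - (∑ k, V k * ρ (φ k)) * ρ s2 * ρ La) * al =
        (∑ k, V k * ρ (ψ k)) * al * ρ s2 := by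
      simp only [Finset.sum_mul, Finset.mul_sum, ← Finset.sum_sub_distrib]
      refine Finset.sum_congr rfl fun k _ => ?_
      have q : g' * (V k * ρ (φ k) * ρ s2) * al =
          V k * ρ (algebraMap ℝ _ (((k : ℕ) : ℝ) / M) * φ k) * al * ρ s2 := by
        rw [mul_assoc (V k), ← map_mul, ← mul_assoc, mul_assoc _ _ al, (h2 _).eq, ← mul_assoc, gV,
          map_mul, map_mul, AlgHom.commutes, ← Algebra.smul_def, mul_smul_comm, smul_mul_assoc,
          smul_mul_assoc, smul_mul_assoc, mul_assoc (V k) (ρ _), (h2 _).eq]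
        simp only [mul_assoc]
      rw [sub_mul, q, mul_assoc (V k) (ρ (φ k)), mul_assoc (V k) (ρ (φ k) * _), ← map_mul, ← map_mul,
        mul_assoc _ al, mul_assoc _ al, ← (h2 s2).eq, ← mul_assoc, ← mul_assoc, mul_assoc (V k),
        mul_assoc (V k) (ρ (ψ k)), ← map_mul, ← map_mul, ← sub_mul, ← mul_sub, ← map_sub]
      congr 3
      simp only [ψ]; ring
    have q4 : ‖∑ k, V k * ρ (ψ k)‖ ≤ 1 / M := by
      refine norm_sum_orth v4 V1 (by positivity) ?_
      rw [← φ1, Finset.smul_sum]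
      refine Finset.sum_le_sum fun k _ => ?_
      rw [J.sa, ← map_mul, ← map_mul, ← map_smul, J.aLe]
      exact fun s => ph_lev hM k (La s)
    rw [hW', mul_add g', add_mul, add_sub_add_comm, add_mul, q2, q3]
    refine norm_add_orth ?_ ?_ ?_ (by simpa only [J.sa] using s12)
    · rw [star_mul, star_mul, J.sa, J.sa, mul_assoc, mul_assoc, ← mul_assoc (ρ (1 - e 3)), c3V]
      simp
    · refine (norm_mul_le _ _).trans ((mul_le_of_le_one_right (norm_nonneg _) nc7).trans ?_)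
      exact (norm_mul_le _ _).trans ((mul_le_of_le_one_left (norm_nonneg _) nc3).trans w2)
    · exact (norm_mul_le _ _).trans ((mul_le_of_le_one_right (norm_nonneg _) al1).trans q4)

end Alg

end Pool.Agent.Lib.MP_30b5b4_an
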