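import Pool.Agent.Lib.MP_30b5b4_an.C.Defs
import Pool.Agent.Lib.MP_30b5b4_an.C.Alg2

/-! The algebra of one step. -/

open scoped CStarAlgebra ComplexOrder Topology
open Filter

set_option linter.unusedSectionVars false
set_option linter.style.haveILetI false
set_option linter.unusedVariables false
set_option linter.unusedSimpArgs false
set_option synthInstance.maxSize 1000000

namespace Pool.Agent.Lib.MP_30b5b4_an

universe u v

namespace Alg

variable {B : Type u} [CStarAlgebra B] [PartialOrder B] [StarOrderedRing B]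

lemma nrm_old {t x u : B} {r : ℝ} (hx : Commute t x) (hu : u * (1 - tA 3 t) = 1 - tA 3 t)
    (h : ‖x * u‖ ≤ r) : ‖(1 - tA 3 t) * x‖ ≤ r := by
  rw [(tA_comm' 3 hx).eq, ← hu, ← mul_assoc]
  exact (norm_mul_le _ _).trans ((mul_le_of_le_one_right (norm_nonneg _)
    (norm_one_sub (tA_mem 3 t).1 (tA_mem 3 t).2)).trans h)

lemma nrm_step {t x y u : B} {r : ℝ} (hx : Commute t x) (hu : u * (1 - tA 3 t) = 1 - tA 3 t)
    (h : ‖x * u‖ ≤ r) (h1 : tA 9 t * y = y) (h2 : y * tA 9 t = y) (h3 : ‖y‖ ≤ r) :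
    ‖(1 - tA 3 t) * x + y‖ ≤ r := by
  have e := tA_tA (m := 3) (m' := 9) (by norm_num) t
  refine norm_add_unit (tA_star 9 t) (by rw [← mul_assoc, e, zero_mul]) ?_ h1 h2 (nrm_old hx hu h) h3
  rw [← ((tA_comm 9 (tA_comm' 3 (Commute.refl t)).symm).mul_right (tA_comm 9 hx)).eq, ← mul_assoc,
    e, zero_mul]

lemma nrm_comm {t k p P x s u : B} {r θ : ℝ} (hR : Rm t k p P) (hθ : 2 * θ ≤ r) (hx : Commute t x)
    (ts : Commute t s) (ks : Commute k s) (hu : u * (1 - tA 3 t) = 1 - tA 3 t)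
    (h : ‖(x * s - s * x) * u‖ ≤ r) (h1 : ‖p * s - s * p‖ ≤ θ) (h2 : ‖P * s - s * P‖ ≤ θ) :
    ‖((1 - tA 3 t) * x + GN t k p P) * s - s * ((1 - tA 3 t) * x + GN t k p P)‖ ≤ r := by
  have e : ((1 - tA 3 t) * x + GN t k p P) * s - s * ((1 - tA 3 t) * x + GN t k p P) =
      (1 - tA 3 t) * (x * s - s * x) + ((p - P * k) * s - s * (p - P * k)) := by
    rw [Rm.eq, mul_add, mul_add, ← mul_assoc s (1 - _), ← (tA_comm' 3 ts).eq,
      ← ((tA_comm 3 ts).mul_left ks).eq]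
    noncomm_ring
  rw [e]
  refine nrm_step ((hx.mul_right ts).sub_right (ts.mul_right hx)) hu h ?_ ?_ ?_
  · rw [mul_sub, ← mul_assoc, ← mul_assoc, (tA_comm 9 ts).eq, mul_assoc s, hR.l (by norm_num)]
  · rw [sub_mul, mul_assoc, mul_assoc, ← (tA_comm 9 ts).eq, ← mul_assoc, hR.r (by norm_num)]
  · have e1 : (p - P * k) * s - s * (p - P * k) = p * s - s * p - (P * s - s * P) * k := by
      rw [sub_mul, mul_assoc P, ks.eq]; noncomm_ring
    have e2 := (norm_mul_le (P * s - s * P) k).trans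
      (mul_le_of_le_one_right (norm_nonneg _) (norm_le_one_of hR.k0 hR.k1))
    rw [e1]
    linarith [norm_sub_le (p * s - s * p) ((P * s - s * P) * k)]

lemma sml_of {x u : B} {r : ℝ} (u1 : ‖u‖ ≤ 1) (h : ‖x‖ ≤ r) : Sml ((r ^ 2) • 1) (x * u) :=
  (nrm_iff ((norm_nonneg _).trans h)).2
    ((norm_mul_le _ _).trans ((mul_le_of_le_one_right (norm_nonneg _) u1).trans h))

end Alg

open Alg in
theorem step_alg {B : Type u} [CStarAlgebra B] [PartialOrder B] [StarOrderedRing B]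
    {σ κ ι μ : Type} [Fintype ι] {N M : ℕ} (hM : 0 < M) {θ c ρ : ℝ} (hθ : 2 * θ ≤ ρ) (θ0 : 0 ≤ θ)
    (hc : 0 ≤ c) {S : σ → B} {Z : κ → B} {sr al : ι → B} {Q : ι → μ → B}
    (S0 : ∀ l, IsSelfAdjoint (S l)) (hZ : ∀ x ∈ Cn (Set.range Z), (∀ l, Commute x (S l)) ∧
      ∀ l, Commute x (sr l) ∧ Commute x (al l) ∧ ∀ o, Commute x (Q l o))
    (al1 : ∀ l, ‖al l‖ ≤ 1) {r u : B} (r0 : IsSelfAdjoint r) (hr : (1 - u) * r = 1 - u)
    {g w z a b : Fin N → B} {W : Fin N × Fin M × ι → B} (W1 : ∀ q, ‖W q‖ ≤ 1) {Td : Fin N → σ → B}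
    (h : StC N M ((ρ ^ 2) • 1) S Z sr al Q u g w z a b W Td) {t u' : B} (u1 : ‖u'‖ ≤ 1)
    {p k : Fin N → B} {n : Fin N → Fin 4 → B} {Er Td' : Fin N → σ → B}
    {V : (Fin N × Fin M × ι) × Fin (M + 1) → B} (V1 : ∀ x, ‖V x‖ ≤ 1)
    (h' : StepR N M θ c S Z sr al Q r g w z a b W Td t u' p k n Er Td' V) :
    ∃ (g' w' z' a' b' : Fin N → B) (W' : Fin N × Fin M × ι → B), (∀ q, ‖W' q‖ ≤ 1) ∧
      StC N M (((ρ + c) ^ 2) • 1) S Z sr al Q u' g' w' z' a' b' W' Td' := by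
  obtain ⟨hA, hS, hW⟩ := h
  obtain ⟨⟨t0, t1, tr, tC, ut, tW, P1, kS, PS⟩, hB, hV⟩ := h'
  have hcf : ∀ m, cf (rp (1 / 16) m) t = tA m t := fun m => cf_eq _ t0.isSelfAdjoint
  simp only [hcf] at kS hB
  have ρ0 : 0 ≤ ρ := by linarith
  have hu : ∀ m < 16, u * (1 - tA m t) = 1 - tA m t := fun m hm => by
    have q1 : r * t = r := by simpa [r0.star_eq, t0.star_eq] using congrArg star tr
    have q2 := mul_tA hm t0 (y := 1 - u) (by rw [← hr, mul_assoc, q1])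
    rw [sub_mul, one_mul] at q2
    rw [mul_sub, mul_one]
    linear_combination (norm := abel1) q2
  have tP : t * ∑ i, p i = ∑ i, p i := by
    rw [Finset.mul_sum]; exact Finset.sum_congr rfl fun i _ => (hB i).2.1.2
  have hR : ∀ i, Rm t (k i) (p i) (∑ i, p i) := fun i => by
    obtain ⟨-, ⟨p0, tp⟩, hO, -⟩ := hB i
    obtain ⟨k0, k1, -, kt, -, -, -, -, -, -, kp, kP, -⟩ := hO none
    exact ⟨t0, k0, k1, p0, Finset.single_le_sum (fun j _ => (hB j).2.1.1) (Finset.mem_univ i), P1,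
      tp, tP, kt, kp, kP⟩
  have hK : ∀ i, Blk ((1 - tA 3 t) * g i + GN t (k i) (p i) (∑ i, p i))
      ((1 - n i 3) * ((1 - tA 3 t) * w i + GN t (k i) (p i) (∑ i, p i))) (zN t (z i) (n i 2))
      (aN t (a i) (k i) (n i 2)) (bN t (b i) (n i 2)) := fun i => by
    obtain ⟨⟨q1, q2, q3, q4, q5, -⟩, -, hO, nn, -⟩ := hB i
    obtain ⟨-, -, -, -, -, k1, k2, k3, k4, k5, -⟩ := hO none
    refine alg_blk ⟨(hA i).1, (hA i).2.1, (hA i).2.2.1⟩ (hR i) ⟨q1, q2, q3, q4, q5⟩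
      ⟨k1, k2, k3, k4, k5⟩ ?_ (nn 2 3 (by decide))
    rintro x (rfl | rfl)
    · obtain ⟨r1, r2, -, r3, -, r4, r5, r6, r7, r8, r9, r10, r11, -⟩ := hO (some 2)
      exact ⟨⟨r1, r2⟩, r3, r4, r5, r6, r7, r8, r9, r10, r11⟩
    · obtain ⟨r1, r2, -, r3, -, r4, r5, r6, r7, r8, r9, r10, r11, -⟩ := hO (some 3)
      exact ⟨⟨r1, r2⟩, r3, r4, r5, r6, r7, r8, r9, r10, r11⟩
  have cT : ∀ m, tA m t ∈ Cn (Set.range Z) := fun m => cfc_mem_cl (Cn_closed _) _ tC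
  have hC : ∀ i, zN t (z i) (n i 2) ∈ Cn (Set.range Z) ∧
      aN t (a i) (k i) (n i 2) ∈ Cn (Set.range Z) ∧ bN t (b i) (n i 2) ∈ Cn (Set.range Z) :=
    fun i => by
      obtain ⟨q1, q2, q3⟩ := (hA i).2.2.2.1
      have q4 : k i ∈ _ := ((hB i).2.2.1 none).2.2.1
      have q5 : n i 2 ∈ _ := ((hB i).2.2.1 (some 2)).2.2.1
      have q6 := sub_mem (one_mem _) q5
      have q7 := fun m => sub_mem (one_mem _) (cT m)
      exact ⟨sub_mem (one_mem _) (mul_mem (sub_mem (one_mem _) (mul_mem q1 (q7 5))) q6),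
        mul_mem q6 (add_mem (mul_mem (q7 3) q2) (mul_mem (cT 3) q4)),
        add_mem (mul_mem q6 (mul_mem (q7 3) q3)) q5⟩
  let La : Fin N × Fin M × ι → B := fun q => aN t (a q.1) (k q.1) (n q.1 2) +
    ((((q.2.1 : ℕ) : ℝ) + 1) / M) • bN t (b q.1) (n q.1 2)
  have hL : ∀ q, 0 ≤ La q ∧ La q ≤ 1 := fun q => by
    obtain ⟨⟨-, -, -, q1, q2, q3, -⟩, -⟩ := hK q.1
    have M0 : (0 : ℝ) < M := by exact_mod_cast hM
    have μ1 : (((q.2.1 : ℕ) : ℝ) + 1) / M ≤ 1 := (div_le_one M0).2 (by exact_mod_cast q.2.1.2)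
    refine ⟨add_nonneg q1 (smul_nonneg (by positivity) q2), le_trans (add_le_add le_rfl ?_) q3⟩
    simpa using smul_le_smul_of_nonneg_right μ1 q2
  refine ⟨fun i => (1 - tA 3 t) * g i + GN t (k i) (p i) (∑ i, p i),
    fun i => (1 - n i 3) * ((1 - tA 3 t) * w i + GN t (k i) (p i) (∑ i, p i)),
    fun i => zN t (z i) (n i 2), fun i => aN t (a i) (k i) (n i 2), fun i => bN t (b i) (n i 2),
    fun q => WN t (n q.1 1) (La q) (W q) fun k' => V (q, k'), fun q => ?_,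
    fun i => ⟨(hK i).1, (hK i).2.1, (hK i).2.2, hC i, fun l => ?_⟩, ?_, fun q => ?_⟩
  · exact WN_norm t0 (tW q) (fun k' => (hV (q, k')).1) (W1 q) (fun k' => V1 _)
      (fun k' k'' hk => (hV (q, k')).2.2.2.2.1 _ (by simpa using hk)) ((hB q.1).2.2.1 (some 1)).1
      ((hB q.1).2.2.1 (some 1)).2.1 (hL q).1 (hL q).2
  · obtain ⟨⟨q1, q2, -⟩, -, hO, -, hE⟩ := hB i
    obtain ⟨e1, e2, e3, e4, e5, e6⟩ := hE l
    obtain ⟨s1, s2, s3⟩ := (hA i).2.2.2.2 l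
    rw [Sml, nrm_iff ρ0] at s1 s2 s3
    have ts := (hZ t tC).1 l
    have ks : Commute (k i) (S l) := (hZ _ (hO none).2.2.1).1 l
    have ns : Commute (1 - n i 3) (S l) :=
      (Commute.one_left _).sub_left ((hZ _ (hO (some 3)).2.2.1).1 l)
    have n3 : ∀ x, ‖(1 - n i 3) * x‖ ≤ ‖x‖ := fun x => (norm_mul_le _ _).trans
      (mul_le_of_le_one_left (norm_nonneg _) (norm_one_sub (hO (some 3)).1 (hO (some 3)).2.1))
    refine ⟨sml_of u1 ((nrm_comm (hR i) hθ q1 ts ks (hu 3 (by norm_num)) s1 e2 (PS l)).trans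
      (by linarith)), sml_of u1 ?_, sml_of u1 ?_⟩
    · rw [← mul_assoc (S l), ← ns.eq, mul_assoc, mul_assoc, ← mul_sub]
      exact (n3 _).trans ((nrm_comm (hR i) hθ q2 ts ks (hu 3 (by norm_num)) s2 e2 (PS l)).trans
        (by linarith))
    · have e7 := (n3 _).trans (nrm_step (e1.sub_right (q2.mul_right ts)) (hu 3 (by norm_num)) s3 e4 e5
        (e3.trans hθ))
      refine le_trans (le_of_eq ?_) ((norm_add_le _ _).trans (add_le_add e7 e6))
      congr 1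
      simp only [GN]
      noncomm_ring
  · rw [Sml, nrm_iff ρ0] at hS
    have e1 := nrm_old ((Commute.sum_right _ _ _ fun i _ => (hB i).1.1).sub_right
      (Commute.one_right _)) (hu 3 (by norm_num)) hS
    have e2 : Commute (tA 3 t) (∑ i, k i - 1) := tA_comm 3
      ((Commute.sum_right _ _ _ fun i _ => (hR i).kt.symm).sub_right (Commute.one_right _))
    have e3 := (norm_mul_le (1 - ∑ i, p i) _).trans ((mul_le_of_le_one_left (norm_nonneg _)
      (norm_one_sub (Finset.sum_nonneg fun i _ => (hB i).2.1.1) P1)).trans kS)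
    refine sml_of u1 (le_trans (le_of_eq ?_) ((norm_add_le _ _).trans (add_le_add e1 e3)))
    have e4 : (∑ i, p i) * tA 3 t = ∑ i, p i := mul_tA (by norm_num) t0 (by
      simpa [(Finset.sum_nonneg fun i _ => (hB i).2.1.1 : 0 ≤ ∑ i, p i).star_eq, t0.star_eq]
        using congrArg star tP)
    congr 1
    rw [← e2.eq, ← mul_assoc, sub_mul 1 (∑ i, p i), one_mul, e4]
    simp only [GN, Finset.sum_add_distrib, ← Finset.mul_sum]
    noncomm_ring
  · obtain ⟨⟨q1, q2, q3, q4, q5, q6, q7, q8⟩, -, hO, nn, -⟩ := hB q.1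
    obtain ⟨w1, w2, w3, w4, w5⟩ := hW q
    obtain ⟨⟨-, -, -, a0, b0, -, z0, -⟩, ⟨-, -, -, -, -, d1, -, -, d2, d3⟩, -, ⟨m1, m2, m3⟩, -⟩ :=
      hA q.1
    obtain ⟨-, -, kC, -, ku, -, -, k1, k2, k3, -, -, -, kW⟩ := hO none
    have key := WN_main hM (u := u) (u' := u') (sr := sr q.2.2) (al := al q.2.2) (W := W q)
      (V := fun k' => V (q, k')) (hR q.1) z0 a0 b0 (fun m => (hO (some m)).1)
      (fun m => (hO (some m)).2.1) nn ⟨q1, q3, q4, q5⟩ ⟨d1, d2, d3⟩ ⟨k1, k2, k3⟩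
      (fun m => by
        obtain ⟨-, -, -, r1, -, -, -, r2, r3, r4, -, -, r5, -⟩ := hO (some m)
        exact ⟨r1, r2, r3, r4, r5⟩)
      (by
        rintro y (rfl | rfl | rfl)
        · exact ⟨((hZ _ tC).2 _).1, ((hZ _ m1).2 _).1, ((hZ _ m2).2 _).1, ((hZ _ m3).2 _).1,
            ((hZ _ kC).2 _).1, fun m => ((hZ _ (hO (some m)).2.2.1).2 _).1⟩
        · exact ⟨((hZ _ tC).2 _).2.1, ((hZ _ m1).2 _).2.1, ((hZ _ m2).2 _).2.1, ((hZ _ m3).2 _).2.1,
            ((hZ _ kC).2 _).2.1, fun m => ((hZ _ (hO (some m)).2.2.1).2 _).2.1⟩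
        · exact ⟨ut.symm, q6.symm, q7.symm, q8.symm, ku, fun m => (hO (some m)).2.2.2.2.1⟩)
      (tW q) (kW q) (hu 5 (by norm_num)) (al1 _) (hL q).1 (hL q).2 w3 w5 (fun k' => V1 _)
      (fun k' => (hV (q, k')).1) (fun k' => (hV (q, k')).2.2.1) (fun k' => (hV (q, k')).2.2.2.1)
      (fun k' k'' hk => (hV (q, k')).2.2.2.2.1 _ (by simpa using hk))
      (fun k' => (hV (q, k')).2.2.2.2.2.2) rfl
    refine ⟨?_, fun q' hq => WN_orth t0 (tW q) (tW q') (fun k' => (hV (q, k')).1)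
      (fun k' => (hV (q', k')).1) (w2 q' hq) fun k' k'' => (hV (q, k')).2.2.2.2.1 _ (by simp [hq]),
      key.1, fun o => ?_, key.2⟩
    · obtain ⟨-, -, -, r1, -, -, r2, -, -, -, r3, r4, r5, r6⟩ := hO (some 3)
      exact WN_kill (hR q.1) q1 q2 (hO (some 1)).2.1 (by
        simpa [(hO (some 1)).1.star_eq, (hO (some 3)).1.star_eq, show star (n q.1 1) = n q.1 1 from
          (hO (some 1)).1.star_eq, show star (n q.1 3) = n q.1 3 from (hO (some 3)).1.star_eq]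
          using congrArg star (nn 1 3 (by decide))) r1 r2 r5 r3 r4 (r6 q) w1
        (fun k' => (hV (q, k')).1) fun k' => (hV (q, k')).2.1
    · exact WN_comm (((hZ _ tC).2 _).2.2 o) (((hZ _ (hO (some 1)).2.2.1).2 _).2.2 o)
        ((((hZ _ (hC q.1).2.1).2 _).2.2 o).add_left ((((hZ _ (hC q.1).2.2).2 _).2.2 o).smul_left _))
        (w4 o) fun k' => (hV (q, k')).2.2.2.2.2.1 o

end Pool.Agent.Lib.MP_30b5b4_an
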