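import Pool.Agent.Lib.MP_30b5b4_an.C.Lev

/-! The algebra of one step: tools and the new weights. -/

open scoped CStarAlgebra ComplexOrder Topology
open Filter

set_option linter.unusedSectionVars false
set_option linter.style.haveILetI false
set_option linter.unusedVariables false
set_option linter.unusedSimpArgs false
set_option synthInstance.maxSize 1000000

namespace Pool.Agent.Lib.MP_30b5b4_an

universe u v

variable {B : Type u} [CStarAlgebra B] [PartialOrder B] [StarOrderedRing B]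

section jc
variable {X : Type*} [TopologicalSpace X] [CompactSpace X] {ρ : C(X, ℝ) →ₐ[ℝ] B} {x y : C(X, ℝ)}

lemma JC.aLe (J : JC ρ) : ρ x ≤ ρ y ↔ ∀ t, x t ≤ y t := by
  rw [← sub_nonneg, ← map_sub, J.pos]; simp

lemma JC.aLe1 (J : JC ρ) : ρ x ≤ 1 ↔ ∀ t, x t ≤ 1 := by
  rw [← map_one ρ, J.aLe]; simp

lemma JC.aEq (J : JC ρ) : ρ x = ρ y ↔ ∀ t, x t = y t :=
  ⟨fun h t => le_antisymm (J.aLe.1 h.le t) (J.aLe.1 h.ge t),
    fun h => congrArg ρ (ContinuousMap.ext h)⟩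

lemma JC.aSub (ρ : C(X, ℝ) →ₐ[ℝ] B) (x : C(X, ℝ)) : 1 - ρ x = ρ (1 - x) := by
  rw [map_sub, map_one]

end jc

namespace Alg

lemma nrm_iff {x : B} {r : ℝ} (hr : 0 ≤ r) : star x * x ≤ (r ^ 2) • 1 ↔ ‖x‖ ≤ r := by
  rw [← Algebra.algebraMap_eq_smul_one]
  refine ⟨norm_le_of_star_mul_le hr, fun h => ?_⟩
  rw [← CStarAlgebra.norm_le_iff_le_algebraMap _ (by positivity) (star_mul_self_nonneg x),
    CStarRing.norm_star_mul_self, pow_two]
  exact mul_self_le_mul_self (norm_nonneg _) h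

lemma norm_add_unit {x y e : B} {r : ℝ} (he : star e = e) (ex : e * x = 0) (xe : x * e = 0)
    (ey : e * y = y) (ye : y * e = y) (hx : ‖x‖ ≤ r) (hy : ‖y‖ ≤ r) : ‖x + y‖ ≤ r := by
  have hr := (norm_nonneg _).trans hx
  have h1 : star x * y = 0 := by rw [← ey, ← mul_assoc, ← he, ← star_mul, ex, star_zero, zero_mul]
  have h2 : star y * x = 0 := by simpa using congrArg star h1
  have h3 : x * star y = 0 := by rw [← ye, star_mul, he, ← mul_assoc, xe, zero_mul]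
  have h4 : ‖star (x + y) * (x + y)‖ ≤ r ^ 2 := by
    rw [star_add, add_mul, mul_add, mul_add, h1, h2, add_zero, zero_add]
    refine add_le_of_orth (star_mul_self_nonneg _) (star_mul_self_nonneg _) ?_ ?_ ?_
    · rw [mul_assoc, ← mul_assoc x, h3, zero_mul, mul_zero]
    all_goals rw [CStarRing.norm_star_mul_self, pow_two]
    · exact mul_self_le_mul_self (norm_nonneg _) hx
    · exact mul_self_le_mul_self (norm_nonneg _) hy
  rw [CStarRing.norm_star_mul_self, ← pow_two] at h4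
  exact (pow_le_pow_iff_left₀ (norm_nonneg _) hr two_ne_zero).1 h4

lemma star_conj_le {y s : B} {r : ℝ} (hy : ‖y‖ ≤ r) :
    star (y * s) * (y * s) ≤ (r ^ 2) • (star s * s) := by
  have h := star_left_conjugate_le_conjugate ((nrm_iff ((norm_nonneg _).trans hy)).2 hy) s
  rwa [mul_smul_comm, mul_one, smul_mul_assoc, mul_assoc, mul_assoc, ← mul_assoc (star s),
    ← star_mul] at h

lemma star_sum_orth {ι : Type*} [Fintype ι] {V : ι → B} (s : ι → B)
    (hV : ∀ i j, i ≠ j → star (V i) * V j = 0) :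
    star (∑ i, V i * s i) * ∑ i, V i * s i = ∑ i, star (V i * s i) * (V i * s i) := by
  rw [star_sum, Finset.sum_mul_sum]
  refine Finset.sum_congr rfl fun i _ => Finset.sum_eq_single i (fun j _ hj => ?_) (by simp)
  rw [star_mul, mul_assoc, ← mul_assoc (star (V i)), hV i j hj.symm, zero_mul, mul_zero]

lemma norm_sum_orth {ι : Type*} [Fintype ι] {V s : ι → B}
    (hV : ∀ i j, i ≠ j → star (V i) * V j = 0) (V1 : ∀ i, ‖V i‖ ≤ 1) {r : ℝ} (hr : 0 ≤ r)
    (hs : ∑ i, star (s i) * s i ≤ (r ^ 2) • 1) : ‖∑ i, V i * s i‖ ≤ r := by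
  rw [← nrm_iff hr, star_sum_orth s hV]
  exact (Finset.sum_le_sum fun i _ => by simpa using star_conj_le (s := s i) (V1 i)).trans hs

lemma norm_add_orth {y y' s s' : B} (h : star y * y' = 0) {r : ℝ} (hy : ‖y‖ ≤ r) (hy' : ‖y'‖ ≤ r)
    (hs : star s * s + star s' * s' = 1) : ‖y * s + y' * s'‖ ≤ r := by
  have h1 : star (y * s) * (y' * s') = 0 := by
    rw [star_mul, mul_assoc, ← mul_assoc (star y), h, zero_mul, mul_zero]
  have h2 : star (y' * s') * (y * s) = 0 := by simpa using congrArg star h1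
  rw [← nrm_iff ((norm_nonneg _).trans hy), star_add, add_mul, mul_add, mul_add, h1, h2, add_zero,
    zero_add, ← hs, smul_add]
  exact add_le_add (star_conj_le hy) (star_conj_le hy')

/-- the commutative part of a state -/
def Blk (g w z a b : B) : Prop :=
  (0 ≤ w ∧ w ≤ g ∧ g ≤ 1 ∧ 0 ≤ a ∧ 0 ≤ b ∧ a + b ≤ 1 ∧ 0 ≤ z ∧ z ≤ 1) ∧
    (Commute w g ∧ Commute z g ∧ Commute z w ∧ Commute a g ∧ Commute a w ∧ Commute a z ∧
      Commute b g ∧ Commute b w ∧ Commute b z ∧ Commute b a) ∧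
    (z * (g - w) = g - w ∧ 0 ≤ (g - w) * (w - a) ∧ 0 ≤ (g - w) * (a + b - g))

lemma alg_real {A g w z a b k n n' G : ℝ} (A0 : 0 ≤ A) (w0 : 0 ≤ w) (wg : w ≤ g) (g1 : g + A ≤ 1)
    (a0 : 0 ≤ a) (b0 : 0 ≤ b) (ab : a + b + A ≤ 1) (z0 : 0 ≤ z) (z1 : z ≤ 1) (k0 : 0 ≤ k)
    (k1 : k ≤ 1) (n0 : 0 ≤ n) (n1 : n ≤ 1) (m0 : 0 ≤ n') (m1 : n' ≤ 1) (G0 : 0 ≤ G) (G1 : G ≤ A)
    (nn : n * n' = n') (zD : z * (g - w) = g - w) (o1 : 0 ≤ (g - w) * (w - a))
    (o2 : 0 ≤ (g - w) * (a + b - g)) (DG : (g - w) * G = (g - w) * (A * k)) :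
    (0 ≤ (1 - n') * (w + G) ∧ (1 - n') * (w + G) ≤ g + G ∧ g + G ≤ 1 ∧
      0 ≤ (1 - n) * (a + A * k) ∧ 0 ≤ (1 - n) * b + n ∧
      (1 - n) * (a + A * k) + ((1 - n) * b + n) ≤ 1 ∧ 0 ≤ 1 - (1 - z) * (1 - n) ∧
      1 - (1 - z) * (1 - n) ≤ 1) ∧
    (1 - (1 - z) * (1 - n)) * (g + G - (1 - n') * (w + G)) = g + G - (1 - n') * (w + G) ∧
    0 ≤ (g + G - (1 - n') * (w + G)) * ((1 - n') * (w + G) - (1 - n) * (a + A * k)) ∧
    0 ≤ (g + G - (1 - n') * (w + G)) * ((1 - n) * (a + A * k) + ((1 - n) * b + n) - (g + G)) := by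
  have h1 := sub_nonneg.2 n1
  have h2 := sub_nonneg.2 m1
  have h3 := sub_nonneg.2 wg
  have h4 := sub_nonneg.2 z1
  have h5 : A * k ≤ A := mul_le_of_le_one_right A0 k1
  have h6 : 0 ≤ 1 - (g + G) := by linarith
  have h7 : 0 ≤ 1 - (a + A * k + b) := by linarith
  refine ⟨⟨by positivity, ?_, by linarith, by positivity, by positivity, ?_, ?_, ?_⟩, ?_, ?_, ?_⟩
  · have : 0 ≤ n' * (w + G) := by positivity
    linarith
  · linarith [mul_nonneg h1 h7]
  · nlinarith [mul_nonneg z0 h1]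
  · linarith [mul_nonneg h4 h1]
  · linear_combination (1 - n) * zD + (1 - z) * (w + G) * nn
  · have e : (g + G - (1 - n') * (w + G)) * ((1 - n') * (w + G) - (1 - n) * (a + A * k)) =
        (1 - n') * ((g - w) * (w - a)) + (1 - n') * (g - w) * n * (a + A * k) +
          n' * (w + G) * ((1 - n') * (w + G)) := by
      linear_combination (1 - n') * DG + ((g - w) + (w + G)) * (a + A * k) * nn
    rw [e]; positivity
  · have e : (g + G - (1 - n') * (w + G)) *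
        ((1 - n) * (a + A * k) + ((1 - n) * b + n) - (g + G)) =
        (1 - n) * ((g - w) * (a + b - g)) + (g - w) * n * (1 - (g + G)) +
          n' * (w + G) * (1 - (g + G)) := by
      linear_combination (-(1 - n)) * DG + (w + G) * (1 - (a + A * k + b)) * nn
    rw [e]; positivity

lemma alg_core {A g w z a b k n n' G : B}
    (hc : ∀ i j, Commute (![A, g, w, z, a, b, k, n, n', G] i) (![A, g, w, z, a, b, k, n, n', G] j))
    (A0 : 0 ≤ A) (w0 : 0 ≤ w) (wg : w ≤ g) (g1 : g + A ≤ 1)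
    (a0 : 0 ≤ a) (b0 : 0 ≤ b) (ab : a + b + A ≤ 1) (z0 : 0 ≤ z) (z1 : z ≤ 1) (k0 : 0 ≤ k)
    (k1 : k ≤ 1) (n0 : 0 ≤ n) (n1 : n ≤ 1) (m0 : 0 ≤ n') (m1 : n' ≤ 1) (G0 : 0 ≤ G) (G1 : G ≤ A)
    (nn : n * n' = n') (zD : z * (g - w) = g - w) (o1 : 0 ≤ (g - w) * (w - a))
    (o2 : 0 ≤ (g - w) * (a + b - g)) (DG : (g - w) * G = (g - w) * (A * k)) :
    Blk (g + G) ((1 - n') * (w + G)) (1 - (1 - z) * (1 - n)) ((1 - n) * (a + A * k))
      ((1 - n) * b + n) := by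
  obtain ⟨X, _, _, ρ, f, J, hf, -⟩ := exists_jc _ (by
    simp [Fin.forall_fin_succ, A0.isSelfAdjoint, w0.isSelfAdjoint, (w0.trans wg).isSelfAdjoint,
      a0.isSelfAdjoint, b0.isSelfAdjoint, z0.isSelfAdjoint, k0.isSelfAdjoint, n0.isSelfAdjoint,
      m0.isSelfAdjoint, G0.isSelfAdjoint]) hc
  obtain rfl : ρ (f 0) = A := hf 0
  obtain rfl : ρ (f 1) = g := hf 1
  obtain rfl : ρ (f 2) = w := hf 2
  obtain rfl : ρ (f 3) = z := hf 3
  obtain rfl : ρ (f 4) = a := hf 4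
  obtain rfl : ρ (f 5) = b := hf 5
  obtain rfl : ρ (f 6) = k := hf 6
  obtain rfl : ρ (f 7) = n := hf 7
  obtain rfl : ρ (f 8) = n' := hf 8
  obtain rfl : ρ (f 9) = G := hf 9
  clear hf hc
  have cm : ∀ x y, Commute (ρ x) (ρ y) := fun x y => (Commute.all x y).map ρ
  simp only [Blk, JC.aSub, ← map_mul, ← map_add, ← map_sub, J.pos, J.aLe, J.aLe1, J.aEq,
    cm, true_and, ContinuousMap.mul_apply, ContinuousMap.add_apply, ContinuousMap.sub_apply,
    ContinuousMap.one_apply, ← forall_and] at *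
  exact fun t => alg_real (A0 t) (w0 t) (wg t) (g1 t) (a0 t) (b0 t) (ab t) (z0 t) (z1 t) (k0 t)
    (k1 t) (n0 t) (n1 t) (m0 t) (m1 t) (G0 t) (G1 t) (nn t) (zD t) (o1 t) (o2 t) (DG t)

noncomputable def tA (m : ℕ) (t : B) : B := cfc (rp (1 / 16) m) t

lemma tA_star (m : ℕ) (t : B) : star (tA m t) = tA m t := IsSelfAdjoint.cfc.star_eq

lemma tA_comm (m : ℕ) {t x : B} (h : Commute t x) : Commute (tA m t) x := h.cfc_real _

lemma tA_comm' (m : ℕ) {t x : B} (h : Commute t x) : Commute (1 - tA m t) x :=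
  (Commute.one_left _).sub_left (tA_comm m h)

lemma mul_tA {m : ℕ} (hm : m < 16) {t y : B} (ht : 0 ≤ t) (h : y * t = y) : y * tA m t = y := by
  refine mul_cfc_eq_zero' ht.isSelfAdjoint h (rp_cont _ _) (cl_of_one_le ?_)
  have : (m : ℝ) + 1 ≤ 16 := by exact_mod_cast hm
  linarith

lemma tA_mul {m : ℕ} (hm : m < 16) {t y : B} (ht : 0 ≤ t) (h : t * y = y) : tA m t * y = y := by
  have := congrArg star (mul_tA hm ht (y := star y) (by rw [← ht.star_eq, ← star_mul, h]))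
  rwa [star_mul, star_star, tA_star] at this

lemma tA_tA {m m' : ℕ} (h : m < m') (t : B) : tA m' t * (1 - tA m t) = 0 := by
  rw [mul_sub, mul_one, tA, tA, cfc_mul' (rp_cont _ _) (rp_cont _ _), sub_eq_zero]
  exact cfc_congr fun s _ => by rw [mul_comm, lv_rp_mul h]

lemma tA_mem (m : ℕ) (t : B) : 0 ≤ tA m t ∧ tA m t ≤ 1 :=
  ⟨cfc_nonneg fun _ _ => cl_nonneg _, cfc_le_one _ _ fun _ _ => cl_le_one _⟩

lemma norm_one_sub {x : B} (h0 : 0 ≤ x) (h1 : x ≤ 1) : ‖1 - x‖ ≤ 1 :=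
  norm_le_one_of (sub_nonneg.2 h1) (sub_le_self _ h0)

noncomputable def GN (t k p P : B) : B := p + (tA 3 t - P) * k
noncomputable def zN (t z n : B) : B := 1 - (1 - z * (1 - tA 5 t)) * (1 - n)
noncomputable def aN (t a k n : B) : B := (1 - n) * ((1 - tA 3 t) * a + tA 3 t * k)
noncomputable def bN (t b n : B) : B := (1 - n) * ((1 - tA 3 t) * b) + n

/-- the rooms -/
structure Rm (t k p P : B) : Prop where
  t0 : 0 ≤ t
  k0 : 0 ≤ k
  k1 : k ≤ 1
  p0 : 0 ≤ p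
  pP : p ≤ P
  P1 : P ≤ 1
  tp : t * p = p
  tP : t * P = P
  kt : Commute k t
  kp : Commute k p
  kP : Commute k P

namespace Rm
variable {t k p P : B}

lemma pt (h : Rm t k p P) : p * t = p := by
  simpa [h.p0.star_eq, h.t0.star_eq] using congrArg star h.tp

lemma Pt (h : Rm t k p P) : P * t = P := by
  simpa [(h.p0.trans h.pP).star_eq, h.t0.star_eq] using congrArg star h.tP

lemma eq (t k p P : B) : GN t k p P = tA 3 t * k + (p - P * k) := by rw [GN, sub_mul]; abel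

lemma l (h : Rm t k p P) {m : ℕ} (hm : m < 16) : tA m t * (p - P * k) = p - P * k :=
  tA_mul hm h.t0 (by rw [mul_sub, ← mul_assoc, h.tp, h.tP])

lemma r (h : Rm t k p P) {m : ℕ} (hm : m < 16) : (p - P * k) * tA m t = p - P * k :=
  mul_tA hm h.t0 (by rw [sub_mul, mul_assoc, h.kt.eq, ← mul_assoc, h.pt, h.Pt])

lemma l0 (h : Rm t k p P) {m : ℕ} (hm : m < 16) {x : B} (hx : Commute t x) :
    (1 - tA m t) * x * (p - P * k) = 0 := by
  rw [(tA_comm' m hx).eq, mul_assoc, sub_mul, one_mul, h.l hm, sub_self, mul_zero]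

lemma r0 (h : Rm t k p P) {m : ℕ} (hm : m < 16) (x : B) :
    (p - P * k) * ((1 - tA m t) * x) = 0 := by
  rw [← mul_assoc, mul_sub, mul_one, h.r hm, sub_self, zero_mul]

lemma comm (h : Rm t k p P) {m : ℕ} (hm : m < 16) {x : B} (hx : Commute t x) (hk : Commute k x) :
    Commute ((1 - tA m t) * x) (GN t k p P) := by
  rw [eq]
  exact (((tA_comm' m (tA_comm 3 (Commute.refl t)).symm).mul_left (tA_comm 3 hx).symm).mul_right
    ((tA_comm' m h.kt.symm).mul_left hk.symm)).add_right ((h.l0 hm hx).trans (h.r0 hm x).symm)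

lemma comm' (h : Rm t k p P) {x : B} (ht : Commute x t) (hk : Commute x k) (hp : Commute x p)
    (hP : Commute x P) : Commute x (GN t k p P) :=
  hp.add_right (((tA_comm 3 ht.symm).symm.sub_right hP).mul_right hk)

lemma mem (h : Rm t k p P) : 0 ≤ GN t k p P ∧ GN t k p P ≤ tA 3 t := by
  have h1 : tA 3 t - P = tA 3 t * (1 - P) := by rw [mul_sub, mul_one, tA_mul (by norm_num) h.t0 h.tP]
  have h2 : 0 ≤ tA 3 t - P := h1 ▸ Commute.mul_nonneg (tA_mem 3 t).1 (sub_nonneg.2 h.P1)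
    ((Commute.one_right _).sub_right (tA_comm 3 (h.tP.trans h.Pt.symm)))
  have h3 : Commute (tA 3 t - P) k := (tA_comm 3 h.kt.symm).sub_left h.kP.symm
  refine ⟨add_nonneg h.p0 (Commute.mul_nonneg h2 h.k0 h3), ?_⟩
  have h4 := Commute.mul_nonneg h2 (sub_nonneg.2 h.k1) ((Commute.one_right _).sub_right h3)
  rw [mul_sub, mul_one, sub_nonneg] at h4
  exact (add_le_add h.pP h4).trans_eq (add_sub_cancel _ _)

end Rm

lemma alg_blk {t g w z a b k n n' p P : B} (h : Blk g w z a b) (hR : Rm t k p P)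
    (ht : Commute t g ∧ Commute t w ∧ Commute t z ∧ Commute t a ∧ Commute t b)
    (hk : Commute k g ∧ Commute k w ∧ Commute k z ∧ Commute k a ∧ Commute k b)
    (hn : ∀ x ∈ ({n, n'} : Set B), (0 ≤ x ∧ x ≤ 1) ∧ Commute x t ∧ Commute x g ∧ Commute x w ∧
      Commute x z ∧ Commute x a ∧ Commute x b ∧ Commute x p ∧ Commute x P ∧ Commute x k)
    (nn : n * n' = n') :
    Blk ((1 - tA 3 t) * g + GN t k p P) ((1 - n') * ((1 - tA 3 t) * w + GN t k p P)) (zN t z n)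
      (aN t a k n) (bN t b n) := by
  obtain ⟨⟨w0, wg, g1, a0, b0, ab, z0, z1⟩, ⟨c1, c2, c3, c4, c5, c6, c7, c8, c9, c10⟩, zD, o1,
    o2⟩ := h
  obtain ⟨⟨n0, n1⟩, d1, d2, d3, d4, d5, d6, d7, d8, d9⟩ := hn n (by simp)
  obtain ⟨⟨m0, m1⟩, e1, e2, e3, e4, e5, e6, e7, e8, e9⟩ := hn n' (by simp)
  obtain ⟨t1, t2, t3, t4, t5⟩ := ht
  obtain ⟨k1, k2, k3, k4, k5⟩ := hk
  have c11 : Commute n n' := nn.trans (by simpa [n0.star_eq, m0.star_eq] using congrArg star nn.symm)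
  have cG : ∀ i, Commute (![tA 3 t, (1 - tA 3 t) * g, (1 - tA 3 t) * w, z * (1 - tA 5 t),
      (1 - tA 3 t) * a, (1 - tA 3 t) * b, k, n, n', GN t k p P] i) (GN t k p P) := by
    have q1 := tA_comm 3 (hR.comm' (Commute.refl t) hR.kt.symm (hR.tp.trans hR.pt.symm)
      (hR.tP.trans hR.Pt.symm))
    have q2 := hR.comm (m := 5) (by norm_num) t3 k3
    rw [(tA_comm' 5 t3).eq] at q2
    simp [Fin.forall_fin_succ, q1, q2, hR.comm (m := 3) (by norm_num), t1, t2, t4, t5, k1, k2, k4,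
      k5, hR.comm' (Commute.refl k |> fun _ => hR.kt) (Commute.refl k) hR.kp hR.kP,
      hR.comm' d1 d9 d7 d8, hR.comm' e1 e9 e7 e8]
  have DG : ((1 - tA 3 t) * g - (1 - tA 3 t) * w) * GN t k p P =
      ((1 - tA 3 t) * g - (1 - tA 3 t) * w) * (tA 3 t * k) := by
    rw [Rm.eq, mul_add, ← mul_sub, hR.l0 (by norm_num) (t1.sub_right t2), add_zero]
  have G0 := hR.mem
  have t0 := hR.t0
  have k0 := hR.k0
  have k1' := hR.k1
  have kt := hR.kt
  generalize GN t k p P = G at cG DG G0 ⊢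
  clear hR hn d7 d8 e7 e8
  obtain ⟨X, _, _, ρ, f, J, hf, -⟩ := exists_jc ![t, g, w, z, a, b, k, n, n'] (by
    simp [Fin.forall_fin_succ, t0.isSelfAdjoint, w0.isSelfAdjoint, (w0.trans wg).isSelfAdjoint,
      a0.isSelfAdjoint, b0.isSelfAdjoint, z0.isSelfAdjoint, k0.isSelfAdjoint, n0.isSelfAdjoint,
      m0.isSelfAdjoint]) (by
    simp [Fin.forall_fin_succ, c1, c2, c3, c4, c5, c6, c7, c8, c9, c10, c11, c1.symm, c2.symm,
      c3.symm, c4.symm, c5.symm, c6.symm, c7.symm, c8.symm, c9.symm, c10.symm, c11.symm, d1, d2, d3,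
      d4, d5, d6, d9, d1.symm, d2.symm, d3.symm, d4.symm, d5.symm, d6.symm, d9.symm, e1, e2, e3, e4,
      e5, e6, e9, e1.symm, e2.symm, e3.symm, e4.symm, e5.symm, e6.symm, e9.symm, t1, t2, t3, t4, t5,
      t1.symm, t2.symm, t3.symm, t4.symm, t5.symm, k1, k2, k3, k4, k5, k1.symm, k2.symm, k3.symm,
      k4.symm, k5.symm, kt, kt.symm])
  obtain rfl : ρ (f 0) = t := hf 0
  obtain rfl : ρ (f 1) = g := hf 1
  obtain rfl : ρ (f 2) = w := hf 2
  obtain rfl : ρ (f 3) = z := hf 3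
  obtain rfl : ρ (f 4) = a := hf 4
  obtain rfl : ρ (f 5) = b := hf 5
  obtain rfl : ρ (f 6) = k := hf 6
  obtain rfl : ρ (f 7) = n := hf 7
  obtain rfl : ρ (f 8) = n' := hf 8
  let e : ℕ → C(X, ℝ) := fun m => ⟨fun s => rp (1 / 16) m (f 0 s), by fun_prop⟩
  have he : ∀ m, tA m (ρ (f 0)) = ρ (e m) := fun m => J.cfc _ _ _ (rp_cont _ _) fun _ => rfl
  have p0 : ∀ m s, 0 ≤ e m s := fun m s => cl_nonneg _
  have p1 : ∀ m s, 0 ≤ 1 - e m s := fun m s => sub_nonneg.2 (cl_le_one _)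
  have p2 : ∀ s, e 3 s * e 5 s = e 5 s := fun s => lv_rp_mul (by norm_num)
  have cm : ∀ x y, Commute (ρ x) (ρ y) := fun x y => (Commute.all x y).map ρ
  refine alg_core (fun i j => ?_) (tA_mem 3 _).1 ?_ ?_ ?_ ?_ ?_ ?_ ?_ ?_ k0 k1' n0 n1 m0 m1 G0.1 G0.2
    nn ?_ ?_ ?_ DG
  · have q : ∀ i : Fin 10, i = 9 ∨ ∃ x, ![tA 3 (ρ (f 0)), (1 - tA 3 (ρ (f 0))) * ρ (f 1),
        (1 - tA 3 (ρ (f 0))) * ρ (f 2), ρ (f 3) * (1 - tA 5 (ρ (f 0))),
        (1 - tA 3 (ρ (f 0))) * ρ (f 4), (1 - tA 3 (ρ (f 0))) * ρ (f 5), ρ (f 6), ρ (f 7), ρ (f 8),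
        G] i = ρ x := by
      simp only [he, JC.aSub, ← map_mul]
      intro i
      fin_cases i
      all_goals first | exact Or.inl rfl | exact Or.inr ⟨_, rfl⟩
    rcases q j with rfl | ⟨y, hy⟩
    · exact cG i
    rcases q i with rfl | ⟨x, hx⟩
    · exact (cG j).symm
    rw [hx, hy]; exact cm _ _
  all_goals
    simp only [he, JC.aSub, ← map_mul, ← map_add, ← map_sub, J.pos, J.aLe, J.aLe1, J.aEq,
      ContinuousMap.mul_apply, ContinuousMap.add_apply, ContinuousMap.sub_apply,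
      ContinuousMap.one_apply] at w0 wg g1 a0 b0 ab z0 z1 zD o1 o2 ⊢
    intro s
  · exact mul_nonneg (p1 3 s) (w0 s)
  · exact mul_le_mul_of_nonneg_left (wg s) (p1 3 s)
  · linarith [mul_le_of_le_one_right (p1 3 s) (g1 s)]
  · exact mul_nonneg (p1 3 s) (a0 s)
  · exact mul_nonneg (p1 3 s) (b0 s)
  · linarith [mul_le_of_le_one_right (p1 3 s) (ab s)]
  · exact mul_nonneg (z0 s) (p1 5 s)
  · exact mul_le_one₀ (z1 s) (p1 5 s) (sub_le_self _ (p0 5 s))
  · linear_combination (1 - e 5 s) * (1 - e 3 s) * zD s + (f 1 s - f 2 s) * p2 s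
  · linarith [mul_nonneg (mul_self_nonneg (1 - e 3 s)) (o1 s)]
  · linarith [mul_nonneg (mul_self_nonneg (1 - e 3 s)) (o2 s)]

end Alg

end Pool.Agent.Lib.MP_30b5b4_an
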