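import Pool.Agent.Lib.MP_30b5b4_an.C.SDefs

/-! Comparison with one target for each colour. -/

open scoped CStarAlgebra ComplexOrder Topology
open Filter

set_option linter.unusedSectionVars false
set_option linter.style.haveILetI false
set_option linter.unusedVariables false
set_option linter.unusedSimpArgs false
set_option synthInstance.maxSize 1000000

namespace Pool.Agent.Lib.MP_30b5b4_an

universe u v

variable {A : Type u} [CStarAlgebra A] [PartialOrder A] [StarOrderedRing A] {N : ℕ}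

open Env in
instance Clo.all_pi {Γ : Type v} [Env Γ] (t t' : Γ → UA A) [h : Nt t] [h' : Nt t']
    (d : Γ → ℕ → CA A) [hd : Nt d] : Clo fun g => ∀ y, Commute (t g) (t' g * uφ (d g) y) :=
  ⟨fun f => by
    classical
    obtain ⟨c, c1, c2⟩ := h.exU f
    obtain ⟨b, b1, b2⟩ := h'.exU f
    obtain ⟨e, e1, e2⟩ := hd.exC f
    let R : ∀ m n, (e m n).F → Prop := fun m n y =>
      ‖Bdd.ev n (Bdd.ev m c) * (Bdd.ev n (Bdd.ev m b) * (e m n).φ y) -
        Bdd.ev n (Bdd.ev m b) * (e m n).φ y * Bdd.ev n (Bdd.ev m c)‖ ≤ 1 / ((m : ℝ) + 1) * ‖y‖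
    refine ⟨fun m => {n | ∀ y, R m n y}, fun m hm => ?_, fun μ ν hμ hν => ?_⟩
    · rw [c1, b1, e1] at hm
      have a1 : ∀ n, ∃ y : (e m n).F, ‖y‖ ≤ 1 ∧ (R m n y → ‖y‖ = 1 → ∀ z, R m n z) ∧
          ((∀ z, R m n z) ∨ ‖y‖ = 1) := fun n => by
        by_cases hz : ∀ z, R m n z
        · exact ⟨0, by simp, fun _ _ => hz, Or.inl hz⟩
        · obtain ⟨z, hz⟩ := not_forall.1 hz
          have z0 : ‖z‖ ≠ 0 := fun h0 => hz (by simp [R, norm_eq_zero.1 h0])
          have z1 : ‖((‖z‖⁻¹ : ℝ) : ℂ) • z‖ = 1 := by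
            rw [norm_smul, Complex.norm_real, norm_inv, norm_norm, inv_mul_cancel₀ z0]
          refine ⟨((‖z‖⁻¹ : ℝ) : ℂ) • z, z1.le, fun h1 _ => (hz ?_).elim, Or.inr z1⟩
          simp only [R, z1, map_smul, mul_smul_comm, smul_mul_assoc, ← smul_sub, norm_smul,
            Complex.norm_real, norm_inv, norm_norm, inv_mul_cancel₀ z0] at h1 ⊢
          rwa [inv_mul_le_iff₀ ((norm_nonneg z).lt_of_ne' z0), mul_one, mul_comm ‖z‖] at h1
      choose y y1 y2 y3 using a1
      have a2 := (hm (Ult.mk (Bdd.of y 1 y1))).eq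
      rw [(uφ_spec _).2.2, rowH_apply, rowH_apply, ← map_mul, ← map_mul, ← map_mul, ← sub_eq_zero,
        ← map_sub] at a2
      refine (Ult.eventually_lt (a2 ▸ norm_zero.trans_lt
        (show (0 : ℝ) < 1 / ((m : ℝ) + 1) by positivity))).mono fun n hn => ?_
      refine (y3 n).elim id fun h1 => y2 n ?_ h1
      simp only [R, h1, mul_one]
      simpa using hn.le
    · rw [c2, b2, e2]
      intro y
      obtain ⟨y, rfl⟩ := Ult.surj y
      change _ * _ = _ * _
      rw [(uφ_spec _).2.2, diaH_apply, diaH_apply, ← map_mul, ← map_mul, ← map_mul, ← sub_eq_zero,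
        ← map_sub]
      refine Ult.mk_eq_zero (squeeze_zero' (Eventually.of_forall fun _ => norm_nonneg _)
        (hν.mono fun k hk => ?_) (by simpa using (Clo.inv_mu hμ 0).mul_const ‖y‖))
      refine (hk (Bdd.ev k y)).trans ?_
      rw [one_div]
      exact mul_le_mul_of_nonneg_left (Bdd.norm_ev_le k y) (by positivity)⟩

lemma sub_iff {B : Type u} [CStarAlgebra B] [PartialOrder B] [StarOrderedRing B] {x y : B}
    {a b : ℕ} : Sub ∅ 1 (a • {x}) (b • {y}) ↔ ∃ V : Fin b → Fin a → B, (∀ k i, ‖V k i‖ ≤ 1) ∧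
      (∀ i i', (∑ k, star (V k i) * V k i') * x = if i = i' then x else 0) ∧
      ∀ k i, y * V k i = V k i := by
  constructor
  · intro h
    obtain ⟨V, -, h1, h2, h3⟩ := h.elim (map_univ_fin a x) (map_univ_fin b y)
    simp only [one_mul] at h1 h2
    choose n _ _ n1 n2 using fun i => exists_norm fun k => V k i
    refine ⟨fun k i => V k i * n i, fun k i => n1 i k, fun i i' => ?_,
      fun k i => by rw [← mul_assoc, h3]⟩
    split_ifs with hi
    · exact hi ▸ (n2 i x (h1 i)).2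
    · have : ∑ k, star (V k i * n i) * (V k i' * n i') =
          star (n i) * (∑ k, star (V k i) * V k i') * n i' := by
        simp only [Finset.mul_sum, Finset.sum_mul, star_mul, mul_assoc]
      rw [this, mul_assoc, (n2 i' x (h1 i')).1, mul_assoc, h2 i i' hi, mul_zero]
  · rintro ⟨V, -, h1, h2⟩
    exact ⟨_, _, _, _, fun _ => x, fun _ => y, V, map_univ_fin a x, map_univ_fin b y,
      fun _ _ => mem_Cn_empty _, fun i => by simpa using h1 i i,
      fun i i' hi => by simpa [hi] using h1 i i', h2⟩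

lemma Clo.sub0 (a b : ℕ) : Clo fun g : UA A × UA A => Sub ∅ 1 (a • {g.1}) (b • {g.2}) :=
  Clo.of_iff (Q := fun g => ∃ V : Fin b → Fin a → UA A, (∀ k i, ‖V k i‖ ≤ 1) ∧
    ((∀ i, (∑ k, star (V k i) * V k i) * g.1 = g.1) ∧
      ∀ i i', i ≠ i' → (∑ k, star (V k i) * V k i') * g.1 = 0) ∧
      ∀ k i, g.2 * V k i = V k i) fun g => sub_iff.trans (exists_congr fun V =>
    and_congr_right fun _ => and_congr_left fun _ =>
      ⟨fun h => ⟨fun i => by simpa using h i i, fun i i' hi => by simpa [hi] using h i i'⟩,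
        fun h i i' => by
          split_ifs with hi
          exacts [hi ▸ h.1 i, h.2 i i' hi]⟩)

lemma Clo.sub {Γ : Type v} [Env Γ] (t t' : Γ → UA A) [h : Nt t] [h' : Nt t'] (a b : ℕ) :
    Clo fun g => Sub ∅ 1 (a • {t g}) (b • {t' g}) :=
  Clo.comp (h := Clo.sub0 a b) (h' := Nt.pair t t') _ fun g => (t g, t' g)

theorem Ap.cmp2 (hA : ApA A N) {x : UA A} (x0 : 0 ≤ x) (x1 : x ≤ 1) (y : Fin N → UA A)
    (y0 : ∀ i, 0 ≤ y i) (y1 : ∀ i, y i ≤ 1) {a b : ℕ} (ha : 0 < a) (hb : 2 * b ≤ a)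
    (h : ∀ i, Sub ∅ 1 (a • {x}) (b • {y i})) :
    ∃ v : Fin N → UA A, ∑ i, star (v i) * v i ≤ 1 ∧
      (∀ z, x * z = z → (∑ i, star (v i) * v i) * z = z) ∧ ∀ i z, z * y i = 0 → z * v i = 0 := by
  choose V _ h1 h2 using fun i => sub_iff.1 (h i)
  obtain ⟨c, c1, c2⟩ := hA.ultra1 (fun o : Option (Fin N) ⊕ Fin N × Fin b × Fin a =>
    o.elim (·.elim x y) fun p => V p.1 p.2.1 p.2.2)
  have hx : ∀ i, x ∈ Vs (c i) := fun i => c1 i (.inl none)
  have hy : ∀ i, y i ∈ Vs (c i) := fun i => c1 i (.inl (some i))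
  choose P hP using fun i => exists_alive (c i) (δ := 1 / (16 * ((N : ℝ) + 1))) (by positivity)
  choose p hp using fun i => (hP i).half (hx i) x0 x1 two_pos
  choose r hr using fun i => (hP i).half (hy i) (y0 i) (y1 i) one_pos
  choose w w1 w2 using fun i => ult_cmp (hp i).proj (hr i).proj 1 (((hP i).tr (fun _ => hy i)
    (fun k l => c1 i (.inr (i, k, l))) (h1 i) (fun k l => congrArg (· * x) (h2 i k l)) one_lt_two (fun _ => hp i)
    fun _ => hr i).mono fun n hn T hT => by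
      have a1 := hn T hT
      have a2 := hT.nonneg (hom_proj (Bdd.ev n) (hr i).proj).nonneg
      have a3 : (2 * b : ℝ) ≤ a := by exact_mod_cast hb
      have a4 : (0 : ℝ) < a := by exact_mod_cast ha
      simp only [Finset.sum_const, Finset.card_univ, nsmul_eq_mul, Fintype.card_fin] at a1
      refine le_of_mul_le_mul_left (a1.trans ?_) a4
      push_cast
      nlinarith)
  obtain ⟨g, v, v1, v2, v4, v3⟩ := backsum c c2 P hP hx two_pos one_pos (delta_le N (by norm_num))
    p hp w w1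
  simp only [Fin.sum_univ_one] at v3 v4
  refine ⟨fun i => v i 0, v4, v3, fun i z hz => ?_⟩
  simp only
  rw [v1, ← mul_assoc, (hr _).supp (hP _) (hy _) one_pos one_pos (by rw [← mul_assoc, w2]) hz,
    zero_mul]

/-- with orthogonal targets the pieces add up -/
lemma sum_pieces {B : Type u} [CStarAlgebra B] {ι : Type*} [Fintype ι] (v y : ι → B)
    (y0 : ∀ i, IsSelfAdjoint (y i)) (h1 : ∀ i, y i * v i = v i)
    (h2 : ∀ i i', i ≠ i' → y i * y i' = 0) :
    star (∑ i, v i) * ∑ i, v i = ∑ i, star (v i) * v i := by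
  rw [star_sum, Finset.sum_mul_sum]
  refine Finset.sum_congr rfl fun i _ => Finset.sum_eq_single i (fun i' _ hi => ?_) (by simp)
  rw [← h1 i, ← h1 i', star_mul, (y0 i).star_eq, mul_assoc, ← mul_assoc (y i), h2 _ _ hi.symm,
    zero_mul, mul_zero]

end Pool.Agent.Lib.MP_30b5b4_an
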