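import Pool.Agent.Lib.MP_30b5b4_an.C.SDefs

/-! Ideals of topological dimension zero, general case: internal definitions. -/

open scoped CStarAlgebra ComplexOrder Topology
open Filter

set_option linter.unusedSectionVars false
set_option linter.style.haveILetI false
set_option linter.unusedVariables false
set_option linter.unusedSimpArgs false
set_option synthInstance.maxSize 1000000

namespace Pool.Agent.Lib.MP_30b5b4_an

universe u v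

/-- mesh of the grid of levels `(2 l + 1) * ms R`, `l ≤ R` -/
noncomputable def ms (R : ℕ) : ℝ := 1 / (2 * R + 1)

lemma ms_pos (R : ℕ) : 0 < ms R := by unfold ms; positivity

/-- wall coordinate: zero below `ms R` and on the grid, one at the midpoints -/
noncomputable def wg (R : ℕ) (t : ℝ) : ℝ := ∑ l ∈ Finset.range R, tent ((t / ms R - 1) / 2 - l)

@[fun_prop] lemma wg_cont (R : ℕ) : Continuous (wg R) := by unfold wg; fun_prop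

noncomputable def wb (R m : ℕ) (t : ℝ) : ℝ := rp (1 / 32) m (wg R t)

@[fun_prop] lemma wb_cont (R m : ℕ) : Continuous (wb R m) := by unfold wb; fun_prop

noncomputable def wt (R m : ℕ) (t : ℝ) : ℝ := rp (ms R ^ 3 / 32) m t

@[fun_prop] lemma wt_cont (R m : ℕ) : Continuous (wt R m) := by unfold wt; fun_prop

noncomputable def gq (δ s : ℝ) : ℝ := √(rp δ 1 s * Gf δ s)

lemma gq_cont {δ : ℝ} (hδ : 0 < δ) : Continuous (gq δ) :=
  Real.continuous_sqrt.comp ((rp_cont _ _).mul (Gf_cont hδ))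

instance wg_fact (R : ℕ) : Fact (Continuous (wg R)) := ⟨wg_cont R⟩
instance wb_fact (R m : ℕ) : Fact (Continuous (wb R m)) := ⟨wb_cont R m⟩
instance wt_fact (R m : ℕ) : Fact (Continuous (wt R m)) := ⟨wt_cont R m⟩

section alg
variable {B : Type u} [CStarAlgebra B] [PartialOrder B] [StarOrderedRing B]

def Sml (E x : B) : Prop := star x * x ≤ E

/-- The state: nominal weights `g`, carried weights `w`, unit `z` of the defect, affine levels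
`a + (k + 1) / M * b`, movers `W`, values `Td` of the colours; `u` is the local unit. -/
def StC {σ κ ι μ : Type} (N M : ℕ) (E : B) (S : σ → B) (Z : κ → B) (sr al : ι → B) (Q : ι → μ → B)
    (u : B) (g w z a b : Fin N → B) (W : Fin N × Fin M × ι → B) (Td : Fin N → σ → B) : Prop :=
  (∀ i, (0 ≤ w i ∧ w i ≤ g i ∧ g i ≤ 1 ∧ 0 ≤ a i ∧ 0 ≤ b i ∧ a i + b i ≤ 1 ∧ 0 ≤ z i ∧ z i ≤ 1) ∧
    (Commute (w i) (g i) ∧ Commute (z i) (g i) ∧ Commute (z i) (w i) ∧ Commute (a i) (g i) ∧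
      Commute (a i) (w i) ∧ Commute (a i) (z i) ∧ Commute (b i) (g i) ∧ Commute (b i) (w i) ∧
      Commute (b i) (z i) ∧ Commute (b i) (a i)) ∧
    (z i * (g i - w i) = g i - w i ∧ 0 ≤ (g i - w i) * (w i - a i) ∧
      0 ≤ (g i - w i) * (a i + b i - g i)) ∧
    (z i ∈ Cn (Set.range Z) ∧ a i ∈ Cn (Set.range Z) ∧ b i ∈ Cn (Set.range Z)) ∧
    ∀ l, Sml E ((g i * S l - S l * g i) * u) ∧ Sml E ((w i * S l - S l * w i) * u) ∧
      Sml E ((Td i l - w i * S l) * u)) ∧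
  Sml E ((∑ i, g i - 1) * u) ∧
  ∀ q, (g q.1 - w q.1) * W q = 0 ∧ (∀ q', q ≠ q' → star (W q) * W q' = 0) ∧
    star (W q) * W q * (z q.1 * sr q.2.2 * u) = z q.1 * sr q.2.2 * u ∧
    (∀ o, Commute (W q) (Q q.2.2 o)) ∧
    ‖(g q.1 * W q - W q * (a q.1 + ((((q.2.1 : ℕ) : ℝ) + 1) / M) • b q.1)) * al q.2.2‖ ≤ 1 / M

/-- The new objects of one step: tier `t`, local unit `u'`, weights `p` of the rooms, weights `k`
of the fine colours, walls `n i 0 > n i 1 > n i 2 > n i 3`, errors, new colours, new movers. -/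
def StepR {σ κ ι μ : Type} (N M : ℕ) (θ c : ℝ) (S : σ → B) (Z : κ → B) (sr al : ι → B)
    (Q : ι → μ → B) (r : B) (g w z a b : Fin N → B) (W : Fin N × Fin M × ι → B)
    (Td : Fin N → σ → B) (t u' : B) (p k : Fin N → B) (n : Fin N → Fin 4 → B)
    (Er Td' : Fin N → σ → B) (V : (Fin N × Fin M × ι) × Fin (M + 1) → B) : Prop :=
  (0 ≤ t ∧ t ≤ 1 ∧ t * r = r ∧ t ∈ Cn (Set.range Z) ∧ Commute u' t ∧ (∀ q, Commute t (W q)) ∧
    ∑ i, p i ≤ 1 ∧ ‖(∑ i, k i - 1) * cf (rp (1 / 16) 3) t‖ ≤ c ∧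
    ∀ l, ‖(∑ i, p i) * S l - S l * ∑ i, p i‖ ≤ θ) ∧
  (∀ i, (Commute t (g i) ∧ Commute t (w i) ∧ Commute t (z i) ∧ Commute t (a i) ∧ Commute t (b i) ∧
      Commute u' (z i) ∧ Commute u' (a i) ∧ Commute u' (b i)) ∧
    (0 ≤ p i ∧ t * p i = p i) ∧
    (∀ o : Option (Fin 4), 0 ≤ o.elim (k i) (n i) ∧ o.elim (k i) (n i) ≤ 1 ∧
      o.elim (k i) (n i) ∈ Cn (Set.range Z) ∧ Commute (o.elim (k i) (n i)) t ∧
      Commute (o.elim (k i) (n i)) u' ∧ Commute (o.elim (k i) (n i)) (g i) ∧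
      Commute (o.elim (k i) (n i)) (w i) ∧ Commute (o.elim (k i) (n i)) (z i) ∧
      Commute (o.elim (k i) (n i)) (a i) ∧ Commute (o.elim (k i) (n i)) (b i) ∧
      Commute (o.elim (k i) (n i)) (p i) ∧ Commute (o.elim (k i) (n i)) (∑ i, p i) ∧
      Commute (o.elim (k i) (n i)) (k i) ∧ ∀ q, Commute (o.elim (k i) (n i)) (W q)) ∧
    (∀ m m', m < m' → n i m * n i m' = n i m') ∧
    ∀ l, Commute t (Td i l) ∧ ‖p i * S l - S l * p i‖ ≤ θ ∧ ‖Er i l‖ ≤ 2 * θ ∧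
      cf (rp (1 / 16) 9) t * Er i l = Er i l ∧ Er i l * cf (rp (1 / 16) 9) t = Er i l ∧
      ‖Td' i l - (1 - n i 3) * ((1 - cf (rp (1 / 16) 3) t) * Td i l +
        (p i + (cf (rp (1 / 16) 3) t - ∑ i, p i) * k i) * S l + Er i l)‖ ≤ c) ∧
  ∀ x, t * V x = V x ∧ n x.1.1 3 * V x = 0 ∧
    (p x.1.1 * V x - (((x.2 : ℕ) : ℝ) / M) • V x) * al x.1.2.2 = 0 ∧
    ((∑ i, p i) * V x - V x) * al x.1.2.2 = 0 ∧ (∀ x', x ≠ x' → star (V x) * V x' = 0) ∧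
    (∀ o, Commute (V x) (Q x.1.2.2 o)) ∧
    star (V x) * V x * (n x.1.1 0 * sr x.1.2.2 * u') = n x.1.1 0 * sr x.1.2.2 * u'

end alg

variable {J G : Type*} {A : Type u} [NonUnitalCStarAlgebra J] [PartialOrder J] [StarOrderedRing J]
  [NonUnitalCStarAlgebra G] [PartialOrder G] [StarOrderedRing G]
  [CStarAlgebra A] [PartialOrder A] [StarOrderedRing A]

/-- `w` lies in the ideals of `L` orthogonal elements under `D`. -/
def RichEl (L : ℕ) (D w : A) : Prop :=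
  ∃ y : Fin L → A, (∀ l, 0 ≤ y l ∧ D * y l = y l ∧ Gen w (y l)) ∧ ∀ l l', l ≠ l' → y l * y l' = 0

def Poor (jJ : J →⋆ₙₐ[ℂ] A) (jG : G →⋆ₙₐ[ℂ] A) (L : ℕ) (D : A) : Prop :=
  ∀ w, (∃ c, jJ c = w) → RichEl L D w → ∃ c, jG c = w

def Plenty (jJ : J →⋆ₙₐ[ℂ] A) (jG : G →⋆ₙₐ[ℂ] A) (L : ℕ) (D : A) : Prop :=
  ∀ p : Pt A, Prm p → (∀ c, p.π (jG c) = 0) → (∃ c, p.π (jJ c) ≠ 0) → Rich L (p.π D)

/-- `x` lies in the closed ideal generated by `y` and `G`. -/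
def GenM (jG : G →⋆ₙₐ[ℂ] A) (x y : A) : Prop :=
  ∀ p : Pt A, Prm p → (∀ c, p.π (jG c) = 0) → p.π y = 0 → p.π x = 0

/-- the walls of the colour `K`, cut by `a` -/
noncomputable def wall (R m : ℕ) (K : ℕ → CA A) (a : UA A) : UA A :=
  cf (wb R m) (uφ K 1) * cf (wt R m) (uT K a)

instance Nt.wall' {Γ : Type v} [Env Γ] (R m : ℕ) (d : Γ → ℕ → CA A) [hd : Nt d] (t : Γ → UA A)
    [h : Nt t] : Nt fun g => wall R m (d g) (t g) := by
  unfold wall; infer_instance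

/-- the wall coordinate of the colour `K` -/
noncomputable def zeta (R : ℕ) (K : ℕ → CA A) : UA A := cf (wg R) (uφ K 1) * cf (wt R 1) (uT K 1)

/-- a colour whose order zero part has values in the ultrapower -/
structure PC (A : Type u) [CStarAlgebra A] [PartialOrder A] [StarOrderedRing A] where
  F : Type
  [i1 : CStarAlgebra F]
  [i2 : PartialOrder F]
  [i3 : StarOrderedRing F]
  [i4 : FiniteDimensional ℂ F]
  ψ : A →ₗ[ℂ] F
  φ : F →ₗ[ℂ] UA A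
  cp : IsCP ψ
  le : ∀ a, ‖ψ a‖ ≤ ‖a‖
  oz : OZ φ
  one : φ 1 ≤ 1

attribute [instance] PC.i1 PC.i2 PC.i3 PC.i4

/-- `m` lies in the multiplicity algebra of the colour, above the level `δ` -/
def Adm (δ : ℝ) (c : CA A) (m : UA A) : Prop :=
  0 ≤ m ∧ m ≤ 1 ∧ (∀ y, Commute m (dg (piM c.φ δ y))) ∧
    dg (cfc (rp δ 1) (c.φ 1)) * m = m

/-- the fade in the matrix direction -/
noncomputable def fd (δ : ℝ) (c : CA A) : A := cfc (rp δ 1) (piM c.φ δ (c.ψ 1))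

/-- the value of a room at `s` -/
noncomputable def pv (δ : ℝ) (c : CA A) (s : A) : A :=
  cfc (gq δ) (piM c.φ δ (c.ψ 1)) * piM c.φ δ (c.ψ s) * cfc (gq δ) (piM c.φ δ (c.ψ 1))

/-- the colours `f` see `S` well enough -/
def Tol {σ ι : Type} [Fintype ι] (δ θ : ℝ) (S : σ → A) (f : ι → CA A) : Prop :=
  ∀ m : ι → UA A, (∀ l, Adm δ (f l) (m l)) → ∀ s,
    ‖(∑ l, m l * dg (fd δ (f l))) * dg (S s) - dg (S s) * ∑ l, m l * dg (fd δ (f l))‖ ≤ θ ∧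
    ‖∑ l, m l * dg (pv δ (f l) (S s)) - (∑ l, m l * dg (fd δ (f l))) * dg (S s)‖ ≤ θ ∧
    (∑ l, m l * dg (fd δ (f l)) ≤ 1 → ‖sq (1 - ∑ l, m l * dg (fd δ (f l))) * dg (S s) -
      dg (S s) * sq (1 - ∑ l, m l * dg (fd δ (f l)))‖ ≤ θ)

/-- the elements with which central objects commute -/
noncomputable def zfam {σ ι : Type} (S : σ → UA A) (f : ι → ℕ → CA A)
    (x : Option σ × Option ι × Bool) : UA A :=
  x.2.1.elim (x.1.elim 1 S) fun l => cond x.2.2 (uT (f l) (x.1.elim 1 S)) (uφ (f l) 1)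

instance Nt.zfam' {Γ : Type v} [Env Γ] {σ ι : Type} (S : Γ → σ → UA A) [hS : ∀ l, Nt fun g => S g l]
    (f : Γ → ι → ℕ → CA A) [hf : ∀ l, Nt fun g => f g l] (x : Option σ × Option ι × Bool) :
    Nt fun g => zfam (S g) (f g) x := by
  unfold zfam; infer_instance

instance Clo.sml {Γ : Type v} [Env Γ] (t t' : Γ → UA A) [Nt t] [Nt t'] :
    Clo fun g => Sml (t g) (t' g) := by
  unfold Sml; infer_instance

/-- a state for the family `S` and the ambient colours `f` -/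
def Dat {σ ι : Type} (N M : ℕ) (δ : ℝ) (E : UA A) (S : σ → UA A) (f : ι → ℕ → CA A) (u : UA A) :
    Prop :=
  ∃ g : Fin N → UA A, (∀ i, ‖g i‖ ≤ 1) ∧ ∃ w : Fin N → UA A, (∀ i, ‖w i‖ ≤ 1) ∧
    ∃ z : Fin N → UA A, (∀ i, ‖z i‖ ≤ 1) ∧ ∃ a : Fin N → UA A, (∀ i, ‖a i‖ ≤ 1) ∧
    ∃ b : Fin N → UA A, (∀ i, ‖b i‖ ≤ 1) ∧ ∃ W : Fin N × Fin M × ι → UA A, (∀ q, ‖W q‖ ≤ 1) ∧
    ∃ d : Fin N → ℕ → CA A, StC N M E S (zfam S f) (fun l => cf (rp δ 4) (uφ (f l) 1))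
      (fun l => cf (rp δ 2) (PT (f l) δ 1)) (fun l (o : Option σ) => PT (f l) δ (o.elim 1 S)) u
      g w z a b W fun i l => uT (d i) (S l)

lemma Dat.clo {σ ι : Type} [Finite σ] [Finite ι] (N M : ℕ) {δ : ℝ} (hδ : 0 < δ) :
    Clo fun g : UA A × (σ → UA A) × (ι → ℕ → CA A) => Dat N M δ g.1 g.2.1 g.2.2 1 := by
  haveI : Fact (Continuous (Gf δ)) := ⟨Gf_cont hδ⟩
  unfold Dat StC; infer_instance

/-- a state modulo the ideal `jG` -/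
def Hold {σ ι : Type} (jG : G →⋆ₙₐ[ℂ] A) (N M : ℕ) (δ ρ : ℝ) (S : σ → A) (f : ι → CA A) : Prop :=
  ∃ u : UA A, ‖u‖ ≤ 1 ∧ 1 - u ∈ Iw jG ∧
    Dat N M δ ((ρ ^ 2) • 1) (fun l => dg (S l)) (fun l _ => f l) u

def StepP {σ κ ι μ : Type} (jG : G →⋆ₙₐ[ℂ] A) (N M : ℕ) (θ c : ℝ) (S : σ → UA A) (Z : κ → UA A)
    (sr al : ι → UA A) (Q : ι → μ → UA A) (r : UA A) (g w z a b : Fin N → UA A)
    (W : Fin N × Fin M × ι → UA A) (Td : Fin N → σ → UA A) : Prop :=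
  ∃ t : UA A, ‖t‖ ≤ 1 ∧ ∃ u' : UA A, ‖u'‖ ≤ 1 ∧ ∃ p : Fin N → UA A, (∀ i, ‖p i‖ ≤ 1) ∧
    ∃ k : Fin N → UA A, (∀ i, ‖k i‖ ≤ 1) ∧ ∃ n : Fin N → Fin 4 → UA A, (∀ i m, ‖n i m‖ ≤ 1) ∧
    ∃ Er : Fin N → σ → UA A, (∀ i l, ‖Er i l‖ ≤ 1) ∧
    ∃ V : (Fin N × Fin M × ι) × Fin (M + 1) → UA A, (∀ x, ‖V x‖ ≤ 1) ∧
    ∃ d : Fin N → ℕ → CA A, 1 - u' ∈ Iw jG ∧
      StepR N M θ c S Z sr al Q r g w z a b W Td t u' p k n Er (fun i l => uT (d i) (S l)) V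

lemma StepP.clo {σ κ ι μ : Type} [Finite σ] [Finite κ] [Finite ι] [Finite μ] (jG : G →⋆ₙₐ[ℂ] A)
    (N M : ℕ) (θ c : ℝ) :
    Clo fun x : (((σ → UA A) × (κ → UA A)) × ((ι → UA A) × (ι → UA A)) × (ι → μ → UA A) × UA A) ×
        (Fin 5 → Fin N → UA A) × (Fin N × Fin M × ι → UA A) × (Fin N → σ → UA A) =>
      StepP jG N M θ c x.1.1.1 x.1.1.2 x.1.2.1.1 x.1.2.1.2 x.1.2.2.1 x.1.2.2.2 (x.2.1 0) (x.2.1 1)
        (x.2.1 2) (x.2.1 3) (x.2.1 4) x.2.2.1 x.2.2.2 := by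
  unfold StepP StepR; infer_instance

/-- fine colours with thin walls, and movers from the walls into the rooms `Y` -/
def Fine {τ β P : Type} (jG : G →⋆ₙₐ[ℂ] A) (N N' R : ℕ) (T : τ → UA A) (a : UA A) (X : β → UA A)
    (Y : β × Fin N × P × Fin N' → UA A) : Prop :=
  ∃ u : UA A, ‖u‖ ≤ 1 ∧ ∃ v : β × Fin N × P × Fin N' → UA A, (∀ x, ‖v x‖ ≤ 1) ∧
    ∃ K : Fin N → ℕ → CA A, (∀ i t, T t ∈ VS (K i)) ∧
      ‖(∑ i, uT (K i) 1 - 1) * a‖ ≤ N * (2 * ms R) ∧ 1 - u ∈ Iw jG ∧ u ∈ Cn (Set.range T) ∧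
      (∀ i, Commute u (uφ (K i) 1) ∧ Commute u (uT (K i) 1)) ∧
      (∀ x, cf (rp (1 / 16) 2) (Y x) * v x = v x ∧ wall R 15 (K x.2.1) 1 * v x = 0) ∧
      ∀ b i q, ∑ t, star (v (b, i, q, t)) * v (b, i, q, t) ≤ 1 ∧
        (∑ t, star (v (b, i, q, t)) * v (b, i, q, t)) * (wall R 9 (K i) 1 * cf (wt R 9) (X b) * u) =
          wall R 9 (K i) 1 * cf (wt R 9) (X b) * u

lemma Fine.clo {τ β P : Type} [Finite τ] [Finite β] [Finite P] (jG : G →⋆ₙₐ[ℂ] A) (N N' R : ℕ) :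
    Clo fun x : ((τ → UA A) × UA A) × (β → UA A) × (β × Fin N × P × Fin N' → UA A) =>
      Fine jG N N' R x.1.1 x.1.2 x.2.1 x.2.2 := by
  unfold Fine; infer_instance

end Pool.Agent.Lib.MP_30b5b4_an
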