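import Pool.Agent.Lib.MP_30b5b4_an.C.SB3

/-! Movers from a wall with many copies into a room; copies make a corner rich. -/

open scoped CStarAlgebra ComplexOrder Topology
open Filter

set_option linter.unusedSectionVars false
set_option linter.style.haveILetI false
set_option linter.unusedVariables false
set_option linter.unusedSimpArgs false

namespace Pool.Agent.Lib.MP_30b5b4_an

universe u

lemma mov_alg {B : Type u} [CStarAlgebra B] [PartialOrder B] [StarOrderedRing B] {ζ s y : B}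
    (ζ0 : IsSelfAdjoint ζ) {M : ℕ} (V : Fin (M + 1) → B) (hV : Cop ζ (cfc (rp (1 / 32) 4) ζ) V)
    (c1 : Commute ζ s) (c2 : Commute ζ y) (c3 : ∀ k, Commute (V k) s) (c4 : ∀ k, Commute (V k) y)
    {K : ℕ} (h : Sub ∅ 1 {cfc (rp (1 / 16) 3) s} (K • {cfc (rp (1 / 16) 7) y})) :
    Sub ∅ 1 ((M + 1) • {cfc (rp (1 / 32) 4) ζ * cfc (rp (1 / 16) 5) s})
      ((K * 2) • {(1 - cfc (rp (1 / 32) 7) ζ) * cfc (rp (1 / 16) 3) y}) := by
  have he : ∀ x ∈ Cn (∅ : Set B), Commute x 1 := fun x _ => Commute.one_right x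
  have cc : ∀ {a b : B}, Commute a b → ∀ f g : ℝ → ℝ, Commute (cfc f a) (cfc g b) :=
    fun h f g => ((h.cfc_real f).symm.cfc_real g).symm
  have sa : ∀ (f : ℝ → ℝ) (a : B), star (cfc f a) = cfc f a := fun f a => IsSelfAdjoint.cfc.star_eq
  have h1 : Sub ∅ 1 ((M + 1) • {cfc (rp (1 / 32) 4) ζ * cfc (rp (1 / 16) 5) s})
      {cfc (rp (1 / 16) 3) s} := by
    have k : ∀ l l', star (cfc (rp (1 / 16) 4) s * V l) * (cfc (rp (1 / 16) 4) s * V l') *
        (1 * (cfc (rp (1 / 32) 4) ζ * cfc (rp (1 / 16) 5) s)) =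
        star (V l) * V l' * cfc (rp (1 / 32) 4) ζ * cfc (rp (1 / 16) 5) s := fun l l' => by
      have a1 := ((c3 l').symm.cfc_real (rp (1 / 16) 4)).eq
      have a2 := (cc c1 (rp (1 / 32) 4) (rp (1 / 16) 4)).eq
      have a3 := rp_tier (δ := 1 / 16) (show 4 < 5 by norm_num) s
      rw [star_mul, sa, one_mul, mul_assoc (star _), ← mul_assoc (cfc _ s), mul_assoc (cfc _ s), a1,
        ← mul_assoc (cfc _ s), a1]
      simp only [mul_assoc]
      rw [← mul_assoc (cfc (rp (1 / 16) 4) s) (cfc _ ζ), ← a2, mul_assoc, a3,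
        ← mul_assoc (cfc (rp (1 / 16) 4) s) (cfc _ ζ), ← a2, mul_assoc, a3]
    simpa only [Fintype.card_fin] using Sub.copies (S := ∅) (e := 1)
      (fun l => cfc (rp (1 / 16) 4) s * V l) (fun l => mem_Cn_empty _)
      (fun l => by rw [k, (hV l).2, if_pos rfl, one_mul])
      (fun l l' hl => by rw [k, (hV l).2, if_neg hl, zero_mul])
      fun l => by rw [← mul_assoc, rp_tier (by norm_num)]
  have h2 : Sub ∅ 1 {cfc (rp (1 / 16) 7) y}
      ({(1 - cfc (rp (1 / 32) 7) ζ) * cfc (rp (1 / 16) 3) y} +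
        {(1 - cfc (rp (1 / 32) 7) ζ) * cfc (rp (1 / 16) 3) y}) := by
    obtain ⟨n0, n1⟩ := rp_unit (1 / 32) 5 ζ
    have t1 := rp_tier (δ := 1 / 16) (show 3 < 6 by norm_num) y
    have t2 := rp_tier (δ := 1 / 16) (show 6 < 7 by norm_num) y
    have d : ∀ m, Commute (cfc (rp (1 / 32) 5) ζ) (cfc (rp (1 / 16) m) y) := fun m => cc c2 _ _
    have d1 : ∀ m, Commute (sq (cfc (rp (1 / 32) 5) ζ)) (cfc (rp (1 / 16) m) y) :=
      fun m => (d m).cfc_real _
    have d2 : ∀ m, Commute (sq (1 - cfc (rp (1 / 32) 5) ζ)) (cfc (rp (1 / 16) m) y) :=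
      fun m => ((Commute.one_left _).sub_left (d m)).cfc_real _
    have d3 := ((c4 0).symm.cfc_real (rp (1 / 16) 6)).eq
    have d4 := ((Commute.one_left _).sub_left (cc c2 (rp (1 / 32) 7) (rp (1 / 16) 6))).eq
    have u1 : cfc (rp (1 / 32) 4) ζ * sq (cfc (rp (1 / 32) 5) ζ) = sq (cfc (rp (1 / 32) 5) ζ) :=
      unit_cfc n0.isSelfAdjoint (rp_tier (by norm_num) _) Real.continuous_sqrt Real.sqrt_zero
    have u2 : cfc (rp (1 / 32) 7) ζ * sq (1 - cfc (rp (1 / 32) 5) ζ) = 0 :=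
      mul_cfc_eq_zero (sub_nonneg.2 n1).isSelfAdjoint (by
        rw [mul_sub, mul_one, (rp_tier2 _ (by norm_num) _).2, sub_self])
        Real.continuous_sqrt Real.sqrt_zero
    have u3 := cfc_mul_eq_zero ζ0 (hV 0).1 (rp_cont (1 / 32) 7) (rp_at_zero _ _)
    have u4 := (hV 0).2 0
    rw [if_pos rfl] at u4
    refine Sub.two (V := cfc (rp (1 / 16) 6) y * sq (1 - cfc (rp (1 / 32) 5) ζ))
      (V' := cfc (rp (1 / 16) 6) y * (V 0 * sq (cfc (rp (1 / 32) 5) ζ))) ?_ ?_ ?_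
    · have e1 : cfc (rp (1 / 16) 6) y * sq (1 - cfc (rp (1 / 32) 5) ζ) * cfc (rp (1 / 16) 7) y =
          sq (1 - cfc (rp (1 / 32) 5) ζ) * cfc (rp (1 / 16) 7) y := by
        rw [← (d2 6).eq, mul_assoc, t2]
      have e2 : cfc (rp (1 / 16) 6) y * (V 0 * sq (cfc (rp (1 / 32) 5) ζ)) * cfc (rp (1 / 16) 7) y =
          V 0 * sq (cfc (rp (1 / 32) 5) ζ) * cfc (rp (1 / 16) 7) y := by
        rw [← mul_assoc, d3, mul_assoc (V 0), ← (d1 6).eq, ← mul_assoc, mul_assoc _ _ (cfc _ y), t2]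
      rw [add_mul, star_mul, star_mul, star_mul, sa, (sq_nonneg' _).star_eq, (sq_nonneg' _).star_eq,
        mul_assoc, e1, mul_assoc (sq _), ← mul_assoc (cfc _ y), e1, ← mul_assoc,
        sq_mul_sq (sub_nonneg.2 n1), mul_assoc _ _ (cfc (rp (1 / 16) 7) y), e2,
        mul_assoc (sq _ * _), ← mul_assoc (cfc (rp (1 / 16) 6) y), e2, mul_assoc (sq _),
        ← mul_assoc (star _), ← mul_assoc (star _), ← u1, ← mul_assoc (star _ * _), u4, u1,
        ← mul_assoc, sq_mul_sq n0, ← add_mul, sub_add_cancel, one_mul]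
    · rw [mul_assoc, ← mul_assoc (cfc (rp (1 / 16) 3) y), t1, ← mul_assoc, d4, mul_assoc, sub_mul,
        u2, sub_zero, one_mul]
    · rw [mul_assoc, ← mul_assoc (cfc (rp (1 / 16) 3) y), t1, ← mul_assoc, d4, mul_assoc, sub_mul,
        ← mul_assoc (cfc (rp (1 / 32) 7) ζ), u3, zero_mul, sub_zero, one_mul]
  rw [← two_nsmul] at h2
  have h3 := h2.nsmul K
  rw [← mul_nsmul'] at h3
  exact (h1.trans he h).trans he h3

variable {J : Type*} {A : Type u} [NonUnitalCStarAlgebra J] [PartialOrder J] [StarOrderedRing J]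
  [CStarAlgebra A] [PartialOrder A] [StarOrderedRing A] {j : J →⋆ₙₐ[ℂ] A} {N : ℕ}

theorem Ap.movers (hA : ApA A N) {τ : Type} [Finite τ] (s : τ → A) (Y : τ → Fin N → A)
    (s0 : ∀ t, 0 ≤ s t) (hY : ∀ t i, Bub (Y t i) ∧ Gen (cfc (rp (1 / 16) 1) (s t)) (Y t i)) :
    ∃ M : ℕ, ∀ (ζ : UA A) (V : Fin M → UA A), 0 ≤ ζ → Cop ζ (cfc (rp (1 / 32) 4) ζ) V →
      ∀ t, Commute ζ (dg (s t)) → (∀ i, Commute ζ (dg (Y t i))) →
        (∀ k, Commute (V k) (dg (s t)) ∧ ∀ i, Commute (V k) (dg (Y t i))) →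
        ∃ v : Fin N → UA A, ∑ i, star (v i) * v i ≤ 1 ∧
          (∑ i, star (v i) * v i) * (cfc (rp (1 / 32) 5) ζ * cfc (rp (1 / 16) 6) (dg (s t))) =
            cfc (rp (1 / 32) 5) ζ * cfc (rp (1 / 16) 6) (dg (s t)) ∧
          ∀ i, cfc (rp (1 / 32) 8) ζ * v i = 0 ∧
            cfc (rp (1 / 16) 2) (dg (Y t i)) * v i = v i := by
  haveI := Fintype.ofFinite τ
  have : ∀ x : τ × Fin N, ∃ K : ℕ, Sub ∅ 1 {cfc (rp (1 / 16) 3) (dg (s x.1) : UA A)}
      (K • {cfc (rp (1 / 16) 7) (dg (Y x.1 x.2))}) := fun x => by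
    obtain ⟨K, V, h1, h2⟩ := Gen.sub ((hY x.1 x.2).2.trans ((hY x.1 x.2).1.tiers (δ := 1 / 16)
      (m := 8) (by norm_num) (by norm_num)).2.1) (rp_unit (1 / 16) 2 _).1 (rp_tier one_lt_two _)
      (rp_tier (show 2 < 3 by norm_num) _) (rp_tier (show 7 < 8 by norm_num) _)
    have := (Sub.pieces (S := ∅) (e := 1) V (fun _ => mem_Cn_empty _) (by rwa [one_mul]) h2).hom dg
    refine ⟨K, ?_⟩
    simpa only [Multiset.map_singleton, Multiset.map_nsmul, Fintype.card_fin,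
      hom_cfc _ (rp_cont _ _) (s0 _).isSelfAdjoint,
      hom_cfc _ (rp_cont _ _) (hY _ _).1.1.isSelfAdjoint] using this
  choose K hK using this
  refine ⟨2 * ((∑ x, K x) * 2) + 1, fun ζ V ζ0 hV t c1 c2 c3 => ?_⟩
  have cc : ∀ {a b : UA A}, Commute a b → ∀ f g : ℝ → ℝ, Commute (cfc f a) (cfc g b) :=
    fun h f g => ((h.cfc_real f).symm.cfc_real g).symm
  have x0 := mul_unit (rp_unit (1 / 32) 4 ζ).1 (rp_unit _ _ _).2 (rp_unit (1 / 16) 5 (dg (s t))).1
    (rp_unit _ _ _).2 (cc c1 _ _)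
  have y0 := fun i => mul_unit (sub_nonneg.2 (rp_unit (1 / 32) 7 ζ).2)
    (sub_le_self _ (rp_unit _ _ _).1) (rp_unit (1 / 16) 3 (dg (Y t i))).1 (rp_unit _ _ _).2
    ((Commute.one_left _).sub_left (cc (c2 i) _ _))
  obtain ⟨v, v1, v2, v3⟩ := hA.cmp2 x0.1 x0.2 _ (fun i => (y0 i).1) (fun i => (y0 i).2)
    (Nat.succ_pos _) (Nat.le_succ _) fun i => mov_alg ζ0.isSelfAdjoint V hV c1 (c2 i)
      (fun k => (c3 k).1) (fun k => (c3 k).2 i) ((hK (t, i)).mono le_rfl (nsmul_le_nsmul_left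
        (Multiset.zero_le _) (Finset.single_le_sum (fun _ _ => Nat.zero_le _) (Finset.mem_univ _))))
  refine ⟨v, v1, v2 _ ?_, fun i => ⟨v3 i _ ?_, unit_of_kill (v3 i _ ?_)⟩⟩
  · rw [mul_assoc, ← mul_assoc (cfc _ (dg (s t))), ← (cc c1 _ _).eq, mul_assoc, ← mul_assoc,
      rp_tier (by norm_num), rp_tier (by norm_num)]
  · rw [← mul_assoc, mul_sub, mul_one, (rp_tier2 _ (by norm_num) _).2, sub_self, zero_mul]
  · rw [((Commute.one_left _).sub_left (cc (c2 i) _ _)).eq, ← mul_assoc,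
      kill_of_unit (rp_tier (by norm_num) _), zero_mul]

/-- the elements that have `u` as a unit together with their adjoints -/
def under {B : Type u} [CStarAlgebra B] (u : B) : NonUnitalStarSubalgebra ℂ B where
  carrier := {x | u * x = x ∧ u * star x = star x}
  add_mem' := fun hx hy => ⟨by rw [mul_add, hx.1, hy.1], by rw [star_add, mul_add, hx.2, hy.2]⟩
  zero_mem' := ⟨by simp, by simp⟩
  mul_mem' := fun hx hy => ⟨by rw [← mul_assoc, hx.1], by rw [star_mul, ← mul_assoc, hy.2]⟩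
  smul_mem' := fun c x hx => ⟨by rw [mul_smul_comm, hx.1], by rw [star_smul, mul_smul_comm, hx.2]⟩
  star_mem' := fun hx => ⟨hx.2, by rw [star_star]; exact hx.1⟩

lemma under_closed {B : Type u} [CStarAlgebra B] (u : B) : IsClosed (under u : Set B) :=
  (isClosed_eq (by fun_prop) (by fun_prop)).inter (isClosed_eq (by fun_prop) (by fun_prop))

/-- copies make a corner rich -/
theorem Idl.poor (hj : Idl j) {L : ℕ} {u u' : A} (hu : u * u' = u') (u0 : 0 ≤ u') {z z' : UA A}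
    (hz : z ∈ Iw j) (z0 : 0 ≤ z') (zz : z' * z = z) (V : Fin L → UA A)
    (h1 : ∀ k k', star (V k) * V k' * z' = if k = k' then z' else 0)
    (h2 : ∀ k, dg u' * (V k * z') = V k * z') :
    ∃ w : BA A, Ult.mk w = z ∧ ∀ n, (∃ c, j c = Bdd.ev n w) ∧ ∃ y : Fin L → A,
      (∀ l, 0 ≤ y l ∧ u * y l = y l ∧ Gen (Bdd.ev n w) (y l)) ∧
      ∀ l l', l ≠ l' → y l * y l' = 0 := by
  have a0 : ∀ k, 0 ≤ V k * z' * star (V k) := fun k => star_right_conjugate_nonneg z0 _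
  obtain ⟨b, b1, b2⟩ := exists_orth_lift (Ult.mk (A := fun _ => A))
    (fun k => V k * z' * star (V k)) Finset.univ (under (cst u)) (under_closed _) (fun k _ => a0 k)
    (fun k _ => by
      obtain ⟨x, hx⟩ := Ult.surj (V k * z' * star (V k))
      have e : dg u' * (V k * z' * star (V k)) = V k * z' * star (V k) := by rw [← mul_assoc, h2]
      have c : (cst u : BA A) * cst u' = cst u' := by rw [← map_mul, hu]
      refine ⟨cst u' * x * cst u', ⟨by rw [← mul_assoc, ← mul_assoc, c], ?_⟩, ?_⟩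
      · rw [star_mul, (hom_nonneg cst u0).star_eq, ← mul_assoc, c]
      · rw [map_mul, map_mul, hx, ← dg_apply, e, mul_comm_of_sa (u0.isSelfAdjoint.map dg)
          (a0 k).isSelfAdjoint (a0 k).isSelfAdjoint e])
    fun k _ k' _ h => by
      calc _ = V k * z' * (star (V k) * V k' * z') * star (V k') := by simp only [mul_assoc]
        _ = 0 := by rw [h1, if_neg h, mul_zero, zero_mul]
  choose W hW using fun k => Ult.surj (V k)
  have k1 : ∀ k, star (V k) * (V k * z) = z := fun k => by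
    rw [← zz, ← mul_assoc, ← mul_assoc, h1, if_pos rfl]
  have key : ∀ s : Finset (Fin L), ∃ w ∈ Lf j, Ult.mk w = z ∧
      ∀ n, ∀ k ∈ s, Gen (Bdd.ev n w) (Bdd.ev n (b k * b k)) := fun s => by
    induction s using Finset.induction_on with
    | empty => exact (mem_Iw.1 hz).imp fun w h => ⟨h.1, h.2, by simp⟩
    | insert k s hk ih =>
      obtain ⟨w, w1, w2, w3⟩ := ih
      refine ⟨star (W k) * (b k * b k) * W k * w, fun n => ?_, ?_, fun n l hl p hp => ?_⟩
      · obtain ⟨c, hc⟩ := w1 n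
        rw [map_mul, ← hc]
        exact hj.left _ _
      · simp only [map_mul, map_star, hW, w2, (b1 k (Finset.mem_univ _)).2.2, mul_assoc, k1, zz]
      · rcases Finset.mem_insert.1 hl with rfl | hl
        · rw [map_mul, map_mul, map_mul, map_mul, map_mul, map_mul, hp]
          simp
        · rw [map_mul, map_mul, w3 n l hl p hp, mul_zero]
  obtain ⟨w, w1, w2, w3⟩ := key Finset.univ
  refine ⟨w, w2, fun n => ⟨w1 n, fun l => Bdd.ev n (b l * b l), fun l => ⟨hom_nonneg _ ?_, ?_,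
    w3 n l (Finset.mem_univ _)⟩, fun l l' h => ?_⟩⟩
  · simpa only [(b1 l (Finset.mem_univ _)).2.1.star_eq] using star_mul_self_nonneg (b l)
  · rw [← ev_cst n u, ← map_mul, ← mul_assoc, (b1 l (Finset.mem_univ _)).1.1]
  · rw [← map_mul, mul_assoc, ← mul_assoc (b l) (b l'),
      b2 l (Finset.mem_univ _) l' (Finset.mem_univ _) h]
    simp

end Pool.Agent.Lib.MP_30b5b4_an
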