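import Pool.Agent.Lib.MP_30b5b4_an.C.SB2

/-! Steps with thin walls for a colour. -/

open scoped CStarAlgebra ComplexOrder Topology
open Filter

set_option linter.unusedSectionVars false
set_option linter.style.haveILetI false
set_option linter.unusedVariables false
set_option linter.unusedSimpArgs false
set_option synthInstance.maxSize 1000000

namespace Pool.Agent.Lib.MP_30b5b4_an

universe u v

section
variable {B : Type u} [CStarAlgebra B] [PartialOrder B] [StarOrderedRing B]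

lemma cfc_orth_sum {ι : Type*} [Fintype ι] (x : ι → B) (hx : ∀ l, IsSelfAdjoint (x l))
    (h : ∀ l l', l ≠ l' → x l * x l' = 0) {g : ℝ → ℝ} (hg : Continuous g) (g0 : g 0 = 0) :
    cfc g (∑ l, x l) = ∑ l, cfc g (x l) := by
  have s0 : IsSelfAdjoint (∑ l, x l) := by
    rw [IsSelfAdjoint, star_sum]
    exact Finset.sum_congr rfl fun l _ => hx l
  obtain ⟨D, hD⟩ : ∃ D, D = cfc g (∑ l, x l) - ∑ l, cfc g (x l) := ⟨_, rfl⟩
  have d0 : star D = D := by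
    rw [hD, star_sub, star_sum, IsSelfAdjoint.cfc.star_eq]
    simp only [IsSelfAdjoint.cfc.star_eq]
  have d1 : ∀ l, D * x l = 0 := fun l => by
    rw [hD, sub_mul, cfc_semiconj s0 (hx l) (y := x l) (by
      rw [Finset.sum_mul, Finset.sum_eq_single l (fun l' _ hl => h _ _ hl) (by simp)]) hg,
      Finset.sum_mul, Finset.sum_eq_single l
        (fun l' _ hl => cfc_mul_eq_zero (hx l') (h _ _ hl) hg g0) (by simp),
      ((Commute.refl (x l)).cfc_real g).eq, sub_self]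
  have d2 : D * cfc g (∑ l, x l) = 0 :=
    mul_cfc_eq_zero s0 (by simp only [Finset.mul_sum, d1, Finset.sum_const_zero]) hg g0
  rw [← sub_eq_zero, ← hD, ← CStarRing.star_mul_self_eq_zero_iff, d0]
  conv_lhs => enter [2]; rw [hD]
  rw [mul_sub, d2, Finset.mul_sum, Finset.sum_eq_zero fun l _ =>
    mul_cfc_eq_zero (hx l) (d1 l) hg g0, sub_self]

lemma cfc_cfc {f g : ℝ → ℝ} (hf : Continuous f) (hg : Continuous g) {a : B}
    (ha : IsSelfAdjoint a) : cfc g (cfc f a) = cfc (fun t => g (f t)) a :=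
  (cfc_comp' g f a hg.continuousOn hf.continuousOn ha).symm

lemma cfc_mul_pt {f g : ℝ → ℝ} (hf : Continuous f) (hg : Continuous g)
    (h : ∀ t, g t ≠ 0 → f t = 1) (a : B) : cfc f a * cfc g a = cfc g a := by
  rw [cfc_mul' hf hg]
  refine congrArg (cfc · a) (funext fun t => ?_)
  by_cases ht : g t = 0
  · rw [ht, mul_zero]
  · rw [h t ht, one_mul]

lemma rp_pos {θ t : ℝ} (hθ : 0 < θ) {m : ℕ} (h : rp θ m t ≠ 0) : m * θ ≤ t := by
  by_contra h1
  exact h (cl_of_nonpos (sub_nonpos.2 ((div_le_iff₀ hθ).2 (not_le.1 h1).le)))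

/-- the algebra of the steps -/
lemma steps_alg {h : B} (h0 : IsSelfAdjoint h) {θ : ℝ} (hθ : 0 < θ) {m M : ℕ} (C : Fin m → B)
    (V : Fin m → Fin M → B) (h1 : ∀ l : Fin m, Btw (cfc (rp θ (2 * l + 1)) h) (C l))
    (h2 : ∀ l, Cop (C l) (cfc (wl 4) (C l)) (V l))
    (h3 : ∀ (l : Fin m) k, cfc (wl 2) (cfc (rp θ (2 * l + 1)) h) * V l k = V l k ∧
      V l k * cfc (wl 2) (cfc (rp θ (2 * l + 1)) h) = V l k) (h4 : ∀ l k, ‖V l k‖ ≤ 1) :
    (∀ l : Fin m, cfc (rp θ (2 * l)) h * C l = C l ∧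
      C l * cfc (rp θ (2 * l + 2)) h = cfc (rp θ (2 * l + 2)) h) ∧
    (∀ k, ‖∑ l, V l k‖ ≤ 1) ∧ Cop (∑ l, cfc tent (C l))
      (cfc (rp (1 / 32) 4) (∑ l, cfc tent (C l))) fun k => ∑ l, V l k := by
  have cs : ∀ l, IsSelfAdjoint (C l) := fun l => (h1 l).1.isSelfAdjoint
  have a1 : ∀ l : Fin m, cfc (rp θ (2 * l)) h * cfc (rp (1 / 64) 2) (cfc (rp θ (2 * l + 1)) h) =
      cfc (rp (1 / 64) 2) (cfc (rp θ (2 * l + 1)) h) := fun l => by
    rw [cfc_cfc (rp_cont _ _) (rp_cont _ _) h0]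
    refine cfc_mul_pt (rp_cont _ _) (by fun_prop) (fun t ht => rp_one hθ ?_) h
    exact_mod_cast rp_pos hθ fun h => ht (by rw [h, rp_at_zero])
  have a2 : ∀ (l : Fin m) (n : ℕ), 2 * l + 2 ≤ n →
      cfc (rp (1 / 64) 61) (cfc (rp θ (2 * l + 1)) h) * cfc (rp θ n) h = cfc (rp θ n) h :=
    fun l n hn => by
      rw [cfc_cfc (rp_cont _ _) (rp_cont _ _) h0]
      refine cfc_mul_pt (by fun_prop) (rp_cont _ _) (fun t ht => ?_) h
      have : ((2 * l + 1 : ℕ) + 1 : ℝ) ≤ n := by exact_mod_cast hn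
      rw [rp_one hθ ((mul_le_mul_of_nonneg_right this hθ.le).trans (rp_pos hθ ht)),
        rp_one (by norm_num) (by norm_num)]
  have b1 : ∀ l : Fin m, cfc (rp θ (2 * l)) h * C l = C l := fun l => by
    rw [← (h1 l).2.2.1, cf_eq _ .cfc, ← mul_assoc, a1]
  have b2 : ∀ (l : Fin m) (n : ℕ), 2 * l + 2 ≤ n → C l * cfc (rp θ n) h = cfc (rp θ n) h :=
    fun l n hn => by
      rw [← a2 l n hn, ← mul_assoc, ← cf_eq _ (x := cfc (rp θ (2 * l + 1)) h) .cfc, (h1 l).2.2.2]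
  have band : ∀ (l : Fin m) x, cfc (wl 2) (cfc (rp θ (2 * l + 1)) h) * x = x →
      cfc (rp θ (2 * l)) h * x = x ∧ ∀ n : ℕ, 2 * l + 2 ≤ n → cfc (rp θ n) h * x = 0 :=
    fun l x hx => ⟨by rw [← unit_of_kill (wl_split hx).1, ← mul_assoc, a1], fun n hn => by
      rw [← mul_comm_of_sa .cfc .cfc .cfc (a2 l n hn), mul_assoc, (wl_split hx).2, mul_zero]⟩
  have cross : ∀ (l l' : Fin m) x y, l ≠ l' → cfc (wl 2) (cfc (rp θ (2 * l + 1)) h) * x = x →
      cfc (wl 2) (cfc (rp θ (2 * l' + 1)) h) * y = y → star x * y = 0 := fun l l' x y hl hx hy => by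
    have : ∀ (l l' : Fin m) x y, l < l' → cfc (wl 2) (cfc (rp θ (2 * l + 1)) h) * x = x →
        cfc (wl 2) (cfc (rp θ (2 * l' + 1)) h) * y = y → star y * x = 0 := fun l l' x y hl hx hy => by
      rw [← (band l' y hy).1, star_mul, IsSelfAdjoint.cfc.star_eq, mul_assoc,
        (band l x hx).2 _ (by omega), mul_zero]
    rcases hl.lt_or_gt with h | h
    · rw [← star_eq_zero, star_mul, star_star, this l l' x y h hx hy]
    · exact this l' l y x h hy hx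
  have w0 : ∀ (l : Fin m) {g : ℝ → ℝ}, Continuous g → g 0 = 0 → g 1 = 0 →
      cfc (wl 2) (cfc (rp θ (2 * l + 1)) h) * cfc g (C l) = cfc g (C l) := fun l g hg g0 g1 =>
    (h1 l).wall .cfc hg g0 g1
  have v1 : ∀ (l : Fin m) k, cfc (wl 2) (cfc (rp θ (2 * l + 1)) h) * star (V l k) = star (V l k) :=
    fun l k => by rw [← IsSelfAdjoint.cfc.star_eq, ← star_mul, (h3 l k).2]
  have e : ∀ k k', star (∑ l, V l k) * ∑ l, V l k' = ∑ l, star (V l k) * V l k' := fun k k' => by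
    rw [star_sum, Finset.sum_mul_sum]
    exact Finset.sum_congr rfl fun l _ => Finset.sum_eq_single l
      (fun l' _ hl => cross _ _ _ _ hl.symm (h3 l k).1 (h3 l' k').1) (by simp)
  refine ⟨fun l => ⟨b1 l, b2 l _ le_rfl⟩, fun k => ?_, fun k => ⟨?_, fun k' => ?_⟩⟩
  · refine (mul_self_le_mul_self_iff (norm_nonneg _) zero_le_one).2 ?_
    rw [← CStarRing.norm_star_mul_self, e]
    refine sum_le_of_orth _ _ (by norm_num) (fun l _ => star_mul_self_nonneg _)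
      (fun l _ l' _ hl => ?_) fun l _ => ?_
    · have := cross _ _ _ _ hl (v1 l k) (v1 l' k)
      rw [star_star] at this
      rw [mul_assoc, ← mul_assoc (V l k), this, zero_mul, mul_zero]
    · rw [CStarRing.norm_star_mul_self]
      exact mul_self_le_mul_self (norm_nonneg _) (h4 l k)
  · rw [Finset.sum_mul_sum]
    refine Finset.sum_eq_zero fun l _ => Finset.sum_eq_zero fun l' _ => ?_
    by_cases hl : l = l'
    · exact hl ▸ cfc_mul_eq_zero (cs l) (h2 l k).1 tent_cont tent_zero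
    · simpa only [IsSelfAdjoint.cfc.star_eq] using
        cross _ _ _ _ hl (w0 l tent_cont tent_zero tent_one) (h3 l' k).1
  · rw [e, cfc_orth_sum _ (fun _ => .cfc) (fun l l' hl => by
      simpa only [IsSelfAdjoint.cfc.star_eq] using cross _ _ _ _ hl
        (w0 l tent_cont tent_zero tent_one) (w0 l' tent_cont tent_zero tent_one)) (rp_cont _ _)
      (rp_at_zero _ _), Finset.sum_mul_sum]
    simp only [cfc_cfc tent_cont (rp_cont _ _) (cs _)]
    have : ∀ l, ∑ l', star (V l k) * V l k' * cfc (wl 4) (C l') =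
        if k = k' then cfc (wl 4) (C l) else 0 := fun l => by
      rw [Finset.sum_eq_single l (fun l' _ hl => ?_) (by simp), (h2 l k).2]
      have := cross _ _ _ _ hl.symm (v1 l k') (w0 l' (wl_cont 4) (wl_zero _) (wl_one _))
      rw [star_star] at this
      rw [mul_assoc, this, mul_zero]
    refine (Finset.sum_congr rfl fun l _ => this l).trans ?_
    split_ifs
    exacts [rfl, Finset.sum_const_zero]

lemma MU.amp_cfc2 {F : Type*} [CStarAlgebra F] {M : MU F} {φ : F →ₗ[ℂ] B} {δ : ℝ} (h : OZ φ)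
    {w : Fin M.N → B} (hw : M.Loc φ δ w) (w0 : ∀ i, IsSelfAdjoint (w i)) {g : ℝ → ℝ}
    (hg : Continuous g) (g0 : g 0 = 0) :
    M.amp φ δ (fun i => cfc g (w i)) = cfc g (M.amp φ δ w) := by
  have s : IsSelfAdjoint (M.amp φ δ w) := by
    rw [IsSelfAdjoint, MU.amp_star]
    simp only [(w0 _).star_eq]
  rw [← unit_cfc (a := ∑ i, piM φ δ (M.v i) * star (piM φ δ (M.v i))) s (by
    simp only [Finset.sum_mul, mul_assoc, MU.v_amp h hw]
    simp only [MU.amp, mul_assoc]) hg g0, Finset.sum_mul]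
  refine Finset.sum_congr rfl fun i _ => ?_
  rw [mul_assoc, mul_assoc, cfc_semiconj (w0 _) s (MU.v_amp h hw i).symm hg]

end

variable {J : Type*} {A : Type u} [NonUnitalCStarAlgebra J] [PartialOrder J] [StarOrderedRing J]
  [CStarAlgebra A] [PartialOrder A] [StarOrderedRing A] {j : J →⋆ₙₐ[ℂ] A} {N : ℕ}

theorem TD.sb1 (hT : TD j) (hj : Idl j) (hA : ApA A N) (c : CA A) (hc : ∀ x, ∃ b, j b = c.φ x)
    {δ θ : ℝ} (hδ : 0 < δ) (hθ : δ ≤ θ) (m M : ℕ) :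
    ∃ C : Fin m → UA A, (∀ l, ‖C l‖ ≤ 1) ∧ ∃ V : Fin M → UA A, (∀ k, ‖V k‖ ≤ 1) ∧
      SBQ δ θ (fun _ => c) C V := by
  obtain ⟨U⟩ := exists_MU c.F
  have o := cφ_oz c
  have θ0 := hδ.trans_le hθ
  have d0 : ∀ b, IsSelfAdjoint (U.blk c.φ b) := fun b => (MU.blk_nonneg c.oz b).isSelfAdjoint
  have d1 : ∀ b, IsSelfAdjoint (U.blk (cφ c) b) := fun b => (MU.blk_nonneg o b).isSelfAdjoint
  have h0 := o.cp.one_nonneg.isSelfAdjoint
  choose C V h1 h2 h3 using fun (l : Fin m) b => hT.sb0 hj hA (c := cfc (rp θ (2 * l + 1))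
    (U.blk c.φ b)) (hj.cfc_mem (hc _) (rp_cont _ _) (rp_at_zero _ _)) (rp_unit _ _ _).1 M
  have e0 : ∀ (l : Fin m) b, dg (cfc (rp θ (2 * l + 1)) (U.blk c.φ b)) =
      cfc (rp θ (2 * l + 1)) (U.blk (cφ c) b) := fun l b => hom_cfc dg (rp_cont _ _) (d0 b)
  simp only [e0] at h1 h3
  have z0 : ∀ (l : Fin m) {g : ℝ → ℝ}, g 0 = 0 → ∀ t, t ≤ δ → g (rp θ (2 * l + 1) t) = 0 :=
    fun l g g0 t ht => by rw [rp_zero θ0 (Nat.succ_pos _) (ht.trans hθ), g0]
  have loc : ∀ (l : Fin m) {g : ℝ → ℝ}, Continuous g → g 0 = 0 → ∀ w : Fin U.N → UA A,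
      (∀ b, cfc g (cfc (rp θ (2 * l + 1)) (U.blk (cφ c) b)) * w b = w b) → U.Loc (cφ c) δ w :=
    fun l g hg g0 w hw => .of o hδ (α := fun t => g (rp θ (2 * l + 1) t)) (by fun_prop) (z0 l g0)
      fun b => by rw [← cfc_cfc (rp_cont _ _) hg (d1 b), hw]
  have am : ∀ (l : Fin m) {g : ℝ → ℝ}, Continuous g → g 0 = 0 →
      cfc g (cfc (rp θ (2 * l + 1)) (cφ c 1)) =
        U.amp (cφ c) δ fun b => cfc g (cfc (rp θ (2 * l + 1)) (U.blk (cφ c) b)) :=
    fun l g hg g0 => by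
      simp only [cfc_cfc (rp_cont _ _) hg (d1 _), cfc_cfc (rp_cont _ _) hg h0]
      exact (MU.amp_cfc o hδ (by fun_prop) (z0 l g0)).symm
  have lC : ∀ l, U.Loc (cφ c) δ (C l) := fun l => loc l (rp_cont _ 2) (rp_at_zero _ _) _
    fun b => by rw [← cf_eq _ (x := cfc _ _) .cfc, (h1 l b).2.2.1]
  have lV : ∀ l k, U.Loc (cφ c) δ fun b => V l b k := fun l k =>
    loc l (wl_cont 2) (wl_zero _) _ fun b => (h3 l b k).2.1
  have lV' : ∀ l k, U.Loc (cφ c) δ fun b => star (V l b k) := fun l k =>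
    loc l (wl_cont 2) (wl_zero _) _ fun b => by
      rw [← IsSelfAdjoint.cfc.star_eq, ← star_mul, (h3 l b k).2.2]
  have lg : ∀ (l : Fin m) {g : ℝ → ℝ}, Continuous g → g 0 = 0 → U.Loc (cφ c) δ
      fun b => cfc g (cfc (rp θ (2 * l + 1)) (U.blk (cφ c) b)) := fun l g hg g0 b => by
    simp only
    rw [cfc_cfc (rp_cont _ _) hg (d1 b), MU.piM_blk o hδ]
    have := Gf_cont hδ
    refine cfc_mul_pt (by fun_prop) (by fun_prop) (fun t ht => ?_) _
    have h1 : δ ≤ t := le_of_not_ge fun h => ht (z0 l g0 t h)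
    rw [Gf, max_eq_left h1, mul_inv_cancel₀ (hδ.trans_le h1).ne']
  have c0 : ∀ l, 0 ≤ U.amp (cφ c) δ (C l) := fun l =>
    Finset.sum_nonneg fun i _ => star_right_conjugate_nonneg (h1 l _).1 _
  have c1 : ∀ l, ‖U.amp (cφ c) δ (C l)‖ ≤ 1 := fun l =>
    MU.amp_norm o hδ (lC l) zero_le_one fun b => norm_le_one_of (h1 l b).1 (h1 l b).2.1
  obtain ⟨a1, a2, a3⟩ := steps_alg h0 θ0 (fun l => U.amp (cφ c) δ (C l))
    (fun l k => U.amp (cφ c) δ fun b => V l b k)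
    (fun l => ⟨c0 l, le_one_of_norm (c0 l) (c1 l), by
      rw [cf_eq _ .cfc, am l (rp_cont _ _) (rp_at_zero _ _), MU.amp_mul o _ (lC l)]
      exact congrArg _ (funext fun b => by rw [← cf_eq _ (x := cfc _ _) .cfc, (h1 l b).2.2.1]), by
      rw [cf_eq _ .cfc, am l (rp_cont _ _) (rp_at_zero _ _),
        MU.amp_mul o _ (lg l (rp_cont _ _) (rp_at_zero _ _))]
      exact congrArg _ (funext fun b => by rw [← cf_eq _ (x := cfc _ _) .cfc, (h1 l b).2.2.2])⟩)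
    (fun l k => ⟨by
      rw [MU.amp_mul o _ (lV l k)]
      simp only [(h2 l _ k).1, MU.amp_zero], fun k' => by
      have lw : U.Loc (cφ c) δ fun b => cfc (wl 4) (C l b) := fun b =>
        unit_cfc (h1 l b).1.isSelfAdjoint (lC l b) (wl_cont _) (wl_zero _)
      rw [← MU.amp_cfc2 o (lC l) (fun b => (h1 l b).1.isSelfAdjoint) (wl_cont _) (wl_zero _),
        MU.amp_star, MU.amp_mul o _ (lV l k'), MU.amp_mul o _ lw]
      simp only [(h2 l _ k).2]
      split_ifs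
      exacts [rfl, MU.amp_zero]⟩)
    (fun l k => ⟨by
      rw [am l (wl_cont _) (wl_zero _), MU.amp_mul o _ (lV l k)]
      simp only [(h3 l _ k).2.1], by
      rw [am l (wl_cont _) (wl_zero _), MU.amp_mul o _ (lg l (wl_cont _) (wl_zero _))]
      simp only [(h3 l _ k).2.2]⟩)
    fun l k => MU.amp_norm o hδ (lV l k) zero_le_one fun b => (h3 l b k).1
  have cm : ∀ z : UA A, (∀ y, Commute z (piM (cφ c) δ y)) → ∀ y,
      Commute z (cf (Gf δ) (uφ (fun _ => c) 1) * uφ (fun _ => c) y) := fun z hz y => by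
    obtain ⟨x, rfl⟩ := dg_surj y
    rw [cf_const, uφ_const]
    exact hz x
  refine ⟨_, c1, _, a2, fun l => ⟨c0 l, le_one_of_norm (c0 l) (c1 l), ?_, ?_, cm _
    (MU.amp_comm o (lC l) fun b => by simp only [(h1 l b).1.star_eq, lC l b])⟩, fun k => cm _ fun y =>
    Commute.sum_left _ _ _ fun l _ => MU.amp_comm o (lV l k) (lV' l k) y, ?_⟩
  · rw [cf_const, (a1 l).1]
  · rw [cf_const, (a1 l).2]
  · simp only [cf_eq _ (c0 _).isSelfAdjoint]
    rwa [cf_eq]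
    rw [IsSelfAdjoint, star_sum]
    exact Finset.sum_congr rfl fun l _ => IsSelfAdjoint.cfc.star_eq

lemma SBQ.clo {δ : ℝ} (hδ : 0 < δ) (θ : ℝ) (m M : ℕ) :
    Clo fun g : ((ℕ → CA A) × (Fin m → UA A)) × (Fin M → UA A) => SBQ δ θ g.1.1 g.1.2 g.2 := by
  haveI : ∀ n, Fact (Continuous (rp θ n)) := fun n => ⟨rp_cont _ _⟩
  haveI : Fact (Continuous (rp (1 / 32) 4)) := ⟨rp_cont _ _⟩
  haveI : Fact (Continuous (Gf δ)) := ⟨Gf_cont hδ⟩
  haveI : Fact (Continuous tent) := ⟨tent_cont⟩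
  refine Clo.of_iff (Q := fun g => (∀ l : Fin m, 0 ≤ g.1.2 l ∧ g.1.2 l ≤ 1 ∧
    cf (rp θ (2 * l)) (uφ g.1.1 1) * g.1.2 l = g.1.2 l ∧
    g.1.2 l * cf (rp θ (2 * l + 2)) (uφ g.1.1 1) = cf (rp θ (2 * l + 2)) (uφ g.1.1 1) ∧
    ∀ y, Commute (g.1.2 l) (cf (Gf δ) (uφ g.1.1 1) * uφ g.1.1 y)) ∧
    (∀ k y, Commute (g.2 k) (cf (Gf δ) (uφ g.1.1 1) * uφ g.1.1 y)) ∧
    ∀ k, (∑ l, cf tent (g.1.2 l)) * g.2 k = 0 ∧
      star (g.2 k) * g.2 k * cf (rp (1 / 32) 4) (∑ l, cf tent (g.1.2 l)) =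
        cf (rp (1 / 32) 4) (∑ l, cf tent (g.1.2 l)) ∧ ∀ k', k ≠ k' →
      star (g.2 k) * g.2 k' * cf (rp (1 / 32) 4) (∑ l, cf tent (g.1.2 l)) = 0) fun g => ?_
  refine and_congr_right fun _ => and_congr_right fun _ => forall_congr' fun k =>
    and_congr_right fun _ => ⟨fun h => ⟨by simpa using h k, fun k' hk => by
      simpa [hk] using h k'⟩, fun h k' => ?_⟩
  split_ifs with hk
  exacts [hk ▸ h.1, h.2 k' hk]

theorem TD.sb (hT : TD j) (hj : Idl j) (hA : ApA A N) (d : ℕ → CA A)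
    (hd : ∀ k x, ∃ b, j b = (d k).φ x) {δ θ : ℝ} (hδ : 0 < δ) (hθ : δ ≤ θ) (m M : ℕ) :
    ∃ C : Fin m → UA A, (∀ l, ‖C l‖ ≤ 1) ∧ ∃ V : Fin M → UA A, (∀ k, ‖V k‖ ≤ 1) ∧
      SBQ δ θ d C V := by
  haveI := SBQ.clo (A := A) hδ θ m M
  exact transfer (fun d : ℕ → CA A => ∃ C : Fin m → UA A, (∀ l, ‖C l‖ ≤ 1) ∧
    ∃ V : Fin M → UA A, (∀ k, ‖V k‖ ≤ 1) ∧ SBQ δ θ d C V) (Stage.col d)
    (Eventually.of_forall fun k => hT.sb1 hj hA (d k) (hd k) hδ hθ m M)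

end Pool.Agent.Lib.MP_30b5b4_an
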