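import Pool.Agent.Lib.MP_30b5b4_an.C.Fk
import Pool.Agent.Lib.MP_30b5b4_an.C.Mov
import Pool.Agent.Lib.MP_30b5b4_an.C.SB3

/-! Fine colours and movers from their walls into the rooms. -/

open scoped CStarAlgebra ComplexOrder Topology
open Filter

set_option linter.unusedSectionVars false
set_option linter.style.haveILetI false
set_option linter.unusedVariables false
set_option linter.unusedSimpArgs false
set_option synthInstance.maxSize 1000000

namespace Pool.Agent.Lib.MP_30b5b4_an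

universe u v

variable {I J G : Type*} {A : Type u} [NonUnitalCStarAlgebra I] [PartialOrder I]
  [StarOrderedRing I] [NonUnitalCStarAlgebra J] [PartialOrder J] [StarOrderedRing J]
  [NonUnitalCStarAlgebra G] [PartialOrder G] [StarOrderedRing G]
  [CStarAlgebra A] [PartialOrder A] [StarOrderedRing A]
  {j : I →⋆ₙₐ[ℂ] A} {jJ : J →⋆ₙₐ[ℂ] A} {jG : G →⋆ₙₐ[ℂ] A} {N N' : ℕ}

lemma fine_comm {K : ℕ → CA A} {x : UA A} (hx : x ∈ VS K) (g : ℝ → ℝ) (R : ℕ) {m : ℕ}
    (hm : 0 < m) : Commute (cf g (uφ K 1) * cf (wt R m) (uT K 1)) x := by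
  have h := Vis.of_VS hx
  have k0 := (uT_cp K).one_nonneg.isSelfAdjoint
  have e0 : 0 < ms R ^ 3 / 32 := by have := ms_pos R; positivity
  have := Gf_cont e0
  have e : cfc (wt R m) (uT K 1) =
      uT K 1 * cfc (fun t => wt R m t * Gf (ms R ^ 3 / 32) t) (uT K 1) := by
    rw [id_mul_cfc (by fun_prop) k0]
    exact congrArg (cfc · _) (funext fun t => by rw [mul_comm, wt, rp_Gf e0 hm])
  rw [cf_uφ, cf_eq _ k0, e, ← mul_assoc]
  exact (h.commute g).mul_left (Commute.cfc_real (h.1.symm.trans h.2) _)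

lemma zeta_nonneg (R : ℕ) (K : ℕ → CA A) : 0 ≤ zeta R K := by
  rw [zeta, cf_uφ, cf_eq _ (uT_cp K).one_nonneg.isSelfAdjoint]
  exact Commute.mul_nonneg (cfc_nonneg fun _ _ => Finset.sum_nonneg fun _ _ => cl_nonneg _)
    (cfc_nonneg fun _ _ => cl_nonneg _)
    ((((uφ_oz K).commute _).cfc_real _).symm.cfc_real _).symm

lemma zeta_wall (R : ℕ) (K : ℕ → CA A) {m m' : ℕ} (h : m < m') (h1 : 1 < m') :
    cfc (rp (1 / 32) m) (zeta R K) * wall R m' K 1 = wall R m' K 1 ∧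
      wall R m' K 1 * cfc (rp (1 / 32) m) (zeta R K) = wall R m' K 1 := by
  have i0 := (uφ_oz K).cp.one_nonneg.isSelfAdjoint
  have c : ∀ f g : ℝ → ℝ, Commute (cfc f (uφ K 1)) (cfc g (uT K 1)) := fun f g =>
    ((((uφ_oz K).commute _).cfc_real _).symm.cfc_real _).symm
  have c' : ∀ f g : ℝ → ℝ, Commute (cfc f (uφ K 1)) (cfc g (uφ K 1)) := fun f g =>
    cfc_commute_cfc _ _ _
  have e : wall R m' K 1 = cfc (wb R m') (uφ K 1) * cfc (wt R m') (uT K 1) := by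
    rw [wall, cf_uφ, cf_eq _ (uT_cp K).one_nonneg.isSelfAdjoint]
  have e1 : cfc (rp (1 / 32) m) (zeta R K) * wall R m' K 1 = wall R m' K 1 := by
    rw [cfc_semiconj (zeta_nonneg R K).isSelfAdjoint (x' := cfc (wg R) (uφ K 1)) .cfc ?_
      (rp_cont _ _), e, mul_assoc, cfc_cfc (wg_cont R) (rp_cont _ _) i0, ← (c _ _).eq,
      ← mul_assoc]
    · congr 1
      rw [show cfc (wb R m') (uφ K 1) = _ from (cfc_cfc (wg_cont R) (rp_cont _ _) i0).symm,
        ← cfc_cfc (wg_cont R) (rp_cont _ _) i0, (cfc_commute_cfc _ _ _).eq, rp_tier h]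
    · rw [e, zeta, cf_uφ, cf_eq _ (uT_cp K).one_nonneg.isSelfAdjoint, (c _ _).symm.mul_mul_mul_comm,
        show cfc (wt R 1) (uT K 1) * cfc (wt R m') (uT K 1) = _ from rp_tier h1 _, (c' _ _).eq,
        mul_assoc, mul_assoc, (c _ _).eq]
      rfl
  have e2 : IsSelfAdjoint (wall R m' K 1) :=
    e ▸ (IsSelfAdjoint.commute_iff .cfc .cfc).1 (c _ _)
  exact ⟨e1, mul_comm_of_sa .cfc e2 e2 e1⟩

lemma Cop.le {B : Type u} [CStarAlgebra B] [PartialOrder B] [StarOrderedRing B] {M M' : ℕ}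
    {ζ x : B} {V : Fin M → B} (h : Cop ζ x V) (hM : M' ≤ M) :
    Cop ζ x fun k => V (Fin.castLE hM k) := fun k => ⟨(h _).1, fun k' => by
  simpa only [Fin.castLE_inj] using (h (Fin.castLE hM k)).2 (Fin.castLE hM k')⟩

lemma GenM.near (hG : Idl jG) {s y : A} (s0 : 0 ≤ s) (h : GenM jG s y) {η : ℝ} (hη : 0 < η) :
    ∃ c, ∀ p : Pt A, p.π y = 0 → ‖p.π (s - jG c)‖ ≤ η := by
  obtain ⟨M, M1, M2⟩ := exists_closure {x | ∃ c m, Gen m y ∧ jG c + m = x}
    ⟨0, 0, fun _ _ => map_zero _, by simp⟩ (by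
      rintro _ ⟨c, m, h1, rfl⟩ _ ⟨c', m', h2, rfl⟩
      exact ⟨c + c', m + m', fun p hp => by rw [map_add, h1 p hp, h2 p hp, add_zero],
        by rw [map_add]; abel⟩) (by
      rintro a b _ ⟨c, m, h1, rfl⟩
      obtain ⟨c', hc⟩ := hG.both a b c
      exact ⟨c', a * m * b, fun p hp => by simp [h1 p hp], by rw [hc, mul_add, add_mul]⟩)
  obtain ⟨m, m1, m2⟩ : ∃ m ∈ M, ‖s - m‖ < η := by
    by_contra h0
    push Not at h0
    obtain ⟨q, q1, q2, q3⟩ := exists_prm' M M1 s0 hη h0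
    rw [h q q1 (fun c => q2 _ ((M2 _).2 (subset_closure ⟨c, 0, fun _ _ => map_zero _, by simp⟩)))
      (q2 _ ((M2 _).2 (subset_closure ⟨0, y, .refl y, by simp⟩))), norm_zero] at q3
    exact hη.not_ge q3
  obtain ⟨_, ⟨c, m', h1, rfl⟩, h2⟩ := Metric.mem_closure_iff.1 ((M2 m).1 m1) _ (sub_pos.2 m2)
  refine ⟨c, fun p hp => ?_⟩
  have h3 := hom_norm_le p.π (s - (jG c + m'))
  rw [← sub_sub, map_sub, h1 p hp, sub_zero, sub_sub] at h3
  rw [dist_eq_norm] at h2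
  linarith [norm_sub_le_norm_sub_add_norm_sub s m (jG c + m')]

theorem fineM (hT : TD j) (hj : Idl j) (hI : Ap j N False) (hA : ApA A N') (hJ : Idl jJ)
    (hG : Idl jG) (hJj : ∀ c, ∃ b, j b = jJ c) {τ β P : Type} [Finite τ] [Finite β] [Finite P]
    (T : τ → A) {a : A} (ha : ∃ c, j c = a) (a1 : ‖a‖ ≤ 1) (D D' X : β → A)
    (Y : β × Fin N × P × Fin N' → A) (L R : ℕ)
    (hX : ∀ b, (∃ c, jJ c = X b) ∧ 0 ≤ X b ∧ D b * D' b = D' b ∧ 0 ≤ D' b ∧
      D' b * X b = X b) (hY : ∀ b, Poor jJ jG L (D b) ∨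
        ∀ i q t, Bub (Y (b, i, q, t)) ∧ GenM jG (X b) (Y (b, i, q, t))) :
    Fine jG N N' R (fun t => dg (T t)) (dg a) (fun b => dg (X b)) fun x => dg (Y x) := by
  classical
  have X0 := fun b => (hX b).2.1.isSelfAdjoint
  have w0 : ∀ m, wt R m 0 = 0 := fun m => rp_at_zero _ _
  let s : β → A := fun b => cfc (wt R 1) (X b)
  have s0 : ∀ b, 0 ≤ s b := fun b => (rp_unit _ _ _).1
  have s1 : ∀ b, s b * cfc (wt R 9) (X b) = cfc (wt R 9) (X b) := fun b =>
    rp_tier (by norm_num) _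
  have : ∀ x : β × Fin N × P × Fin N', ∃ c, ¬ Poor jJ jG L (D x.1) →
      ∀ p : Pt A, p.π (Y x) = 0 → ‖p.π (s x.1 - jG c)‖ ≤ 1 / 32 := fun x => by
    by_cases h : Poor jJ jG L (D x.1)
    · exact ⟨0, fun h' => (h' h).elim⟩
    · exact (GenM.near hG (s0 _) (fun p p1 p2 p3 => Gen.of_cfc (X0 _) (wt_cont R 1) (w0 1) p
        (((hY _).resolve_left h _ _ _).2 p p1 p2 p3)) (by norm_num)).imp fun c hc _ => hc
  choose c hc using this
  obtain ⟨e, e1, e0, e2, -, e3⟩ := hG.qc_eps (κ := Empty) Empty.elim (fun x => jG (c x))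
    (fun x => ⟨_, rfl⟩) (show (0 : ℝ) < 1 / 32 by norm_num)
  have e4 : ‖1 - e‖ ≤ 1 := norm_le_one_of (sub_nonneg.2 e2) (sub_le_self _ e0)
  let s' : β → A := fun b => (1 - e) * s b * (1 - e)
  have s2 : ∀ b, 0 ≤ s' b := fun b => by
    simpa only [(sub_nonneg.2 e2).star_eq] using star_left_conjugate_nonneg (s0 b) (1 - e)
  obtain ⟨M, hM⟩ := hA.movers (τ := {x : β × Fin N × P // ¬ Poor jJ jG L (D x.1)})
    (fun x => s' x.1.1) (fun x t => Y (x.1.1, x.1.2.1, x.1.2.2, t)) (fun x => s2 _) fun x t =>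
      ⟨((hY _).resolve_left x.2 _ _ _).1, fun p hp => (p.rp_eq_zero (by norm_num) 1 (s2 _)).2 (by
        have h1 := hc (x.1.1, x.1.2.1, x.1.2.2, t) x.2 p hp
        have h2 := e3 (x.1.1, x.1.2.1, x.1.2.2, t)
        generalize jG (c _) = z at h1 h2
        have h3 := (hom_norm_le p.π _).trans e4
        have h4 : s' x.1.1 = ((1 - e) * (s x.1.1 - z) - (e * z - z)) * (1 - e) := by
          simp only [s']; noncomm_ring
        rw [h4, map_mul, map_sub, map_mul]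
        refine (norm_mul_le _ _).trans ((mul_le_of_le_one_right (norm_nonneg _) h3).trans
          ((norm_sub_le_of_le ((norm_mul_le _ _).trans ((mul_le_of_le_one_left (norm_nonneg _)
            h3).trans h1)) ((hom_norm_le _ _).trans h2)).trans (by norm_num))))⟩
  let T' : τ ⊕ (Fin 3 × β) ⊕ (β × Fin N × P × Fin N') → UA A := fun x =>
    dg (Sum.elim T (Sum.elim (fun y => ![D', X, s'] y.1 y.2) Y) x)
  obtain ⟨v, v1, v2, v0, v3, v4⟩ := hj.tier (κ := Unit) T' (fun _ => dg a) fun _ => by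
    obtain ⟨c, rfl⟩ := ha; exact dg_mem_Iw c
  obtain ⟨K, Ω, K1, K2, K3⟩ := hT.fineK hj hI hA v2 v0
    ((CStarAlgebra.norm_le_one_iff_of_nonneg _ v0).1 v1) T' v3 R (max L M)
  have z1 : ∀ i x, Commute (zeta R (K i)) (T' x) := fun i x => fine_comm (K1 i x) _ R one_pos
  have z2 : ∀ i x, Commute (wall R 9 (K i) 1) (T' x) := fun i x =>
    fine_comm (K1 i x) _ R (by norm_num)
  have z3 : ∀ i k x, Commute (Ω i k) (T' x) := fun i k x => Cn_comm ((K3 i).1 k) ⟨x, rfl⟩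
  have x9 : ∀ b, cf (wt R 9) (dg (X b) : UA A) = dg (cfc (wt R 9) (X b)) := fun b => by
    rw [cf_eq _ ((X0 b).map dg), hom_cfc dg (wt_cont R 9) (X0 b)]
  have key : ∀ b i, ∃ E ∈ Iw jG, ∀ q, ∃ w : Fin N' → UA A, ∑ t, star (w t) * w t ≤ 1 ∧
      (∀ t, cf (rp (1 / 16) 2) (dg (Y (b, i, q, t))) * w t = w t ∧
        wall R 15 (K i) 1 * w t = 0) ∧ ∀ u, E * u = 0 →
        (∑ t, star (w t) * w t) * (wall R 9 (K i) 1 * dg (cfc (wt R 9) (X b)) * u) =
          wall R 9 (K i) 1 * dg (cfc (wt R 9) (X b)) * u := fun b i => by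
    by_cases h : Poor jJ jG L (D b)
    · have cs : ∀ {x}, Commute x (dg (X b)) → Commute x (dg (s b)) := fun h => by
        rw [hom_cfc dg (wt_cont R 1) (X0 b)]; exact (h.symm.cfc_real _).symm
      obtain ⟨c9, h9⟩ := hJ.cfc_mem (hX b).1 (wt_cont R 9) (w0 9)
      obtain ⟨w, w1, w2⟩ := hJ.poor (L := L) (hX b).2.2.1 (hX b).2.2.2.1
        (z := wall R 9 (K i) 1 * dg (cfc (wt R 9) (X b)))
        (z' := cfc (rp (1 / 32) 4) (zeta R (K i)) * dg (s b))
        (hJ.Iw_left _ (h9 ▸ dg_mem_Iw c9))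
        ((cs ((z1 i (.inr (.inl (1, b)))).cfc_real _)).mul_nonneg (rp_unit _ _ _).1
          (hom_nonneg _ (s0 b)))
        (by rw [(cs (z2 i (.inr (.inl (1, b))))).symm.mul_mul_mul_comm,
          (zeta_wall R (K i) (by norm_num) (by norm_num)).1, ← map_mul, s1])
        (fun k => Ω i (Fin.castLE (le_max_left _ _) k)) (fun k k' => by
          rw [← mul_assoc, (((K3 i).2.le (le_max_left _ _)) k).2 k', ite_mul, zero_mul])
        fun k => by
          have a1 : Commute (Ω i (Fin.castLE (le_max_left _ _) k)) (dg (D' b)) :=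
            z3 i _ (.inr (.inl (0, b)))
          have a2 : Commute (cfc (rp (1 / 32) 4) (zeta R (K i))) (dg (D' b)) :=
            (z1 i (.inr (.inl (0, b)))).cfc_real _
          rw [← mul_assoc, ← a1.eq, mul_assoc, ← mul_assoc (dg _), ← a2.eq, mul_assoc, ← map_mul,
            unit_cfc (X0 b) (hX b).2.2.2.2 (wt_cont R 1) (w0 1)]
      exact ⟨_, ⟨w, fun n => h _ (w2 n).1 (w2 n).2, w1⟩, fun q => ⟨0, by simp, by simp,
        fun u hu => by rw [hu, mul_zero]⟩⟩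
    · obtain ⟨p, hp⟩ := hG.exists_pt
      obtain ⟨c, hc⟩ := (hp ((cfc (rp (1 / 16) 6) (s' b) - cfc (rp (1 / 16) 6) (s b)) *
        cfc (wt R 9) (X b))).1 (by
          rw [map_mul, map_sub, hom_cfc _ (rp_cont _ _) (s2 b).isSelfAdjoint,
            hom_cfc _ (rp_cont _ _) (s0 b).isSelfAdjoint, map_mul, map_mul, map_sub, (hp e).2 e1,
            map_one, sub_zero, one_mul, mul_one, sub_self, zero_mul])
      refine ⟨_, dg_mem_Iw c, fun q => ?_⟩
      obtain ⟨w, w1, w2, w3⟩ := hM _ _ (zeta_nonneg R (K i)) ((K3 i).2.le (le_max_right _ _))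
        ⟨(b, i, q), h⟩ (z1 i (.inr (.inl (2, b)))) (fun t => z1 i (.inr (.inr (b, i, q, t))))
        fun k => ⟨z3 i _ (.inr (.inl (2, b))), fun t => z3 i _ (.inr (.inr (b, i, q, t)))⟩
      refine ⟨w, w1, fun t => ⟨by
        rw [cf_eq _ ((((hY _).resolve_left h _ _ _).1.1.isSelfAdjoint).map dg)]
        exact (w3 t).2, by
        rw [← (zeta_wall R (K i) (show 8 < 15 by norm_num) (by norm_num)).2, mul_assoc, (w3 t).1,
          mul_zero]⟩, fun u hu => ?_⟩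
      have a1 : Commute (wall R 9 (K i) 1) (cfc (rp (1 / 16) 6) (dg (s' b))) :=
        ((z2 i (.inr (.inl (2, b)))).symm.cfc_real _).symm
      have a2 : cfc (rp (1 / 16) 6) (dg (s' b)) * (dg (cfc (wt R 9) (X b)) * u) =
          dg (cfc (wt R 9) (X b)) * u := by
        rw [hc, sub_mul, cfc_mul_eq_self (s0 b).isSelfAdjoint (s1 b) (rp_cont _ _)
          (rp_one (by norm_num) (by norm_num)), map_sub, sub_mul, sub_eq_zero, map_mul,
          hom_cfc _ (rp_cont _ _) (s2 b).isSelfAdjoint, mul_assoc] at hu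
        exact hu
      have a3 : cfc (rp (1 / 32) 5) (zeta R (K i)) * cfc (rp (1 / 16) 6) (dg (s' b)) *
          (wall R 9 (K i) 1 * (dg (cfc (wt R 9) (X b)) * u)) =
          wall R 9 (K i) 1 * (dg (cfc (wt R 9) (X b)) * u) := by
        rw [a1.symm.mul_mul_mul_comm, a2, (zeta_wall R (K i) (by norm_num) (by norm_num)).1]
      rw [mul_assoc, ← a3, ← mul_assoc, w2]
  choose E E1 w w1 w2 w3 using key
  obtain ⟨t, t1, t2, t0, t3, t4⟩ := hG.tier (ι := τ ⊕ Fin N × Bool) (κ := β × Fin N)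
    (Sum.elim (fun x => dg (T x)) fun y => cond y.2 (uφ (K y.1) 1) (uT (K y.1) 1))
    (fun x => star (E x.1 x.2)) fun x => star_mem (E1 _ _)
  have t5 := sub_mem (one_mem _) t3
  refine ⟨1 - t, norm_le_one_of (sub_nonneg.2 ((CStarAlgebra.norm_le_one_iff_of_nonneg _ t0).1 t1))
    (sub_le_self _ t0), fun x => w x.1 x.2.1 x.2.2.1 x.2.2.2, fun x => norm_le_of_star_mul_le
      zero_le_one ?_, K, fun i x => K1 i (.inl x), ?_, by rwa [sub_sub_cancel],
    Cn_mono (by rintro _ ⟨l, rfl⟩; exact ⟨.inl l, rfl⟩) t5,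
    fun i => ⟨Cn_comm t5 ⟨.inr (i, true), rfl⟩, Cn_comm t5 ⟨.inr (i, false), rfl⟩⟩,
    fun x => w2 _ _ _ _, fun b i q => ⟨w1 b i q, ?_⟩⟩
  · rw [one_pow, map_one]
    exact (Finset.single_le_sum (f := fun t => star (w x.1 x.2.1 x.2.2.1 t) * w x.1 x.2.1 x.2.2.1 t)
      (fun _ _ => star_mul_self_nonneg _) (Finset.mem_univ _)).trans (w1 _ _ _)
  · rw [show (∑ i, uT (K i) 1 - 1) * dg a = (∑ i, uT (K i) 1 - v * v) * dg a by
      rw [sub_mul, sub_mul, mul_assoc, v4 (), v4 (), one_mul]]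
    exact (norm_mul_le _ _).trans ((mul_le_of_le_one_right (norm_nonneg _)
      ((norm_dg _).trans_le a1)).trans K2)
  · rw [x9]
    refine w3 b i q _ ?_
    have := congrArg star (t4 (b, i))
    rw [star_mul, star_star, t0.star_eq] at this
    rw [mul_sub, this, mul_one, sub_self]

theorem TD.fine (hT : TD j) (hj : Idl j) (hI : Ap j N False) (hA : ApA A N') (hJ : Idl jJ)
    (hG : Idl jG) (hJj : ∀ c, ∃ b, j b = jJ c) {τ β P : Type} [Finite τ] [Finite β] [Finite P]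
    (T : τ → A) {a : A} (ha : ∃ c, j c = a) (a1 : ‖a‖ ≤ 1) (D D' X : β → A)
    (Y : β × Fin N × P × Fin N' → A) (L R : ℕ)
    (hX : ∀ b, (∃ c, jJ c = X b) ∧ 0 ≤ X b ∧ D b * D' b = D' b ∧ 0 ≤ D' b ∧
      D' b * X b = X b) (hY : ∀ b, Poor jJ jG L (D b) ∨
        ∀ i q t, Bub (Y (b, i, q, t)) ∧ GenM jG (X b) (Y (b, i, q, t))) :
    Fine jG N N' R (fun t => dg (T t)) (dg a) (fun b => dg (X b)) fun x => dg (Y x) :=
  fineM hT hj hI hA hJ hG hJj T ha a1 D D' X Y L R hX hY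

end Pool.Agent.Lib.MP_30b5b4_an
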