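import Pool.Agent.Lib.MP_30b5b4_an.C.SB3
import Pool.Agent.Lib.MP_30b5b4_an.C.Defs

/-! Fine colours with thin walls. -/

open scoped CStarAlgebra ComplexOrder Topology
open Filter

set_option linter.unusedSectionVars false
set_option linter.style.haveILetI false
set_option linter.unusedVariables false
set_option linter.unusedSimpArgs false
set_option synthInstance.maxSize 1000000

namespace Pool.Agent.Lib.MP_30b5b4_an

universe u v

lemma tent_out {t : ℝ} (h : t ≤ 0 ∨ 1 ≤ t) : tent t = 0 :=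
  cl_of_nonpos (h.elim (fun h => min_le_of_left_le (by linarith))
    fun h => min_le_of_right_le (by linarith))

lemma wg_pt {R : ℕ} {p : ℝ} (p1 : p ≤ 1) (c : Fin R → ℝ) (c0 : ∀ l, 0 ≤ c l) (c1 : ∀ l, c l ≤ 1)
    (h1 : ∀ l, p * c l = c l) (h2 : ∀ l l', l < l' → c l * c l' = c l') :
    wg R ((ms R + 2 * ms R * ∑ l, c l) * p) = ∑ l, tent (c l) := by
  have e : ((ms R + 2 * ms R * ∑ l, c l) * p / ms R - 1) / 2 = (p - 1) / 2 + ∑ l, c l := by
    have : (∑ l, c l) * p = ∑ l, c l := by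
      rw [Finset.sum_mul]; exact Finset.sum_congr rfl fun l _ => by rw [mul_comm, h1]
    have := (ms_pos R).ne'
    field_simp
    linarith
  rw [wg, e, Finset.sum_range]
  refine Finset.sum_congr rfl fun l _ => ?_
  have s : ∑ l, c l = ∑ i ∈ Finset.Iio l, c i + c l + ∑ i ∈ Finset.Ioi l, c i := by
    rw [← Finset.sum_erase_add _ _ (Finset.mem_univ l), add_right_comm,
      ← Finset.sum_union (Finset.disjoint_left.2 fun i a b =>
        lt_asymm (Finset.mem_Iio.1 a) (Finset.mem_Ioi.1 b))]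
    congr 2
    ext i
    simp [lt_or_lt_iff_ne]
  have lo : c l ≠ 0 → p = 1 ∧ ∑ i ∈ Finset.Iio l, c i = l := fun h =>
    ⟨mul_right_cancel₀ h (by rw [h1, one_mul]), by
      rw [Finset.sum_congr rfl fun i hi => mul_right_cancel₀ h
        ((h2 i l (Finset.mem_Iio.1 hi)).trans (one_mul _).symm)]
      simp⟩
  have hi : c l ≠ 1 → ∑ i ∈ Finset.Ioi l, c i = 0 := fun h => Finset.sum_eq_zero fun i hi => by
    have := h2 l i (Finset.mem_Ioi.1 hi)
    exact (mul_eq_zero.1 (show (c l - 1) * c i = 0 by linarith)).resolve_left (sub_ne_zero.2 h)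
  by_cases a0 : c l = 0
  · have : ∑ i ∈ Finset.Iio l, c i ≤ l := by
      simpa using Finset.sum_le_card_nsmul (Finset.Iio l) c 1 fun i _ => c1 i
    rw [a0, tent_zero, tent_out (.inl (by rw [s, a0, hi (by rw [a0]; norm_num)]; linarith))]
  obtain ⟨b1, b2⟩ := lo a0
  by_cases a1 : c l = 1
  · have : 0 ≤ ∑ i ∈ Finset.Ioi l, c i := Finset.sum_nonneg fun i _ => c0 i
    rw [a1, tent_one, tent_out (.inr (by rw [s, a1, b1, b2]; linarith))]
  · rw [s, b1, b2, hi a1]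
    congr 1
    ring

lemma stair_hi (x : ℝ) (R : ℕ) : 2 * ∑ l ∈ Finset.range R, cl (x - (2 * l : ℕ)) ≤ max x 1 + 1 := by
  induction R with
  | zero => simp; positivity
  | succ R ih =>
    rw [Finset.sum_range_succ]
    rcases le_total x (2 * R : ℕ) with h | h
    · rwa [cl_of_nonpos (sub_nonpos.2 h), add_zero]
    · have a1 : ∑ l ∈ Finset.range R, cl (x - (2 * l : ℕ)) ≤ R := by
        simpa using Finset.sum_le_card_nsmul (Finset.range R) _ 1 fun i _ => cl_le_one _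
      have a2 : cl (x - (2 * R : ℕ)) ≤ x - (2 * R : ℕ) := max_le (sub_nonneg.2 h) (min_le_right _ _)
      have a3 := cl_le_one (x - (2 * R : ℕ))
      have a4 := le_max_left x 1
      push_cast at *
      linarith

lemma stair_lo (x : ℝ) (R : ℕ) :
    min (x - 3) (2 * R) ≤ 2 * ∑ l ∈ Finset.range R, cl (x - (2 * l + 2 : ℕ)) := by
  induction R with
  | zero => simp
  | succ R ih =>
    rw [Finset.sum_range_succ]
    rcases le_total (x - 3) (2 * R) with h | h
    · rw [min_eq_left h] at ih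
      exact (min_le_left _ _).trans (by linarith [cl_nonneg (x - (2 * R + 2 : ℕ))])
    · rw [min_eq_right h] at ih
      rw [cl_of_one_le (by push_cast; linarith)]
      exact (min_le_right _ _).trans (by push_cast at *; linarith)

section alg
variable {B : Type u} [CStarAlgebra B] [PartialOrder B] [StarOrderedRing B]

lemma cfc_mono_comm {a b : B} (ha : IsSelfAdjoint a) (hb : IsSelfAdjoint b) (hab : a ≤ b)
    (hc : Commute a b) {f : ℝ → ℝ} (hf : Continuous f) (hm : Monotone f) : cfc f a ≤ cfc f b := by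
  obtain ⟨X, _, _, ρ, k, J, hk, -⟩ := exists_jc ![a, b]
    (by simp [Fin.forall_fin_two, ha, hb]) (by simp [Fin.forall_fin_two, hc, hc.symm])
  have fa : ρ (k 0) = a := hk 0
  have fb : ρ (k 1) = b := hk 1
  have p1 : ∀ t, k 0 t ≤ k 1 t := fun t => sub_nonneg.1 ((J.pos (k 1 - k 0)).1 (by
    rw [map_sub, fa, fb]; exact sub_nonneg.2 hab) t)
  rw [← fa, ← fb, J.cfc (k 1) ⟨fun t => f (k 1 t), by fun_prop⟩ f hf fun _ => rfl,
    J.cfc (k 0) ⟨fun t => f (k 0 t), by fun_prop⟩ f hf fun _ => rfl, ← sub_nonneg, ← map_sub]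
  exact (J.pos _).2 fun t => sub_nonneg.2 (hm (p1 t))

lemma rp_mono {δ : ℝ} (hδ : 0 < δ) (m : ℕ) : Monotone (rp δ m) := fun s t h =>
  max_le_max le_rfl (min_le_min le_rfl (by gcongr))

lemma wg_nested {R : ℕ} {p : B} (p0 : 0 ≤ p) (p1 : p ≤ 1) (C : Fin R → B) (c0 : ∀ l, 0 ≤ C l)
    (c1 : ∀ l, C l ≤ 1) (h1 : ∀ l, p * C l = C l) (h2 : ∀ l l', l < l' → C l * C l' = C l') :
    cfc (wg R) ((ms R • 1 + (2 * ms R) • ∑ l, C l) * p) = ∑ l, cfc tent (C l) := by
  have cs := fun l => (c0 l).isSelfAdjoint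
  have k1 : ∀ l, Commute p (C l) := fun l =>
    (h1 l).trans (mul_comm_of_sa p0.isSelfAdjoint (cs l) (cs l) (h1 l)).symm
  have k2 : ∀ l l', l < l' → Commute (C l) (C l') := fun l l' h =>
    (h2 l l' h).trans (mul_comm_of_sa (cs l) (cs l') (cs l') (h2 l l' h)).symm
  obtain ⟨X, _, _, ρ, k, J, hk, -⟩ := exists_jc (fun o : Option (Fin R) => o.elim p C)
    (by rintro (_ | l); exacts [p0.isSelfAdjoint, cs l]) (by
      rintro (_ | l) (_ | l')
      exacts [.refl _, k1 l', (k1 l).symm, (lt_trichotomy l l').elim (k2 l l') fun h =>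
        h.elim (fun h => h ▸ .refl _) fun h => (k2 l' l h).symm])
  have fp : ρ (k none) = p := hk none
  have fc : ∀ l, ρ (k (some l)) = C l := fun l => hk (some l)
  have inj : ∀ f g : C(X, ℝ), ρ f = ρ g → ∀ t, f t = g t := fun f g h t => le_antisymm
    (sub_nonneg.1 ((J.pos (g - f)).1 (by rw [map_sub, h, sub_self]) t))
    (sub_nonneg.1 ((J.pos (f - g)).1 (by rw [map_sub, h, sub_self]) t))
  have le : ∀ f : C(X, ℝ), ρ f ≤ 1 → ∀ t, f t ≤ 1 := fun f h t =>
    sub_nonneg.1 ((J.pos (1 - f)).1 (by rwa [map_sub, map_one, sub_nonneg]) t)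
  have e : (ms R • 1 + (2 * ms R) • ∑ l, C l) * p =
      ρ ((ms R • 1 + (2 * ms R) • ∑ l, k (some l)) * k none) := by
    simp only [map_mul, map_add, map_smul, map_one, map_sum, fp, fc]
  rw [e, J.cfc _ (∑ l, ⟨fun t => tent (k (some l) t), by fun_prop⟩) _ (wg_cont R) fun t => ?_,
    map_sum]
  · exact Finset.sum_congr rfl fun l _ => (J.cfc _ _ _ tent_cont fun _ => rfl).symm.trans
      (by rw [fc])
  · simpa using (wg_pt (le _ (fp ▸ p1) t) (fun l => k (some l) t)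
      (fun l => (J.pos _).1 (fc l ▸ c0 l) t) (fun l => le _ (fc l ▸ c1 l) t)
      (fun l => inj (k none * k (some l)) _ (by rw [map_mul, fp, fc, h1]) t)
      fun l l' h => inj (k (some l) * k (some l')) _ (by rw [map_mul, fc, fc, h2 l l' h]) t).symm

lemma fine_alg {F : Type*} [CStarAlgebra F] {φ : F →ₗ[ℂ] B} (h : OZ φ) (h1 : φ 1 ≤ 1) {R : ℕ}
    (C : Fin R → B) (hC : ∀ l : Fin R, 0 ≤ C l ∧ C l ≤ 1 ∧
      cfc (rp (ms R) (2 * l)) (φ 1) * C l = C l ∧
      C l * cfc (rp (ms R) (2 * l + 2)) (φ 1) = cfc (rp (ms R) (2 * l + 2)) (φ 1) ∧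
      ∀ y, Commute (C l) (piM φ (ms R) y)) :
    ∃ G : B, 0 ≤ G ∧ G ≤ 1 ∧ (∀ y, Commute G (piM φ (ms R) y)) ∧
      cfc (wg R) (G * piM φ (ms R) 1) = ∑ l, cfc tent (C l) ∧
      ∀ y, ‖G * piM φ (ms R) y - φ y‖ ≤ 2 * ms R * ‖y‖ := by
  have θ0 := ms_pos R
  have θ1 : ms R * (2 * R + 1) = 1 := by rw [ms]; field_simp
  have i0 := h.cp.one_nonneg
  have gc := Gf_cont θ0
  have tier : ∀ m m', m ≤ m' → ∀ x : B, x * cfc (rp (ms R) m) (φ 1) = cfc (rp (ms R) m) (φ 1) →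
      ∀ y, cfc (rp (ms R) m') (φ 1) * y = y → x * y = y := fun m m' hm x hx y hy => by
    rcases hm.eq_or_lt with rfl | hm
    · rw [← hy, ← mul_assoc, hx]
    · rw [← hy, ← rp_tier hm, mul_assoc, ← mul_assoc x, hx]
  have p0 : piM φ (ms R) 1 = cfc (rp (ms R) 0) (φ 1) := by
    rw [piM, cfc_mul_id gc i0.isSelfAdjoint]
    refine cfc_congr fun t ht => ?_
    have t0 := spectrum_nonneg_of_nonneg i0 ht
    simp only [rp, Nat.cast_zero, sub_zero, Gf, cl]
    rcases le_total t (ms R) with a | a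
    · rw [max_eq_right a, min_eq_right ((div_le_one θ0).2 a), max_eq_right (by positivity),
        inv_mul_eq_div]
    · rw [max_eq_left a, min_eq_left ((one_le_div θ0).2 a), max_eq_right zero_le_one,
        inv_mul_cancel₀ (θ0.trans_le a).ne']
  have up : ∀ l : Fin R, C l ≤ cfc (rp (ms R) (2 * l)) (φ 1) := fun l => by
    have c : Commute (cfc (rp (ms R) (2 * l)) (φ 1)) (C l) := (hC l).2.2.1.trans
      (mul_comm_of_sa .cfc (hC l).1.isSelfAdjoint (hC l).1.isSelfAdjoint (hC l).2.2.1).symm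
    have := Commute.mul_nonneg (rp_unit (ms R) (2 * l) (φ 1)).1 (sub_nonneg.2 (hC l).2.1)
      ((Commute.one_right _).sub_right c)
    rwa [mul_sub, mul_one, (hC l).2.2.1, sub_nonneg] at this
  have dn : ∀ l : Fin R, cfc (rp (ms R) (2 * l + 2)) (φ 1) ≤ C l := fun l => by
    have c : Commute (C l) (cfc (rp (ms R) (2 * l + 2)) (φ 1)) := (hC l).2.2.2.1.trans
      (mul_comm_of_sa (hC l).1.isSelfAdjoint .cfc .cfc (hC l).2.2.2.1).symm
    have := Commute.mul_nonneg (hC l).1 (sub_nonneg.2 (rp_unit (ms R) (2 * l + 2) (φ 1)).2)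
      ((Commute.one_right _).sub_right c)
    rwa [mul_sub, mul_one, (hC l).2.2.2.1, sub_nonneg] at this
  have st : ∀ (r : ℝ) (n : ℕ → ℕ), r • 1 + (2 * ms R) • ∑ l : Fin R, cfc (rp (ms R) (n l)) (φ 1) =
      cfc (fun t => r + 2 * ms R * ∑ l ∈ Finset.range R, rp (ms R) (n l) t) (φ 1) := fun r n => by
    rw [cfc_const_add _ _ _ (by fun_prop), cfc_const_mul _ _ _ (by fun_prop),
      Algebra.algebraMap_eq_smul_one, ← cfc_sum_univ _ _ fun _ => by fun_prop]
    simp only [Finset.sum_range]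
    congr 3
    ext t
    simp
  have S0 : 0 ≤ ∑ l, C l := Finset.sum_nonneg fun l _ => (hC l).1
  have G0 : 0 ≤ ms R • (1 : B) + (2 * ms R) • ∑ l, C l :=
    add_nonneg (smul_nonneg θ0.le zero_le_one) (smul_nonneg (by positivity) S0)
  refine ⟨_, G0, ?_, fun y => ((Commute.one_left _).smul_left _).add_left
    ((Commute.sum_left _ _ _ fun l _ => (hC l).2.2.2.2 y).smul_left _), ?_, fun y => ?_⟩
  · have : ∑ l, C l ≤ (R : ℝ) • 1 := by
      simpa [Nat.cast_smul_eq_nsmul] using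
        Finset.sum_le_card_nsmul Finset.univ C 1 fun l _ => (hC l).2.1
    calc _ ≤ ms R • (1 : B) + (2 * ms R) • (R : ℝ) • 1 := by gcongr
      _ = 1 := by rw [smul_smul, ← add_smul, show ms R + 2 * ms R * R = 1 by linarith, one_smul]
  · rw [p0]
    exact wg_nested (rp_unit _ _ _).1 (rp_unit _ _ _).2 C (fun l => (hC l).1) (fun l => (hC l).2.1)
      (fun l => by
        rcases Nat.eq_zero_or_pos (2 * l) with a | a
        · rw [← a, (hC l).2.2.1]
        · rw [← (hC l).2.2.1, ← mul_assoc, rp_tier a])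
      fun l l' hl => tier _ _ (by omega) _ (hC l).2.2.2.1 _ (hC l').2.2.1
  · have e : φ y = cfc (fun t => max t (ms R)) (φ 1) * piM φ (ms R) y := by
      rw [piM, ← mul_assoc, cfc_mul' (by fun_prop) gc]
      simp only [Gf, fun t => mul_inv_cancel₀ (θ0.trans_le (le_max_right t _)).ne']
      rw [cfc_const_one ℝ (φ 1), one_mul]
    rw [e, ← sub_mul]
    refine (norm_mul_le _ _).trans (mul_le_mul ?_ (piM_norm h θ0 y) (norm_nonneg _)
      (by positivity))
    have mx : ∀ t, max t (ms R) = ms R * max (t / ms R) 1 := fun t => by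
      rw [mul_max_of_nonneg _ _ θ0.le, mul_one, mul_div_cancel₀ _ θ0.ne']
    refine norm_le_of_sa (G0.isSelfAdjoint.sub .cfc) (by positivity) ?_ ?_
    · rw [sub_le_iff_le_add, ← cfc_const_add _ _ _ (by fun_prop)]
      refine le_trans ?_ ((st (ms R) fun l => 2 * l).le.trans
        (cfc_mono (fun t _ => ?_) (by fun_prop) (by fun_prop)))
      · gcongr with l
        exact up l
      · have := mul_le_mul_of_nonneg_left (stair_hi (t / ms R) R) θ0.le
        simp only [rp, mx]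
        linarith
    · rw [le_sub_iff_add_le, ← cfc_const_add _ _ _ (by fun_prop)]
      refine le_trans ((cfc_mono (fun t ht => ?_) (by fun_prop) (by fun_prop)).trans
        (st (ms R) fun l => 2 * l + 2).ge) ?_
      · have t1 : t / ms R ≤ 2 * R + 1 := by
          rw [div_le_iff₀ θ0]; linarith [(spec_mem i0 h1 ht).2]
        have a1 := stair_lo (t / ms R) R
        rw [min_eq_left (by linarith)] at a1
        have a2 : 0 ≤ ∑ l ∈ Finset.range R, cl (t / ms R - (2 * l + 2 : ℕ)) :=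
          Finset.sum_nonneg fun l _ => cl_nonneg _
        have a3 : max (t / ms R) 1 ≤ 3 + 2 * ∑ l ∈ Finset.range R, cl (t / ms R - (2 * l + 2 : ℕ)) :=
          max_le (by linarith) (by linarith)
        have := mul_le_mul_of_nonneg_left a3 θ0.le
        simp only [rp, mx]
        linarith
      · gcongr with l
        exact dn l

lemma rn_step2 {ι : Type*} [Fintype ι] (Θ : ι → B →ₗ[ℂ] B) (h : ∀ i, IsCP (Θ i)) {b e : B}
    (c : Commute e (star b)) (h1 : ∑ i, Θ i 1 = e) (h2 : ∑ i, Θ i b = e * b)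
    (h3 : ∑ i, Θ i (star b) = e * star b) (h4 : ∑ i, Θ i (star b * b) = e * (star b * b)) (i : ι)
    (x : B) : Θ i (x * b) = Θ i x * b := by
  have h5 := (Finset.sum_eq_zero_iff_of_nonneg
    (fun i (_ : i ∈ Finset.univ) => (h i).two b 1 1 (-b))).1 (by
      simp only [Finset.sum_add_distrib, star_one, one_mul, mul_one, ← Finset.sum_mul,
        ← Finset.mul_sum, h1, h2, h3, h4, star_neg, mul_neg, neg_mul, neg_neg,
        Finset.sum_neg_distrib, ← mul_assoc, c.eq]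
      abel) i (Finset.mem_univ i)
  simpa [add_neg_eq_zero] using (h i).null h5 x

end alg

variable {I : Type*} {A : Type u} [NonUnitalCStarAlgebra I] [PartialOrder I] [StarOrderedRing I]
  [CStarAlgebra A] [PartialOrder A] [StarOrderedRing A] {j : I →⋆ₙₐ[ℂ] A} {N N' : ℕ}

theorem Ap.ultraC {p : Prop} (h : Ap j N p) (hj : Idl j) {v : UA A} (hv : v ∈ Iw j) (v0 : 0 ≤ v)
    (v1 : v ≤ 1) {τ : Type} [Finite τ] (T : τ → UA A) (hc : v ∈ Cn (Set.range T)) :
    ∃ K : Fin N → ℕ → CA A, (∀ i k x, ∃ b, j b = (K i k).φ x) ∧ (∀ i t, T t ∈ VS (K i)) ∧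
      ∑ i, uT (K i) 1 = v * v := by
  haveI := Fintype.ofFinite τ
  obtain ⟨w, w1, w2, w3, rfl⟩ := hj.unit_lift hv v0 v1
  obtain ⟨K, K1, K2, -⟩ := h.ultra0 hj w1 w2 w3 (fun o : Option (τ × Fin 4) => o.elim 1 fun q =>
    ![T q.1, star (T q.1), star (T q.1) * T q.1, T q.1 * star (T q.1)] q.2)
  have c := fun t => mem_Cn.1 hc _ ⟨t, rfl⟩
  have e : ∀ x : UA A, Commute x (Ult.mk w) → Ult.mk w * x * Ult.mk w = Ult.mk w * Ult.mk w * x :=
    fun x hx => by rw [mul_assoc, hx.eq, mul_assoc]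
  have k0 : ∑ i, uT (K i) 1 = Ult.mk w * Ult.mk w := by simpa using K2 none
  have k1 := fun t => (K2 (some (t, 0))).trans (e _ (c t).1)
  have k2 := fun t => (K2 (some (t, 1))).trans (e _ (c t).2)
  have k3 := fun t => (K2 (some (t, 2))).trans (e _ ((c t).2.mul_left (c t).1))
  have k4 := fun t => (K2 (some (t, 3))).trans (e _ ((c t).1.mul_left (c t).2))
  refine ⟨K, K1, fun i t x => ⟨rn_step2 _ (fun i => uT_cp (K i))
    ((c t).2.symm.mul_left (c t).2.symm) k0 (k1 t) (k2 t) (k3 t) i x, ?_⟩, k0⟩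
  have := congrArg star (rn_step2 _ (fun i => uT_cp (K i)) (b := star (T t))
    (by rw [star_star]; exact (c t).1.symm.mul_left (c t).1.symm) k0 (k2 t)
    (by rw [star_star]; exact k1 t) (by rw [star_star]; exact k4 t) i (star x))
  rwa [← (uT_cp _).map_star, star_mul, star_mul, ← (uT_cp _).map_star, star_star, star_star] at this

/-- an order zero map into the ultrapower comes from a sequence of colours -/
lemma recolour (c : CA A) {Φ : c.F →ₗ[ℂ] UA A} (h : OZ Φ) (h1 : Φ 1 ≤ 1) {ι : Type} [Finite ι]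
    (s : ι → A) : ∃ d : ℕ → CA A, uφ d 1 = Φ 1 ∧ ∀ i, uT d (dg (s i)) = Φ (c.ψ (s i)) := by
  have := saturate (fun p : UA A × (Option ι → UA A) => ∃ d : ℕ → CA A, ∀ o : Option ι,
    Sml ((‖o.elim 1 fun i => c.ψ (s i)‖ ^ 2) • p.1)
      (o.elim (uφ d 1) (fun i => uT d (dg (s i))) - p.2 o))
    (fun o => Φ (o.elim 1 fun i => c.ψ (s i))) fun ε h0 h2 => by
      obtain ⟨χ, a1, a2, -, a4⟩ := exists_oz_lift Ult.mk (S := ⊤) (by simp) h h1
        (fun x => (Ult.surj _).imp fun y hy => ⟨trivial, hy⟩) h0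
      let d : ℕ → CA A := fun k =>
        { F := c.F, ψ := c.ψ, φ := lin (Bdd.ev k) ∘ₗ χ, cp := c.cp, le := c.le
          oz := a1.map (Bdd.ev k) fun _ => rfl
          one := by simpa using hom_mono (Bdd.ev k) a2
          mem := fun x => ⟨_, rfl⟩ }
      refine ⟨d, fun o => ?_⟩
      have e : o.elim (uφ d 1) (fun i => uT d (dg (s i))) =
          Ult.mk (χ (o.elim 1 fun i => c.ψ (s i))) := by
        cases o
        · exact (uφ_one_eq d).trans (congrArg _ (Bdd.ext fun k => rfl))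
        · exact (uT_mk d _).trans (congrArg _ (Bdd.ext fun k => rfl))
      refine CStarAlgebra.star_mul_le_algebraMap_norm_sq.trans ?_
      rw [Algebra.algebraMap_eq_smul_one, smul_smul, e]
      refine smul_le_smul_of_nonneg_right ((pow_le_pow_left₀ (norm_nonneg _) (a4 _) 2).trans ?_)
        zero_le_one
      rw [mul_pow, mul_comm]
      gcongr
      nlinarith
  obtain ⟨d, hd⟩ := this
  have k := fun o => sub_eq_zero.1 (eq_zero_of_star_mul_self_nonpos
    ((hd o).trans (smul_zero _).le))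
  exact ⟨d, k none, fun i => k (some i)⟩

instance Clo.cop {Γ : Type v} [Env Γ] {M : ℕ} (t t' : Γ → UA A) [Nt t] [Nt t']
    (V : Γ → Fin M → UA A) [∀ k, Nt fun g => V g k] : Clo fun g => Cop (t g) (t' g) (V g) := by
  refine Clo.of_iff (Q := fun g => ∀ k, t g * V g k = 0 ∧ star (V g k) * V g k * t' g = t' g ∧
    ∀ k', k ≠ k' → star (V g k) * V g k' * t' g = 0) fun g => forall_congr' fun k =>
      and_congr_right fun _ => ⟨fun h => ⟨by simpa using h k, fun k' hk => by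
        simpa [hk] using h k'⟩, fun h k' => ?_⟩
  split_ifs with hk
  exacts [hk ▸ h.1, h.2 k' hk]

/-- the colour `K` recoloured so that its walls have `M` copies -/
def FQ {ι : Type} (R M : ℕ) (x : ι → UA A) (K : ℕ → CA A) : Prop :=
  ∃ G : UA A, ‖G‖ ≤ 1 ∧ ∃ V : Fin M → UA A, (∀ m, ‖V m‖ ≤ 1) ∧ ∃ d : ℕ → CA A, 0 ≤ G ∧
    (∀ o : Option ι, uT d (o.elim 1 x) = G * PT K (ms R) (o.elim 1 x) ∧
      Commute G (PT K (ms R) (o.elim 1 x)) ∧ ∀ m, Commute (V m) (PT K (ms R) (o.elim 1 x))) ∧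
    ‖uT d 1 - uT K 1‖ ≤ 2 * ms R ∧
    Cop (cf (wg R) (uφ d 1)) (cf (rp (1 / 32) 4) (cf (wg R) (uφ d 1))) V

lemma FQ.clo {ι : Type} [Finite ι] (R M : ℕ) :
    Clo fun g : (ι → UA A) × (ℕ → CA A) => FQ R M g.1 g.2 := by
  haveI : Fact (Continuous (rp (1 / 32) 4)) := ⟨rp_cont _ _⟩
  haveI : Fact (Continuous (Gf (ms R))) := ⟨Gf_cont (ms_pos R)⟩
  unfold FQ; infer_instance

lemma TD.fq (hT : TD j) (hj : Idl j) (hA : ApA A N') (c : CA A) (hc : ∀ x, ∃ b, j b = c.φ x)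
    {ι : Type} [Finite ι] (s : ι → A) (R M : ℕ) : FQ R M (fun i => dg (s i)) fun _ => c := by
  have θ0 := ms_pos R
  obtain ⟨C, -, V, V1, h1, h2, h3⟩ := hT.sb1 hj hA c hc θ0 le_rfl R M
  have o := cφ_oz c
  have o1 : cφ c 1 ≤ 1 := (hom_mono dg c.one).trans (map_one dg).le
  have cm : ∀ z : UA A, (∀ y, Commute z (cf (Gf (ms R)) (uφ (fun _ => c) 1) * uφ (fun _ => c) y)) →
      ∀ y, Commute z (piM (cφ c) (ms R) y) := fun z hz y => by
    have := hz (dg y)
    rwa [cf_const, uφ_const] at this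
  obtain ⟨G, G0, G1, G2, G3, G4⟩ := fine_alg o o1 C fun l => ⟨(h1 l).1, (h1 l).2.1,
    cf_const _ c ▸ (h1 l).2.2.1, cf_const _ c ▸ (h1 l).2.2.2.1, cm _ (h1 l).2.2.2.2⟩
  have o2 : OZ (LinearMap.mulLeft ℂ (cfc (Gf (ms R)) (cφ c 1)) ∘ₗ cφ c) :=
    o.mulLeft (cfc_nonneg fun _ _ => Gf_nonneg θ0) (fun x => (o.commute x).cfc_real _) fun _ => rfl
  have o3 : OZ (LinearMap.mulLeft ℂ G ∘ₗ LinearMap.mulLeft ℂ (cfc (Gf (ms R)) (cφ c 1)) ∘ₗ cφ c) :=
    o2.mulLeft G0 G2 fun _ => rfl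
  obtain ⟨d, d1, d2⟩ := recolour c o3 (mul_unit G0 G1 o2.cp.one_nonneg (le_one_of_norm
    o2.cp.one_nonneg ((piM_norm o θ0 1).trans (norm_one_le' _))) (G2 1)).2
    fun o : Option ι => o.elim 1 s
  have e : ∀ o : Option ι, (o.elim 1 fun i => dg (s i) : UA A) = dg (o.elim 1 s) := by
    rintro (_ | i)
    exacts [(map_one dg).symm, rfl]
  refine ⟨G, norm_le_one_of G0 G1, V, V1, d, G0, fun o => ?_, ?_, ?_⟩
  · rw [e, PT_const]
    exact ⟨d2 o, G2 _, fun m => cm _ (h2 m) _⟩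
  · rw [← map_one dg, uT_const]
    exact ((congrArg (fun x => ‖x - _‖) (d2 none)).le.trans (G4 _)).trans
      (mul_le_of_le_one_right (by positivity) ((c.le 1).trans (norm_one_le' _)))
  · rw [cf_uφ, d1]
    simp only [cf_eq _ (h1 _).1.isSelfAdjoint] at h3
    exact G3 ▸ h3

theorem TD.fineK (hT : TD j) (hj : Idl j) (hI : Ap j N False) (hA : ApA A N') {v : UA A}
    (hv : v ∈ Iw j) (v0 : 0 ≤ v) (v1 : v ≤ 1) {τ : Type} [Finite τ] (T : τ → UA A)
    (hc : v ∈ Cn (Set.range T)) (R M : ℕ) :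
    ∃ (K : Fin N → ℕ → CA A) (Ω : Fin N → Fin M → UA A), (∀ i t, T t ∈ VS (K i)) ∧
      ‖∑ i, uT (K i) 1 - v * v‖ ≤ N * (2 * ms R) ∧ ∀ i, (∀ m, Ω i m ∈ Cn (Set.range T)) ∧
        Cop (zeta R (K i)) (cfc (rp (1 / 32) 4) (zeta R (K i))) (Ω i) := by
  obtain ⟨K, K1, K2, K3⟩ := hI.ultraC hj hv v0 v1 T hc
  obtain ⟨x, hx⟩ : ∃ x : τ × Fin 4 → UA A, ∀ t, x (t, 0) = T t ∧ x (t, 1) = star (T t) ∧
      x (t, 2) = star (T t) * T t ∧ x (t, 3) = T t * star (T t) :=
    ⟨fun q => ![T q.1, star (T q.1), star (T q.1) * T q.1, T q.1 * star (T q.1)] q.2,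
      fun t => ⟨rfl, rfl, rfl, rfl⟩⟩
  choose s hs using fun q => Ult.surj (x q)
  haveI := FQ.clo (A := A) (ι := τ × Fin 4) R M
  have θ0 := ms_pos R
  have θ1 : ms R ≤ 1 := by
    rw [ms, div_le_one (by positivity)]
    linarith [(Nat.cast_nonneg R : (0 : ℝ) ≤ R)]
  have fq : ∀ i, FQ R M x (K i) := fun i => funext hs ▸ transfer
    (fun g : (τ × Fin 4 → UA A) × (ℕ → CA A) => FQ R M g.1 g.2)
    ((Stage.pi fun q => Stage.mk (s q)).prod (Stage.col (K i)))
    (Eventually.of_forall fun k => hT.fq hj hA (K i k) (K1 i k) _ R M)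
  choose G G1 V V1 d G0 d1 d2 d3 using fq
  have w : ∀ i q, Vis (K i) (x q) := fun i q => by
    obtain ⟨t, m⟩ := q
    fin_cases m
    exacts [(hx t).1 ▸ .of_VS (K2 i t), (hx t).2.1 ▸ .of_VS (star_mem (K2 i t)),
      (hx t).2.2.1 ▸ .of_VS (mul_mem (star_mem (K2 i t)) (K2 i t)),
      (hx t).2.2.2 ▸ .of_VS (mul_mem (K2 i t) (star_mem (K2 i t)))]
  have e0 : ∀ i, uT (d i) 1 = G i * sh (K i) (ms R) := fun i => PT_one (K i) ▸ (d1 i none).1
  have c0 : ∀ i, Commute (G i) (sh (K i) (ms R)) := fun i => PT_one (K i) ▸ (d1 i none).2.1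
  have c1 : ∀ i m, Commute (V i m) (sh (K i) (ms R)) := fun i m =>
    PT_one (K i) ▸ (d1 i none).2.2 m
  have d5 : ∀ i q, uT (d i) (x q) = G i * (sh (K i) (ms R) * x q) ∧
      Commute (G i) (sh (K i) (ms R) * x q) ∧ ∀ m, Commute (V i m) (sh (K i) (ms R) * x q) :=
    fun i q => (w i q).PT_eq ▸ d1 i (some q)
  have e1 : ∀ i q, Vis (d i) (x q) := fun i q => ⟨by rw [(d5 i q).1, e0, mul_assoc], by
    have : Commute (sh (K i) (ms R)) (x q) := (w i q).commute _
    rw [(d5 i q).1, (d5 i q).2.1.eq, e0, (c0 i).eq, this.eq, mul_assoc]⟩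
  refine ⟨d, fun i m => V i m * cfc (rp (ms R ^ 3 / 64) 1) (sh (K i) (ms R)),
    fun i t => mem_VS_iff.2 ⟨(hx t).1 ▸ e1 i (t, 0), (hx t).2.2.1 ▸ (e1 i (t, 2)).1,
      (hx t).2.2.2 ▸ (e1 i (t, 3)).1⟩, ?_, fun i => ⟨fun m => mem_Cn.2 ?_, ?_⟩⟩
  · rw [← K3, ← Finset.sum_sub_distrib]
    simpa using norm_sum_le_of_le Finset.univ fun i _ => d2 i
  · rintro _ ⟨t, rfl⟩
    have k := fun n => ((w i (t, n)).lemA (c1 i m) ((d5 i (t, n)).2.2 m)
      (show 0 < ms R ^ 3 / 64 by positivity)).symm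
    exact ⟨(hx t).1 ▸ k 0, (hx t).2.1 ▸ k 1⟩
  · have s0 : 0 ≤ sh (K i) (ms R) := (uT_cp _).one_nonneg.trans (le_sh _ θ0 θ1)
    have k0 := (uT_cp (d i)).one_nonneg
    have k1 : uT (d i) 1 ≤ sh (K i) (ms R) := by
      rw [e0, ← sub_nonneg, ← one_sub_mul]
      exact Commute.mul_nonneg (sub_nonneg.2 (le_one_of_norm (G0 i) (G1 i))) s0
        ((Commute.one_left _).sub_left (c0 i))
    have k2 : cfc (rp (ms R ^ 3 / 64) 1) (sh (K i) (ms R)) * cfc (wt R 1) (uT (d i) 1) =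
        cfc (wt R 1) (uT (d i) 1) := by
      have := cfc_orth_of_le k0.isSelfAdjoint s0.isSelfAdjoint k1
        (e0 i ▸ (c0 i).mul_left (.refl _)) (f := fun t => 1 - rp (ms R ^ 3 / 64) 1 t)
        (by fun_prop) (wt_cont R 1) (θ := ms R ^ 3 / 32)
        (fun t ht => by rw [rp_one (by positivity) (by push_cast; linarith), sub_self])
        fun t ht => cl_of_nonpos (by
          rw [sub_nonpos, div_le_iff₀ (by positivity)]; simpa using ht)
      rw [cfc_sub _ _ _ (by fun_prop) (by fun_prop), cfc_const_one ℝ _] at this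
      exact unit_of_kill this
    have g0 : 0 ≤ cfc (wg R) (uφ (d i) 1) :=
      cfc_nonneg fun t _ => Finset.sum_nonneg fun l _ => cl_nonneg _
    have g1 : Commute (cfc (wg R) (uφ (d i) 1)) (cfc (wt R 1) (uT (d i) 1)) :=
      ((((uφ_oz _).commute _).cfc_real _).symm.cfc_real _).symm
    have t0 : 0 ≤ cfc (wt R 1) (uT (d i) 1) ∧ cfc (wt R 1) (uT (d i) 1) ≤ 1 := rp_unit _ _ _
    have z0 := Commute.mul_nonneg g0 t0.1 g1
    have z1 : cfc (wg R) (uφ (d i) 1) * cfc (wt R 1) (uT (d i) 1) ≤ cfc (wg R) (uφ (d i) 1) := by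
      rw [← sub_nonneg, ← mul_one_sub]
      exact Commute.mul_nonneg g0 (sub_nonneg.2 t0.2) ((Commute.one_right _).sub_right g1)
    have z2 := cfc_mono_comm z0.isSelfAdjoint g0.isSelfAdjoint z1
      ((Commute.refl _).mul_left g1.symm) (rp_cont (1 / 32) 4) (rp_mono (by norm_num) 4)
    have z3 := unit_cfc z0.isSelfAdjoint (a := cfc (rp (ms R ^ 3 / 64) 1) (sh (K i) (ms R)))
      (by rw [g1.eq, ← mul_assoc, k2]) (rp_cont (1 / 32) 4) (rp_at_zero _ _)
    have d4 := d3 i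
    rw [cf_uφ, cf_eq _ .cfc] at d4
    rw [zeta, cf_uφ, cf_eq _ k0.isSelfAdjoint]
    refine fun m => ⟨by rw [g1.eq, mul_assoc, ← mul_assoc _ (V i m), (d4 m).1, zero_mul, mul_zero],
      fun m' => ?_⟩
    have z4 : (star (V i m) * V i m' - if m = m' then 1 else 0) * cfc (rp (1 / 32) 4)
        (cfc (wg R) (uφ (d i) 1) * cfc (wt R 1) (uT (d i) 1)) = 0 :=
      mul_eq_zero_of_le_smul' (r := 1) (rp_unit _ _ _).1 (z2.trans (one_smul ℝ _).ge) (by
        rw [sub_mul, (d4 m).2]; split_ifs <;> simp)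
    rw [sub_mul, sub_eq_zero] at z4
    rw [star_mul, IsSelfAdjoint.cfc.star_eq, mul_assoc, mul_assoc (V i m'), z3, mul_assoc,
      ← mul_assoc (star _), z4]
    split_ifs
    · rw [one_mul, z3]
    · rw [zero_mul, mul_zero]

end Pool.Agent.Lib.MP_30b5b4_an
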