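import Pool.Agent.Lib.MP_30b5b4_an.S3

/-! Absorption along affine levels. -/

open scoped CStarAlgebra ComplexOrder Topology
open Filter

set_option linter.unusedSectionVars false
set_option linter.style.haveILetI false
set_option linter.unusedVariables false
set_option linter.unusedSimpArgs false
set_option synthInstance.maxSize 1000000

namespace Pool.Agent.Lib.MP_30b5b4_an

universe u v

section diag
variable {R : Type*} [Ring R] [StarRing R] {ι : Type*} [Fintype ι]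

/-- diagonal element with entry `x` in the base corner and `y k` in the corner of `v k` -/
def lvD (v : ι → R) (x : R) (y : ι → R) : R := x + ∑ k, v k * y k * star (v k)

variable {v : ι → R}

lemma lvD_mul_base {x z : R} {y : ι → R} (hz : ∀ k, Sm (v k) z) : lvD v x y * z = x * z := by
  rw [lvD, add_mul, Finset.sum_mul, Finset.sum_eq_zero fun k _ => by
    rw [mul_assoc, (hz k).rules.2.1, mul_zero], add_zero]

lemma lvD_mul_v (h3 : ∀ k l, k ≠ l → star (v k) * v l = 0) {x z : R} {y : ι → R} {k : ι}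
    (hx : Sm (v k) x) (hz : Sm (v k) z) : lvD v x y * (v k * z) = v k * (y k * z) := by
  rw [lvD, add_mul, hx.rules.1, zero_add, Finset.sum_mul,
    Finset.sum_eq_single k (fun l _ hl => by
      rw [mul_assoc, ← mul_assoc (star (v l)), h3 l k hl, zero_mul, mul_zero]) (by simp),
    mul_assoc, hz.rules.2.2.2.1, mul_assoc]

lemma lvD_mul (h3 : ∀ k l, k ≠ l → star (v k) * v l = 0) {x x' : R} {y y' : ι → R}
    (hx : ∀ k, Sm (v k) x) (hx' : ∀ k, Sm (v k) x') (hy' : ∀ k, Sm (v k) (y' k)) :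
    lvD v x y * lvD v x' y' = lvD v (x * x') fun k => y k * y' k := by
  conv_lhs => rw [lvD.eq_def v x', mul_add, lvD_mul_base hx', Finset.mul_sum]
  rw [lvD.eq_def v (x * x')]
  congr 1
  refine Finset.sum_congr rfl fun k _ => ?_
  rw [← mul_assoc, lvD_mul_v h3 (hx k) (hy' k)]

lemma lvD_star {x : R} {y : ι → R} (hx : star x = x) (hy : ∀ k, star (y k) = y k) :
    star (lvD v x y) = lvD v x y := by
  simp only [lvD, star_add, star_sum, star_mul, star_star, hx, hy, mul_assoc]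

lemma lvD_add (x x' : R) (y y' : ι → R) :
    lvD v x y + lvD v x' y' = lvD v (x + x') fun k => y k + y' k := by
  simp only [lvD, mul_add, add_mul, Finset.sum_add_distrib]; abel

lemma lvD_sub (x x' : R) (y y' : ι → R) :
    lvD v x y - lvD v x' y' = lvD v (x - x') fun k => y k - y' k := by
  simp only [lvD, mul_sub, sub_mul, Finset.sum_sub_distrib]; abel

lemma lvD_zero (x : R) : lvD v x (fun _ => 0) = x := by simp [lvD]

end diag

lemma lv_rp_mul {δ t : ℝ} {m m' : ℕ} (h : m < m') : rp δ m t * rp δ m' t = rp δ m' t := by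
  have : (m : ℝ) + 1 ≤ m' := by exact_mod_cast h
  rcases le_total (t / δ) m' with h1 | h1
  · rw [rp.eq_def δ m', cl_of_nonpos (sub_nonpos.2 h1), mul_zero]
  · rw [rp.eq_def δ m, cl_of_one_le (by linarith), one_mul]

theorem levelA {B : Type u} [CStarAlgebra B] [PartialOrder B] [StarOrderedRing B] {w g a b : B}
    (w0 : 0 ≤ w) (wg : w ≤ g) (g1 : g ≤ 1) (a0 : 0 ≤ a) (b0 : 0 ≤ b) (ab : a + b ≤ 1)
    (c1 : Commute w g) (c2 : Commute a g) (c3 : Commute a w) (c4 : Commute b g) (c5 : Commute b w)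
    (c6 : Commute b a) (o1 : 0 ≤ (g - w) * (w - a)) (o2 : 0 ≤ (g - w) * (a + b - g)) {M : ℕ}
    (hM : 0 < M) (v : Fin M → B) (h1 : ∀ k, (g - w) * v k = 0)
    (h2 : ∀ k, star (v k) * v k * (g - w) = g - w) (h3 : ∀ k l, k ≠ l → star (v k) * v l = 0)
    {η : ℝ} (h4 : ∀ k, ‖g * v k - v k * (a + ((((k : ℕ) : ℝ) + 1) / M) • b)‖ ≤ η) :
    ∃ U ∈ unitary B, (∀ x, Commute w x → Commute g x → Commute a x → Commute b x →
      (∀ k, Commute (v k) x ∧ Commute (v k) (star x)) → Commute U x) ∧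
      ‖U * w - g * U‖ ≤ 20 / M + 20 * √M * η := by
  obtain ⟨X, _, _, ρ, f, J, hf, hz⟩ := exists_jc ![w, g, a, b]
    (by simp [Fin.forall_fin_succ, w0.isSelfAdjoint, (w0.trans wg).isSelfAdjoint, a0.isSelfAdjoint,
      b0.isSelfAdjoint])
    (by simp [Fin.forall_fin_succ, c1, c2, c3, c4, c5, c6, c1.symm, c2.symm, c3.symm, c4.symm,
      c5.symm, c6.symm])
  have fw : ρ (f 0) = w := hf 0
  have fg : ρ (f 1) = g := hf 1
  have fa : ρ (f 2) = a := hf 2
  have fb : ρ (f 3) = b := hf 3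
  have M0 : (0 : ℝ) < M := by exact_mod_cast hM
  have η0 : 0 ≤ η := (norm_nonneg _).trans (h4 ⟨0, hM⟩)
  obtain ⟨δ, hδ⟩ : ∃ δ : ℝ, δ = 1 / M / 5 := ⟨_, rfl⟩
  have δ0 : 0 < δ := by rw [hδ]; positivity
  have p0 : ∀ t, f 0 t ≤ f 1 t := fun t => sub_nonneg.1 ((J.pos (f 1 - f 0)).1 (by
    rw [map_sub, fg, fw]; exact sub_nonneg.2 wg) t)
  have p3 : ∀ t, 0 ≤ f 3 t := (J.pos _).1 (fb ▸ b0)
  have p4 : ∀ t, f 3 t ≤ 1 := fun t => by
    have q1 := (J.pos (1 - (f 2 + f 3))).1 (by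
      rw [map_sub, map_add, map_one, fa, fb]; exact sub_nonneg.2 ab) t
    have q2 := (J.pos _).1 (fa ▸ a0) t
    simp only [ContinuousMap.sub_apply, ContinuousMap.add_apply, ContinuousMap.one_apply] at q1
    linarith
  have p5 : ∀ t, δ < f 1 t - f 0 t → f 2 t ≤ f 0 t ∧ f 1 t ≤ f 2 t + f 3 t := fun t ht => by
    have q1 := (J.pos ((f 1 - f 0) * (f 0 - f 2))).1 (by
      rwa [map_mul, map_sub, map_sub, fg, fw, fa]) t
    have q2 := (J.pos ((f 1 - f 0) * (f 2 + f 3 - f 1))).1 (by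
      rwa [map_mul, map_sub, map_sub, map_add, fg, fw, fa, fb]) t
    simp only [ContinuousMap.sub_apply, ContinuousMap.add_apply, ContinuousMap.mul_apply] at q1 q2
    exact ⟨sub_nonneg.1 (nonneg_of_mul_nonneg_right q1 (δ0.trans ht) |> id),
      sub_nonneg.1 (nonneg_of_mul_nonneg_right q2 (δ0.trans ht) |> id)⟩
  let P : C(X, ℝ) → Prop := fun h => ∀ t, f 1 t - f 0 t ≤ δ → h t = 0
  have k1 : ∀ {h}, P h → ∀ k, Sm (v k) (ρ h) := fun hh k => by
    obtain ⟨y, rfl⟩ := exists_fac (g := f 1 - f 0) δ0 hh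
    exact ⟨J.sa _, by rw [mul_comm, map_mul, map_sub, fg, fw, mul_assoc, h1, mul_zero],
      by rw [map_mul, map_sub, fg, fw, ← mul_assoc, h2]⟩
  have Pm : ∀ {h}, P h → ∀ h', P (h * h') := fun hh h' t ht => by
    rw [ContinuousMap.mul_apply, hh t ht, zero_mul]
  have Ps : ∀ {h h'}, P h → P h' → P (h - h') := fun hh hh' t ht => by
    rw [ContinuousMap.sub_apply, hh t ht, hh' t ht, sub_zero]
  let e : ℕ → C(X, ℝ) := fun m => ⟨fun t => rp δ m (f 1 t - f 0 t), by fun_prop⟩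
  have Pe : ∀ m, P (e (m + 1)) := fun m t ht => rp_zero δ0 m.succ_pos ht
  have e0 : ∀ m t, 0 ≤ e m t := fun m t => cl_nonneg _
  have e1 : ∀ m t, e m t ≤ 1 := fun m t => cl_le_one _
  have ee : ∀ m m', m < m' → e m * e m' = e m' := fun m m' h =>
    ContinuousMap.ext fun t => lv_rp_mul h
  have := Gf_cont δ0
  let γ : C(X, ℝ) := ⟨fun t => Gf δ (f 3 t), by fun_prop⟩
  have γ0 : ∀ t, 0 ≤ γ t := fun t => Gf_nonneg δ0
  have eγ : ∀ m, e (m + 1) * (f 3 * γ) = e (m + 1) := fun m => ContinuousMap.ext fun t => by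
    rcases le_or_gt (f 1 t - f 0 t) δ with h | h
    · rw [Pm (Pe m) _ t h, Pe m t h]
    · have q := p5 t h
      have q1 : δ ≤ f 3 t := by linarith [q.1, q.2]
      change e (m + 1) t * (f 3 t * (max (f 3 t) δ)⁻¹) = _
      rw [max_eq_left q1, mul_inv_cancel₀ (δ0.trans_le q1).ne', mul_one]
  let D : C(X, ℝ) → (Fin M → C(X, ℝ)) → B := fun x y => lvD v (ρ x) fun k => ρ (y k)
  have Dm : ∀ {x x' y y'}, P x → P x' → (∀ k, P (y' k)) →
      D x y * D x' y' = D (x * x') fun k => y k * y' k := fun hx hx' hy' => by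
    simp only [D, map_mul]
    exact lvD_mul h3 (k1 hx) (k1 hx') fun k => k1 (hy' k) k
  have Ds : ∀ x y, star (D x y) = D x y := fun x y => lvD_star (J.sa _) fun k => J.sa _
  have Da : ∀ x x' y y', D x y + D x' y' = D (x + x') fun k => y k + y' k := fun x x' y y' => by
    simp only [D, map_add, lvD_add]
  have Db : ∀ x x' y y', D x y - D x' y' = D (x - x') fun k => y k - y' k := fun x x' y y' => by
    simp only [D, map_sub, lvD_sub]
  have Dc : ∀ {x x' y y'}, P x → P x' → (∀ k, P (y k)) → (∀ k, P (y' k)) →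
      Commute (D x y) (D x' y') := fun hx hx' hy hy' => by
    rw [Commute, SemiconjBy, Dm hx hx' hy', Dm hx' hx hy]
    simp only [mul_comm]
  have D0 : ∀ {x y}, (∀ t, 0 ≤ x t) → (∀ k t, 0 ≤ y k t) → 0 ≤ D x y := fun hx hy =>
    add_nonneg ((J.pos _).2 hx) (Finset.sum_nonneg fun k _ =>
      star_right_conjugate_nonneg ((J.pos _).2 (hy k)) _)
  have D1 : ∀ {x y}, P x → (∀ k, P (y k)) → (∀ t, x t ≤ 1) → (∀ k t, y k t ≤ 1) → D x y ≤ 1 := by
    intro x y hx hy x1 y1
    let c : C(X, ℝ) → C(X, ℝ) := fun h => ⟨fun t => 1 - √(1 - h t), by fun_prop⟩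
    have Pc : ∀ {h}, P h → P (c h) := fun hh t ht => by simp [c, hh t ht]
    have hc : ∀ {h : C(X, ℝ)}, (∀ t, h t ≤ 1) → c h + c h - c h * c h = h := fun {h} hh =>
      ContinuousMap.ext fun t => by
        have := Real.mul_self_sqrt (sub_nonneg.2 (hh t))
        simp only [c, ContinuousMap.add_apply, ContinuousMap.mul_apply, ContinuousMap.sub_apply,
          ContinuousMap.coe_mk]
        linear_combination -this
    have q := star_mul_self_nonneg (1 - D (c x) fun k => c (y k))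
    rw [star_sub, star_one, Ds, mul_sub, sub_mul, sub_mul, one_mul, mul_one, one_mul,
      Dm (Pc hx) (Pc hx) fun k => Pc (hy k)] at q
    rw [← sub_nonneg]
    convert q using 1
    rw [← sub_add, sub_sub, sub_add, Da, Db, hc x1]
    simp only [hc (y1 _)]
  have Dv : ∀ {x y}, P x → (∀ k, y k * e 3 = x * e 3) → ∀ k,
      Commute (v k * ρ (e 3)) (D x y) := fun {x y} hx h k => by
    have q := congrArg star (lvD_mul_base (x := ρ x) (y := fun k => ρ (y k)) (k1 (Pe 2)))
    rw [star_mul, Ds x y, J.sa, star_mul, J.sa, J.sa] at q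
    rw [Commute, SemiconjBy, mul_assoc, q, lvD_mul_v h3 (k1 hx k) (k1 (Pe 2) k), ← map_mul,
      ← map_mul, h, mul_comm]
  let μ : Fin M → ℝ := fun k => (((k : ℕ) : ℝ) + 1) / M
  have μ0 : ∀ k, 0 ≤ μ k := fun k => by positivity
  have μ1 : ∀ k, μ k ≤ 1 := fun k => (div_le_one M0).2 (by exact_mod_cast k.2)
  let y0 : Fin M → C(X, ℝ) := fun k => e 2 * algebraMap ℝ _ (μ k)
  have Py : ∀ k, P (y0 k) := fun k => Pm (Pe 1) _
  have y00 : ∀ k t, 0 ≤ y0 k t := fun k t => mul_nonneg (e0 _ _) (μ0 k)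
  let β : C(X, ℝ) := e 2 * ((f 1 - f 2) * γ)
  let d : C(X, ℝ) := e 4 * ((f 1 - f 0) * γ)
  have Pβ : P β := Pm (Pe 1) _
  have Pd : P d := Pm (Pe 3) _
  have d0 : ∀ t, 0 ≤ d t := fun t => mul_nonneg (e0 _ _) (mul_nonneg (sub_nonneg.2 (p0 t)) (γ0 t))
  have dβ : ∀ t, 0 ≤ (β - d) t := fun t => by
    rcases le_or_gt (f 1 t - f 0 t) δ with h | h
    · rw [Ps Pβ Pd t h]
    · have q := p5 t h
      have q1 : e 4 t ≤ e 2 t := by
        rw [← ee 2 4 (by norm_num)]; exact mul_le_of_le_one_right (e0 _ _) (e1 _ _)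
      exact sub_nonneg.2 (mul_le_mul q1 (mul_le_mul_of_nonneg_right
        (sub_le_sub_left q.1 (f 1 t)) (γ0 t)) (mul_nonneg (sub_nonneg.2 (p0 t)) (γ0 t)) (e0 _ _))
  have β1 : ∀ t, β t ≤ 1 := fun t => by
    rcases le_or_gt (f 1 t - f 0 t) δ with h | h
    · rw [Pβ t h]; exact zero_le_one
    · have q := p5 t h
      exact mul_le_one₀ (e1 _ _) (mul_nonneg (sub_nonneg.2 (q.1.trans (p0 t))) (γ0 t))
        ((mul_le_mul_of_nonneg_right (sub_le_iff_le_add'.2 q.2) (γ0 t)).trans (mul_Gf_le δ0))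
  have ed : D β y0 - D (β - d) y0 = ρ d := by
    rw [Db, sub_sub_cancel]; simp only [D, sub_self, map_zero, lvD_zero]
  obtain ⟨U, U1, U2, U3⟩ := levelF (a := D (β - d) y0) (b := D β y0) (D0 dβ y00)
    (by rw [← sub_nonneg, ed]; exact (J.pos _).2 d0)
    (D1 Pβ Py β1 fun k t => mul_le_one₀ (e1 _ _) (μ0 k) (μ1 k)) (Dc (Ps Pβ Pd) Pβ Py Py) hM
    (fun k => v k * ρ (e 3)) (fun k => by rw [ed, (k1 Pd k).rules.1])
    (fun k => by
      rw [ed, star_mul, J.sa, mul_assoc, mul_assoc, mul_assoc, ← map_mul, ← mul_assoc (e 3),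
        ee 3 4 (by norm_num), (k1 Pd k).rules.2.2.2.1, ← map_mul, ← mul_assoc (e 3),
        ee 3 4 (by norm_num)])
    (fun k l hkl => by
      rw [star_mul, mul_assoc, ← mul_assoc (star (v k)), h3 k l hkl, zero_mul, mul_zero])
    (fun k => by
      rw [lvD_mul_v h3 (k1 Pβ k) (k1 (Pe 2) k), ← map_mul, mul_right_comm, ee 2 3 (by norm_num),
        mul_comm, map_mul, AlgHom.commutes, ← Algebra.smul_def, mul_smul_comm])
  refine ⟨U, U1, fun x x1 x2 x3 x4 x5 => ?_, ?_⟩
  · have q := hz x (by simp [Fin.forall_fin_succ, x1, x2, x3, x4])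
    have q1 : ∀ y y', Commute (D y y') x := fun y y' => (q _).add_left
      (Commute.sum_left _ _ _ fun k _ => ((x5 k).1.mul_left (q _)).mul_left
        (by simpa using (x5 k).2.star_star))
    refine U2 x (q1 _ _) (q1 _ _) fun k => ⟨(x5 k).1.mul_left (q _), (x5 k).2.mul_left ?_⟩
    simpa [J.sa] using (q (e 3)).star_star
  let La : Fin M → C(X, ℝ) := fun k => f 2 + algebraMap ℝ _ (μ k) * f 3
  let q : B := D (e 1) fun _ => e 1
  let G : B := D (e 1 * f 1) fun k => e 1 * La k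
  have P1 : P (e 1) := Pe 0
  have q0 : 0 ≤ q := D0 (e0 1) fun _ => e0 1
  have q1 : ‖q‖ ≤ 1 := (CStarAlgebra.norm_le_one_iff_of_nonneg _ q0).2
    (D1 P1 (fun _ => P1) (e1 1) fun _ => e1 1)
  have n1 : ‖g * q - G‖ ≤ √M * η := by
    let E : Fin M → B := fun k => (g * v k - v k * (a + μ k • b)) * ρ (e 1)
    have r1 : g * q - G = ∑ k, E k * star (v k) := by
      have r0 : ∀ k, ρ (e 1 * La k) = (a + μ k • b) * ρ (e 1) := fun k => by
        rw [mul_comm, map_mul, map_add, map_mul, fa, fb, AlgHom.commutes, ← Algebra.smul_def]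
      have r0' : ρ (e 1 * f 1) = g * ρ (e 1) := by rw [mul_comm, map_mul, fg]
      simp only [q, G, D, lvD, E, r0, r0', mul_add g, Finset.mul_sum, sub_mul, mul_assoc,
        Finset.sum_sub_distrib]
      abel
    have r2 : ∀ k, E k * (star (v k) * v k) = E k := fun k => by
      rw [mul_assoc, (k1 P1 k).rules.2.2.2.2.2.1]
    have r3 : (∑ k, E k * star (v k)) * star (∑ k, E k * star (v k)) = ∑ k, E k * star (E k) := by
      rw [star_sum, Finset.sum_mul_sum]
      refine Finset.sum_congr rfl fun k _ => ?_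
      rw [Finset.sum_eq_single k (fun l _ hl => by
        rw [star_mul, star_star, mul_assoc, ← mul_assoc (star (v k)), h3 k l hl.symm, zero_mul,
          mul_zero]) (by simp), star_mul (E k), star_star, mul_assoc, ← mul_assoc (star (v k)),
        ← mul_assoc, r2]
    have r4 : ∀ k, ‖E k‖ ≤ η := fun k => (norm_mul_le _ _).trans (by
      have := J.norm (e 1) 1 zero_le_one fun t => (abs_of_nonneg (e0 1 t)).trans_le (e1 1 t)
      exact (mul_le_mul (h4 k) this (norm_nonneg _) η0).trans_eq (mul_one _))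
    have r5 : ‖∑ k, E k * star (E k)‖ ≤ (√M * η) ^ 2 := by
      refine (norm_sum_le_of_le _ (n := fun _ => η * η) fun k _ => ?_).trans_eq ?_
      · rw [CStarRing.norm_self_mul_star]; exact mul_self_le_mul_self (norm_nonneg _) (r4 k)
      · rw [mul_pow, Real.sq_sqrt M0.le]; simp [pow_two]
    rw [← r3, CStarRing.norm_self_mul_star, ← pow_two] at r5
    rw [r1]
    exact (pow_le_pow_iff_left₀ (norm_nonneg _) (by positivity) two_ne_zero).1 r5
  have n2 : ‖q * g - G‖ ≤ √M * η := by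
    rw [← norm_star, star_sub, star_mul, Ds, Ds, (w0.trans wg).star_eq]; exact n1
  let Bh : B := D (e 1 * f 3) fun _ => e 1 * f 3
  have n3 : ‖Bh‖ ≤ 1 := (CStarAlgebra.norm_le_one_iff_of_nonneg _
    (D0 (fun t => mul_nonneg (e0 1 t) (p3 t)) fun _ t => mul_nonneg (e0 1 t) (p3 t))).2
    (D1 (Pm P1 _) (fun _ => Pm P1 _) (fun t => mul_le_one₀ (e1 1 t) (p3 t) (p4 t))
      fun _ t => mul_le_one₀ (e1 1 t) (p3 t) (p4 t))
  have cD : ∀ {x y}, P x → (∀ k, P (y k)) → (∀ k, y k * e 3 = x * e 3) → Commute U (D x y) :=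
    fun hx hy h => U2 _ (Dc (Ps Pβ Pd) hx Py hy) (Dc Pβ hx Py hy) fun k =>
      ⟨Dv hx h k, by rw [Ds]; exact Dv hx h k⟩
  have cB : Commute U Bh := cD (Pm P1 _) (fun _ => Pm P1 _) fun _ => rfl
  have cN : Commute U (G + G - q * G - Bh * D β y0) := by
    rw [Dm P1 (Pm P1 _) fun _ => Pm P1 _, Dm (Pm P1 _) Pβ Py, Da, Db, Db]
    refine cD (fun t ht => by simp [P1 t ht]) (fun k t ht => by simp [P1 t ht]) fun k => ?_
    have r1 := ee 1 3 (by norm_num)
    have r2 := ee 2 3 (by norm_num)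
    have r3 := eγ 2
    simp only [La, y0, β]
    linear_combination (2 * (f 2 + algebraMap ℝ _ (μ k) * f 3 - f 1) -
      (e 1 + 1) * (f 2 + algebraMap ℝ _ (μ k) * f 3 - f 1) -
      f 3 * e 2 * (algebraMap ℝ _ (μ k) - (f 1 - f 2) * γ)) * r1 -
      f 3 * (algebraMap ℝ _ (μ k) - (f 1 - f 2) * γ) * r2 + (f 1 - f 2) * r3
  have z1 : ∀ {x y}, P x → (∀ k, P (y k)) → e 1 * x = x → (∀ k, e 1 * y k = y k) →
      Commute (D x y) ((1 - q) * g * (1 - q)) := fun {x y} hx hy h h' => by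
    have r1 : (1 - q) * D x y = 0 := by
      rw [sub_mul, one_mul, Dm P1 hx hy, h]; simp only [h', sub_self]
    have r2 := congrArg star r1
    rw [star_mul, Ds, star_sub, star_one, Ds, star_zero] at r2
    rw [Commute, SemiconjBy, mul_assoc _ (1 - q), r1, ← mul_assoc, ← mul_assoc, r2]; simp
  have r12 := ee 1 2 (by norm_num)
  have cR : Commute U ((1 - q) * g * (1 - q)) := by
    have r1 : ∀ k, Commute (v k * ρ (e 3)) ((1 - q) * g * (1 - q)) := fun k => by
      have r2 : (1 - q) * (v k * ρ (e 3)) = 0 := by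
        rw [sub_mul, one_mul, lvD_mul_v h3 (k1 P1 k) (k1 (Pe 2) k), ← map_mul, ee 1 3 (by norm_num),
          sub_self]
      have r3 : v k * ρ (e 3) * (1 - q) = 0 := by
        rw [((Commute.one_right _).sub_right (Dv P1 (fun _ => rfl) k)).eq, r2]
      rw [Commute, SemiconjBy, mul_assoc _ (1 - q), r2, ← mul_assoc, ← mul_assoc, r3]; simp
    have r4 : e 1 * β = β := by rw [← mul_assoc, r12]
    have r5 : ∀ k, e 1 * y0 k = y0 k := fun k => by rw [← mul_assoc, r12]
    refine U2 _ (z1 (Ps Pβ Pd) Py (by rw [mul_sub, r4, ← mul_assoc, ee 1 4 (by norm_num)]) r5)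
      (z1 Pβ Py r4 r5) fun k => ⟨r1 k, ?_⟩
    rw [star_mul, star_mul, star_sub, star_one, Ds, (w0.trans wg).star_eq, ← mul_assoc]
    exact r1 k
  have e4 : Bh * (D β y0 - D (β - d) y0) = ρ (e 4 * (f 1 - f 0)) := by
    rw [ed, lvD_mul_base (k1 Pd), ← map_mul]
    congr 1
    simp only [d]
    linear_combination (f 3 * (f 1 - f 0) * γ) * ee 1 4 (by norm_num) + (f 1 - f 0) * eγ 3
  have n4 : ‖g - w - ρ (e 4 * (f 1 - f 0))‖ ≤ 1 / M := by
    rw [← fg, ← fw, ← map_sub, ← map_sub]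
    refine J.norm _ _ (by positivity) fun t => ?_
    change |f 1 t - f 0 t - e 4 t * (f 1 t - f 0 t)| ≤ _
    have r0 := sub_nonneg.2 (p0 t)
    rcases le_total (f 1 t - f 0 t) (1 / M) with h | h
    · rw [abs_of_nonneg (by nlinarith [e1 4 t])]; nlinarith [e0 4 t]
    · have : e 4 t = 1 := cl_of_one_le (by
        rw [le_sub_iff_add_le, le_div_iff₀ δ0, hδ]; push_cast; linarith)
      rw [this, one_mul, sub_self, abs_zero]; positivity
  obtain ⟨Er, hE⟩ : ∃ Er, Er = (g * q - G) + (q * g - G) - q * (g * q - G) := ⟨_, rfl⟩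
  have n5 : ‖Er‖ ≤ 3 * (√M * η) := by
    have r1 := (norm_mul_le q (g * q - G)).trans (mul_le_of_le_one_left (norm_nonneg _) q1)
    rw [hE]
    linarith [norm_sub_le ((g * q - G) + (q * g - G)) (q * (g * q - G)),
      norm_add_le (g * q - G) (q * g - G)]
  have e5 : g = (1 - q) * g * (1 - q) + (G + G - q * G - Bh * D β y0) + Bh * D β y0 + Er := by
    rw [hE]; noncomm_ring
  generalize (1 - q) * g * (1 - q) = R at cR e5
  generalize G + G - q * G - Bh * D β y0 = N at cN e5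
  generalize D β y0 = b' at e4 e5 U3
  generalize D (β - d) y0 = a' at e4 U3
  have e6 : U * w - g * U = Bh * (U * a' - b' * U) + U * Er - Er * U -
      U * (g - w - Bh * (b' - a')) := by
    have r1 := congrArg (U * ·) e5
    have r2 := congrArg (· * U) e5
    have r3 : ∀ y, U * (Bh * y) = Bh * (U * y) := fun y => by rw [← mul_assoc, cB.eq, mul_assoc]
    simp only [mul_add, add_mul, mul_sub, cR.eq, cN.eq, r3, mul_assoc] at r1 r2 ⊢
    linear_combination (norm := abel1) r1 - r2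
  rw [e6, e4]
  have m1 := (norm_mul_le Bh (U * a' - b' * U)).trans
    ((mul_le_of_le_one_left (norm_nonneg _) n3).trans U3)
  have m2 := norm_sub_le (Bh * (U * a' - b' * U) + U * Er - Er * U)
    (U * (g - w - ρ (e 4 * (f 1 - f 0))))
  have m3 := norm_sub_le (Bh * (U * a' - b' * U) + U * Er) (Er * U)
  have m4 := norm_add_le (Bh * (U * a' - b' * U)) (U * Er)
  rw [CStarRing.norm_mem_unitary_mul _ U1] at m2 m4
  rw [CStarRing.norm_mul_mem_unitary _ U1] at m3
  have m5 : (20 : ℝ) / M = 12 / M + 1 / M + 7 / M := by ring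
  have m6 : (0 : ℝ) ≤ 7 / M := by positivity
  have m7 : 0 ≤ √(M : ℝ) * η := by positivity
  linarith

end Pool.Agent.Lib.MP_30b5b4_an
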