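import Pool.Agent.Lib.MP_30b5b4_an.C.Merge1

/-! Merging with steps. -/

open scoped CStarAlgebra ComplexOrder Topology
open Filter

set_option linter.unusedSectionVars false
set_option linter.style.haveILetI false
set_option linter.unusedVariables false
set_option linter.unusedSimpArgs false
set_option synthInstance.maxSize 1000000

namespace Pool.Agent.Lib.MP_30b5b4_an

universe u v

variable {A : Type u} [CStarAlgebra A] [PartialOrder A] [StarOrderedRing A]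

lemma mg_wall (R : ℕ) (K : ℕ → CA A) {a : UA A} (a0 : 0 ≤ a) (va : a ∈ VS K) :
    wall R 16 K a = cfc (wb R 16) (uφ K 1) * cfc (wt R 16) (uT K a) ∧
      (0 ≤ 1 - wall R 16 K a ∧ 1 - wall R 16 K a ≤ 1) ∧
      ∀ x ∈ VS K, Commute a x → Commute (wall R 16 K a) x := by
  have s0 := ((uT_cp K).nonneg a0).isSelfAdjoint
  have e : wall R 16 K a = cfc (wb R 16) (uφ K 1) * cfc (wt R 16) (uT K a) := by
    rw [wall, cf_uφ, cf_eq _ s0]
  have u := mul_unit (rp_unit (1 / 32) 16 (cfc (wg R) (uφ K 1))).1 (rp_unit _ _ _).2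
    (rp_unit (ms R ^ 3 / 32) 16 (uT K a)).1 (rp_unit _ _ _).2
    (((((uφ_oz K).commute _).cfc_real _).cfc_real _).symm.cfc_real _).symm
  rw [← cfc_comp' _ _ _ (rp_cont _ _).continuousOn (wg_cont R).continuousOn
    (uφ_oz K).cp.one_nonneg.isSelfAdjoint] at u
  replace u : 0 ≤ wall R 16 K a ∧ wall R 16 K a ≤ 1 := e ▸ u
  refine ⟨e, ⟨sub_nonneg.2 u.2, sub_le_self _ u.1⟩, fun x hx ca => ?_⟩
  have hε : 0 < ms R ^ 3 / 32 := by have := ms_pos R; positivity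
  have g1 := Gf_cont hε
  have v := Vis.of_VS hx
  have c1 : Commute (uT K a) x := by
    rw [(Vis.of_VS va).1]
    exact Commute.mul_left (v.1.symm.trans v.2) ca
  have e2 : cfc (wt R 16) (uT K a) = uT K 1 * a *
      cfc (fun t => rp (ms R ^ 3 / 32) 16 t * Gf (ms R ^ 3 / 32) t) (uT K a) := by
    rw [← (Vis.of_VS va).1, id_mul_cfc (by fun_prop) s0]
    congr 1
    funext t
    rw [mul_comm, rp_Gf hε (by norm_num), wt]
  rw [e, e2, ← mul_assoc, ← mul_assoc]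
  exact ((v.commute _).mul_left ca).mul_left (c1.cfc_real _)

/-- completely positive lifts of the inner pictures -/
lemma mg_lift (K : ℕ → CA A) {F : Type} [CStarAlgebra F] [PartialOrder F] [StarOrderedRing F]
    [FiniteDimensional ℂ F] {Ψ : A →ₗ[ℂ] F} (hΨ : IsCP Ψ) (hΨ' : ∀ a, ‖Ψ a‖ ≤ ‖a‖) {q : Ult fun k => (K k).F}
    (q1 : IsStarProjection q) {Z : F →ₗ[ℂ] Ult fun k => (K k).F} (hZ : OZ Z) (Z1 : Z 1 ≤ 1)
    {y : UA A} (y0 : 0 ≤ y) (h : Z (Ψ 1) + q * uψ K (y * y) * q ≤ 1)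
    (hX : ∀ s : A, ‖q * uψ K (y * dg s * y) * q‖ ≤ ‖s‖) {ε r : ℝ} (hε : 0 < ε) (ε1 : ε ≤ 1)
    (r0 : 0 ≤ r) (r1 : r ≤ 1) :
    ∃ Θ : A →ₗ[ℂ] Bdd fun k => (K k).F, IsCP Θ ∧ Ult.mk (Θ 1) ≤ 1 ∧ ∀ s,
      ‖Ult.mk (Θ s) - (Z (Ψ s) + r • (q * uψ K (y * dg s * y) * q))‖ ≤ 3 * ε * ‖s‖ := by
  obtain ⟨χ, x1, -, -, x2⟩ := exists_oz_lift Ult.mk (S := ⊤) (by simp) hZ Z1
    (fun x => (Ult.surj (Z x)).imp fun s hs => ⟨trivial, hs⟩) hε
  obtain ⟨q', rfl⟩ := Ult.surj q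
  obtain ⟨y', rfl⟩ := Ult.surj y
  let bσ : BA A →ₗ[ℂ] Bdd fun k => (K k).F := Bdd.map (fun k => (K k).ψ) fun k => (K k).le
  have σ0 : ∀ x, Ult.mk (bσ x) = uψ K (Ult.mk x) := fun x => ((uψ_spec K).2.2 x).symm
  have σ1 : IsCP bσ := Bdd.isCP (fun k => (K k).ψ ∘ₗ lin (Bdd.ev k)) (fun _ _ => rfl)
    fun k => (K k).cp.comp (lin_cp _) fun _ => rfl
  let Θ₁ : A →ₗ[ℂ] Bdd fun k => (K k).F := cj q' (bσ ∘ₗ cj y' (lin cst))
  have T1 : IsCP Θ₁ := (σ1.comp ((lin_cp cst).cj y') fun _ => rfl).cj _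
  have T2 : ∀ s, Ult.mk (Θ₁ s) =
      Ult.mk q' * uψ K (Ult.mk y' * dg s * Ult.mk y') * Ult.mk q' := fun s => by
    rw [cj_apply, map_mul, map_mul, map_star, q1.isSelfAdjoint.star_eq, LinearMap.comp_apply, σ0,
      cj_apply, map_mul Ult.mk, map_mul Ult.mk, map_star, y0.star_eq]
    rfl
  let Θ₂ : A →ₗ[ℂ] Bdd fun k => (K k).F := χ ∘ₗ Ψ + (r : ℂ) • Θ₁
  have T3 : IsCP Θ₂ := (x1.cp.comp hΨ fun _ => rfl).add (T1.smul r0 fun a => by
    rw [LinearMap.smul_apply, Complex.coe_smul])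
  have T4 : ∀ s, Ult.mk (Θ₂ s) = Ult.mk (χ (Ψ s)) +
      r • (Ult.mk q' * uψ K (Ult.mk y' * dg s * Ult.mk y') * Ult.mk q') := fun s => by
    rw [← T2, ← hom_real_smul, ← map_add, ← Complex.coe_smul]
    rfl
  have T5 : ∀ s, Ult.mk ((((1 - ε : ℝ) : ℂ) • Θ₂) s) = (1 - ε) • Ult.mk (Θ₂ s) := fun s => by
    rw [LinearMap.smul_apply, Complex.coe_smul, hom_real_smul]
  have x3 : ∀ s, ‖Ult.mk (χ (Ψ s)) - Z (Ψ s)‖ ≤ ε * ‖s‖ := fun s =>
    (x2 _).trans (mul_le_mul_of_nonneg_left (hΨ' s) hε.le)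
  refine ⟨((1 - ε : ℝ) : ℂ) • Θ₂, T3.smul (sub_nonneg.2 ε1) fun a => by
    rw [LinearMap.smul_apply, Complex.coe_smul], ?_, fun s => ?_⟩
  · have a0 := hΨ.one_nonneg
    have a1 := sa_le_of_norm ((hom_nonneg Ult.mk (x1.cp.nonneg a0)).isSelfAdjoint.sub
      (hZ.cp.nonneg a0).isSelfAdjoint)
      ((x3 1).trans (mul_le_of_le_one_right hε.le (norm_one_le' A)))
    have a2 := hom_nonneg Ult.mk T1.one_nonneg
    rw [T2, map_one, mul_one] at a2
    have a3 := smul_le_smul_of_nonneg_right r1 a2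
    have a4 : Ult.mk (Θ₂ 1) ≤ (1 + ε) • 1 := by
      rw [T4, map_one dg, mul_one, add_smul, one_smul]
      rw [one_smul] at a3
      refine (add_le_add (sub_le_iff_le_add.1 a1) a3).trans ?_
      rw [add_assoc, add_comm]
      exact add_le_add_left h _
    rw [T5]
    refine (smul_le_smul_of_nonneg_left a4 (sub_nonneg.2 ε1)).trans ?_
    rw [smul_smul]
    exact (smul_le_smul_of_nonneg_right (by nlinarith) zero_le_one).trans (one_smul ℝ _).le
  · rw [T5, T4]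
    have a1 := hX s
    have a2 := (hZ.cp.norm_le Z1 _).trans (hΨ' s)
    have a3 := x3 s
    generalize Ult.mk q' * uψ K (Ult.mk y' * dg s * Ult.mk y') * Ult.mk q' = X at a1 ⊢
    generalize Ult.mk (χ (Ψ s)) = Y at a3 ⊢
    generalize Z (Ψ s) = Y' at a2 a3 ⊢
    have a4 : (1 - ε) • (Y + r • X) - (Y' + r • X) =
        (1 - ε) • (Y - Y') - (ε • Y' + (ε * r) • X) := by module
    have a5 := norm_nonneg s
    have a6 : ‖(1 - ε) • (Y - Y')‖ ≤ ε * ‖s‖ := by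
      rw [norm_smul, Real.norm_of_nonneg (sub_nonneg.2 ε1)]
      exact (mul_le_of_le_one_left (norm_nonneg _) (sub_le_self _ hε.le)).trans a3
    have a7 : ‖ε • Y'‖ ≤ ε * ‖s‖ := by rw [norm_smul, Real.norm_of_nonneg hε.le]; gcongr
    have a8 : ‖(ε * r) • X‖ ≤ ε * ‖s‖ := by
      rw [norm_smul, Real.norm_of_nonneg (by positivity), mul_assoc]
      exact mul_le_mul_of_nonneg_left ((mul_le_of_le_one_left (norm_nonneg _) r1).trans a1) hε.le
    rw [a4]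
    linarith [norm_sub_le ((1 - ε) • (Y - Y')) (ε • Y' + (ε * r) • X),
      norm_add_le (ε • Y') ((ε * r) • X)]

theorem step_merge (c : PC A) (K : ℕ → CA A) {a y : UA A} (a0 : 0 ≤ a) (a1 : a ≤ 1) (y0 : 0 ≤ y)
    (ay : a * y = y) (h1 : y * y + c.φ (c.ψ 1) ≤ 1) (ca : ∀ x, Commute a (c.φ x)) (va : a ∈ VS K)
    (vy : y ∈ VS K) (vφ : ∀ x, c.φ x ∈ VS K) (R : ℕ) :
    ∃ d : ℕ → CA A, ∀ s : A, ‖uT d (dg s) -
      (1 - wall R 16 K a) * (uT K (y * dg s * y) + c.φ (c.ψ s))‖ ≤ 8 * ms R * ‖s‖ := by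
  have m0 := ms_pos R
  have m1 := ms_le_one R
  have m2 := ms_mul R
  have hδ : 0 < ms R / 2 := by positivity
  have y1 : y * y ≤ 1 := (le_add_of_nonneg_right (c.oz.cp.nonneg c.cp.one_nonneg)).trans h1
  have y2 : ‖y‖ ≤ 1 := norm_le_one_of_star_mul (by rwa [y0.star_eq])
  obtain ⟨q, Z, q1, hZ, Z1, Z2, Z3, Z4, Z5, Z6, Z7⟩ :=
    mg_core K c.oz c.one a0 a1 y0 y1 ay ca va vy vφ hδ m0 m1
  obtain ⟨w1, w2, w3⟩ := mg_wall R K a0 va
  have hρ := uφ_oz K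
  have h0 := hρ.cp.one_nonneg
  have hs := h0.isSelfAdjoint
  have gc := Gf_cont hδ
  have hX : ∀ s : A, ‖q * uψ K (y * dg s * y) * q‖ ≤ ‖s‖ := fun s => by
    have a1 : ‖y * dg s * y‖ ≤ 1 * ‖s‖ * 1 := norm_mul₃_le.trans (by rw [norm_dg]; gcongr)
    have a2 := ((uψ_spec K).2.1 _).trans a1
    have := q1.norm_le
    exact (norm_mul₃_le.trans (by gcongr : _ ≤ 1 * (1 * ‖s‖ * 1) * 1)).trans_eq (by ring)
  choose Θ t1 t2 t3 using fun l : ℕ => mg_lift K c.cp c.le q1 hZ Z1 y0 (Z4 _ h1) hX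
    (ε := ms R ^ 2 / 3) (r := min ((2 * l + 3) * ms R) 1) (by positivity) (by nlinarith)
    (by positivity) (min_le_right _ _)
  set S := spm (uφ K) (ms R / 2) 1 with hS
  set ω := wall R 16 K a with hω
  have S0 : OZ S := hρ.spm_oz hδ
  have S1 : S 1 ≤ 1 := (hρ.spm_one hδ one_pos).trans_le (rp_unit _ _ _).2
  have S2 : ∀ {α : ℝ → ℝ}, Continuous α → ∀ x, cfc α (uφ K 1) * S x =
      cfc (fun t => α t * (rp (ms R / 2) 1 t * Gf (ms R / 2) t)) (uφ K 1) * uφ K x :=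
    fun hα x => by rw [hS, spm_apply, ← mul_assoc, cfc_mul' hα (by fun_prop)]
  have S3 : ∀ (α : ℝ → ℝ) x, Commute (cfc α (uφ K 1)) (S x) := fun α x =>
    (cfc_commute_cfc _ _ _).mul_right ((hρ.commute x).cfc_real _)
  have u0 : ∀ {α : ℝ → ℝ}, (∀ t, t ≤ ms R → α t = 0) → ∀ t, α t * rp (ms R / 2) 1 t = α t :=
    fun α0 t => by
      rcases le_total t (ms R) with h | h
      · rw [α0 t h, zero_mul]
      · rw [rp_one hδ (by push_cast; linarith), mul_one]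
  have S4 : ∀ {α : ℝ → ℝ}, Continuous α → (∀ t, t ≤ ms R → α t = 0) → ∀ x,
      cfc α (uφ K 1) * S q * S (q * x) = cfc α (uφ K 1) * S (q * x) := fun hα α0 x => by
    rw [mul_assoc, hS, hρ.spm_mul hδ one_pos, ← mul_assoc, ← mul_assoc, q1.isIdempotentElem.eq,
      cfc_mul' hα (rp_cont _ _)]
    simp only [u0 α0]
  have S5 : ∀ {α : ℝ → ℝ}, Continuous α → (∀ t, t ≤ ms R → α t = 0) → ∀ x,
      (1 - ω) * (cfc α (uφ K 1) * S (q * x)) =
        cfc (fun t => (1 - wb R 16 t) * α t) (uφ K 1) * S (q * x) := fun {α} hα α0 x => by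
    have a1 : cfc (wt R 16) (uT K a) * (cfc α (uφ K 1) * S q) = cfc α (uφ K 1) * S q := by
      rw [S2 hα]
      exact mg_wt hs ((uT_cp K).nonneg a0).isSelfAdjoint (hρ.cp.proj_nonneg q1) (hρ.commute _)
        (hρ.commute _) Z6 m0 Z7 (by fun_prop) (wt_cont _ _) (fun t ht => by rw [α0 t ht, zero_mul])
        fun t ht => rp_one (by positivity) (by push_cast; linarith [pow_pos m0 3])
    rw [← S4 hα α0, ← mul_assoc, sub_mul, w1, mul_assoc _ (cfc (wt R 16) _), a1, ← sub_mul,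
      mul_assoc, S4 hα α0, ← mul_assoc, ← cfc_mul' (by fun_prop) hα, cfc_sub _ _ _,
      cfc_const_one ℝ _ hs]
  have l0 : ∀ t, t ≤ ms R → mgc R 0 t = 0 := fun t => mgc_low
  set C := cfc (mgc R 0) (uφ K 1) * S q with hC
  have C0 : 0 ≤ C ∧ C ≤ 1 := mul_unit (cfc_nonneg fun _ _ => mgc_nonneg)
    (cfc_le_one _ _ fun _ _ => mgc_le_one) (S0.cp.proj_nonneg q1)
    ((S0.cp.mono q1.le_one).trans S1) (S3 _ _)
  have C1 : (1 - ω) * C = cfc (fun t => (1 - wb R 16 t) * mgc R 0 t) (uφ K 1) * S q := by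
    simpa only [mul_one] using S5 (mgc_cont R 0) l0 1
  have C2 : Commute (1 - ω) C := by
    have a1 := congrArg star C1
    rw [star_mul (1 - ω), C0.1.star_eq, star_mul (cfc _ _), w2.1.star_eq,
      (S0.cp.proj_nonneg q1).star_eq, IsSelfAdjoint.cfc.star_eq, ← (S3 _ _).eq, ← C1] at a1
    exact a1.symm
  have C3 : (1 - ω) * C * C = (1 - ω) * C := by
    have a1 := S4 (α := fun t => (1 - wb R 16 t) * mgc R 0 t * mgc R 0 t) (by fun_prop)
      (fun t ht => by rw [l0 t ht, mul_zero]) 1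
    rw [C1, hC, mul_assoc, ← mul_assoc (S q), ← (S3 _ _).eq, ← mul_assoc, ← mul_assoc,
      cfc_mul' (by fun_prop) (mgc_cont R 0)]
    simpa only [mul_one, mgc_idem] using a1
  have E0 := mul_unit w2.1 w2.2 (sub_nonneg.2 C0.2) (sub_le_self _ C0.1)
    ((Commute.one_right _).sub_right C2)
  have E1 : ∀ x, Commute ((1 - ω) * (1 - C)) (c.φ x) := fun x =>
    ((Commute.one_left _).sub_left (w3 _ (vφ x) (ca x))).mul_left
      ((Commute.one_left _).sub_left ((Z3 x).2 _ (mgc_cont R 0)))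
  have E2 : (1 - ω) * (1 - C) * (1 - C) = (1 - ω) * (1 - C) := by
    rw [mul_sub, mul_one, mul_sub _ 1, mul_one, sub_mul (1 - ω), C3, sub_self, sub_zero]
  obtain ⟨d, hd⟩ := mg_real K q1 R
    (f := fun l t => mgk R l t * (rp (ms R / 2) 1 t * Gf (ms R / 2) t))
    (g := fun t => mgc R 0 t * (rp (ms R / 2) 1 t * Gf (ms R / 2) t)) (fun l => by fun_prop)
    (by fun_prop) (fun l t => mul_nonneg mgk_nonneg (mul_nonneg (cl_nonneg _) (Gf_nonneg hδ)))
    (fun l t => by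
      rw [mul_assoc, rp_Gf hδ one_pos]
      exact mul_le_one₀ mgk_le_one (cl_nonneg _) (cl_le_one _))
    (fun l l' t h h' => by rw [mul_mul_mul_comm, mgk_orth h h', zero_mul])
    (fun l t h => by
      rw [mul_assoc, mul_assoc (mgc R 0 t), rp_Gf hδ one_pos, u0 l0, mul_right_comm,
        mul_comm (mgk R l t), mgc_mgk h])
    Θ t1 t2 (W := LinearMap.mulLeft ℂ ((1 - ω) * (1 - C)) ∘ₗ c.φ)
    (c.oz.mulLeft E0.1 E1 fun _ => rfl) ((mul_le_of_commute E0.1 c.one (E1 1)).trans E0.2)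
    (fun x => ⟨(1 - ω) * c.φ x, by
      rw [← S2 (mgc_cont R 0), ← hC, ← mul_assoc, ← ((Commute.one_right _).sub_right C2).eq,
        mul_assoc, ← ((Commute.one_left _).sub_left ((Z3 x).2 _ (mgc_cont R 0))).eq, ← mul_assoc,
        E2]
      rfl⟩) c.cp c.le m0
  refine ⟨d, fun s => ?_⟩
  have e1 := hd s
  simp only [← S2 (mgk_cont R _)] at e1
  change ‖_ - (_ + (1 - ω) * (1 - C) * c.φ (c.ψ s))‖ ≤ _ at e1
  have e6 := Z5 (dg s)
  have n1 := hX s
  have n0 := norm_nonneg s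
  have x0 : q * (q * uψ K (y * dg s * y) * q) = q * uψ K (y * dg s * y) * q := by
    rw [← mul_assoc, ← mul_assoc, q1.isIdempotentElem.eq]
  have x1 : q * (q * uψ K (y * dg s * y) * q) * q = q * uψ K (y * dg s * y) * q := by
    rw [x0, mul_assoc, q1.isIdempotentElem.eq]
  have t4 := fun l => t3 l s
  rw [norm_dg] at e6
  generalize q * uψ K (y * dg s * y) * q = X at e6 n1 x0 x1 t4
  have nω := norm_le_one_of w2.1 w2.2
  have e2 : ∀ l ∈ Finset.range R, ‖cfc (mgk R l) (uφ K 1) * S (q * Ult.mk (Θ l s) * q) -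
      cfc (mgk R l) (uφ K 1) * (S q * c.φ (c.ψ s) + ((2 * l + 3) * ms R) • S X)‖ ≤
      ms R ^ 2 * ‖s‖ := fun l hl => by
    have a0 : (l : ℝ) + 1 ≤ R := by exact_mod_cast Finset.mem_range.1 hl
    have a1 := t4 l
    rw [min_eq_left (by nlinarith)] at a1
    have a2 : S q * c.φ (c.ψ s) + ((2 * l + 3) * ms R) • S X =
        S (q * (Z (c.ψ s) + ((2 * l + 3) * ms R) • X) * q) := by
      rw [mul_add, add_mul _ _ q, Z2, mul_smul_comm, smul_mul_assoc, x1, map_add, (Z3 _).1,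
        ← Complex.coe_smul _ X, map_smul, Complex.coe_smul]
    have a3 : ‖cfc (mgk R l) (uφ K 1)‖ ≤ 1 := norm_le_one_of (cfc_nonneg fun t _ => mgk_nonneg)
      (cfc_le_one _ _ fun _ _ => mgk_le_one)
    have a4 := q1.norm_le
    rw [a2, ← mul_sub, ← map_sub, ← sub_mul, ← mul_sub]
    refine (norm_mul_le_of_le a3 ((S0.cp.norm_le S1 _).trans (norm_mul₃_le.trans
      (by gcongr : _ ≤ 1 * (3 * (ms R ^ 2 / 3) * ‖s‖) * 1)))).trans_eq (by ring)
  have e3 := (norm_sum_le _ _).trans (Finset.sum_le_sum e2)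
  rw [Finset.sum_sub_distrib, Finset.sum_const, Finset.card_range, nsmul_eq_mul] at e3
  have k1 : ∑ l ∈ Finset.range R, cfc (mgk R l) (uφ K 1) =
      cfc (fun t => (1 - wb R 16 t) * mgc R 0 t) (uφ K 1) := by
    rw [← cfc_sum _ _ _ fun l _ => (mgk_cont R l).continuousOn]
    congr 1
    funext t
    rw [Finset.sum_apply, mgk_sum]
  have k2 : (1 - ω) * (cfc (mgc R 0) (uφ K 1) * uφ K X) -
      ∑ l ∈ Finset.range R, cfc (mgk R l) (uφ K 1) * ((2 * l + 3) * ms R) • S X =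
      cfc (fun t => ∑ l ∈ Finset.range R, mgk R l t * (t - (2 * l + 3) * ms R)) (uφ K 1) *
        S X := by
    have a1 : cfc (mgc R 0) (uφ K 1) * uφ K X = cfc (fun t => mgc R 0 t * t) (uφ K 1) * S X := by
      rw [S2 (by fun_prop)]
      congr 2
      funext t
      rw [mul_assoc, mul_comm t, rp_Gf hδ one_pos, u0 l0]
    have a2 := S5 (α := fun t => mgc R 0 t * t) (by fun_prop)
      (fun t ht => by rw [l0 t ht, zero_mul]) X
    have a3 : ∀ l : ℕ, cfc (mgk R l) (uφ K 1) * ((2 * l + 3) * ms R) • S X =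
        cfc (fun t => (2 * l + 3) * ms R * mgk R l t) (uφ K 1) * S X := fun l => by
      rw [cfc_const_mul _ _ _ (mgk_cont R l).continuousOn, mul_smul_comm, smul_mul_assoc]
    rw [x0] at a2
    simp only [a3]
    rw [a1, a2, ← Finset.sum_mul, ← sub_mul, ← cfc_sum _ _ _ fun l _ => by fun_prop,
      ← cfc_sub _ _ _ (by fun_prop) (by
        rw [Finset.sum_fn]; exact Continuous.continuousOn (by fun_prop))]
    congr 2
    funext t
    rw [Finset.sum_apply, ← mul_assoc, ← mgk_sum, Finset.sum_mul, ← Finset.sum_sub_distrib]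
    exact Finset.sum_congr rfl fun l _ => by ring
  have e4 : ‖cfc (fun t => ∑ l ∈ Finset.range R, mgk R l t * (t - (2 * l + 3) * ms R)) (uφ K 1) *
      S X‖ ≤ 5 / 4 * ms R * ‖s‖ := norm_mul_le_of_le
    (norm_cfc_le (by positivity) fun t ht => mgk_loc (spec_mem h0 (uφ_one K) ht).2)
    ((S0.cp.norm_le S1 _).trans n1)
  have e5 : ‖(1 - ω) * (uφ K X * cfc (fun t => 1 - mgc R 0 t) (uφ K 1))‖ ≤
      1 * (2 * ms R * ‖s‖) := by
    refine norm_mul_le_of_le nω ((hρ.norm_mul_le _ _).trans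
      (mul_le_mul ?_ n1 (norm_nonneg _) (by positivity)))
    rw [id_mul_cfc (by fun_prop) hs]
    exact norm_cfc_le (by positivity) fun t ht =>
      mgc_small (spec_mem h0 (uφ_one K) ht).1 (spec_mem h0 (uφ_one K) ht).2
  rw [← ((hρ.commute X).cfc_real _).eq, cfc_sub _ _ _, cfc_const_one ℝ _ hs] at e5
  have e7 := norm_mul_le_of_le nω e6
  rw [← k2] at e4
  simp only [mul_add, Finset.sum_add_distrib] at e3
  rw [← Finset.sum_mul, k1, ← mul_assoc, ← C1] at e3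
  have e8 : (R : ℝ) * (ms R ^ 2 * ‖s‖) ≤ ms R / 2 * ‖s‖ := by
    rw [← mul_assoc]
    exact mul_le_mul_of_nonneg_right (by nlinarith) n0
  generalize ∑ l ∈ Finset.range R, cfc (mgk R l) (uφ K 1) * S (q * Ult.mk (Θ l s) * q) = Y₁
    at e1 e3
  generalize ∑ l ∈ Finset.range R, cfc (mgk R l) (uφ K 1) * ((2 * l + 3) * ms R) • S X = Y₂
    at e3 e4
  generalize 1 - ω = E at *
  have e9 : uT d (dg s) - E * (uT K (y * dg s * y) + c.φ (c.ψ s)) =
      uT d (dg s) - (Y₁ + E * (1 - C) * c.φ (c.ψ s)) + (Y₁ - (E * C * c.φ (c.ψ s) + Y₂)) -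
        (E * (cfc (mgc R 0) (uφ K 1) * uφ K X) - Y₂) -
        E * ((1 - cfc (mgc R 0) (uφ K 1)) * uφ K X) - E * (uT K (y * dg s * y) - uφ K X) := by
    noncomm_ring
  rw [e9]
  refine (norm_sub_le_of_le (norm_sub_le_of_le (norm_sub_le_of_le (norm_add_le_of_le e1
    (e3.trans e8)) e4) e5) e7).trans ?_
  nlinarith [mul_nonneg m0.le n0]

end Pool.Agent.Lib.MP_30b5b4_an
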