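import Pool.Agent.Lib.MP_30b5b4_an.C.Defs

/-! Merging with steps: the scalar functions and the sharp cut. -/

open scoped CStarAlgebra ComplexOrder Topology
open Filter

set_option linter.unusedSectionVars false
set_option linter.style.haveILetI false
set_option linter.unusedVariables false
set_option linter.unusedSimpArgs false
set_option synthInstance.maxSize 1000000

namespace Pool.Agent.Lib.MP_30b5b4_an

universe u v

/-- the cut that rises inside the wall number `l` -/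
noncomputable def mgc (R l : ℕ) (t : ℝ) : ℝ := rp (ms R / 4) (8 * l + 7) (min t 1)

@[fun_prop] lemma mgc_cont (R l : ℕ) : Continuous (mgc R l) := by unfold mgc; fun_prop

/-- the step between the walls `l` and `l + 1` -/
noncomputable def mgk (R l : ℕ) (t : ℝ) : ℝ := (1 - wb R 16 t) * (mgc R l t - mgc R (l + 1) t)

@[fun_prop] lemma mgk_cont (R l : ℕ) : Continuous (mgk R l) := by unfold mgk; fun_prop

section scalar
variable {R l l' : ℕ} {t : ℝ}

lemma ms_mul (R : ℕ) : (2 * R + 1) * ms R = 1 := by unfold ms; field_simp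

lemma ms_le_one (R : ℕ) : ms R ≤ 1 := by
  have := ms_mul R
  have := ms_pos R
  nlinarith [(Nat.cast_nonneg R : (0 : ℝ) ≤ R)]

lemma mg_cl_mono {x y : ℝ} (h : x ≤ y) : cl x ≤ cl y := max_le_max le_rfl (min_le_min le_rfl h)

lemma mgc_nonneg : 0 ≤ mgc R l t := cl_nonneg _

lemma mgc_le_one : mgc R l t ≤ 1 := cl_le_one _

lemma mgc_anti (h : l ≤ l') : mgc R l' t ≤ mgc R l t := by
  have : (l : ℝ) ≤ l' := by exact_mod_cast h
  refine mg_cl_mono ?_
  push_cast
  linarith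

lemma mgc_zero (h : min t 1 ≤ (2 * l + 7 / 4) * ms R) : mgc R l t = 0 := by
  have := ms_pos R
  refine cl_of_nonpos (sub_nonpos.2 ((div_le_iff₀ (by positivity)).2 ?_))
  push_cast
  linarith

lemma mgc_one (h : (2 * l + 2) * ms R ≤ min t 1) : mgc R l t = 1 := by
  have := ms_pos R
  exact rp_one (by positivity) (by push_cast; linarith)

lemma mgc_top : mgc R R t = 0 :=
  mgc_zero (by linarith [min_le_right t 1, ms_mul R, ms_pos R])

lemma mgc_low (h : t ≤ ms R) : mgc R l t = 0 := mgc_zero (by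
  have := ms_pos R
  have := min_le_left t 1
  nlinarith [(Nat.cast_nonneg l : (0 : ℝ) ≤ l)])

lemma mgc_wall (h : l < R) : mgc R l t = 0 ∨ mgc R l t = 1 ∨ wb R 16 t = 1 := by
  have m0 := ms_pos R
  rcases le_total (min t 1) ((2 * l + 7 / 4) * ms R) with h1 | h1
  · exact .inl (mgc_zero h1)
  rcases le_or_gt ((2 * l + 2) * ms R) (min t 1) with h2 | h2
  · exact .inr (.inl (mgc_one h2))
  refine .inr (.inr (rp_one (by norm_num) ?_))
  have h3 : (l : ℝ) + 1 ≤ R := by exact_mod_cast h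
  have h4 : min t 1 = t := by
    refine min_eq_left (le_of_not_gt fun h5 => ?_)
    rw [min_eq_right h5.le] at h2
    nlinarith [ms_mul R]
  rw [h4] at h1 h2
  have h5 := (le_div_iff₀ m0).2 h1
  have h6 := (div_lt_iff₀ m0).2 h2
  refine le_trans ?_ (Finset.single_le_sum (f := fun l : ℕ => tent ((t / ms R - 1) / 2 - l))
    (fun _ _ => cl_nonneg _) (Finset.mem_range.2 h))
  refine le_trans ?_ (le_max_right _ _)
  refine le_min (by norm_num) (le_min ?_ ?_) <;> push_cast <;> linarith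

lemma mg_wb : 0 ≤ 1 - wb R 16 t ∧ 1 - wb R 16 t ≤ 1 :=
  ⟨sub_nonneg.2 (cl_le_one _), sub_le_self _ (cl_nonneg _)⟩

lemma mgk_nonneg : 0 ≤ mgk R l t := mul_nonneg mg_wb.1 (sub_nonneg.2 (mgc_anti l.le_succ))

lemma mgk_le_one : mgk R l t ≤ 1 :=
  mul_le_one₀ mg_wb.2 (sub_nonneg.2 (mgc_anti l.le_succ))
    (by linarith [mgc_le_one (R := R) (l := l) (t := t), mgc_nonneg (R := R) (l := l + 1) (t := t)])

lemma mgk_low (h : t ≤ ms R) : mgk R l t = 0 := by rw [mgk, mgc_low h, mgc_low h]; simp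

lemma mgk_orth (h : l < l') (h' : l' < R) : mgk R l t * mgk R l' t = 0 := by
  rcases mgc_wall (t := t) h' with h1 | h1 | h1
  · rw [mgk.eq_def R l', h1, le_antisymm (h1 ▸ mgc_anti l'.le_succ) mgc_nonneg]; simp
  · rw [mgk.eq_def R l, le_antisymm mgc_le_one (h1 ▸ mgc_anti h.le),
      le_antisymm mgc_le_one (h1 ▸ mgc_anti h)]; simp
  · simp [mgk, h1]

lemma mgc_idem : (1 - wb R 16 t) * mgc R 0 t * mgc R 0 t = (1 - wb R 16 t) * mgc R 0 t := by
  rcases R.eq_zero_or_pos with rfl | h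
  · simp [mgc_top]
  rcases mgc_wall (t := t) h with h1 | h1 | h1 <;> simp [h1]

lemma mgc_mgk (h : l < R) : mgc R 0 t * mgk R l t = mgk R l t := by
  rcases mgc_wall (t := t) (Nat.zero_lt_of_lt h) with h1 | h1 | h1
  · have a1 : ∀ l, mgc R l t = 0 := fun l =>
      le_antisymm ((mgc_anti l.zero_le).trans_eq h1) mgc_nonneg
    simp [mgk, a1]
  · rw [h1, one_mul]
  · simp [mgk, h1]

lemma mgk_sum : ∑ l ∈ Finset.range R, mgk R l t = (1 - wb R 16 t) * mgc R 0 t := by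
  simp only [mgk]
  rw [← Finset.mul_sum, Finset.sum_range_sub', mgc_top, sub_zero]

lemma mgk_loc (h : t ≤ 1) :
    |∑ l ∈ Finset.range R, mgk R l t * (t - (2 * l + 3) * ms R)| ≤ 5 / 4 * ms R := by
  have m0 := ms_pos R
  have key : ∀ l, |mgk R l t * (t - (2 * l + 3) * ms R)| ≤ 5 / 4 * ms R * mgk R l t := fun l => by
    rw [abs_mul, abs_of_nonneg mgk_nonneg, mul_comm]
    rcases le_total t ((2 * l + 7 / 4) * ms R) with h1 | h1
    · have a1 : mgc R l t = 0 := mgc_zero ((min_le_left _ _).trans h1)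
      rw [mgk, a1, le_antisymm (a1 ▸ mgc_anti l.le_succ) mgc_nonneg]; simp
    rcases le_total ((2 * l + 4) * ms R) t with h2 | h2
    · have a1 : mgc R (l + 1) t = 1 := mgc_one (by rw [min_eq_left h]; push_cast; linarith)
      rw [mgk, a1, le_antisymm mgc_le_one (a1 ▸ mgc_anti l.le_succ)]; simp
    · exact mul_le_mul_of_nonneg_right (abs_le.2 ⟨by linarith, by linarith⟩) mgk_nonneg
  refine (Finset.abs_sum_le_sum_abs _ _).trans ((Finset.sum_le_sum fun l _ => key l).trans ?_)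
  rw [← Finset.mul_sum, mgk_sum]
  exact mul_le_of_le_one_right (by positivity) (mul_le_one₀ mg_wb.2 mgc_nonneg mgc_le_one)

lemma mgc_small (h0 : 0 ≤ t) (h : t ≤ 1) : |t * (1 - mgc R 0 t)| ≤ 2 * ms R := by
  have m0 := ms_pos R
  rcases le_total (2 * ms R) t with h1 | h1
  · rw [mgc_one (by rw [min_eq_left h]; simpa using h1)]; simpa using m0.le
  · rw [abs_of_nonneg (mul_nonneg h0 (sub_nonneg.2 mgc_le_one))]
    exact (mul_le_of_le_one_right h0 (sub_le_self _ mgc_nonneg)).trans h1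

end scalar

variable {A : Type u} [CStarAlgebra A] [PartialOrder A] [StarOrderedRing A]

/-- the sharp cut along the picture of `a` -/
lemma mg_core (K : ℕ → CA A) {F : Type} [CStarAlgebra F] [FiniteDimensional ℂ F]
    {W : F →ₗ[ℂ] UA A} (hW : OZ W) (W1 : W 1 ≤ 1) {a y : UA A} (a0 : 0 ≤ a) (a1 : a ≤ 1)
    (y0 : 0 ≤ y) (y1 : y * y ≤ 1) (ay : a * y = y) (ca : ∀ x, Commute a (W x)) (va : a ∈ VS K)
    (vy : y ∈ VS K) (vφ : ∀ x, W x ∈ VS K) {δ η : ℝ} (hδ : 0 < δ) (hη : 0 < η) (η1 : η ≤ 1) :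
    ∃ (q : Ult fun k => (K k).F) (Z : F →ₗ[ℂ] Ult fun k => (K k).F), IsStarProjection q ∧ OZ Z ∧
      Z 1 ≤ 1 ∧ (∀ x, q * Z x * q = Z x) ∧
      (∀ x, spm (uφ K) δ 1 (Z x) = spm (uφ K) δ 1 q * W x ∧ ∀ g : ℝ → ℝ, Continuous g →
        Commute (cfc g (uφ K 1) * spm (uφ K) δ 1 q) (W x)) ∧
      (∀ x, y * y + W x ≤ 1 → Z x + q * uψ K (y * y) * q ≤ 1) ∧
      (∀ b, ‖uT K (y * b * y) - uφ K (q * uψ K (y * b * y) * q)‖ ≤ (δ + 2 * η) * ‖b‖) ∧
      Commute (uT K a) (uφ K q) ∧ (η ^ 2) • (uφ K 1 * uφ K q) ≤ uT K a * uφ K q := by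
  obtain ⟨P, p1, p2, p3, p4⟩ := ult_central K hδ
  have hρ := uφ_oz K
  have hσ := (uψ_spec K).1
  have hρ' := (uφ_spec K).2.1
  let σ : UA A →ₗ[ℂ] Ult fun k => (K k).F := LinearMap.mulLeft ℂ P ∘ₗ uψ K
  have s0 : ∀ x, σ x = P * uψ K x := fun _ => rfl
  have s1 : IsCP σ := hσ.conj P fun x => by
    rw [s0, p1.isSelfAdjoint.star_eq, (p2 _).eq, mul_assoc, p1.isIdempotentElem.eq]
  have s2 : σ 1 ≤ 1 := (mul_unit p1.nonneg p1.le_one hσ.one_nonneg (uψ_one K) (p2 _)).2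
  have s3 := s1.norm_le s2
  have s4 : ∀ {X Y X' Y'}, X ∈ VS K → X' ∈ VS K → X * Y = X' * Y' → σ X * σ Y = σ X' * σ Y' := by
    intro X Y X' Y' h1 h2 hh
    have e0 : ∀ {X}, X ∈ VS K → ∀ Y, uT K X * uT K Y = uT K 1 * uT K (X * Y) := fun h Y => by
      rw [(Vis.of_VS h).1, (h Y).2, mul_assoc]
    have := p4 (uψ K X * uψ K Y - uψ K X' * uψ K Y') (by
      rw [map_sub, mul_sub, ← hρ.mul, ← hρ.mul, ← uT_apply, ← uT_apply, ← uT_apply, ← uT_apply,
        e0 h1, e0 h2, hh, sub_self])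
    have e : ∀ u v, P * u * (P * v) = P * (u * v) := fun u v => by
      rw [← mul_assoc, mul_assoc P, ← (p2 u).eq, ← mul_assoc, p1.isIdempotentElem.eq, mul_assoc]
    rwa [s0, s0, s0, s0, e, e, ← sub_eq_zero, ← mul_sub]
  let Z₀ : F →ₗ[ℂ] UA A := LinearMap.mulLeft ℂ a ∘ₗ W
  have Z0 : ∀ x, Z₀ x = a * W x := fun _ => rfl
  have hZ : OZ Z₀ := hW.mulLeft a0 ca Z0
  have vZ : ∀ x, Z₀ x ∈ VS K := fun x => mul_mem va (vφ x)
  let z := σ ∘ₗ Z₀
  have z0 : ∀ x, z x = σ (Z₀ x) := fun _ => rfl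
  have hz : OZ z := ⟨s1.comp hZ.cp z0, fun x y => s4 (vZ x) (vZ 1) (hZ.mul x y)⟩
  have w0 := s1.nonneg a0
  have yz : ∀ x, Commute (σ a) (z x) := fun x =>
    s4 va (vZ x) ((Commute.refl a).mul_right (ca x)).eq
  obtain ⟨q, q1, q2, q3, q4, q5⟩ := ult_cut hz w0.isSelfAdjoint yz (η ^ 2)
  set w := σ a with hw
  have hη2 : 0 < η ^ 2 := by positivity
  have k0 : q * w * q = w * q := by rw [q2.eq, mul_assoc, q1.isIdempotentElem.eq]
  have k1 : q * w * q ≤ w := by
    rw [k0]; exact mul_le_of_commute w0 q1.le_one q2.symm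
  have k3 : q * P = q := by
    have := mul_eq_zero_of_le (smul_nonneg hη2.le q1.nonneg) (q4.trans k1)
      (c := 1 - P) (by rw [hw, s0, (p2 _).eq, mul_assoc, p1.mul_one_sub_self, mul_zero])
    rw [smul_mul_assoc, smul_eq_zero, mul_sub, mul_one, sub_eq_zero] at this
    exact (this.resolve_left hη2.ne').symm
  have k4 : ∀ u v, q * u * uψ K v = q * u * σ v := fun u v => by
    rw [s0, ← mul_assoc, mul_assoc q u P, ← (p2 u).eq, ← mul_assoc, k3]
  have k5 : ∀ u v, uψ K v * (u * q) = σ v * (u * q) := fun u v => by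
    rw [s0, (p2 _).eq, mul_assoc, ← mul_assoc P, (p2 u).eq, mul_assoc u, (p2 q).eq, k3]
  have k6 : ∀ v, q * uψ K v = q * σ v := fun v => by simpa using k4 1 v
  have g1 := Gf_cont hη2
  set Γ := cfc (Gf (η ^ 2)) w with hΓ
  have w1 : w ≤ 1 := (s1.mono a1).trans s2
  have G0 : 1 ≤ Γ := by
    rw [← cfc_const_one ℝ w w0.isSelfAdjoint]
    refine cfc_mono (fun s hs => ?_) (by fun_prop) (by fun_prop)
    exact (one_le_inv₀ (hη2.trans_le (le_max_right _ _))).2
      (max_le (spec_mem w0 w1 hs).2 (pow_le_one₀ hη.le η1))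
  have G1 : 0 ≤ Γ := zero_le_one.trans G0
  have G3 : Commute Γ q := q2.symm.cfc_real _
  have G4 : ∀ x, Commute Γ (z x) := fun x => (yz x).cfc_real _
  have G5 : Commute Γ w := (Commute.refl w).cfc_real _
  have G6 : Γ * w * q = q := Gf_unit hη2 q1 w0.isSelfAdjoint q2 q4
  have G7 : q * Γ * w = q := by rw [← G3.eq, mul_assoc, q2.eq, ← mul_assoc, G6]
  have G8 : 0 ≤ q * Γ := G3.symm.mul_nonneg q1.nonneg G1
  have G9 : ∀ x, Commute (q * Γ) (z x) := fun x => (q3 x).mul_left (G4 x)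
  let Z := LinearMap.mulLeft ℂ (q * Γ) ∘ₗ z
  have e0 : ∀ x, Z x = q * Γ * z x := fun _ => rfl
  have e1 : ∀ x, q * Z x * q = Z x := fun x => by
    rw [e0, ← mul_assoc, ← mul_assoc, q1.isIdempotentElem.eq, mul_assoc _ (z x), ← (q3 x).eq,
      ← mul_assoc, mul_assoc q Γ, G3.eq, ← mul_assoc, q1.isIdempotentElem.eq]
  have n1 : ∀ x, spm (uφ K) δ 1 (Z x) = spm (uφ K) δ 1 q * W x := fun x => by
    conv_rhs => rw [← G7, hw, ← k4, (Vis.of_VS va).back_r hδ one_pos]
    rw [e0, z0, ← k4, (Vis.of_VS (vZ x)).back_r hδ one_pos, Z0, mul_assoc _ a]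
  have n2 : ∀ x, spm (uφ K) δ 1 (Z x) = W x * spm (uφ K) δ 1 q := fun x => by
    conv_rhs => rw [← G6, G5.eq, mul_assoc, hw, ← k5, (Vis.of_VS va).back_l hδ one_pos]
    rw [e0, (G9 x).eq, ← G3.eq, z0, ← k5, (Vis.of_VS (vZ x)).back_l hδ one_pos, Z0, (ca x).eq,
      mul_assoc]
  have n3 : ∀ x (g : ℝ → ℝ), Continuous g →
      Commute (cfc g (uφ K 1) * spm (uφ K) δ 1 q) (W x) := fun x g hg => by
    have gd := Gf_cont hδ
    have e : spm (uφ K) δ 1 q = cfc (fun t => rp δ 1 t * Gf δ t * Gf δ t) (uφ K 1) * uT K 1 *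
        (a * uφ K (Γ * q)) := by
      conv_lhs => rw [← G6, G5.eq, mul_assoc, hw, ← k5]
      rw [mul_assoc, ← mul_assoc _ a, ← (Vis.of_VS va).1, uT_apply, hρ.mul, ← mul_assoc (cfc _ _),
        cfc_mul_id (by fun_prop) hρ.cp.one_nonneg.isSelfAdjoint, spm_apply]
      congr 2
      funext t
      linear_combination (-Gf δ t) * rp_Gf hδ one_pos t
    have v := (Vis.of_VS (vφ x)).commute
    change _ = _
    rw [mul_assoc, ← n1, n2, e, ← mul_assoc (W x), ← (v _).eq, ← mul_assoc, ← mul_assoc,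
      ← mul_assoc, ← mul_assoc (cfc g _), ← mul_assoc (cfc g _), ← mul_assoc (cfc g _),
      cfc_mul' hg (by fun_prop), (v _).eq]
    simp only [mul_assoc]
  have ya : y * a = y := by rw [← y0.star_eq, ← a0.star_eq, ← star_mul, ay]
  have yy0 : 0 ≤ y * y := (Commute.refl y).mul_nonneg y0 y0
  have ayy : a * (y * y) = y * y := by rw [← mul_assoc, ay]
  have cyy : Commute a (y * y) := ayy.trans (by rw [mul_assoc, ya])
  have key : ∀ x (u : UA A), u ∈ VS K → 0 ≤ u → Commute a u → a * W x + u ≤ a →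
      Z x + q * uψ K u * q ≤ 1 := fun x u vu u0 cu h => by
    have c1 : Commute Γ (σ u) := Commute.cfc_real (s4 va vu cu.eq) _
    have c2 : σ u ≤ Γ * σ u := by
      rw [← sub_nonneg, ← sub_one_mul]
      exact Commute.mul_nonneg (sub_nonneg.2 G0) (s1.nonneg u0) (c1.sub_left (Commute.one_left _))
    have c3 : Γ * z x + Γ * σ u ≤ Γ * w := by
      have := s1.mono h
      rw [map_add, ← Z0, ← z0, ← sub_nonneg] at this
      rw [← mul_add, ← sub_nonneg, ← mul_sub]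
      exact Commute.mul_nonneg G1 this (G5.sub_right ((G4 x).add_right c1))
    have c4 := star_left_conjugate_le_conjugate ((add_le_add_right c2 _).trans c3) q
    rw [q1.isSelfAdjoint.star_eq, mul_add, add_mul, mul_assoc q (Γ * w), G6,
      q1.isIdempotentElem.eq, ← k6, ← mul_assoc, ← e0] at c4
    have c5 : Z x * q = Z x := by rw [← e1, mul_assoc, q1.isIdempotentElem.eq]
    exact (c5 ▸ c4).trans q1.le_one
  have m1 : uT K a * uφ K q = uφ K 1 * uφ K (q * w * q) := by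
    rw [uT_apply, hρ.mul, k0]
    exact congrArg _ (congrArg _ (by simpa using k5 1 a))
  refine ⟨q, Z, q1, hz.mulLeft G8 G9 e0, ?_, e1, fun x => ⟨n1 x, n3 x⟩,
    fun x hx => key x _ (mul_mem vy vy) yy0 cyy ?_, fun b => ?_, ?_, ?_⟩
  · simpa using key 1 0 (zero_mem _) le_rfl (Commute.zero_right _)
      (by simpa using mul_le_of_commute a0 W1 (ca 1))
  · have := mul_le_of_commute a0 hx (cyy.add_right (ca x))
    rwa [mul_add, ayy, add_comm] at this
  · let Φ : UA A →ₗ[ℂ] UA A := cj y LinearMap.id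
    have F0 : ∀ b, Φ b = y * b * y := fun b => by rw [cj_apply, y0.star_eq]; rfl
    have hΦ : IsCP Φ := IsCP.cj (IsCP.of_hom id fun _ _ => rfl) y
    have F1 : Φ 1 ≤ a := by
      rw [F0, mul_one, ← ayy]; exact mul_le_of_commute a0 y1 cyy
    have F2 := hΦ.norm_le (F1.trans a1)
    have f0 : IsCP (σ ∘ₗ Φ) := s1.comp hΦ fun _ => rfl
    have f1 : ∀ b, ‖σ (Φ b) * (1 - q)‖ ≤ η * ‖b‖ := fun b => by
      refine norm_le_of_star_mul_le (by positivity) ?_
      have a1 := ((f0.ks ((s1.mono F1).trans w1) b).trans (f0.star_mul_le b)).trans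
        (smul_le_smul_of_nonneg_left (s1.mono F1) (by positivity))
      rw [star_mul, mul_assoc, ← mul_assoc (star (σ _)), ← mul_assoc]
      refine (star_left_conjugate_le_conjugate a1 _).trans ?_
      rw [mul_smul_comm, smul_mul_assoc, q1.one_sub.isSelfAdjoint.star_eq,
        Algebra.algebraMap_eq_smul_one, mul_pow, mul_comm (η ^ 2), mul_smul]
      exact smul_le_smul_of_nonneg_left (q5.trans
        (smul_le_smul_of_nonneg_left q1.one_sub.le_one hη2.le)) (by positivity)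
    have f3 : ‖(1 - q) * σ (Φ b)‖ ≤ η * ‖b‖ := by
      have := f1 (star b)
      rwa [hΦ.map_star, s1.map_star, ← q1.one_sub.isSelfAdjoint.star_eq, ← star_mul, norm_star,
        norm_star] at this
    have e3 : ‖uφ K ((1 - P) * uψ K (Φ b))‖ ≤ δ * ‖b‖ := by
      have a1 : IsCP (uφ K ∘ₗ LinearMap.mulLeft ℂ (1 - P)) :=
        hρ.cp.comp_half (fun x => (1 - P) * x) fun x x' => by
          rw [star_mul, p1.one_sub.isSelfAdjoint.star_eq, mul_assoc, ← mul_assoc (1 - P),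
            p1.one_sub.isIdempotentElem.eq, ← mul_assoc,
            ← ((Commute.one_left _).sub_left (p2 (star x))).eq, mul_assoc]
          rfl
      exact (a1.norm_le' hδ (by simpa using p3) _).trans
        (mul_le_mul_of_nonneg_left (((uψ_spec K).2.1 _).trans (F2 b)) hδ.le)
    have a2 : ‖q * (σ (Φ b) * (1 - q))‖ ≤ 1 * (η * ‖b‖) :=
      (norm_mul_le _ _).trans (mul_le_mul q1.norm_le (f1 b) (norm_nonneg _) zero_le_one)
    have f5 : uT K (Φ b) - uφ K (q * uψ K (Φ b) * q) = uφ K ((1 - P) * uψ K (Φ b)) +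
        uφ K ((1 - q) * σ (Φ b) + q * (σ (Φ b) * (1 - q))) := by
      rw [uT_apply, k6, ← map_sub, ← map_add, sub_mul 1 P, ← s0]
      congr 1
      noncomm_ring
    rw [← F0, f5]
    refine (norm_add_le_of_le e3 ((hρ' _).trans (norm_add_le_of_le f3 a2))).trans_eq (by ring)
  · change _ = _
    rw [m1, uT_apply, hρ.mul q, k6, k0, q2.eq]
  · have := hρ.cp.mono q4
    rw [← Complex.coe_smul, map_smul, Complex.coe_smul, ← sub_nonneg] at this
    rw [m1, ← mul_smul_comm, ← sub_nonneg, ← mul_sub]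
    exact Commute.mul_nonneg hρ.cp.one_nonneg this
      ((hρ.commute _).sub_right ((hρ.commute _).smul_right _))

end Pool.Agent.Lib.MP_30b5b4_an
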