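import Pool.Agent.Lib.MP_30b5b4_an.C.Merge0

/-! Merging with steps: realisation by colours. -/

open scoped CStarAlgebra ComplexOrder Topology
open Filter

set_option linter.unusedSectionVars false
set_option linter.style.haveILetI false
set_option linter.unusedVariables false
set_option linter.unusedSimpArgs false
set_option synthInstance.maxSize 1000000

namespace Pool.Agent.Lib.MP_30b5b4_an

universe u v

lemma mg_wt {B : Type u} [CStarAlgebra B] [PartialOrder B] [StarOrderedRing B] {h s p : B}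
    (h0 : IsSelfAdjoint h) (s0 : IsSelfAdjoint s) (p0 : 0 ≤ p) (c1 : Commute h s)
    (c2 : Commute h p) (c3 : Commute s p) {η : ℝ} (hη : 0 < η) (hs : (η ^ 2) • (h * p) ≤ s * p)
    {α g : ℝ → ℝ} (hα : Continuous α) (hg : Continuous g) (α0 : ∀ t, t ≤ η → α t = 0)
    (g1 : ∀ t, η ^ 3 ≤ t → g t = 1) : cfc g s * (cfc α h * p) = cfc α h * p := by
  obtain ⟨X, _, _, ρ, f, JJ, hf, -⟩ := exists_jc ![h, s, p]
    (by simp [Fin.forall_fin_succ, h0, s0, p0.isSelfAdjoint])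
    (by simp [Fin.forall_fin_succ, c1, c2, c3, c1.symm, c2.symm, c3.symm])
  have f0 : ρ (f 0) = h := hf 0
  have f1 : ρ (f 1) = s := hf 1
  have f2 : ρ (f 2) = p := hf 2
  have a1 := (JJ.pos (f 2)).1 (f2 ▸ p0)
  have a2 := (JJ.pos (f 1 * f 2 - (η ^ 2) • (f 0 * f 2))).1 (by
    rwa [map_sub, map_smul, map_mul, map_mul, f0, f1, f2, sub_nonneg])
  rw [← f0, ← f1, ← f2, JJ.cfc (f 0) ⟨fun t => α (f 0 t), by fun_prop⟩ _ hα fun _ => rfl,
    JJ.cfc (f 1) ⟨fun t => g (f 1 t), by fun_prop⟩ _ hg fun _ => rfl, ← map_mul, ← map_mul]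
  congr 1
  ext t
  have b1 := a1 t
  have b2 : η ^ 2 * (f 0 t * f 2 t) ≤ f 1 t * f 2 t := by simpa using a2 t
  simp only [ContinuousMap.mul_apply, ContinuousMap.coe_mk]
  rcases le_total (f 0 t) η with h1 | h1
  · simp [α0 _ h1]
  rcases b1.eq_or_lt with h2 | h2
  · simp [← h2]
  rw [← mul_assoc] at b2
  rw [g1 _ (le_trans (by rw [pow_succ]; gcongr) (le_of_mul_le_mul_right b2 h2)), one_mul]

lemma mg_norm {B D E : Type*} [CStarAlgebra B] [PartialOrder B] [StarOrderedRing B]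
    [CStarAlgebra D] [PartialOrder D] [StarOrderedRing D] [CStarAlgebra E] (π : B →⋆ₐ[ℂ] D)
    {Θ : E →ₗ[ℂ] B} (hΘ : IsCP Θ) (h1 : π (Θ 1) ≤ 1) :
    ∃ Θ' : E →ₗ[ℂ] B, IsCP Θ' ∧ Θ' 1 ≤ 1 ∧ ∀ a, π (Θ' a) = π (Θ a) := by
  have R0 := hΘ.one_nonneg
  have g1 := Gf_cont one_pos
  have g2 : Continuous fun s => √(Gf 1 s) := by fun_prop
  have n1 : π (cfc (fun s => √(Gf 1 s)) (Θ 1)) = 1 := by
    rw [hom_cfc _ g2 R0.isSelfAdjoint, ← cfc_const_one ℝ (π (Θ 1)) (hom_nonneg _ R0).isSelfAdjoint]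
    refine cfc_congr fun s hs => ?_
    simp only [Gf, max_eq_right (spec_mem (hom_nonneg _ R0) h1 hs).2, inv_one, Real.sqrt_one]
  refine ⟨cj (cfc (fun s => √(Gf 1 s)) (Θ 1)) Θ, hΘ.cj _, ?_, fun a => ?_⟩
  · rw [cj_apply, IsSelfAdjoint.cfc.star_eq, cfc_mul_id g2 R0.isSelfAdjoint,
      cfc_mul' (by fun_prop) g2]
    refine cfc_le_one _ _ fun s _ => ?_
    rw [mul_right_comm, Real.mul_self_sqrt (Gf_nonneg one_pos), mul_comm]
    exact mul_Gf_le one_pos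
  · rw [cj_apply, map_mul, map_mul, map_star, n1, star_one, one_mul, mul_one]

variable {A : Type u} [CStarAlgebra A] [PartialOrder A] [StarOrderedRing A]

lemma mg_sum (R : ℕ) (d : ℕ → CA A) (h : ∀ l l', l < l' → l' < R → (d l).φ 1 * (d l').φ 1 = 0) :
    ∃ e : CA A, e.φ 1 = ∑ l ∈ Finset.range R, (d l).φ 1 ∧
      ∀ a, e.T a = ∑ l ∈ Finset.range R, (d l).T a := by
  induction R with
  | zero => exact ⟨Colour.zero _, rfl, fun _ => rfl⟩
  | succ R ih =>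
    obtain ⟨e, e1, e2⟩ := ih fun l l' h1 h2 => h l l' h1 (h2.trans R.lt_succ_self)
    obtain ⟨e', e3, e4⟩ := e.exists_add' (d R) (by
      rw [e1, Finset.sum_mul]
      exact Finset.sum_eq_zero fun l hl => h l R (Finset.mem_range.1 hl) R.lt_succ_self)
    exact ⟨e', by rw [e3, e1, Finset.sum_range_succ], fun a => by
      rw [e4, e2, Finset.sum_range_succ]⟩

lemma mg_stage (c : CA A) {q : c.F} (hq : IsStarProjection q) (R : ℕ) {f : ℕ → ℝ → ℝ}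
    (hf : ∀ l, Continuous (f l)) (f0 : ∀ l t, 0 ≤ f l t) (f1 : ∀ l t, f l t * t ≤ 1)
    (f2 : ∀ l l' t, l < l' → l' < R → f l t * f l' t = 0) (Θ : ℕ → A →ₗ[ℂ] c.F)
    (hΘ : ∀ l, IsCP (Θ l)) (Θ1 : ∀ l, Θ l 1 ≤ 1) :
    ∃ e : CA A, e.φ 1 = ∑ l ∈ Finset.range R, cfc (f l) (c.φ 1) * c.φ q ∧
      ∀ a, e.T a = ∑ l ∈ Finset.range R, cfc (f l) (c.φ 1) * c.φ (q * Θ l a * q) := by
  choose d d1 d2 using fun l => Colour.corner (j := NonUnitalStarAlgHom.id ℂ A)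
    { F := c.F
      ψ := Θ l
      φ := LinearMap.mulLeft ℂ (cfc (f l) (c.φ 1)) ∘ₗ c.φ
      cp := hΘ l
      le := (hΘ l).norm_le (Θ1 l)
      oz := c.oz.mulLeft (cfc_nonneg fun t _ => f0 l t) (fun x => (c.oz.commute x).cfc_real _)
        fun _ => rfl
      one := (cfc_mul_id (hf l) c.oz.cp.one_nonneg.isSelfAdjoint).trans_le
        (cfc_le_one _ _ fun t _ => f1 l t)
      mem := fun _ => ⟨_, rfl⟩ } hq
  replace d1 : ∀ l, (d l).φ 1 = cfc (f l) (c.φ 1) * c.φ q := d1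
  replace d2 : ∀ l a, (d l).T a = cfc (f l) (c.φ 1) * c.φ (q * Θ l a * q) := d2
  obtain ⟨e, e1, e2⟩ := mg_sum R d fun l l' h1 h2 => by
    rw [d1, d1, mul_assoc, ← mul_assoc (c.φ q), ← ((c.oz.commute q).cfc_real _).eq, ← mul_assoc,
      ← mul_assoc, cfc_mul' (hf l) (hf l')]
    simp [f2 l l' _ h1 h2]
  exact ⟨e, by simp only [e1, d1], fun a => by simp only [e2, d2]⟩

lemma mg_real (K : ℕ → CA A) {q : Ult fun k => (K k).F} (q1 : IsStarProjection q) (R : ℕ)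
    {f : ℕ → ℝ → ℝ} {g : ℝ → ℝ} (hf : ∀ l, Continuous (f l)) (hg : Continuous g)
    (f0 : ∀ l t, 0 ≤ f l t) (f1 : ∀ l t, f l t * t ≤ 1)
    (f2 : ∀ l l' t, l < l' → l' < R → f l t * f l' t = 0)
    (f3 : ∀ l t, l < R → f l t * g t * t = f l t) (Θ : ℕ → A →ₗ[ℂ] Bdd fun k => (K k).F)
    (hΘ : ∀ l, IsCP (Θ l)) (Θ1 : ∀ l, Ult.mk (Θ l 1) ≤ 1) {F : Type} [CStarAlgebra F]
    [PartialOrder F] [StarOrderedRing F] [FiniteDimensional ℂ F] {W : F →ₗ[ℂ] UA A} (hW : OZ W)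
    (W1 : W 1 ≤ 1) (hl : ∀ x, ∃ s, W x =
      (1 - cfc g (uφ K 1) * uφ K q) * s * (1 - cfc g (uφ K 1) * uφ K q))
    {Ψ : A →ₗ[ℂ] F} (hΨ : IsCP Ψ) (hΨ' : ∀ a, ‖Ψ a‖ ≤ ‖a‖) {η : ℝ} (hη : 0 < η) :
    ∃ d : ℕ → CA A, ∀ s, ‖uT d (dg s) - (∑ l ∈ Finset.range R,
      cfc (f l) (uφ K 1) * uφ K (q * Ult.mk (Θ l s) * q) + W (Ψ s))‖ ≤ η * ‖s‖ := by
  obtain ⟨q', hq', rfl⟩ := proj_lift q1
  choose Θ' t1 t2 t3 using fun l => mg_norm Ult.mk (hΘ l) (Θ1 l)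
  choose e e1 e2 using fun k => mg_stage (K k) (hq' k) R hf f0 f1 f2
    (fun l => lin (Bdd.ev (A := fun k => (K k).F) k) ∘ₗ Θ' l)
    (fun l => (lin_cp (Bdd.ev (A := fun k => (K k).F) k)).comp (t1 l) fun _ => rfl)
    fun l => by simpa using hom_mono (Bdd.ev (A := fun k => (K k).F) k) (t2 l)
  let bρ := Bdd.map (fun k => (K k).φ) fun k => (K k).φ_le
  have b0 : IsSelfAdjoint (bl K) := Bdd.isSelfAdjoint fun k =>
    (K k).oz.cp.one_nonneg.isSelfAdjoint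
  have b1 : IsSelfAdjoint (bρ q') := Bdd.isSelfAdjoint fun k =>
    ((K k).oz.cp.proj_nonneg (hq' k)).isSelfAdjoint
  have b2 : Commute (bl K) (bρ q') := Bdd.ext fun k => by
    simpa [bρ] using ((K k).oz.commute _).eq
  have b3 : bρ q' * bρ q' = bl K * bρ q' := Bdd.ext fun k => by
    have := (K k).oz.mul (Bdd.ev k q') (Bdd.ev k q')
    rw [(hq' k).isIdempotentElem.eq] at this
    simpa [bρ] using this
  have b4 : ∀ f : ℝ → ℝ, IsSelfAdjoint (cfc f (bl K) * bρ q') := fun f => by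
    rw [IsSelfAdjoint, star_mul, b1.star_eq, IsSelfAdjoint.cfc.star_eq, (b2.cfc_real f).eq]
  have b5 : ∀ {f : ℝ → ℝ}, Continuous f → ∀ x,
      Ult.mk (cfc f (bl K) * bρ x) = cfc f (uφ K 1) * uφ K (Ult.mk x) := fun hf x => by
    rw [map_mul, hom_cfc _ hf b0, ← uφ_one_eq, (uφ_spec K).2.2]
  set C := cfc g (bl K) * bρ q' with hC
  set r := ∑ l ∈ Finset.range R, cfc (f l) (bl K) * bρ q' with hr
  have r0 : IsSelfAdjoint r := isSelfAdjoint_sum _ fun l _ => b4 _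
  have r1 : r * (1 - C) = 0 := by
    rw [mul_sub, mul_one, sub_eq_zero, hr, Finset.sum_mul]
    refine Finset.sum_congr rfl fun l hl => ?_
    have := hf l
    rw [hC, mul_assoc, ← mul_assoc (bρ q'), ← (b2.cfc_real g).eq, mul_assoc, b3, ← mul_assoc,
      ← mul_assoc, cfc_mul' (hf l) hg, cfc_mul_id (by fun_prop) b0]
    simp only [f3 l _ (Finset.mem_range.1 hl)]
  have r2 : (1 - C) * r = 0 := mul_eq_zero_comm_sa r0 ((IsSelfAdjoint.one _).sub (b4 g)) r1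
  obtain ⟨d₂, d1, d2⟩ := idl_id.lift_col hW W1 r0 (fun x => by
    obtain ⟨s, hs⟩ := hl x
    obtain ⟨s, rfl⟩ := Ult.surj s
    refine ⟨(1 - C) * s * (1 - C), fun k => ⟨_, rfl⟩,
      by rw [← mul_assoc, ← mul_assoc, r1, zero_mul, zero_mul],
      by rw [mul_assoc, r2, mul_zero], ?_⟩
    rw [hs, map_mul, map_mul, map_sub, map_one, hC, b5 hg]) hΨ hΨ' hη
  choose d hd using fun k => (e k).exists_add (d₂ k) (by
    rw [e1, ← d1 k, hr, map_sum]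
    congr 1
    refine Finset.sum_congr rfl fun l _ => ?_
    rw [map_mul, hom_cfc _ (hf l) b0]
    rfl)
  refine ⟨d, fun s => ?_⟩
  have a1 : sT d s = ∑ l ∈ Finset.range R,
      cfc (f l) (uφ K 1) * uφ K (Ult.mk q' * Ult.mk (Θ l s) * Ult.mk q') + sT d₂ s := by
    simp only [← t3, ← map_mul, ← b5 (hf _), ← map_sum]
    rw [sT, sT, ← map_add]
    refine congrArg _ (Bdd.ext fun k => ?_)
    simp only [Bdd.ev_of, map_add, map_sum, map_mul, hd, e2, hom_cfc _ (hf _) b0]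
    rfl
  rw [← sT_eq, a1, add_sub_add_left_eq_sub]
  exact d2 s

end Pool.Agent.Lib.MP_30b5b4_an
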