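import Pool.Agent.Lib.MP_30b5b4_an.C.SB2

/-! Elements of a prime algebra that are orthogonal along finitely many links. -/

open scoped CStarAlgebra ComplexOrder Topology
open Filter

set_option linter.unusedSectionVars false
set_option linter.style.haveILetI false
set_option linter.unusedVariables false
set_option linter.unusedSimpArgs false

namespace Pool.Agent.Lib.MP_30b5b4_an

universe u

section
variable {B : Type u} [CStarAlgebra B] [PartialOrder B] [StarOrderedRing B]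

lemma conj_zero {e x : B} (e0 : 0 ≤ e) (h : star x * e * x = 0) : e * x = 0 := by
  have : sq e * x = 0 := (CStarRing.star_mul_self_eq_zero_iff _).1 (by
    rw [star_mul, sq_star, mul_assoc, ← mul_assoc (sq e), sq_mul_sq e0, ← mul_assoc, h])
  rw [← sq_mul_sq e0, mul_assoc, this, mul_zero]

lemma link_her {a b a' b' r : B} (a0 : 0 ≤ a) (a1 : 0 ≤ a') (h : a * r * b = 0)
    (ha : ∀ z, z * a = 0 → z * a' = 0) (hb : ∀ z, z * b = 0 → z * b' = 0) : a' * r * b' = 0 := by
  have := ha (star (r * b')) (by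
    rw [← a0.star_eq, ← star_mul, ← mul_assoc, hb _ h, star_zero])
  rwa [← a1.star_eq, ← star_mul, star_eq_zero, ← mul_assoc] at this

lemma Hv.pair (h : Hv (NonUnitalStarAlgHom.id ℂ B)) {a b : B} (a0 : 0 ≤ a) (a1 : a ≠ 0)
    (b0 : 0 ≤ b) (b1 : b ≠ 0) (r : B) : ∃ a' b', 0 ≤ a' ∧ a' ≠ 0 ∧ 0 ≤ b' ∧ b' ≠ 0 ∧
      (∀ z, z * a = 0 → z * a' = 0) ∧ (∀ z, z * b = 0 → z * b' = 0) ∧ a' * r * b' = 0 := by
  obtain ⟨H, hH⟩ : ∃ H, H = a * r * b * star (a * r) := ⟨_, rfl⟩
  have H0 : 0 ≤ H := hH ▸ star_right_conjugate_nonneg b0 _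
  by_cases H1 : H = 0
  · refine ⟨a, b, a0, a1, b0, b1, fun _ h => h, fun _ h => h, ?_⟩
    have := conj_zero (x := star (a * r)) b0 (by rw [star_star, ← hH, H1])
    rwa [← star_eq_zero, star_mul, star_star, b0.star_eq] at this
  have n0 : 0 < ‖H‖ / 2 := half_pos (norm_pos_iff.2 H1)
  obtain ⟨e, f, -, -, e0, f0, e1, f1, ef, hz⟩ := h (cfc (rp (‖H‖ / 2) 1) H) ⟨_, rfl⟩
    (rp_unit _ _ _).1 (rp_ne_zero n0 H0 (by push_cast; linarith))
  obtain ⟨G, hG⟩ : ∃ G, G = cfc (Gf (‖H‖ / 2)) H := ⟨_, rfl⟩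
  have G0 : star G = G := hG ▸ IsSelfAdjoint.cfc.star_eq
  have gc := Gf_cont n0
  obtain ⟨u1, u2⟩ := hz (1 - H * G) (kill_of_unit (by
    rw [hG, id_mul_cfc gc H0.isSelfAdjoint, cfc_mul' (by fun_prop) (rp_cont _ _)]
    refine congrArg (cfc · H) (funext fun t => ?_)
    rcases le_total t (‖H‖ / 2) with ht | ht
    · rw [rp_zero n0 one_pos ht, mul_zero]
    · rw [Gf, max_eq_left ht, mul_inv_cancel₀ (n0.trans_le ht).ne', one_mul]))
  replace u1 := unit_of_kill u1
  replace u2 := unit_of_kill u2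
  refine ⟨a * e * a, star (G * (a * r * b)) * f * (G * (a * r * b)),
    by simpa only [a0.star_eq] using star_left_conjugate_nonneg e0 a, fun h0 => e1 ?_,
    star_left_conjugate_nonneg f0 _, fun h0 => f1 ?_,
    fun z hz => by rw [← mul_assoc, ← mul_assoc, hz, zero_mul, zero_mul], fun z hz => ?_, ?_⟩
  · have := conj_zero (x := a) e0 (by rw [a0.star_eq, h0])
    rw [← CStarRing.star_mul_self_eq_zero_iff, e0.star_eq]
    conv_lhs => enter [2]; rw [← u1, hH]
    simp only [← mul_assoc, this, zero_mul]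
  · have := congrArg (· * star (a * r)) (conj_zero f0 h0)
    simp only [zero_mul, mul_assoc f, mul_assoc G, ← hH] at this
    rw [← star_eq_zero, star_mul, star_mul, H0.star_eq, G0, f0.star_eq, u2] at this
    exact this
  · rw [star_mul, star_mul, b0.star_eq]
    simp only [← mul_assoc, hz, zero_mul]
  · calc _ = a * e * (a * r * b * star (a * r) * G * f) * (G * (a * r * b)) := by
          rw [star_mul, star_mul (a * r), b0.star_eq, G0]; noncomm_ring
      _ = 0 := by rw [← hH, u2, mul_assoc a, ef, mul_zero, zero_mul]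

lemma Hv.orth (h : Hv (NonUnitalStarAlgHom.id ℂ B)) {X ρ : Type} (r : ρ → B) (a₀ : X → B)
    (h0 : ∀ x, 0 ≤ a₀ x ∧ a₀ x ≠ 0) (s : Finset (X × X × ρ)) :
    ∃ a : X → B, (∀ x, 0 ≤ a x ∧ a x ≠ 0 ∧ ∀ z, z * a₀ x = 0 → z * a x = 0) ∧
      ∀ t ∈ s, t.1 ≠ t.2.1 → a t.1 * r t.2.2 * a t.2.1 = 0 := by
  classical
  induction s using Finset.induction_on with
  | empty => exact ⟨a₀, fun x => ⟨(h0 x).1, (h0 x).2, fun _ h => h⟩, by simp⟩
  | insert t s _ ih =>
    obtain ⟨a, a1, a2⟩ := ih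
    by_cases ht : t.1 = t.2.1
    · exact ⟨a, a1, Finset.forall_mem_insert _ _ _ |>.2 ⟨fun h => (h ht).elim, a2⟩⟩
    obtain ⟨b, c, b0, b1, c0, c1, b2, c2, bc⟩ := h.pair (a1 t.1).1 (a1 t.1).2.1 (a1 t.2.1).1
      (a1 t.2.1).2.1 (r t.2.2)
    obtain ⟨a', h1, h2, h3⟩ : ∃ a' : X → B, a' t.1 = b ∧ a' t.2.1 = c ∧
        ∀ x, 0 ≤ a' x ∧ a' x ≠ 0 ∧ ∀ z, z * a x = 0 → z * a' x = 0 := by
      refine ⟨fun x => if x = t.1 then b else if x = t.2.1 then c else a x, by simp,
        by simp [Ne.symm ht], fun x => ?_⟩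
      simp only
      split_ifs with e1 e2
      exacts [⟨b0, b1, e1 ▸ b2⟩, ⟨c0, c1, e2 ▸ c2⟩, ⟨(a1 x).1, (a1 x).2.1, fun _ h => h⟩]
    exact ⟨a', fun x => ⟨(h3 x).1, (h3 x).2.1, fun z hz => (h3 x).2.2 z ((a1 x).2.2 z hz)⟩,
      Finset.forall_mem_insert _ _ _ |>.2 ⟨fun _ => by rw [h1, h2, bc], fun t' ht' h' =>
        link_her (a1 _).1 (h3 _).1 (a2 t' ht' h') (h3 _).2.2 (h3 _).2.2⟩⟩

lemma min_orth (hB : ∀ a b : B, (∀ c, a * c * b = 0) → a = 0 ∨ b = 0) {q : B} (q0 : q ≠ 0)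
    (q1 : star q = q) (q2 : ∀ x, ∃ c : ℂ, q * x * q = c • q) {X ρ : Type} [Fintype X] [Fintype ρ]
    (u : X → B) (r : ρ → B) {L : ℕ} (hL : 2 * Fintype.card X * Fintype.card ρ < L)
    (h : ∀ x, Rich L (u x)) (s : Finset X) :
    ∃ β : X → B, ∀ x ∈ s, (β x * q ≠ 0 ∧ u x * (β x * q) = β x * q) ∧
      ∀ x' ∈ s, ∀ l, x ≠ x' → star (β x * q) * r l * (β x' * q) = 0 := by
  classical
  induction s using Finset.induction_on with
  | empty => exact ⟨0, by simp⟩
  | insert x₀ s hx ih =>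
    obtain ⟨β, hβ⟩ := ih
    obtain ⟨y, y1, y2⟩ := h x₀
    have : ∀ k, ∃ b, y k * b * q ≠ 0 := fun k => by
      by_contra h1
      exact (hB _ _ fun c => not_not.1 fun h2 => h1 ⟨c, h2⟩).elim (y1 k).2.1 q0
    choose b hb using this
    choose M hM using fun (i : Bool × X × ρ) (k : Fin L) =>
      q2 (star (β i.2.1) * cond i.1 (r i.2.2) (star (r i.2.2)) * (y k * b k))
    obtain ⟨t, t1, t2⟩ := (Submodule.ne_bot_iff _).1 (LinearMap.ker_ne_bot_of_finrank_lt
      (f := Matrix.mulVecLin (Matrix.of M)) (by simpa [mul_assoc] using hL))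
    have e1 : ∀ i : Bool × X × ρ, star (β i.2.1 * q) * cond i.1 (r i.2.2) (star (r i.2.2)) *
        ((∑ k, t k • (y k * b k)) * q) = 0 := fun i => by
      have := congrFun (LinearMap.mem_ker.1 t1) i
      simp only [Matrix.mulVecLin_apply, Matrix.mulVec, dotProduct, Matrix.of_apply,
        Pi.zero_apply] at this
      calc _ = ∑ k, t k • (q * (star (β i.2.1) * cond i.1 (r i.2.2) (star (r i.2.2)) *
            (y k * b k)) * q) := by
            simp only [star_mul, q1, Finset.sum_mul, Finset.mul_sum, smul_mul_assoc, mul_smul_comm,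
              mul_assoc]
        _ = 0 := by simp only [hM, smul_smul, mul_comm (t _), ← Finset.sum_smul, this, zero_smul]
    have e2 : (∑ k, t k • (y k * b k)) * q ≠ 0 := fun h0 => t2 (funext fun k => by
      have := congrArg (star (y k * b k * q) * ·) h0
      simp only [Finset.sum_mul, Finset.mul_sum, smul_mul_assoc, mul_smul_comm, mul_zero] at this
      rw [Finset.sum_eq_single k (fun k' _ hk => by
        rw [star_mul, star_mul, (y1 k).1.star_eq, mul_assoc, mul_assoc, mul_assoc (y k'),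
          ← mul_assoc (y k), y2 _ _ hk.symm]
        simp) (by simp), smul_eq_zero, CStarRing.star_mul_self_eq_zero_iff] at this
      exact this.resolve_right (hb k))
    have ne : ∀ x ∈ s, x ≠ x₀ := fun x h1 h2 => hx (h2 ▸ h1)
    refine ⟨Function.update β x₀ (∑ k, t k • (y k * b k)), fun x h1 => ⟨?_, fun x' h2 l h3 => ?_⟩⟩
    · rcases Finset.mem_insert.1 h1 with rfl | h1
      · rw [Function.update_self]
        refine ⟨e2, ?_⟩
        simp only [Finset.sum_mul, Finset.mul_sum, smul_mul_assoc, mul_smul_comm, ← mul_assoc,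
          (y1 _).2.2]
      · rw [Function.update_of_ne (ne x h1)]
        exact (hβ x h1).1
    · replace h1 := Finset.mem_insert.1 h1
      replace h2 := Finset.mem_insert.1 h2
      rcases h1 with rfl | h1 <;> rcases h2 with rfl | h2
      · exact (h3 rfl).elim
      · rw [Function.update_self, Function.update_of_ne (ne x' h2), ← star_eq_zero, star_mul,
          star_mul _ (r l), star_star, ← mul_assoc]
        exact e1 (false, x', l)
      · rw [Function.update_self, Function.update_of_ne (ne x h1)]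
        exact e1 (true, x, l)
      · rw [Function.update_of_ne (ne x h1), Function.update_of_ne (ne x' h2)]
        exact (hβ x h1).2 x' h2 l h3

end

variable {A : Type u} [CStarAlgebra A] [PartialOrder A] [StarOrderedRing A]

theorem Prm.orth {p : Pt A} (hp : Prm p) {X ρ : Type} [Fintype X] [Fintype ρ] (u : X → p.Q)
    (r : ρ → p.Q) {L : ℕ} (hL : 2 * Fintype.card X * Fintype.card ρ < L) (h : ∀ x, Rich L (u x)) :
    ∃ a : X → p.Q, (∀ x, 0 ≤ a x ∧ a x ≠ 0 ∧ u x * a x = a x) ∧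
      ∀ x x' l, x ≠ x' → a x * r l * a x' = 0 := by
  by_cases hv : Hv (NonUnitalStarAlgHom.id ℂ p.Q)
  · choose y y1 _ using h
    obtain ⟨a, a1, a2⟩ := hv.orth r (fun x => y x ⟨0, by omega⟩)
      (fun x => ⟨(y1 x _).1, (y1 x _).2.1⟩) Finset.univ
    exact ⟨a, fun x => ⟨(a1 x).1, (a1 x).2.1,
      unit_of_kill ((a1 x).2.2 _ (kill_of_unit (y1 x _).2.2))⟩,
      fun x x' l hx => a2 (x, x', l) (Finset.mem_univ _) hx⟩
  obtain ⟨q, -, q0, q1, q2⟩ := exists_minimal_of_not_hv idl_id hv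
  obtain ⟨β, hβ⟩ := min_orth (fun a b hab => by
    obtain ⟨a, rfl⟩ := p.surj a
    obtain ⟨b, rfl⟩ := p.surj b
    exact hp a b fun c => by rw [map_mul, map_mul, hab]) q0 q1 q2 u r hL h Finset.univ
  refine ⟨fun x => β x * q * star (β x * q), fun x => ⟨mul_star_self_nonneg _,
    fun h0 => (hβ x (Finset.mem_univ _)).1.1 ((CStarRing.mul_star_self_eq_zero_iff _).1 h0), ?_⟩,
    fun x x' l hx => ?_⟩
  · rw [← mul_assoc, (hβ x (Finset.mem_univ _)).1.2]
  · calc _ = β x * q * (star (β x * q) * r l * (β x' * q)) * star (β x' * q) := by noncomm_ring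
      _ = 0 := by rw [(hβ x (Finset.mem_univ _)).2 x' (Finset.mem_univ _) l hx, mul_zero, zero_mul]

end Pool.Agent.Lib.MP_30b5b4_an
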