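import Pool.Agent.Lib.MP_30b5b4_an.C.Defs
import Pool.Agent.Lib.MP_30b5b4_an.C.SB3

/-! Rooms and movers, amplified over the blocks of the ambient colours. -/

open scoped CStarAlgebra ComplexOrder Topology
open Filter

set_option linter.unusedSectionVars false
set_option linter.style.haveILetI false
set_option linter.unusedVariables false
set_option linter.unusedSimpArgs false
set_option synthInstance.maxSize 1000000

namespace Pool.Agent.Lib.MP_30b5b4_an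

universe u v

section gen
variable {B : Type u} [CStarAlgebra B] [PartialOrder B] [StarOrderedRing B]

lemma MU.amp_mem {F : Type*} [CStarAlgebra F] {M : MU F} {φ : F →ₗ[ℂ] B} {δ : ℝ}
    {S : StarSubalgebra ℂ B} (hS : IsClosed (S : Set B)) (h : ∀ y, φ y ∈ S) {w : Fin M.N → B}
    (hw : ∀ i, w i ∈ S) : M.amp φ δ w ∈ S :=
  have e : ∀ y, piM φ δ y ∈ S := fun y => mul_mem (cfc_mem_cl hS _ (h 1)) (h y)
  sum_mem fun i _ => mul_mem (mul_mem (e _) (hw _)) (star_mem (e _))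

lemma rsmul_mem {S : StarSubalgebra ℂ B} (r : ℝ) {x : B} (h : x ∈ S) : r • x ∈ S := by
  rw [← Complex.coe_smul]; exact SMulMemClass.smul_mem _ h

lemma mem_Cn_of {κ : Type*} {Z : κ → B} {S : StarSubalgebra ℂ B} (hZ : ∀ x, Z x ∈ S) {z : B}
    (h : ∀ y ∈ S, Commute z y) : z ∈ Cn (Set.range Z) := mem_Cn.2 (by
  rintro _ ⟨x, rfl⟩
  exact ⟨(h _ (hZ x)).symm, (h _ (star_mem (hZ x))).symm⟩)

lemma Cn_swap {κ : Type*} {T : κ → B} {z : B} (h : z ∈ Cn (Set.range T)) (x : κ) : T x ∈ Cn {z} :=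
  mem_Cn.2 (by simpa using ⟨Cn_comm h ⟨x, rfl⟩, Cn_comm (star_mem h) ⟨x, rfl⟩⟩)

lemma mem_Cn_sa {t x : B} (ht : IsSelfAdjoint t) (h : Commute t x) : x ∈ Cn {t} :=
  mem_Cn.2 (by simpa [ht.star_eq] using h)

lemma norm_sq_le {a : B} (a0 : 0 ≤ a) (a1 : a ≤ 1) : ‖sq a‖ ≤ 1 :=
  norm_le_of_star_mul_le zero_le_one (by rwa [sq_star, sq_mul_sq a0, one_pow, map_one])

lemma wts {N : ℕ} (hN : 2 ≤ N) {Q : Type} (e : Q → Fin N) (ν : Q → ℝ) (h0 : ∀ q, 0 ≤ ν q)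
    (h1 : ∀ q, ν q ≤ 1) : ∃ μ : Fin N → Q → ℝ, (∀ i q, 0 ≤ μ i q ∧ μ i q ≤ 1) ∧
      (∀ q, ∑ i, μ i q = 1) ∧ ∀ q, μ (e q) q = ν q := by
  haveI : Nontrivial (Fin N) := Fin.nontrivial_iff_two_le.2 hN
  choose nx hnx using fun i : Fin N => exists_ne i
  let μ : Fin N → Q → ℝ := fun i q =>
    (if i = e q then ν q else 0) + if i = nx (e q) then 1 - ν q else 0
  have m0 : ∀ i q, 0 ≤ μ i q := fun i q => by
    refine add_nonneg ?_ ?_ <;> split_ifs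
    exacts [h0 q, le_rfl, sub_nonneg.2 (h1 q), le_rfl]
  have m1 : ∀ q, ∑ i, μ i q = 1 := fun q => by simp [μ, Finset.sum_add_distrib]
  exact ⟨μ, fun i q => ⟨m0 i q, m1 q ▸ Finset.single_le_sum (fun i _ => m0 i q)
    (Finset.mem_univ i)⟩, m1, fun q => by simp [μ, (hnx (e q)).symm]⟩

variable {ι Q : Type} {F : ι → Type} [∀ l, CStarAlgebra (F l)] {U : ∀ l, MU (F l)}
  {φ : ∀ l, F l →ₗ[ℂ] B} {δ : ℝ}

/-- a family indexed by blocks, amplified -/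
noncomputable def ampF (U : ∀ l, MU (F l)) (φ : ∀ l, F l →ₗ[ℂ] B) (δ : ℝ)
    (w : (Σ l, Fin (U l).N) × Q → B) (y : ι × Q) : B :=
  (U y.1).amp (φ y.1) δ fun b => w (⟨y.1, b⟩, y.2)

noncomputable def blkF (U : ∀ l, MU (F l)) (φ : ∀ l, F l →ₗ[ℂ] B) (δ : ℝ) (m : ℕ)
    (b : Σ l, Fin (U l).N) : B := cfc (rp δ m) ((U b.1).blk (φ b.1) b.2)

lemma blkF_loc (φ0 : ∀ l, OZ (φ l)) (hδ : 0 < δ) {l : ι} {w : Fin (U l).N → B}
    (h : ∀ b, blkF U φ δ 1 ⟨l, b⟩ * w b = w b) : (U l).Loc (φ l) δ w :=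
  MU.Loc.of (φ0 l) hδ (rp_cont δ 1) (fun t ht => rp_zero hδ one_pos ht) h

lemma blkF_amp (φ0 : ∀ l, OZ (φ l)) (hδ : 0 < δ) {m : ℕ} (hm : 0 < m) (l : ι) :
    (U l).amp (φ l) δ (fun b => blkF U φ δ m ⟨l, b⟩) = cfc (rp δ m) (φ l 1) :=
  MU.amp_cfc (φ0 l) hδ (rp_cont δ m) fun t ht => rp_zero hδ hm ht

lemma rooms_amp (φ0 : ∀ l, OZ (φ l)) (hδ : 0 < δ) (Y : (Σ l, Fin (U l).N) × Q → B)
    (Y0 : ∀ x, IsSelfAdjoint (Y x)) (Y2 : ∀ x, blkF U φ δ 1 x.1 * Y x = Y x)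
    (Y3 : ∀ x x' (b b' : Σ l, Fin (U l).N), x ≠ x' → Y x * (star (piM (φ b.1) δ ((U b.1).v b.2)) *
      piM (φ b'.1) δ ((U b'.1).v b'.2)) * Y x' = 0) {m : ι × Q → B}
    (hm : m = ampF U φ δ fun x => cfc (rp (1 / 16) 1) (Y x)) (y : ι × Q) :
    0 ≤ m y ∧ ‖m y‖ ≤ 1 ∧ (∀ z, Commute (m y) (piM (φ y.1) δ z)) ∧
      cfc (rp δ 1) (φ y.1 1) * m y = m y ∧ ∀ y', y ≠ y' → m y * m y' = 0 := by
  subst hm
  have a1 : ∀ x, blkF U φ δ 1 x.1 * cfc (rp (1 / 16) 1) (Y x) = cfc (rp (1 / 16) 1) (Y x) :=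
    fun x => unit_cfc (Y0 x) (Y2 x) (rp_cont _ _) (rp_at_zero _ _)
  have L : (U y.1).Loc (φ y.1) δ fun b => cfc (rp (1 / 16) 1) (Y (⟨y.1, b⟩, y.2)) :=
    blkF_loc φ0 hδ fun b => a1 (⟨y.1, b⟩, y.2)
  refine ⟨by
      unfold ampF MU.amp
      exact Finset.sum_nonneg fun i _ => star_right_conjugate_nonneg (rp_unit _ _ _).1 _,
    MU.amp_norm (φ0 _) hδ L zero_le_one fun b => norm_le_one_of (rp_unit _ _ _).1 (rp_unit _ _ _).2,
    MU.amp_comm (φ0 _) L (by simpa only [IsSelfAdjoint.cfc.star_eq] using L), ?_, fun y' hy => ?_⟩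
  · rw [← blkF_amp (U := U) φ0 hδ one_pos, ampF, MU.amp_mul (φ0 _) _ L]
    exact congrArg _ (funext fun b => a1 (⟨y.1, b⟩, y.2))
  · simp only [ampF, MU.amp, Finset.sum_mul_sum]
    refine Finset.sum_eq_zero fun i _ => Finset.sum_eq_zero fun i' _ => ?_
    have h1 := Y3 (⟨y.1, (U y.1).rep i⟩, y.2) (⟨y'.1, (U y'.1).rep i'⟩, y'.2) ⟨y.1, i⟩ ⟨y'.1, i'⟩
      fun h => hy (Prod.ext (congrArg (·.1.1) h) (congrArg (·.2) h))
    have h2 := mul_cfc_eq_zero (Y0 _) h1 (rp_cont (1 / 16) 1) (rp_at_zero _ _)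
    rw [mul_assoc] at h2
    have h3 := cfc_mul_eq_zero (Y0 _) h2 (rp_cont (1 / 16) 1) (rp_at_zero _ _)
    have h4 := congrArg (piM (φ y.1) δ ((U y.1).v i) * · * star (piM (φ y'.1) δ ((U y'.1).v i'))) h3
    simpa only [mul_assoc, mul_zero, zero_mul] using h4

/-- weighted sums of orthogonal rooms -/
lemma rooms_sum [Fintype ι] [Fintype Q] {m : ι × Q → B} (m0 : ∀ y, 0 ≤ m y) (m1 : ∀ y, ‖m y‖ ≤ 1)
    (m2 : ∀ y y', y ≠ y' → m y * m y' = 0) {e : ι → B} (e0 : ∀ l, 0 ≤ e l) (e1 : ∀ l, e l ≤ 1)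
    (e2 : ∀ y, Commute (m y) (e y.1)) {ν : Q → ℝ} (h : ∀ q, 0 ≤ ν q ∧ ν q ≤ 1) :
    (∀ l, 0 ≤ ∑ q, ν q • m (l, q) ∧ ∑ q, ν q • m (l, q) ≤ 1) ∧
      0 ≤ ∑ l, (∑ q, ν q • m (l, q)) * e l ∧ ∑ l, (∑ q, ν q • m (l, q)) * e l ≤ 1 ∧
      ∀ y V z, m y * V = V → Commute V (e y.1) → e y.1 * z = z →
        (∑ l, (∑ q, ν q • m (l, q)) * e l) * V * z = ν y.2 • (V * z) := by
  classical
  have a0 : ∀ l, 0 ≤ ∑ q, ν q • m (l, q) := fun l =>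
    Finset.sum_nonneg fun q _ => smul_nonneg (h q).1 (m0 _)
  have a1 : ∑ l, ∑ q, ν q • m (l, q) ≤ 1 := by
    refine le_trans (Finset.sum_le_sum fun l _ => Finset.sum_le_sum fun q _ =>
      (smul_le_smul_of_nonneg_right (h q).2 (m0 (l, q))).trans_eq (one_smul _ _)) ?_
    rw [← Fintype.sum_prod_type']
    exact (CStarAlgebra.norm_le_one_iff_of_nonneg _ (Finset.sum_nonneg fun y _ => m0 y)).1
      (sum_le_of_orth _ _ zero_le_one (fun y _ => m0 y) (fun y _ y' _ => m2 y y') fun y _ => m1 y)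
  have a2 : ∀ l, Commute (∑ q, ν q • m (l, q)) (e l) := fun l =>
    Commute.sum_left _ _ _ fun q _ => (e2 (l, q)).smul_left _
  refine ⟨fun l => ⟨a0 l, (Finset.single_le_sum (fun l _ => a0 l) (Finset.mem_univ l)).trans a1⟩,
    Finset.sum_nonneg fun l _ => (a2 l).mul_nonneg (a0 l) (e0 l),
    (Finset.sum_le_sum fun l _ => mul_le_of_commute (a0 l) (e1 l) (a2 l)).trans a1,
    fun y V z h1 h2 h3 => ?_⟩
  have a3 : ∀ y', y' ≠ y → m y' * V = 0 := fun y' hy => by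
    rw [← h1, ← mul_assoc, m2 _ _ hy, zero_mul]
  simp only [fun l => (a2 l).eq]
  rw [Finset.sum_mul, Finset.sum_eq_single y.1 (fun l _ hl => ?_) (by simp), mul_assoc (e _),
    Finset.sum_mul, Finset.sum_eq_single y.2 (fun q _ hq => ?_) (by simp), smul_mul_assoc, h1,
    mul_smul_comm, smul_mul_assoc, ← h2.eq, mul_assoc, h3]
  · rw [smul_mul_assoc, a3 _ fun h => hq (congrArg Prod.snd h), smul_zero]
  · rw [mul_assoc, Finset.sum_mul, Finset.sum_eq_zero fun q _ => ?_, mul_zero]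
    rw [smul_mul_assoc, a3 _ fun h => hl (congrArg Prod.fst h), smul_zero]

/-- movers, amplified -/
lemma movers_amp (φ0 : ∀ l, OZ (φ l)) (hδ : 0 < δ) (Y v : (Σ l, Fin (U l).N) × Q → B)
    (Y0 : ∀ x, IsSelfAdjoint (Y x)) (Y2 : ∀ x, blkF U φ δ 1 x.1 * Y x = Y x)
    (hv : ∀ x, cfc (rp (1 / 16) 2) (Y x) * v x = v x) {V : ι × Q → B}
    (hV : V = ampF U φ δ fun x => v x * blkF U φ δ 2 x.1) (y : ι × Q) :
    ampF U φ δ (fun x => cfc (rp (1 / 16) 1) (Y x)) y * V y = V y ∧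
      (∀ z, Commute (V y) (piM (φ y.1) δ z)) ∧
      (∀ z, (∀ s, Commute z (φ y.1 s)) → (∀ b, z * v (⟨y.1, b⟩, y.2) = 0) → z * V y = 0) ∧
      star (V y) * V y = (U y.1).amp (φ y.1) δ fun b => blkF U φ δ 2 ⟨y.1, b⟩ *
        (star (v (⟨y.1, b⟩, y.2)) * v (⟨y.1, b⟩, y.2)) * blkF U φ δ 2 ⟨y.1, b⟩ := by
  subst hV
  have L1 : (U y.1).Loc (φ y.1) δ fun b => v (⟨y.1, b⟩, y.2) * blkF U φ δ 2 ⟨y.1, b⟩ :=
    blkF_loc φ0 hδ fun b => by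
      rw [← mul_assoc, ← hv, ← mul_assoc, unit_cfc (Y0 _) (Y2 (⟨y.1, b⟩, y.2)) (rp_cont _ _)
        (rp_at_zero _ _)]
  have L2 : (U y.1).Loc (φ y.1) δ fun b => star (v (⟨y.1, b⟩, y.2) * blkF U φ δ 2 ⟨y.1, b⟩) :=
    blkF_loc φ0 hδ fun b => by
      rw [star_mul, blkF, blkF, IsSelfAdjoint.cfc.star_eq, ← mul_assoc, rp_tier (by norm_num)]
  refine ⟨?_, MU.amp_comm (φ0 _) L1 L2, fun z h1 h2 => ?_, ?_⟩
  · rw [ampF, ampF, MU.amp_mul (φ0 _) _ L1]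
    refine congrArg _ (funext fun b => ?_)
    rw [← mul_assoc, ← hv, ← mul_assoc, rp_tier (by norm_num)]
  · rw [ampF, MU.mul_amp h1]
    simp only [← mul_assoc, h2, zero_mul, MU.amp_zero]
  · rw [ampF, MU.amp_star, MU.amp_mul (φ0 _) _ L1]
    refine congrArg _ (funext fun b => ?_)
    rw [star_mul, blkF, IsSelfAdjoint.cfc.star_eq]
    simp only [mul_assoc]

end gen

end Pool.Agent.Lib.MP_30b5b4_an
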