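import Pool.Agent.Lib.MP_30b5b4_an.C.Defs

/-! Tolerances of the ambient colours, and the first state. -/

open scoped CStarAlgebra ComplexOrder Topology
open Filter

set_option linter.unusedSectionVars false
set_option linter.style.haveILetI false
set_option linter.unusedVariables false
set_option linter.unusedSimpArgs false
set_option synthInstance.maxSize 1000000

namespace Pool.Agent.Lib.MP_30b5b4_an

universe u v

variable {I : Type*} {A : Type u} {A' : Type v} [NonUnitalCStarAlgebra I] [PartialOrder I]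
  [StarOrderedRing I] [CStarAlgebra A] [PartialOrder A] [StarOrderedRing A] [CStarAlgebra A']
  [PartialOrder A'] [StarOrderedRing A'] {j : I →⋆ₙₐ[ℂ] A} {N : ℕ}

lemma dg_piM (c : CA A) {δ : ℝ} (hδ : 0 < δ) (y : c.F) : dg (piM c.φ δ y) = piM (cφ c) δ y := by
  rw [piM, piM, map_mul, hom_cfc dg (Gf_cont hδ) c.oz.cp.one_nonneg.isSelfAdjoint]; rfl

lemma piM_one_sa (c : CA A) (δ : ℝ) : IsSelfAdjoint (piM c.φ δ (c.ψ 1)) := by
  rw [IsSelfAdjoint, piM_star c.oz, c.cp.one_nonneg.star_eq]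

lemma dg_fd (c : CA A) {δ : ℝ} (hδ : 0 < δ) :
    dg (fd δ c) = cfc (rp δ 1) (piM (cφ c) δ (c.ψ 1)) := by
  rw [fd, hom_cfc dg (rp_cont _ _) (piM_one_sa c δ), dg_piM c hδ]

lemma PT_const_one (c : CA A) (δ : ℝ) : PT (fun _ => c) δ 1 = piM (cφ c) δ (c.ψ 1) := by
  rw [← PT_const, map_one]

/-- square roots almost commute with what almost commutes -/
lemma sq_mod (A : Type u) [CStarAlgebra A] [PartialOrder A] [StarOrderedRing A] {κ : ℝ}
    (hκ : 0 < κ) : ∃ θ : ℝ, 0 < θ ∧ ∀ y s : A, 0 ≤ y → y ≤ 1 → ‖s‖ ≤ 1 → ‖y * s - s * y‖ ≤ θ →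
      ‖sq y * s - s * sq y‖ ≤ κ := by
  by_contra h
  push Not at h
  choose y s y0 y1 s1 h1 h2 using fun k : ℕ => h (1 / ((k : ℝ) + 1)) (by positivity)
  let Y : BA A := Bdd.of y 1 fun k => norm_le_one_of (y0 k) (y1 k)
  let S : BA A := Bdd.of s 1 s1
  have Y0 : 0 ≤ Y := Bdd.nonneg y0
  have c : Commute (Ult.mk Y) (Ult.mk S) := by
    change _ * _ = _ * _
    rw [← map_mul, ← map_mul]
    exact Ult.mk_eq_of_le 1 fun k => by rw [one_mul, map_mul, map_mul]; exact h1 k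
  obtain ⟨k, hk⟩ := (Ult.eventually_lt (x := sq Y * S - S * sq Y) (r := κ) (by
    rw [map_sub, map_mul, map_mul, hom_sq _ Y0, sq, (c.cfc_real _).eq, sub_self, norm_zero]
    exact hκ)).exists
  rw [map_sub, map_mul, map_mul, hom_sq _ Y0] at hk
  exact (h2 k).not_gt hk

lemma pv_ev {δ η : ℝ} (hδ : 0 < δ) (hη : 0 < η) {s : A} {c : ℕ → CA A} (h : Vis c (dg s)) :
    ∀ᶠ k in (om : Filter ℕ), ‖pv δ (c k) s - fd δ (c k) * s‖ < η := by
  have b0 : 0 ≤ bl c := Bdd.nonneg fun k => (c k).oz.cp.one_nonneg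
  let P : A → BA A := fun s => cfc (Gf δ) (bl c) * bT c (cst s)
  have P1 : ∀ s k, Bdd.ev k (P s) = piM (c k).φ δ ((c k).ψ s) := fun s k => by
    rw [map_mul, hom_cfc _ (Gf_cont hδ) b0.isSelfAdjoint]; rfl
  have P2 : ∀ s, Ult.mk (P s) = PT c δ (dg s) := fun s => by
    rw [map_mul, hom_cfc _ (Gf_cont hδ) b0.isSelfAdjoint, PT, cf_uφ, uφ_one_eq, dg_apply, uT_mk]
  have P3 : IsSelfAdjoint (P 1) := Bdd.isSelfAdjoint fun k => P1 1 k ▸ piM_one_sa _ δ
  clear_value P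
  have g := gq_cont hδ
  have := Gf_cont hδ
  refine (Ult.eventually_lt (x := cfc (gq δ) (P 1) * P s * cfc (gq δ) (P 1) -
    cfc (rp δ 1) (P 1) * cst s) (r := η) ?_).mono fun k hk => ?_
  · have c1 : Commute (sh c δ) (dg s) := h.commute _
    rw [map_sub, map_mul, map_mul, map_mul, hom_cfc _ g P3, hom_cfc _ (rp_cont _ _) P3, P2, P2,
      map_one, PT_one, h.PT_eq, ← dg_apply, mul_assoc, mul_assoc, ← (c1.cfc_real _).eq,
      ← mul_assoc, ← mul_assoc, cfc_mul_id g (sh_sa _), cfc_mul' (by fun_prop) g]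
    have : (fun t => gq δ t * t * gq δ t) = rp δ 1 := funext fun t => by
      rw [mul_right_comm, gq, Real.mul_self_sqrt
        (mul_nonneg (show 0 ≤ rp δ 1 t from cl_nonneg _) (Gf_nonneg hδ)), rp_Gf hδ one_pos]
    rwa [this, sub_self, norm_zero]
  · rwa [map_sub, map_mul, map_mul, map_mul, hom_cfc _ g P3, hom_cfc _ (rp_cont _ _) P3, P1, P1,
      ev_cst] at hk

theorem tol_ev {σ ι : Type} [Finite σ] [Fintype ι] {δ θ : ℝ} (hδ : 0 < δ) (hθ : 0 < θ) (S : σ → A)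
    (S0 : ∀ l, IsSelfAdjoint (S l)) (S1 : ∀ l, ‖S l‖ ≤ 1) (f : ι → ℕ → CA A)
    (hf : ∀ i l, dg (S l) ∈ VS (f i)) :
    ∀ᶠ k in (om : Filter ℕ), Tol δ θ S fun i => f i k := by
  obtain ⟨κ, κ0, hκ⟩ := sq_mod (UA A) hθ
  have m0 : 0 < min θ κ := lt_min hθ κ0
  have hη : 0 < min θ κ / (2 * (Fintype.card ι + 1)) := by positivity
  refine (eventually_all.2 fun i => eventually_all.2 fun l =>
    pv_ev hδ hη (.of_VS (hf i l))).mono fun k hk m hm s => ?_
  have c0 : ∀ l y, Commute (m l) (dg (piM (f l k).φ δ y)) := fun l => (hm l).2.2.1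
  have c1 : ∀ l {g : ℝ → ℝ}, Continuous g →
      Commute (m l) (dg (cfc g (piM (f l k).φ δ ((f l k).ψ 1)))) := fun l g hg => by
    rw [hom_cfc dg hg (piM_one_sa _ δ)]; exact ((c0 l _).symm.cfc_real _).symm
  have c2 : ∀ l, Commute (m l) (dg (fd δ (f l k))) := fun l => c1 l (rp_cont _ _)
  have Y0 : 0 ≤ ∑ l, m l * dg (fd δ (f l k)) := Finset.sum_nonneg fun l _ =>
    (c2 l).mul_nonneg (hm l).1 (hom_nonneg _ (rp_unit _ _ _).1)
  have Z0 : star (∑ l, m l * dg (pv δ (f l k) (S s))) = ∑ l, m l * dg (pv δ (f l k) (S s)) := by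
    rw [star_sum]
    refine Finset.sum_congr rfl fun l _ => ?_
    have c3 : Commute (m l) (dg (pv δ (f l k) (S s))) := by
      rw [pv, map_mul, map_mul]
      exact ((c1 l (gq_cont hδ)).mul_right (c0 l _)).mul_right (c1 l (gq_cont hδ))
    rw [star_mul, (hm l).1.star_eq, ← map_star, c3.eq, pv, star_mul, star_mul,
      IsSelfAdjoint.cfc.star_eq, piM_star (f l k).oz, ← (f l k).cp.map_star, (S0 s).star_eq,
      mul_assoc (cfc _ _)]
  have e1 : ‖∑ l, m l * dg (pv δ (f l k) (S s)) - (∑ l, m l * dg (fd δ (f l k))) * dg (S s)‖ ≤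
      min θ κ / 2 := by
    rw [Finset.sum_mul, ← Finset.sum_sub_distrib]
    refine (norm_sum_le _ _).trans ((Finset.sum_le_sum
      (g := fun _ => min θ κ / (2 * (Fintype.card ι + 1))) fun l _ => ?_).trans ?_)
    · rw [mul_assoc, ← mul_sub, ← map_mul, ← map_sub]
      exact (norm_mul_le _ _).trans ((mul_le_of_le_one_left (norm_nonneg _)
        (norm_le_one_of (hm l).1 (hm l).2.1)).trans ((norm_dg _).trans_le (hk l s).le))
    · rw [Finset.sum_const, Finset.card_univ, nsmul_eq_mul, ← mul_div_assoc,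
        div_le_div_iff₀ (by positivity) two_pos]
      nlinarith
  have e2 := e1
  rw [← norm_star, star_sub, Z0, star_mul, Y0.star_eq, ((S0 s).map dg).star_eq] at e2
  generalize ∑ l, m l * dg (fd δ (f l k)) = Y at *
  generalize ∑ l, m l * dg (pv δ (f l k) (S s)) = Z at *
  have e3 : ‖Y * dg (S s) - dg (S s) * Y‖ ≤ min θ κ := by
    rw [norm_sub_rev] at e1
    linarith [norm_sub_le_norm_sub_add_norm_sub (Y * dg (S s)) Z (dg (S s) * Y)]
  refine ⟨e3.trans (min_le_left _ _), e1.trans ((half_le_self m0.le).trans (min_le_left _ _)),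
    fun h => hκ _ _ (sub_nonneg.2 h) (sub_le_self _ Y0) ((norm_dg _).trans_le (S1 s)) ?_⟩
  rw [sub_mul, mul_sub, one_mul, mul_one, sub_sub_sub_cancel_left, norm_sub_rev]
  exact e3.trans (min_le_right _ _)

theorem Idl.base (hj : Idl j) (π : A →⋆ₐ[ℂ] A') (hπ : ∀ a, π a = 0 → ∃ b, j b = a)
    (hπ' : Function.Surjective π) {p : Prop} (hD : Ap (NonUnitalStarAlgHom.id ℂ A') N p)
    {σ ι : Type} [Finite σ] (M : ℕ) (δ ρ : ℝ) (S : σ → A) (f : ι → CA A) :
    Hold j N M δ ρ S f := by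
  obtain ⟨e, e1, e2⟩ := hj.quot_cols π hπ hπ' hD S
  let R : Option (Fin N × σ × Bool) → UA A := fun o => o.elim (∑ i, uT (e i) 1 - 1)
    fun p => uT (e p.1) (dg (S p.2.1)) -
      cond p.2.2 (uT (e p.1) 1 * dg (S p.2.1)) (dg (S p.2.1) * uT (e p.1) 1)
  have R0 : ∀ r, R r ∈ Iw j := by
    rintro (_ | ⟨i, l, _ | _⟩)
    exacts [e1, (e2 i l).2, (e2 i l).1]
  obtain ⟨t, t1, t2, t0, -, t3⟩ := hj.tier (ι := Empty) Empty.elim (fun r => star (R r))
    fun r => star_mem (R0 r)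
  have R1 : ∀ r, R r * (1 - t) = 0 := fun r => by
    have := congrArg star (t3 r)
    rw [star_mul, star_star, t0.star_eq] at this
    rw [mul_sub, this, mul_one, sub_self]
  have sm : ∀ {x : UA A}, x = 0 → Sml ((ρ ^ 2) • 1) x := fun h => by
    rw [h, Sml, mul_zero]; exact smul_nonneg (sq_nonneg ρ) zero_le_one
  have k0 : ∀ i, 0 ≤ uT (e i) 1 ∧ uT (e i) 1 ≤ 1 := fun i =>
    ⟨(uT_cp _).one_nonneg, (uT_one_le _).trans (uφ_one _)⟩
  have k1 := fun i => norm_le_one_of (k0 i).1 (k0 i).2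
  have k2 : ∀ i l, (uT (e i) 1 * dg (S l) - dg (S l) * uT (e i) 1) * (1 - t) = 0 := fun i l => by
    have := congrArg₂ (· - ·) (R1 (some (i, l, false))) (R1 (some (i, l, true)))
    simp only [R, Option.elim, cond] at this
    rwa [← sub_mul, sub_sub_sub_cancel_left, sub_zero] at this
  exact ⟨1 - t, norm_le_one_of (sub_nonneg.2 ((CStarAlgebra.norm_le_one_iff_of_nonneg _ t0).1 t1))
    (sub_le_self _ t0), by rwa [sub_sub_cancel], fun i => uT (e i) 1, k1, fun i => uT (e i) 1, k1,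
    0, by simp, 0, by simp, 0, by simp, 0, by simp, e,
    fun i => ⟨⟨(k0 i).1, le_rfl, (k0 i).2, by simp⟩, by simp, by simp, by simp,
      fun l => ⟨sm (k2 i l), sm (k2 i l), sm (R1 (some (i, l, true)))⟩⟩, sm (R1 none),
    fun q => by simp⟩

end Pool.Agent.Lib.MP_30b5b4_an
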