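import Pool.Agent.Lib.MP_30b5b4_an.C.Lev
import Pool.Agent.Lib.MP_30b5b4_an.C.Step1
import Pool.Agent.Lib.MP_30b5b4_an.C.Tol

/-! The outer layer. -/

open scoped CStarAlgebra ComplexOrder Topology
open Filter

set_option linter.unusedSectionVars false
set_option linter.style.haveILetI false
set_option linter.unusedVariables false
set_option linter.unusedSimpArgs false
set_option synthInstance.maxSize 1000000

namespace Pool.Agent.Lib.MP_30b5b4_an

universe u v

variable {A : Type u} [CStarAlgebra A] [PartialOrder A] [StarOrderedRing A] {N : ℕ}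

/-- an exact state gives colours that carry the nominal weights -/
lemma Dat.cols {σ ι : Type} [Fintype ι] {M : ℕ} (hM : 0 < M) {δ : ℝ} (hδ : 0 < δ) (δ2 : δ ≤ 1)
    (δ1 : Fintype.card ι * (5 * δ) ≤ 1 / 4) {S : σ → UA A} (S0 : ∀ l, IsSelfAdjoint (S l))
    (S1 : ∀ l, ‖S l‖ ≤ 1) {f : ι → ℕ → CA A} (f1 : ∑ i, uT (f i) 1 = 1)
    (f2 : ∀ i l, S l ∈ VS (f i)) (h : Dat N M δ 0 S f 1) :
    ∃ d : Fin N → ℕ → CA A, ∀ l, ‖∑ i, uT (d i) (S l) - S l‖ ≤
      N * (20 / M + 20 * √M * (Fintype.card ι / M)) := by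
  classical
  obtain ⟨g, -, w, -, z, -, a, -, b, -, W, -, d, h1, g1, hW⟩ := h
  have sm : ∀ {x : UA A}, Sml 0 (x * 1) → x = 0 := fun h => by
    simpa using eq_zero_of_star_mul_self_nonpos h
  replace g1 := sub_eq_zero.1 (sm g1)
  have v0 : ∀ l i, Vis (f i) (S l) := fun l i => .of_VS (f2 i l)
  obtain ⟨y, y0, y1, y2, y3, y4⟩ := parts f (e := 1) (.one _) (by rw [f1, mul_one])
    (fun i => Commute.one_right _) (by positivity) δ1
  rw [mul_one] at y1
  have r4 := y2 _ (rp_cont δ 4) fun t ht => rp_one hδ (by push_cast; linarith)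
  have y5 : ∀ l, cf (rp δ 4) (uφ (f l) 1) * y l = y l := fun l => by rw [cf_uφ, (r4 l).1]
  have y6 : ∀ l, cf (rp δ 2) (PT (f l) δ 1) * y l = y l := fun l => by
    have := cfc_orth_of_le (uT_cp (f l)).one_nonneg.isSelfAdjoint (sh_sa (f l)) (le_sh _ hδ δ2)
      ((((uφ_oz (f l)).commute _).cfc_real _).symm.mul_right (Commute.refl _))
      (f := fun t => 1 - rp δ 2 t) (g := rp δ 4) (by fun_prop) (rp_cont _ _) (θ := 3 * δ)
      (fun t ht => by rw [rp_one hδ (by push_cast; linarith), sub_self])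
      fun t ht => cl_of_nonpos (sub_nonpos.2 ((div_le_iff₀ hδ).2 (by push_cast; linarith)))
    rw [cfc_sub _ _ _, cfc_const_one ℝ _ (sh_sa _)] at this
    rw [PT_one, cf_eq _ (sh_sa _), ← (r4 l).2, ← mul_assoc, unit_of_kill this]
  have y7 : ∀ l, ‖y l‖ ≤ 1 := fun l => norm_le_of_star_mul_le zero_le_one (by
    rw [one_pow, map_one]
    exact (Finset.single_le_sum (f := fun l => star (y l) * y l)
      (fun _ _ => star_mul_self_nonneg _) (Finset.mem_univ l)).trans y0)
  have y8 : ∀ {x}, x ∈ Cn (Set.range (zfam S f)) → ∀ l, Commute (y l) x := fun hx =>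
    y3 _ fun l => (Cn_comm hx ⟨(none, some l, true), rfl⟩).symm
  have key : ∀ i, ∃ d' : ℕ → CA A, ∀ l, ‖uT d' (S l) - g i * S l‖ ≤
      20 / M + 20 * √M * (Fintype.card ι / M) := fun i => by
    obtain ⟨⟨w0, wg, g2, a0, b0, ab, -, -⟩, ⟨c1, -, -, c2, c3, -, c4, c5, -, c6⟩, ⟨z1, o1, o2⟩,
      ⟨n1, n2, n3⟩, hs⟩ := h1 i
    obtain ⟨U, U1, U2, U3⟩ := levelA w0 wg g2 a0 b0 ab c1 c2 c3 c4 c5 c6 o1 o2 hM
      (fun k => ∑ l, W (i, k, l) * y l)
      (fun k => by
        rw [Finset.mul_sum, Finset.sum_eq_zero fun l _ => ?_]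
        rw [← mul_assoc, (hW (i, k, l)).1, zero_mul])
      (fun k => by
        have a1 : star (∑ l, W (i, k, l) * y l) * (∑ l, W (i, k, l) * y l) * z i =
            (∑ l, star (y l) * y l) * z i := by
          rw [star_sum, Finset.sum_mul_sum, Finset.sum_mul, Finset.sum_mul]
          refine Finset.sum_congr rfl fun l _ => ?_
          rw [Finset.sum_eq_single l (fun l' _ hi => ?_) (by simp)]
          · have a2 := (hW (i, k, l)).2.2.1
            rw [mul_one] at a2
            rw [star_mul, mul_assoc, mul_assoc, mul_assoc, mul_assoc, (y8 n1 l).eq, ← y5,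
              ← mul_assoc (z i), ← mul_assoc (W _), ← mul_assoc (star (W _)),
              ← mul_assoc (star (W _)), a2, y5]
          · rw [star_mul, mul_assoc, ← mul_assoc (star (W _)),
              (hW _).2.1 _ (by simpa using hi.symm), zero_mul, mul_zero]
        rw [← z1, ← mul_assoc, a1, y1, one_mul])
      (fun k l hk => by
        rw [star_sum, Finset.sum_mul_sum]
        refine Finset.sum_eq_zero fun i' _ => Finset.sum_eq_zero fun i'' _ => ?_
        rw [star_mul, mul_assoc, ← mul_assoc (star (W _)), (hW _).2.1 _ (by simp [hk]),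
          zero_mul, mul_zero])
      (η := Fintype.card ι / M) (fun k => by
        rw [Finset.mul_sum, Finset.sum_mul, ← Finset.sum_sub_distrib]
        refine (norm_sum_le _ _).trans ((Finset.sum_le_sum (g := fun _ => 1 / (M : ℝ))
          fun l _ => ?_).trans_eq (by simp [div_eq_mul_inv]))
        rw [mul_assoc (W _), ((y8 n2 l).add_right ((y8 n3 l).smul_right _)).eq, ← mul_assoc,
          ← mul_assoc, ← sub_mul, ← y6, ← mul_assoc]
        exact (norm_mul_le _ _).trans ((mul_le_of_le_one_right (norm_nonneg _) (y7 l)).trans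
          (hW (i, k, l)).2.2.2.2))
    obtain ⟨d', hd'⟩ := uconj (d i) U1.1
    refine ⟨d', fun l => ?_⟩
    have a0 : ∀ k, Commute (∑ l, W (i, k, l) * y l) (S l) := fun k =>
      Commute.sum_left _ _ _ fun l' _ => y4 δ hδ _ (v0 l) l' _
        (PT_one (f l') ▸ (hW (i, k, l')).2.2.2.1 none)
        ((v0 l l').PT_eq ▸ (hW (i, k, l')).2.2.2.1 (some l))
    have a1 := U2 (S l) (sub_eq_zero.1 (sm (hs l).2.1)) (sub_eq_zero.1 (sm (hs l).1))
      (Cn_comm n2 ⟨(some l, none, true), rfl⟩) (Cn_comm n3 ⟨(some l, none, true), rfl⟩)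
      fun k => ⟨a0 k, (S0 l).star_eq.symm ▸ a0 k⟩
    have a2 : uT (d i) (S l) = w i * S l := sub_eq_zero.1 (sm (hs l).2.2)
    have a3 := S1 l
    generalize S l = x at a1 a2 a3 ⊢
    have a4 : x * star U = star U * x := by
      rw [← one_mul (x * _), ← U1.1, mul_assoc, ← mul_assoc U, a1.eq, mul_assoc, U1.2, mul_one]
    have a5 : uT d' x - g i * x = (U * w i - g i * U) * star U * x := by
      rw [hd', a2, sub_mul, sub_mul, mul_assoc _ U, U1.2, mul_one, mul_assoc _ (star U), ← a4]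
      simp only [mul_assoc]
    rw [a5]
    exact (norm_mul_le_of_le ((CStarRing.norm_mul_mem_unitary _ (Unitary.star_mem U1)).trans_le U3)
      a3).trans_eq (mul_one _)
  choose d' hd' using key
  refine ⟨d', fun l => ?_⟩
  conv_lhs => enter [1, 2]; rw [← one_mul (S l), ← g1, Finset.sum_mul]
  rw [← Finset.sum_sub_distrib]
  refine ((norm_sum_le _ _).trans (Finset.sum_le_sum fun i _ => hd' i l)).trans_eq ?_
  rw [Finset.sum_const, Finset.card_univ, Fintype.card_fin, nsmul_eq_mul]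

theorem outerC {n : ℕ} (hA : ApA A (n + 1)) (hN : 0 < N)
    (hm : ∀ {σ : Type} [Finite σ] {M : ℕ}, 0 < M → ∀ {δ θ : ℝ}, 0 < δ → 0 < θ → θ ≤ 1 / 2 →
      ∀ S : σ → A, (∀ l, IsSelfAdjoint (S l)) → (∀ l, ‖S l‖ ≤ 1) → ∀ f : Fin (n + 1) → CA A,
      Tol δ θ S f → Dat N M δ (((3 * θ) ^ 2) • 1) (fun l => dg (S l)) (fun l _ => f l) 1) :
    ApA A N := by
  classical
  refine Ap.of_ball fun F ε hε hF => ?_
  let S : Fin F.card × Bool → A := fun p =>
    cond p.2 (realPart (F.equivFin.symm p.1).1) (imaginaryPart (F.equivFin.symm p.1).1)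
  have S0 : ∀ l, IsSelfAdjoint (S l) := by
    rintro ⟨p, _ | _⟩
    exacts [(imaginaryPart _).2, (realPart _).2]
  have S1 : ∀ l, ‖S l‖ ≤ 1 := by
    rintro ⟨p, _ | _⟩
    exacts [(imaginaryPart.norm_le _).trans (hF _ (F.equivFin.symm p).2),
      (realPart.norm_le _).trans (hF _ (F.equivFin.symm p).2)]
  obtain ⟨f, f1, f2⟩ := hA.vs fun l => dg (S l)
  obtain ⟨K, hK⟩ := exists_nat_gt (40 * N * (n + 2) / ε)
  have K0 : (0 : ℝ) < K := lt_trans (by positivity) hK
  have K1 : 0 < K := by exact_mod_cast K0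
  have K2 : (1 : ℝ) ≤ K := by exact_mod_cast K1
  obtain ⟨δ, hδ, δ2, δ1⟩ : ∃ δ : ℝ, 0 < δ ∧ δ ≤ 1 ∧
      Fintype.card (Fin (n + 1)) * (5 * δ) ≤ 1 / 4 :=
    ⟨1 / (20 * (n + 1)), by positivity, (div_le_one (by positivity)).2
      (by linarith [(Nat.cast_nonneg n : (0 : ℝ) ≤ n)]), by
      rw [Fintype.card_fin]; push_cast; exact le_of_eq (by field_simp; ring)⟩
  haveI := Dat.clo (A := A) (σ := Fin F.card × Bool) (ι := Fin (n + 1)) N (K * K) hδ
  have h : Dat N (K * K) δ 0 (fun l => dg (S l)) f 1 :=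
    saturate (fun g : UA A × (Fin F.card × Bool → UA A) × (Fin (n + 1) → ℕ → CA A) =>
      Dat N (K * K) δ g.1 g.2.1 g.2.2 1) (fun l => dg (S l), f) fun e e0 e1 => by
      have q0 : 0 < √e / 3 := by positivity
      have q1 : √e / 3 ≤ 1 / 2 := by linarith [Real.sqrt_le_one.2 e1]
      have q2 : (3 * (√e / 3)) ^ 2 = e := by rw [mul_div_cancel₀ _ three_ne_zero, Real.sq_sqrt e0.le]
      have q3 : dg (e • (1 : A)) = e • 1 := by rw [hom_real_smul, map_one]
      have := transfer (fun g : UA A × (Fin F.card × Bool → UA A) × (Fin (n + 1) → ℕ → CA A) =>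
        Dat N (K * K) δ g.1 g.2.1 g.2.2 1) ((Stage.mk (cst (e • (1 : A)))).prod
          ((Stage.pi fun l => Stage.mk (cst (S l))).prod (Stage.pi fun i => Stage.col (f i))))
        ((tol_ev hδ q0 S S0 S1 f f2).mono fun k hk => by
          have := hm (Nat.mul_pos K1 K1) hδ q0 q1 S S0 S1 _ hk
          rwa [q2, ← q3] at this)
      rwa [← dg_apply, q3] at this
  obtain ⟨d, hd⟩ := h.cols (Nat.mul_pos K1 K1) hδ δ2 δ1 (fun l => (S0 l).map dg)
    (fun l => (norm_dg _).trans_le (S1 l)) f1 f2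
  have e1 : (N : ℝ) * (20 / (K * K : ℕ) + 20 * √(K * K : ℕ) *
      (Fintype.card (Fin (n + 1)) / (K * K : ℕ))) < ε / 2 := by
    rw [Fintype.card_fin]
    push_cast
    rw [Real.sqrt_mul_self K0.le]
    rw [div_lt_iff₀ hε] at hK
    have : (20 : ℝ) / (K * K) ≤ 20 / K := by
      gcongr; exact le_mul_of_one_le_right K0.le K2
    calc _ ≤ (N : ℝ) * (20 / K + 20 * K * ((n + 1) / (K * K))) := by gcongr
      _ = 20 * N * (n + 2) / K := by field_simp; ring
      _ < _ := by rw [div_lt_iff₀ K0]; linarith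
  refine sT_finish d F fun x hx => ?_
  have a1 := hd (F.equivFin ⟨x, hx⟩, true)
  have a2 := hd (F.equivFin ⟨x, hx⟩, false)
  simp only [S, cond, Equiv.symm_apply_apply] at a1 a2
  have a3 : (dg x : UA A) = dg (realPart x).1 + Complex.I • dg (imaginaryPart x).1 := by
    rw [← map_smul, ← map_add, realPart_add_I_smul_imaginaryPart]
  change ‖_ - dg x‖ < ε
  simp only [sT_eq, a3, map_add, map_smul, Finset.sum_add_distrib, ← Finset.smul_sum]
  rw [add_sub_add_comm, ← smul_sub]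
  refine (norm_add_le _ _).trans_lt ?_
  rw [norm_smul, Complex.norm_I, one_mul]
  linarith

end Pool.Agent.Lib.MP_30b5b4_an
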