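import Pool.Agent.Lib.MP_30b5b4_an.C.Defs

/-! The old colour cut down, together with the rooms; walls. -/

open scoped CStarAlgebra ComplexOrder Topology
open Filter

set_option linter.unusedSectionVars false
set_option linter.style.haveILetI false
set_option linter.unusedVariables false
set_option linter.unusedSimpArgs false
set_option synthInstance.maxSize 1000000

namespace Pool.Agent.Lib.MP_30b5b4_an

universe u v

section alg
variable {B : Type u} [CStarAlgebra B] [PartialOrder B] [StarOrderedRing B]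

lemma pc_mul_le {e x : B} (e0 : 0 ≤ e) (x1 : x ≤ 1) (h : Commute e x) : e * x ≤ e := by
  have := Commute.mul_nonneg e0 (sub_nonneg.2 x1) ((Commute.one_right e).sub_right h)
  rwa [mul_sub, mul_one, sub_nonneg] at this

lemma pc_tier {a b : B} (ha : IsSelfAdjoint a) (hb : IsSelfAdjoint b) (hab : a ≤ b)
    (hc : Commute a b) {δ : ℝ} (hδ : 0 < δ) {m m' : ℕ} (h : m < m') :
    cfc (rp δ m') a * cfc (rp δ m) b = cfc (rp δ m') a := by
  have h1 : (m : ℝ) + 1 ≤ m' := by exact_mod_cast h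
  have h2 := cfc_orth_of_le ha hb hab hc (f := fun s => 1 - rp δ m s) (g := rp δ m')
    (by fun_prop) (by fun_prop) (θ := (m + 1) * δ)
    (fun t ht => by
      rw [rp, cl_of_one_le (by linarith [(le_div_iff₀ hδ).2 ht]), sub_self])
    (fun t ht => cl_of_nonpos (by linarith [(div_le_iff₀ hδ).2 ht]))
  rw [cfc_sub _ _ b, cfc_const_one ℝ b, sub_mul, one_mul, sub_eq_zero] at h2
  rw [← ((hc.cfc_real (rp δ m')).symm.cfc_real (rp δ m)).eq, ← h2]

lemma pc_gq {δ : ℝ} (hδ : 0 < δ) {x : B} (hx : IsSelfAdjoint x) :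
    cfc (gq δ) x * x * cfc (gq δ) x = cfc (rp δ 1) x := by
  have g1 := gq_cont hδ
  rw [cfc_mul_id g1 hx, cfc_mul' (by fun_prop) g1]
  congr 1
  funext t
  have h0 : 0 ≤ rp δ 1 t * Gf δ t := mul_nonneg (cl_nonneg _) (Gf_nonneg hδ)
  rw [mul_right_comm, gq, Real.mul_self_sqrt h0, rp_Gf hδ one_pos]

lemma pc_piM {F : Type*} [CStarAlgebra F] {φ : F →ₗ[ℂ] B} (h : OZ φ) {δ : ℝ} (hδ : 0 < δ) {x : F}
    (hx : IsSelfAdjoint x) {g : ℝ → ℝ} (hg : Continuous g) (y : F) :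
    cfc (rp δ 1) (φ 1) * piM φ δ (cfc g x * y * cfc g x) =
      cfc (rp δ 1) (φ 1) * (cfc g (piM φ δ x) * piM φ δ y * cfc g (piM φ δ x)) := by
  have α0 : ∀ t, t ≤ δ → rp δ 1 t = 0 := fun t ht => rp_zero hδ one_pos ht
  have l1 : ∀ u w, cfc (rp δ 1) (φ 1) * piM φ δ (u * w) =
      cfc (rp δ 1) (φ 1) * (piM φ δ u * piM φ δ w) := h.loc_mul hδ (rp_cont _ _) α0
  have l2 : cfc (rp δ 1) (φ 1) * piM φ δ (cfc g x) = cfc (rp δ 1) (φ 1) * cfc g (piM φ δ x) :=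
    h.loc_cfc hδ (rp_cont _ _) α0 hx hg
  have c1 : ∀ u, Commute (cfc (rp δ 1) (φ 1)) (piM φ δ u) :=
    piM_commute fun u => (h.commute u).cfc_real _
  have c2 : Commute (cfc (rp δ 1) (φ 1)) (cfc g (piM φ δ x) * piM φ δ y) :=
    ((c1 x).symm.cfc_real g).symm.mul_right (c1 y)
  rw [l1, ← mul_assoc, l1, ← mul_assoc, l2, mul_assoc _ _ (piM φ δ y), c2.eq, mul_assoc, l2,
    ← mul_assoc, ← c2.eq, mul_assoc]

end alg

variable {A : Type u} [CStarAlgebra A] [PartialOrder A] [StarOrderedRing A]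

lemma pc_sum {κ : Type} [Fintype κ] (c : κ → PC A)
    (h : ∀ k k', k ≠ k' → (c k).φ 1 * (c k').φ 1 = 0) :
    ∃ s : PC A, (∀ a, s.φ (s.ψ a) = ∑ k, (c k).φ ((c k).ψ a)) ∧
      ∀ x, ∃ y : ∀ k, (c k).F, s.φ x = ∑ k, (c k).φ (y k) := by
  classical
  have h1 : ∀ k k', k ≠ k' → ∀ x y, (c k).φ x * (c k').φ y = 0 := fun k k' hk x y =>
    (c k).oz.mul_right_eq_zero ((c k').oz.mul_left_eq_zero (h k k' hk) y) x
  let Ψ : A →ₗ[ℂ] (∀ k, (c k).F) := LinearMap.pi fun k => (c k).ψ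
  let Φ : (∀ k, (c k).F) →ₗ[ℂ] UA A := ∑ k, (c k).φ ∘ₗ LinearMap.proj k
  have hΨ : IsCP Ψ := fun n a b i => by
    simpa [Finset.sum_apply, Ψ] using (c i).cp n a fun l => b l i
  have hΦ : IsCP Φ := IsCP.sum _ _ fun i _ => (c i).oz.cp.comp_half (fun x => x i) fun _ _ => rfl
  have e : ∀ x, Φ x = ∑ k, (c k).φ (x k) := fun x => by simp [Φ]
  have e2 : ∀ x y, Φ x * Φ y = ∑ k, (c k).φ (x k) * (c k).φ (y k) := fun x y => by
    rw [e, e, Finset.sum_mul]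
    refine Finset.sum_congr rfl fun k _ => ?_
    rw [Finset.mul_sum, Finset.sum_eq_single k (fun k' _ hk => h1 k k' hk.symm _ _) (by simp)]
  refine ⟨{ F := ∀ k, (c k).F
            ψ := Ψ
            φ := Φ
            cp := hΨ
            le := fun a => (pi_norm_le_iff_of_nonneg (norm_nonneg _)).2 fun k => (c k).le a
            oz := ⟨hΦ, fun x y => ?_⟩
            one := le_one_of_norm hΦ.one_nonneg ?_ }, fun a => e (Ψ a), fun x => ⟨x, e x⟩⟩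
  · rw [e2, e2]
    exact Finset.sum_congr rfl fun k _ => (c k).oz.mul _ _
  · rw [e]
    exact sum_le_of_orth _ _ zero_le_one (fun k _ => (c k).oz.cp.one_nonneg)
      (fun k _ k' _ hk => h k k' hk) fun k _ => norm_le_one_of (c k).oz.cp.one_nonneg (c k).one

/-- the colour `d` cut by `e` -/
noncomputable def pcOld (d : CA A) {e : UA A} (e0 : 0 ≤ e) (e1 : e ≤ 1)
    (he : ∀ x, Commute e (dg (d.φ x))) : PC A where
  F := d.F
  ψ := d.ψ
  φ := LinearMap.mulLeft ℂ e ∘ₗ ((dg : A →⋆ₐ[ℂ] UA A) : A →ₐ[ℂ] UA A).toLinearMap ∘ₗ d.φ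
  cp := d.cp
  le := d.le
  oz := (d.oz.map dg (ψ := ((dg : A →⋆ₐ[ℂ] UA A) : A →ₐ[ℂ] UA A).toLinearMap ∘ₗ d.φ)
    fun _ => rfl).mulLeft e0 he fun _ => rfl
  one := (pc_mul_le e0 ((hom_mono dg d.one).trans_eq (map_one _)) (he 1)).trans e1

lemma pc_oz (c : CA A) {δ : ℝ} (hδ : 0 < δ) :
    OZ (LinearMap.mulLeft ℂ (cfc (Gf δ) (c.φ 1)) ∘ₗ c.φ) :=
  c.oz.mulLeft (cfc_nonneg fun _ _ => Gf_nonneg hδ) (fun x => (c.oz.commute x).cfc_real _)
    fun _ => rfl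

/-- the room of the colour `c` with multiplicity `m` -/
noncomputable def pcRoom (c : CA A) {δ : ℝ} (hδ : 0 < δ) {m : UA A} (hm : Adm δ c m) : PC A where
  F := c.F
  ψ := cj (cfc (gq δ) (c.ψ 1)) c.ψ
  φ := LinearMap.mulLeft ℂ m ∘ₗ ((dg : A →⋆ₐ[ℂ] UA A) : A →ₐ[ℂ] UA A).toLinearMap ∘ₗ
    LinearMap.mulLeft ℂ (cfc (Gf δ) (c.φ 1)) ∘ₗ c.φ
  cp := c.cp.cj _
  le := (c.cp.cj _).norm_le (by
    rw [cj_apply, IsSelfAdjoint.cfc.star_eq, pc_gq hδ c.cp.one_nonneg.isSelfAdjoint]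
    exact (rp_unit _ _ _).2)
  oz := ((pc_oz c hδ).map dg (ψ := ((dg : A →⋆ₐ[ℂ] UA A) : A →ₐ[ℂ] UA A).toLinearMap ∘ₗ
    LinearMap.mulLeft ℂ (cfc (Gf δ) (c.φ 1)) ∘ₗ c.φ) fun _ => rfl).mulLeft hm.1 hm.2.2.1
      fun _ => rfl
  one := (pc_mul_le hm.1 ((hom_mono dg (le_one_of_norm (pc_oz c hδ).cp.one_nonneg
    ((piM_norm c.oz hδ 1).trans (norm_one_le' _)))).trans_eq (map_one _)) (hm.2.2.1 1)).trans hm.2.1

lemma pcRoom_val (c : CA A) {δ : ℝ} (hδ : 0 < δ) {m : UA A} (hm : Adm δ c m) (s : A) :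
    (pcRoom c hδ hm).φ ((pcRoom c hδ hm).ψ s) = m * dg (pv δ c s) := by
  have m1 : m * dg (cfc (rp δ 1) (c.φ 1)) = m := by
    have := congrArg star hm.2.2.2
    rwa [star_mul, hm.1.star_eq, ← map_star, IsSelfAdjoint.cfc.star_eq] at this
  change m * dg (piM c.φ δ (cj (cfc (gq δ) (c.ψ 1)) c.ψ s)) = _
  rw [cj_apply, IsSelfAdjoint.cfc.star_eq, ← m1, mul_assoc, ← map_mul,
    pc_piM c.oz hδ c.cp.one_nonneg.isSelfAdjoint (gq_cont hδ), map_mul, ← mul_assoc]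
  rfl

lemma pc_pv_one (c : CA A) {δ : ℝ} (hδ : 0 < δ) : pv δ c 1 = fd δ c :=
  pc_gq hδ ((pc_oz c hδ).cp.isSelfAdjoint c.cp.one_nonneg.isSelfAdjoint)

theorem exists_pc {ι : Type} [Fintype ι] (d : CA A) (f : ι → CA A) {δ : ℝ} (hδ : 0 < δ) {e : UA A}
    (e0 : 0 ≤ e) (e1 : e ≤ 1) (he : ∀ x, Commute e (dg (d.φ x))) (m : ι → UA A)
    (hm : ∀ l, Adm δ (f l) (m l)) (em : ∀ l, e * m l = 0) (mm : ∀ l l', l ≠ l' → m l * m l' = 0) :
    ∃ c : PC A, (∀ s, c.φ (c.ψ s) = e * dg (d.T s) + ∑ l, m l * dg (pv δ (f l) s)) ∧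
      c.φ (c.ψ 1) ≤ e + ∑ l, m l * dg (fd δ (f l)) ∧
      (∀ S : StarSubalgebra ℂ (UA A), e ∈ S → (∀ l, m l ∈ S) → (∀ x, dg (d.φ x) ∈ S) →
        (∀ l x, dg (piM (f l).φ δ x) ∈ S) → ∀ x, c.φ x ∈ S) := by
  have o : ∀ {x y p q : UA A}, Commute x p → x * y = 0 → x * p * (y * q) = 0 :=
    fun {x y p q} h1 h2 => by rw [h1.eq, mul_assoc, ← mul_assoc x, h2, zero_mul, mul_zero]
  obtain ⟨c, c1, c2⟩ := pc_sum
    (fun k : Option ι => k.elim (pcOld d e0 e1 he) fun l => pcRoom (f l) hδ (hm l)) (by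
      rintro (_ | l) (_ | l') hk
      · exact (hk rfl).elim
      · exact o (he 1) (em l')
      · exact o ((hm l).2.2.1 1)
          (mul_eq_zero_comm_sa e0.isSelfAdjoint (hm l).1.isSelfAdjoint (em l))
      · exact o ((hm l).2.2.1 1) (mm l l' fun h => hk (congrArg _ h)))
  have c3 : ∀ s, c.φ (c.ψ s) = e * dg (d.T s) + ∑ l, m l * dg (pv δ (f l) s) := fun s => by
    rw [c1, Fintype.sum_option]
    exact congrArg₂ (· + ·) rfl (Finset.sum_congr rfl fun l _ => pcRoom_val (f l) hδ (hm l) s)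
  refine ⟨c, c3, ?_, fun S h1 h2 h3 h4 x => ?_⟩
  · rw [c3]
    simp only [pc_pv_one _ hδ]
    refine add_le_add_left (pc_mul_le e0 ((hom_mono dg ?_).trans_eq (map_one _)) (he _)) _
    exact le_one_of_norm (d.oz.cp.nonneg d.cp.one_nonneg) ((d.T_le 1).trans (norm_one_le' _))
  · obtain ⟨y, hy⟩ := c2 x
    rw [hy, Fintype.sum_option]
    exact add_mem (mul_mem h1 (h3 (y none))) (sum_mem fun l _ => mul_mem (h2 l) (h4 l (y (some l))))

theorem wall_facts (R : ℕ) (K : ℕ → CA A) {a : UA A} (a0 : 0 ≤ a) (a1 : a ≤ 1) (va : a ∈ VS K) :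
    (∀ m, 0 ≤ wall R m K a ∧ wall R m K a ≤ 1 ∧ Commute (wall R m K a) (uT K 1) ∧
      (∀ x, Commute x (uφ K 1) → Commute x (uT K 1) → Commute x a → Commute (wall R m K a) x) ∧
      (0 < m → ∀ x ∈ VS K, Commute x a → Commute (wall R m K a) x) ∧ ∀ m', m < m' →
        wall R m K a * wall R m' K a = wall R m' K a ∧
        wall R m' K a * wall R m K 1 = wall R m' K a ∧
        cfc (wt R m) a * wall R m' K a = wall R m' K a) := by
  have hθ : 0 < ms R ^ 3 / 32 := by have := ms_pos R; positivity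
  have v := Vis.of_VS va
  have h0 : 0 ≤ uφ K 1 := (uφ_oz K).cp.one_nonneg
  have k0 : 0 ≤ uT K 1 := (uT_cp K).one_nonneg
  have t0 : 0 ≤ uT K a := (uT_cp K).nonneg a0
  have w : ∀ m, wall R m K a =
      cfc (wb R m) (uφ K 1) * cfc (rp (ms R ^ 3 / 32) m) (uT K a) := fun m => by
    rw [wall, cf_eq _ h0.isSelfAdjoint, cf_eq _ t0.isSelfAdjoint]; rfl
  have w1 : ∀ m, wall R m K 1 =
      cfc (wb R m) (uφ K 1) * cfc (rp (ms R ^ 3 / 32) m) (uT K 1) := fun m => by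
    rw [wall, cf_eq _ h0.isSelfAdjoint, cf_eq _ k0.isSelfAdjoint]; rfl
  have ka : Commute (uT K 1) a := v.1.symm.trans v.2
  have ht : ∀ x, Commute (uφ K 1) (uT K x) := fun x => (uφ_oz K).commute _
  have tk : Commute (uT K a) (uT K 1) := by
    rw [v.1]; exact (Commute.refl _).mul_left ka.symm
  have ta : Commute (uT K a) a := by
    rw [v.1]; exact ka.mul_left (Commute.refl _)
  have cc : ∀ (f g : ℝ → ℝ) x, Commute (cfc f (uφ K 1)) (cfc g (uT K x)) := fun f g x =>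
    (((ht x).cfc_real f).symm.cfc_real g).symm
  have b0 : ∀ m, 0 ≤ cfc (wb R m) (uφ K 1) ∧ cfc (wb R m) (uφ K 1) ≤ 1 := fun m =>
    ⟨cfc_nonneg fun _ _ => cl_nonneg _, cfc_le_one _ _ fun _ _ => cl_le_one _⟩
  have bt : ∀ m m', m < m' → cfc (wb R m) (uφ K 1) * cfc (wb R m') (uφ K 1) =
      cfc (wb R m') (uφ K 1) := fun m m' h => by
    rw [cfc_mul' (wb_cont _ _) (wb_cont _ _)]
    exact congrArg (cfc · _) (funext fun _ => cl_tier h)
  have c4 : ∀ m, 0 < m → ∀ x ∈ VS K, Commute x a → Commute (wall R m K a) x := fun m hm x vx xa => by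
    have v' := Vis.of_VS vx
    have kx : Commute (uT K 1) x := v'.1.symm.trans v'.2
    have tx : Commute (uT K a) x := by
      rw [v.1]; exact kx.mul_left xa.symm
    have g1 := Gf_cont hθ
    have e1 : cfc (rp (ms R ^ 3 / 32) m) (uT K a) = uT K a *
        cfc (fun s => rp (ms R ^ 3 / 32) m s * Gf (ms R ^ 3 / 32) s) (uT K a) := by
      rw [id_mul_cfc (by fun_prop) t0.isSelfAdjoint]
      congr 1
      funext s
      rw [mul_comm, rp_Gf hθ hm]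
    have e2 : Commute (cfc (wb R m) (uφ K 1) * uT K a) x := by
      rw [v.1, ← mul_assoc]
      exact (v'.commute _).mul_left xa.symm
    rw [w, e1, ← mul_assoc]
    exact e2.mul_left (tx.cfc_real _)
  intro m
  refine ⟨?_, ?_, ?_, fun x h1 h2 h3 => ?_, c4 m, fun m' hm => ⟨?_, ?_, ?_⟩⟩
  · rw [w]
    exact Commute.mul_nonneg (b0 m).1 (rp_unit _ _ _).1 (cc _ _ _)
  · rw [w]
    exact (pc_mul_le (b0 m).1 (rp_unit _ _ _).2 (cc _ _ _)).trans (b0 m).2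
  · rw [w]
    exact ((ht 1).cfc_real _).mul_left (tk.cfc_real _)
  · have tx : Commute (uT K a) x := by
      rw [v.1]; exact h2.symm.mul_left h3.symm
    rw [w]
    exact (h1.symm.cfc_real _).mul_left (tx.cfc_real _)
  · rw [w, w, (cc _ _ _).symm.mul_mul_mul_comm, bt m m' hm, rp_tier hm]
  · rw [w, w1, (cc _ _ _).symm.mul_mul_mul_comm, (cfc_commute_cfc _ _ _).eq, bt m m' hm,
      pc_tier t0.isSelfAdjoint k0.isSelfAdjoint ((uT_cp K).mono a1) tk hθ hm]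
  · have le : uT K a ≤ a := by
      rw [v.2]; exact pc_mul_le a0 ((uT_one_le K).trans (uφ_one K)) ka.symm
    rw [((c4 m' (m.zero_le.trans_lt hm) a va (Commute.refl a)).symm.cfc_real _).eq, w, mul_assoc]
    exact congrArg _ (pc_tier t0.isSelfAdjoint a0.isSelfAdjoint le ta hθ hm)

end Pool.Agent.Lib.MP_30b5b4_an
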