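import Pool.Agent.Lib.MP_30b5b4_an.C.Or
import Pool.Agent.Lib.MP_30b5b4_an.C.Defs

/-! Rooms: full elements that are orthogonal along finitely many links. -/

open scoped CStarAlgebra ComplexOrder Topology
open Filter

set_option linter.unusedSectionVars false
set_option linter.style.haveILetI false
set_option linter.unusedVariables false
set_option linter.unusedSimpArgs false

namespace Pool.Agent.Lib.MP_30b5b4_an

universe u

variable {J : Type*} {A : Type u} [NonUnitalCStarAlgebra J] [PartialOrder J] [StarOrderedRing J]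
  [CStarAlgebra A] [PartialOrder A] [StarOrderedRing A] {j : J →⋆ₙₐ[ℂ] A}

def Rm {X ρ : Type} (u : X → A) (r : ρ → A) (ε : ℝ) (v : A) (Y : X → A) : Prop :=
  (∀ x, Bub (Y x) ∧ ‖Y x‖ < 2 ∧ Gen (Y x) v ∧ Gen v (Y x) ∧ ‖Y x - u x * Y x‖ < ε) ∧
    ∀ x x' l, x ≠ x' → ‖Y x * r l * Y x'‖ < ε

lemma norm_add_orth {B : Type u} [CStarAlgebra B] [PartialOrder B] [StarOrderedRing B] {P Q : B}
    (h1 : star P * Q = 0) (h2 : P * star Q = 0) {r : ℝ} (hP : ‖P‖ ≤ r) (hQ : ‖Q‖ ≤ r) :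
    ‖P + Q‖ ≤ r := by
  have r0 := (norm_nonneg _).trans hP
  have h3 : star Q * P = 0 := by rw [← star_eq_zero, star_mul, star_star, h1]
  refine (abs_le_of_sq_le_sq' ?_ r0).2
  rw [pow_two, ← CStarRing.norm_star_mul_self, star_add, add_mul, mul_add, mul_add, h1, h3,
    add_zero, zero_add]
  refine add_le_of_orth (star_mul_self_nonneg _) (star_mul_self_nonneg _) ?_ ?_ ?_
  · rw [mul_assoc, ← mul_assoc P, h2, zero_mul, mul_zero]
  · rw [CStarRing.norm_star_mul_self, pow_two]; gcongr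
  · rw [CStarRing.norm_star_mul_self, pow_two]; gcongr

lemma glue_norm {B : Type u} [CStarAlgebra B] [PartialOrder B] [StarOrderedRing B] {S P Q : B}
    (S0 : IsSelfAdjoint S) (S1 : ‖S‖ ≤ 1) (h1 : S * P = 0) (h2 : P * S = 0) {ε : ℝ} (hP : ‖P‖ < ε)
    (hQ : ‖Q‖ < ε) : ‖P + S * Q * S‖ < ε := by
  refine lt_of_le_of_lt (norm_add_orth ?_ ?_ (le_max_left _ ‖Q‖) ?_) (max_lt hP hQ)
  · rw [← star_eq_zero, star_mul, star_star, star_mul, star_mul, S0.star_eq, mul_assoc, mul_assoc,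
      h1, mul_zero, mul_zero]
  · rw [star_mul, S0.star_eq, ← mul_assoc, h2, zero_mul]
  · refine le_max_of_le_right (norm_mul₃_le.trans ?_)
    calc _ ≤ 1 * ‖Q‖ * 1 := by gcongr
      _ = _ := by ring

lemma dg_norm_lt {a : A} {ε : ℝ} (h : ‖a‖ < ε) : ‖(dg a : UA A)‖ < ε := (hom_norm_le _ _).trans_lt h

lemma Rm.glue {X ρ : Type} [Finite X] [Finite ρ] {u : X → A} {r : ρ → A} {ε : ℝ} {v v' : A}
    {Y Y' : X → A} (h : Rm u r ε v Y) (h' : Rm u r ε v' Y') (hv : Bub v) (hv' : Bub v') :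
    ∃ Z, Rm u r ε (v' + v) Z := by
  obtain ⟨t, t0, t1, t2, t3, t4⟩ := tierG (fun _ => v')
    (fun o : (X ⊕ X) ⊕ ρ => dg (o.elim (·.elim u Y) r)) (fun x => cst (Y' x))
    fun x _ => (h'.1 x).2.2.1
  have cm : ∀ o : (X ⊕ X) ⊕ ρ, Commute (dg (o.elim (·.elim u Y) r)) (1 - Ult.mk t) := fun o =>
    (Commute.one_right _).sub_right (mem_Cn.1 t3 _ ⟨o, rfl⟩).1
  have cu : ∀ x, Commute (dg (u x)) (1 - Ult.mk t) := fun x => cm (.inl (.inl x))
  have cy : ∀ x, Commute (dg (Y x)) (1 - Ult.mk t) := fun x => cm (.inl (.inr x))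
  have cr : ∀ l, Commute (dg (r l)) (1 - Ult.mk t) := fun l => cm (.inr l)
  have a0 : 0 ≤ 1 - t := sub_nonneg.2 t1
  have S0 : 0 ≤ 1 - Ult.mk t := by simpa using hom_nonneg Ult.mk a0
  have S1 : ‖1 - Ult.mk t‖ ≤ 1 := norm_le_one_of S0 (sub_le_self _ (hom_nonneg _ t0))
  have k1 : ∀ x, (1 - Ult.mk t) * dg (Y' x) = 0 := fun x => kill_of_unit (t4 x)
  have k2 : ∀ x, dg (Y' x) * (1 - Ult.mk t) = 0 := fun x =>
    mul_eq_zero_comm_sa S0.isSelfAdjoint ((h'.1 x).1.1.isSelfAdjoint.map dg) (k1 x)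
  obtain ⟨Z, hZ⟩ : ∃ Z : X → BA A, ∀ x, Z x = cst (Y' x) + (1 - t) * cst (Y x) * (1 - t) :=
    ⟨_, fun _ => rfl⟩
  have z1 : ∀ x, Ult.mk (Z x) = dg (Y' x) + (1 - Ult.mk t) * dg (Y x) * (1 - Ult.mk t) :=
    fun x => by simp only [hZ, map_add, map_mul, map_sub, map_one, dg_apply]
  generalize 1 - Ult.mk t = S at *
  have e1 : ∀ x, ∀ᶠ k in (om : Filter ℕ), ‖Bdd.ev k (Z x)‖ < 2 := fun x => Ult.eventually_lt (by
    rw [z1]
    exact glue_norm S0.isSelfAdjoint S1 (k1 x) (k2 x) (dg_norm_lt (h'.1 x).2.1)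
      (dg_norm_lt (h.1 x).2.1))
  have e2 : ∀ x, ∀ᶠ k in (om : Filter ℕ), ‖Bdd.ev k (Z x - cst (u x) * Z x)‖ < ε := fun x =>
    Ult.eventually_lt (by
      have : Ult.mk (Z x - cst (u x) * Z x) =
          dg (Y' x - u x * Y' x) + S * dg (Y x - u x * Y x) * S := by
        simp only [map_sub, map_mul, z1, ← dg_apply, mul_add, mul_sub, sub_mul, ← mul_assoc,
          (cu x).eq]
        abel
      rw [this]
      refine glue_norm S0.isSelfAdjoint S1 ?_ ?_ (dg_norm_lt (h'.1 x).2.2.2.2)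
        (dg_norm_lt (h.1 x).2.2.2.2)
      · rw [map_sub, map_mul, mul_sub, ← mul_assoc, ← (cu x).eq, mul_assoc, k1, mul_zero, sub_zero]
      · rw [map_sub, map_mul, sub_mul, mul_assoc, k2, mul_zero, sub_zero])
  have e3 : ∀ x x' l, ∀ᶠ k in (om : Filter ℕ), x ≠ x' → ‖Bdd.ev k (Z x * cst (r l) * Z x')‖ < ε :=
    fun x x' l => by
      by_cases hx : x = x'
      · exact Eventually.of_forall fun _ h => (h hx).elim
      refine (Ult.eventually_lt ?_).mono fun _ h _ => h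
      have : Ult.mk (Z x * cst (r l) * Z x') = dg (Y' x * r l * Y' x') +
          S * S * dg (Y x * r l * Y x') * (S * S) := by
        have b1 : dg (Y' x) * dg (r l) * (S * dg (Y x') * S) = 0 := by
          rw [← mul_assoc, ← mul_assoc, mul_assoc (dg (Y' x)), (cr l).eq, ← mul_assoc, k2]
          simp
        have b2 : S * dg (Y x) * S * dg (r l) * dg (Y' x') = 0 := by
          rw [mul_assoc _ S, ← (cr l).eq, mul_assoc, mul_assoc (dg (r l)), k1]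
          simp
        have b3 : S * dg (Y x) * S * dg (r l) * (S * dg (Y x') * S) =
            S * S * (dg (Y x) * dg (r l) * dg (Y x')) * (S * S) := by
          rw [mul_assoc S (dg (Y x)), (cy x).eq, ← (cy x').eq]
          simp only [mul_assoc]
        simp only [map_mul, z1, ← dg_apply, add_mul, mul_add, b1, b2, b3, add_zero, zero_add]
      rw [this]
      refine glue_norm (by rw [IsSelfAdjoint, star_mul, S0.star_eq])
        ((norm_mul_le _ _).trans (mul_le_one₀ S1 (norm_nonneg _) S1)) ?_ ?_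
        (dg_norm_lt (h'.2 x x' l hx)) (dg_norm_lt (h.2 x x' l hx))
      · rw [map_mul, map_mul, mul_assoc S, ← mul_assoc S (_ * _), ← mul_assoc S (dg _), k1]
        simp
      · rw [map_mul, ← mul_assoc, mul_assoc _ (dg (Y' x')), k2]
        simp
  obtain ⟨k, ⟨f1, f2⟩, f3⟩ := (((eventually_all.2 e1).and (eventually_all.2 e2)).and
    (eventually_all.2 fun x => eventually_all.2 fun x' => eventually_all.2 (e3 x x'))).exists
  have z2 : ∀ x, Bdd.ev k (Z x) = Y' x + (1 - Bdd.ev k t) * Y x * (1 - Bdd.ev k t) := fun x => by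
    simp only [hZ, map_add, map_mul, map_sub, map_one, ev_cst]
  have s0 : star (1 - Bdd.ev k t) = 1 - Bdd.ev k t := by
    rw [star_sub, star_one, (hom_nonneg _ t0).star_eq]
  have p0 : ∀ x, 0 ≤ (1 - Bdd.ev k t) * Y x * (1 - Bdd.ev k t) := fun x => by
    simpa only [s0] using star_left_conjugate_nonneg (h.1 x).1.1 (1 - Bdd.ev k t)
  have le : ∀ x, Y' x ≤ Bdd.ev k (Z x) := fun x => z2 x ▸ le_add_of_nonneg_right (p0 x)
  have out : ∀ x (p : Pt A), p.π v' = 0 → p.π (Bdd.ev k (Z x)) = p.π (Y x) := fun x p hp => by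
    simp [z2, (h'.1 x).2.2.1 p hp, t2 k p hp]
  obtain ⟨-, g1, g2⟩ := hv'.add hv
  refine ⟨fun x => Bdd.ev k (Z x), fun x => ⟨⟨(h'.1 x).1.1.trans (le x), fun p hp => ?_⟩, f1 x,
    fun p hp => ?_, fun p hp => ?_, by simpa using f2 x⟩, fun x x' l hx => by
      simpa using f3 x x' l hx⟩
  · by_cases h0 : p.π v' = 0
    · rw [out x p h0] at hp ⊢
      exact (h.1 x).1.2 p hp
    · exact ((h'.1 x).1.2 p fun h1 => h0 ((h'.1 x).2.2.2.1 p h1)).trans
        (p.mono (h'.1 x).1.1 (le x))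
  · rw [out x p (g1 p hp), (h.1 x).2.2.1 p (g2 p hp)]
  · have h0 := (h'.1 x).2.2.2.1 p (Gen.of_le (h'.1 x).1.1 (le x) p hp)
    rw [map_add, h0, (h.1 x).2.2.2.1 p (out x p h0 ▸ hp), add_zero]

lemma gen_sum {ι : Type*} [Fintype ι] (e : ι → A) (i : ι) : Gen (e i) (∑ l, star (e l) * e l) :=
  fun p hp => (CStarRing.star_mul_self_eq_zero_iff _).1 (by
    rw [← map_star, ← map_mul]
    exact Gen.of_le (star_mul_self_nonneg _) (Finset.single_le_sum
      (fun l _ => star_mul_self_nonneg (e l)) (Finset.mem_univ i)) p hp)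

lemma Pt.loc (p : Pt A) {X ρ : Type} [Finite X] [Finite ρ] (u : X → A) (r : ρ → A) (a : X → p.Q)
    (h1 : ∀ x, 0 ≤ a x ∧ a x ≠ 0 ∧ p.π (u x) * a x = a x)
    (h2 : ∀ x x' l, x ≠ x' → a x * p.π (r l) * a x' = 0) {ε : ℝ} (hε : 0 < ε) :
    ∃ e g : X → A, (∀ x, IsSelfAdjoint (e x) ∧ e x * g x = g x ∧ p.π (g x) ≠ 0 ∧
      ‖e x - u x * e x‖ < ε) ∧ ∀ x x' l, x ≠ x' → ‖e x * r l * e x'‖ < ε := by
  classical
  haveI := Fintype.ofFinite X
  haveI := Fintype.ofFinite ρ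
  have : ∀ x, ∃ b, 0 ≤ b ∧ p.π b = ‖a x‖⁻¹ • a x := fun x => by
    obtain ⟨b, hb⟩ := p.surj (‖a x‖⁻¹ • a x)
    have : 0 ≤ ‖a x‖⁻¹ • a x := smul_nonneg (by positivity) (h1 x).1
    refine ⟨sq (star b * b), sq_nonneg' _, ?_⟩
    rw [hom_sq _ (star_mul_self_nonneg b), map_mul, map_star, hb, this.star_eq, ← pow_two,
      ← mul_one 2, sq_pow this, pow_one]
  choose b b0 b1 using this
  let E : X ⊕ X × X × ρ → A := fun o => o.elim (fun x => b x - u x * b x)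
    fun q => if q.1 = q.2.1 then 0 else b q.1 * r q.2.2 * b q.2.1
  have E0 : ∀ o, p.π (E o) = 0 := by
    rintro (x | ⟨x, x', l⟩)
    · simp [E, b1, (h1 x).2.2]
    · by_cases hx : x = x' <;> simp [E, hx, b1, h2]
  obtain ⟨t, t0, t1, t2, t3, t4⟩ := tierG (fun _ => ∑ o, star (E o) * E o)
    (fun o : (X ⊕ X) ⊕ ρ => dg (o.elim (·.elim u b) r)) (fun o => cst (E o))
    fun o _ => gen_sum E o
  have t5 : ∀ k, p.π (Bdd.ev k t) = 0 := fun k => t2 k p (by simp [E0])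
  have cm : ∀ o : (X ⊕ X) ⊕ ρ, Commute (dg (o.elim (·.elim u b) r)) (1 - Ult.mk t) := fun o =>
    (Commute.one_right _).sub_right (mem_Cn.1 t3 _ ⟨o, rfl⟩).1
  have cu : ∀ x, Commute (dg (u x)) (1 - Ult.mk t) := fun x => cm (.inl (.inl x))
  have cy : ∀ x, Commute (dg (b x)) (1 - Ult.mk t) := fun x => cm (.inl (.inr x))
  have k1 : ∀ o, (1 - Ult.mk t) * dg (E o) = 0 := fun o => kill_of_unit (t4 o)
  obtain ⟨Z, hZ⟩ : ∃ Z : X → BA A, ∀ x, Z x = (1 - t) * cst (b x) * (1 - t) := ⟨_, fun _ => rfl⟩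
  have zs : ∀ x, IsSelfAdjoint (Z x) := fun x => by
    have := star_left_conjugate_nonneg (hom_nonneg cst (b0 x)) (1 - t)
    rw [star_sub, star_one, t0.star_eq, ← hZ] at this
    exact this.isSelfAdjoint
  have z1 : ∀ x, Ult.mk (Z x) = (1 - Ult.mk t) * dg (b x) * (1 - Ult.mk t) :=
    fun x => by simp only [hZ, map_mul, map_sub, map_one, dg_apply]
  have z2 : ∀ x k, p.π (Bdd.ev k (Z x)) = ‖a x‖⁻¹ • a x := fun x k => by simp [hZ, t5, b1]
  generalize 1 - Ult.mk t = S at *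
  have c := rp_cont (1 / 4) 1
  have e2 : ∀ x, ∀ᶠ k in (om : Filter ℕ), ‖Bdd.ev k (cfc (rp (1 / 4) 1) (Z x) -
      cst (u x) * cfc (rp (1 / 4) 1) (Z x))‖ < ε := fun x => Ult.eventually_lt (by
    have := k1 (.inl x)
    simp only [E, Sum.elim_inl, map_sub, map_mul, mul_sub, sub_eq_zero] at this
    rw [map_sub, map_mul, hom_cfc _ c (zs x), ← dg_apply, unit_cfc ((zs x).map Ult.mk) (by
      rw [z1, ← mul_assoc, ← mul_assoc, (cu x).eq, mul_assoc S, ← this]) c (rp_at_zero _ _),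
      sub_self, norm_zero]
    exact hε)
  have e3 : ∀ x x' l, ∀ᶠ k in (om : Filter ℕ), x ≠ x' → ‖Bdd.ev k (cfc (rp (1 / 4) 1) (Z x) *
      cst (r l) * cfc (rp (1 / 4) 1) (Z x'))‖ < ε := fun x x' l => by
    by_cases hx : x = x'
    · exact Eventually.of_forall fun _ h => (h hx).elim
    refine (Ult.eventually_lt ?_).mono fun _ h _ => h
    have := k1 (.inr (x, x', l))
    simp only [E, Sum.elim_inr, if_neg hx, map_mul] at this
    have b3 : Ult.mk (Z x) * dg (r l) * Ult.mk (Z x') = 0 := by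
      rw [z1, z1, mul_assoc S (dg (b x)), (cy x).eq, ← (cy x').eq]
      calc _ = S * (S * (dg (b x) * dg (r l) * dg (b x'))) * S * S := by simp only [mul_assoc]
        _ = 0 := by rw [this]; simp
    rw [map_mul, map_mul, hom_cfc _ c (zs x), hom_cfc _ c (zs x'), ← dg_apply, mul_assoc,
      cfc_mul_eq_zero ((zs x).map Ult.mk) (by
        rw [← mul_assoc, mul_cfc_eq_zero ((zs x').map Ult.mk) b3 c (rp_at_zero _ _)]) c
      (rp_at_zero _ _), norm_zero]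
    exact hε
  obtain ⟨k, f2, f3⟩ := ((eventually_all.2 e2).and
    (eventually_all.2 fun x => eventually_all.2 fun x' => eventually_all.2 (e3 x x'))).exists
  simp only [map_sub, map_mul, ev_cst, hom_cfc _ c (zs _)] at f2 f3
  refine ⟨fun x => cfc (rp (1 / 4) 1) (Bdd.ev k (Z x)), fun x => cfc (rp (1 / 4) 2)
    (Bdd.ev k (Z x)), fun x => ⟨.cfc, rp_tier one_lt_two _, ?_, f2 x⟩, f3⟩
  rw [hom_cfc _ (rp_cont _ _) ((zs x).map _), z2]
  refine rp_ne_zero (by norm_num) (smul_nonneg (by positivity) (h1 x).1) ?_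
  rw [norm_smul, norm_inv, norm_norm, inv_mul_cancel₀ (norm_ne_zero_iff.2 (h1 x).2.1)]
  norm_num

theorem TD.rooms0 {G : Type*} [NonUnitalCStarAlgebra G] [PartialOrder G] [StarOrderedRing G]
    {jG : G →⋆ₙₐ[ℂ] A} (hT : TD j) (hj : Idl j) (hGj : ∀ c, ∃ b, j b = jG c) {X ρ : Type}
    [Finite X] [Finite ρ] (u : X → A) (r : ρ → A) {v : A} (hv : Bub v) (v1 : ∃ c, j c = v)
    (H : ∀ p : Pt A, Prm p → (∀ c, p.π (jG c) = 0) → p.π v ≠ 0 → ∃ a : X → p.Q,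
      (∀ x, 0 ≤ a x ∧ a x ≠ 0 ∧ p.π (u x) * a x = a x) ∧
      ∀ x x' l, x ≠ x' → a x * p.π (r l) * a x' = 0) {ε : ℝ} (hε : 0 < ε) :
    ∃ (v' : A) (Y : X → A), Rm u r ε v' Y ∧ Gen v' v ∧ GenM jG v v' := by
  classical
  haveI := Fintype.ofFinite X
  have : ∀ l : {p : Pt A // Prm p ∧ p.π v ≠ 0}, ∃ w, ((∃ c, j c = w) ∧ 0 ≤ w) ∧ l.1.π w ≠ 0 ∧
      ((∃ c, jG c = w) ∨ Gen w v ∧ ∀ v', Bub v' → Gen v' w → ∃ Y, Rm u r ε v' Y) := fun l => by
    by_cases hG : ∀ c, l.1.π (jG c) = 0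
    swap
    · obtain ⟨c, hc⟩ := not_forall.1 hG
      refine ⟨jG (star c * c), ⟨hGj _, ?_⟩, ?_, .inl ⟨_, rfl⟩⟩
      · rw [map_mul, map_star]; exact star_mul_self_nonneg _
      · rwa [map_mul, map_star, map_mul, map_star, ne_eq, CStarRing.star_mul_self_eq_zero_iff]
    obtain ⟨a, a1, a2⟩ := H l.1 l.2.1 hG l.2.2
    obtain ⟨e, g, e1, e2⟩ := l.1.loc u r a a1 a2 hε
    obtain ⟨w, w1, w2, w3, w4⟩ := l.2.1.prod hj v1 l.2.2 Finset.univ
      (fun o : Option X => o.elim v g) (by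
        rintro (_ | x) -
        exacts [l.2.2, (e1 x).2.2.1])
    refine ⟨w, ⟨w1, w2⟩, w3, .inr ⟨w4 none (Finset.mem_univ _), fun v' h1 h2 => ?_⟩⟩
    choose Z z1 z2 z3 z4 _ z5 using fun x => h1.her (h2.trans (w4 (some x) (Finset.mem_univ _)))
    have n1 := fun x => norm_le_one_of (z1 x).1 (z2 x)
    have u1 := fun x => unit_of_kill (z5 x _ (kill_of_unit (e1 x).2.1))
    have u2 := fun x => mul_comm_of_sa (e1 x).1 (z1 x).1.isSelfAdjoint (z1 x).1.isSelfAdjoint (u1 x)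
    refine ⟨Z, fun x => ⟨z1 x, (n1 x).trans_lt one_lt_two, z3 x, z4 x, ?_⟩, fun x x' l hx => ?_⟩
    · rw [← u1, ← mul_assoc, ← sub_mul]
      exact ((norm_mul_le _ _).trans (mul_le_of_le_one_right (norm_nonneg _) (n1 x))).trans_lt
        (e1 x).2.2.2
    · refine lt_of_le_of_lt ?_ (e2 x x' l hx)
      calc _ = ‖Z x * (e x * r l * e x') * Z x'‖ := by
            rw [← mul_assoc, ← mul_assoc, u2, mul_assoc _ (e x'), u1]
        _ ≤ 1 * ‖e x * r l * e x'‖ * 1 := norm_mul₃_le.trans (by gcongr <;> exact n1 _)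
        _ = _ := by ring
  choose w w1 w2 w3 using this
  obtain ⟨F, V, V1, V2⟩ := hT.cover w w1 hv.1 one_pos fun p hp h =>
    ⟨⟨p, hp, p.ne_zero h⟩, w2 ⟨p, hp, p.ne_zero h⟩⟩
  have key : ∀ s : Finset {p : Pt A // Prm p ∧ p.π v ≠ 0}, (∀ l ∈ s, ¬∃ c, jG c = w l) →
      ∃ Y, Rm u r ε (∑ l ∈ s, V l) Y := fun s => by
    induction s using Finset.induction_on with
    | empty =>
      exact fun _ => ⟨0, fun x => ⟨.zero, by simp, .refl _, .refl _, by simpa⟩,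
        fun _ _ _ _ => by simpa⟩
    | insert l s hl ih =>
      intro hs
      obtain ⟨Y, hY⟩ := ih fun l h => hs l (Finset.mem_insert_of_mem h)
      obtain ⟨Y', hY'⟩ := ((w3 l).resolve_left (hs l (Finset.mem_insert_self _ _))).2 _
        (V1 l).1 (V1 l).2
      rw [Finset.sum_insert hl]
      exact hY.glue hY' (Bub.sum s fun l _ => (V1 l).1).1 (V1 l).1
  obtain ⟨Y, hY⟩ := key (F.filter fun l => ¬∃ c, jG c = w l) fun l h => (Finset.mem_filter.1 h).2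
  refine ⟨_, Y, hY, fun p hp => ?_, fun p _ hG hp => ?_⟩
  · rw [map_sum]
    exact Finset.sum_eq_zero fun l h =>
      (V1 l).2 p (((w3 l).resolve_left (Finset.mem_filter.1 h).2).1 p hp)
  · by_contra h
    obtain ⟨l, l1, l2⟩ := V2 p (hv.2 p h)
    by_cases h0 : ∃ c, jG c = w l
    · obtain ⟨c, hc⟩ := h0
      exact l2 ((V1 l).2 p (hc ▸ hG c))
    · exact l2 ((Bub.sum _ fun l _ => (V1 l).1).2 l (Finset.mem_filter.2 ⟨l1, h0⟩) p hp)

theorem TD.roomsM {G : Type*} [NonUnitalCStarAlgebra G] [PartialOrder G] [StarOrderedRing G]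
    {jG : G →⋆ₙₐ[ℂ] A} (hT : TD j) (hj : Idl j) (hG : Idl jG) (hGj : ∀ c, ∃ b, j b = jG c)
    {X ρ : Type} [Fintype X] [Fintype ρ] (u : X → A) (r : ρ → A) {L : ℕ}
    (hL : 2 * Fintype.card X * Fintype.card ρ < L) {v : A} (hv : Bub v) (v1 : ∃ c, j c = v)
    (H : ∀ p : Pt A, Prm p → (∀ c, p.π (jG c) = 0) → p.π v ≠ 0 → ∀ x, Rich L (p.π (u x))) :
    ∃ Y : X → BA A, (∀ x k, Bub (Bdd.ev k (Y x)) ∧ Bdd.ev k (Y x) ≤ 1 ∧
        Gen (Bdd.ev k (Y x)) v ∧ GenM jG v (Bdd.ev k (Y x))) ∧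
      (∀ x, dg (u x) * Ult.mk (Y x) = Ult.mk (Y x)) ∧
      ∀ x x' l, x ≠ x' → Ult.mk (Y x) * dg (r l) * Ult.mk (Y x') = 0 := by
  choose v' Y y0 g1 g2 using fun k : ℕ => hT.rooms0 hj hGj u r hv v1
    (fun p hp h0 h => hp.orth _ _ hL (H p hp h0 h)) (show (0 : ℝ) < 1 / ((k : ℝ) + 1) by positivity)
  have y1 := fun k => (y0 k).1
  have y2 := fun k => (y0 k).2
  let Z : X → BA A := fun x => Bdd.of (fun k => Y k x) 2 fun k => (y1 k x).2.1.le
  have zs : ∀ x, IsSelfAdjoint (Z x) := fun x =>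
    Bdd.isSelfAdjoint fun k => (y1 k x).1.1.isSelfAdjoint
  have c := rp_cont (1 / 4) 1
  refine ⟨fun x => cfc (rp (1 / 4) 1) (Z x), fun x k => ?_, fun x => ?_, fun x x' l hx => ?_⟩
  · obtain ⟨t1, t2, t3⟩ := (y1 k x).1.tiers (δ := 1 / 4) (m := 1) (by norm_num) (by norm_num)
    rw [hom_cfc _ c (zs x)]
    exact ⟨t1, (rp_unit _ _ _).2, (t3.trans (y1 k x).2.2.1).trans (g1 k), fun p hp h0 h =>
      g2 k p hp h0 ((y1 k x).2.2.2.1 p (t2 p h))⟩
  · rw [hom_cfc _ c (zs x)]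
    refine unit_cfc ((zs x).map Ult.mk) ?_ c (rp_at_zero _ _)
    rw [dg_apply, ← map_mul]
    exact (Ult.mk_eq_of_le 1 fun k => by simpa [Z] using (y1 k x).2.2.2.2.le).symm
  · have : Ult.mk (Z x) * dg (r l) * Ult.mk (Z x') = 0 := by
      rw [dg_apply, ← map_mul, ← map_mul]
      exact Ult.mk_eq_zero_of_le Ult.tendsto_inv fun k => by simpa [Z] using (y2 k x x' l hx).le
    rw [hom_cfc _ c (zs x), hom_cfc _ c (zs x'), mul_assoc, cfc_mul_eq_zero ((zs x).map Ult.mk) (by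
      rw [← mul_assoc, mul_cfc_eq_zero ((zs x').map Ult.mk) this c (rp_at_zero _ _)]) c
      (rp_at_zero _ _)]

end Pool.Agent.Lib.MP_30b5b4_an
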