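import Pool.Agent.Lib.MP_30b5b4_an.C.SDefs

/-! Punctured cuts. -/

open scoped CStarAlgebra ComplexOrder Topology
open Filter

set_option linter.unusedSectionVars false
set_option linter.style.haveILetI false
set_option linter.unusedVariables false
set_option linter.unusedSimpArgs false

namespace Pool.Agent.Lib.MP_30b5b4_an

universe u v

lemma tent_zero : tent 0 = 0 := cl_of_nonpos (by norm_num)

lemma tent_one : tent 1 = 0 := cl_of_nonpos (by norm_num)

lemma wl_zero (m : ℕ) : wl m 0 = 0 := by rw [wl, tent_zero, rp_at_zero]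

lemma wl_one (m : ℕ) : wl m 1 = 0 := by rw [wl, tent_one, rp_at_zero]

lemma cl_one_sub (x : ℝ) : cl (1 - x) = 1 - cl x := by
  simp only [cl, max_def, min_def]
  split_ifs <;> linarith

lemma rp_cl {m : ℕ} (hm : m ≤ 31) (x : ℝ) : rp (1 / 32) m (cl x) = cl (32 * x - m) := by
  have h0 : (0 : ℝ) ≤ m := m.cast_nonneg
  have h1 : (m : ℝ) ≤ 31 := by exact_mod_cast hm
  rcases le_total x 0 with h | h
  · rw [cl_of_nonpos h, rp_at_zero, cl_of_nonpos (by linarith)]
  rcases le_total 1 x with h' | h'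
  · rw [cl_of_one_le h', rp, cl_of_one_le (by linarith), cl_of_one_le (by linarith)]
  · rw [cl, min_eq_right h', max_eq_right h, rp, show x / (1 / 32) = 32 * x by ring]

lemma wl_lo {m : ℕ} (hm : m ≤ 31) {t : ℝ} (h : t ≤ 1 / 2) : wl m t = cl (64 * t - m) := by
  rw [wl, tent, rp_cl hm, min_eq_left (by linarith)]
  exact congrArg cl (by ring)

lemma wl_hi {m : ℕ} (hm : m ≤ 31) {t : ℝ} (h : 1 / 2 ≤ t) : wl m t = cl (64 - 64 * t - m) := by
  rw [wl, tent, rp_cl hm, min_eq_right (by linarith)]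
  exact congrArg cl (by ring)

lemma wl_two (t : ℝ) : wl 2 t = rp (1 / 64) 2 t - rp (1 / 64) 61 t := by
  rcases le_total t (1 / 2) with h | h
  · rw [wl_lo (by norm_num) h, show rp (1 / 64) 61 t = 0 from cl_of_nonpos (by push_cast; linarith),
      sub_zero]
    exact congrArg cl (by ring)
  · rw [wl_hi (by norm_num) h, rp_one (m := 2) (by norm_num) (by push_cast; linarith), rp,
      ← cl_one_sub]
    exact congrArg cl (by push_cast; ring)

lemma wl_ramp (t : ℝ) : wl 29 t * √(rp (1 / 64) 31 t - rp (1 / 64) 31 t * rp (1 / 64) 31 t) =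
    √(rp (1 / 64) 31 t - rp (1 / 64) 31 t * rp (1 / 64) 31 t) := by
  rcases le_total t (31 / 64) with h | h
  · rw [show rp (1 / 64) 31 t = 0 from cl_of_nonpos (by push_cast; linarith)]; simp
  rcases le_total (1 / 2) t with h' | h'
  · rw [show rp (1 / 64) 31 t = 1 from cl_of_one_le (by push_cast; linarith)]; simp
  rw [wl_lo (by norm_num) h', cl_of_one_le (by push_cast; linarith), one_mul]

lemma wl_le (t : ℝ) : wl 1 t * wl 1 t ≤ 128 * (wl 1 t * (t - t * t) * wl 1 t) := by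
  rcases le_total t (1 / 64) with h | h
  · rw [wl_lo (by norm_num) (by linarith), cl_of_nonpos (by push_cast; linarith)]; simp
  rcases le_total (63 / 64) t with h' | h'
  · rw [wl_hi (by norm_num) (by linarith), cl_of_nonpos (by push_cast; linarith)]; simp
  have h1 : 1 ≤ 128 * (t - t * t) := by nlinarith
  nlinarith [mul_self_nonneg (wl 1 t)]

section
variable {B : Type u} [CStarAlgebra B] [PartialOrder B] [StarOrderedRing B]

lemma wl_tier {m m' : ℕ} (h : m < m') (c : B) :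
    cfc (wl m) c * cfc (wl m') c = cfc (wl m') c := by
  rw [cfc_mul' (wl_cont m) (wl_cont m')]
  exact congrArg (cfc · c) (funext fun t => cl_tier h)

lemma wl_unit (m : ℕ) (c : B) : 0 ≤ cfc (wl m) c ∧ cfc (wl m) c ≤ 1 :=
  ⟨cfc_nonneg fun _ _ => cl_nonneg _, cfc_le_one _ _ fun _ _ => cl_le_one _⟩

lemma wl_two' (c : B) : cfc (wl 2) c = cfc (rp (1 / 64) 2) c - cfc (rp (1 / 64) 61) c := by
  rw [← cfc_sub _ _ _ (rp_cont _ _).continuousOn (rp_cont _ _).continuousOn]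
  exact congrArg (cfc · c) (funext wl_two)

lemma mul_comm_of_sa {a b : B} (ha : IsSelfAdjoint a) (hb : IsSelfAdjoint b) {c : B}
    (hc : IsSelfAdjoint c) (h : a * b = c) : b * a = c := by
  rw [← ha.star_eq, ← hb.star_eq, ← star_mul, h, hc.star_eq]

lemma wl_split {c y : B} (h : cfc (wl 2) c * y = y) :
    (1 - cfc (rp (1 / 64) 2) c) * y = 0 ∧ cfc (rp (1 / 64) 61) c * y = 0 := by
  have h1 : (1 - cfc (wl 2) c) * y = 0 := by rw [sub_mul, one_mul, h, sub_self]
  have a1 := sub_nonneg.2 (rp_unit (1 / 64) 2 c).2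
  have a2 := (rp_unit (1 / 64) 61 c).1
  have e : 1 - cfc (wl 2) c = 1 - cfc (rp (1 / 64) 2) c + cfc (rp (1 / 64) 61) c := by
    rw [wl_two']; abel
  exact ⟨mul_eq_zero_of_le_smul a1 (r := 1) (by rw [one_smul, e]; exact le_add_of_nonneg_right a2)
    h1, mul_eq_zero_of_le_smul a2 (r := 1)
    (by rw [one_smul, e]; exact le_add_of_nonneg_left a1) h1⟩

lemma Btw.lo {c c' : B} (h : Btw c c') (c0 : IsSelfAdjoint c) {g : ℝ → ℝ} (hg : Continuous g)
    (g0 : g 0 = 0) : (1 - cfc (rp (1 / 64) 2) c) * cfc g c' = 0 :=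
  mul_cfc_eq_zero h.1.isSelfAdjoint (by rw [sub_mul, one_mul, ← cf_eq _ c0, h.2.2.1, sub_self])
    hg g0

lemma Btw.hi {c c' : B} (h : Btw c c') (c0 : IsSelfAdjoint c) {g : ℝ → ℝ} (hg : Continuous g) :
    cfc g c' * cfc (rp (1 / 64) 61) c = g 1 • cfc (rp (1 / 64) 61) c :=
  cfc_mul_eigen h.1.isSelfAdjoint (by rw [← cf_eq _ c0, h.2.2.2, one_smul]) hg

lemma Btw.wall {c c' : B} (h : Btw c c') (c0 : IsSelfAdjoint c) {g : ℝ → ℝ} (hg : Continuous g)
    (g0 : g 0 = 0) (g1 : g 1 = 0) : cfc (wl 2) c * cfc g c' = cfc g c' := by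
  have h1 := h.lo c0 hg g0
  have h2 := h.hi c0 hg
  rw [g1, zero_smul] at h2
  rw [sub_mul, one_mul, sub_eq_zero] at h1
  rw [wl_two', sub_mul, ← h1, mul_comm_of_sa .cfc .cfc (.zero _) h2, sub_zero]

lemma Btw.kill {c c' z : B} (h : Btw c c') (c0 : IsSelfAdjoint c) (hz : c * z = 0) :
    c' * z = 0 := by
  have h1 := h.2.2.1
  rw [cf_eq _ c0] at h1
  rw [← mul_comm_of_sa .cfc h.1.isSelfAdjoint h.1.isSelfAdjoint h1, mul_assoc,
    cfc_mul_eq_zero c0 hz (rp_cont _ _) (rp_at_zero _ _), mul_zero]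

lemma Btw.trans {c c' c'' : B} (h : Btw c c') (h' : Btw c' c'') : Btw c c'' := by
  obtain ⟨a0, a1, a2, a3⟩ := h
  obtain ⟨b0, b1, b2, b3⟩ := h'
  rw [cf_eq _ a0.isSelfAdjoint] at b2 b3
  refine ⟨b0, b1, ?_, ?_⟩
  · have := mul_cfc_eq_zero (y := 1 - cf (rp (1 / 64) 2) c) a0.isSelfAdjoint
      (by rw [sub_mul, one_mul, a2, sub_self]) (rp_cont (1 / 64) 2) (rp_at_zero _ _)
    rw [sub_mul, one_mul, sub_eq_zero] at this
    rw [← b2, ← mul_assoc, ← this]
  · have := cfc_mul_eigen (r := 1) a0.isSelfAdjoint (by rw [a3, one_smul]) (rp_cont (1 / 64) 61)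
    rw [rp_one (by norm_num) (by norm_num), one_smul] at this
    rw [← this, ← mul_assoc, b3]

lemma Btw.base {c : B} (c0 : IsSelfAdjoint c) : Btw c (cfc (rp (1 / 64) 31) c) :=
  ⟨(rp_unit _ _ _).1, (rp_unit _ _ _).2, by rw [cf_eq _ c0, rp_tier (by norm_num)],
    by rw [cf_eq _ c0, rp_tier (by norm_num)]⟩

lemma Sub.two {z q q' V V' : B} (h : (star V * V + star V' * V') * z = z) (h1 : q * V = V)
    (h2 : q' * V' = V') : Sub ∅ 1 {z} ({q} + {q'}) :=
  ⟨Unit, Bool, _, _, fun _ => z, (cond · q q'), fun b _ => cond b V V', map_univ_unit z,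
    by rw [map_univ_eq_sum, Fintype.sum_bool]; rfl, fun _ _ => mem_Cn_empty _,
    fun _ => by simpa using h, fun _ _ h => (h rfl).elim, fun b _ => by cases b <;> assumption⟩

/-- one puncture -/
lemma puncture {c₀ c y y' : B} (c0 : IsSelfAdjoint c₀) (h : Btw c₀ c) (y0 : 0 ≤ y) (y1 : y ≤ 1)
    (hy : cfc (wl 2) c₀ * y = y) (hy' : y' * y = y) : ∃ c', Btw c₀ c' ∧
      (∀ z, y * z = z → c' * z = 0) ∧ (∀ z, y * z = 0 → c * z = 0 → c' * z = 0) ∧
      Sub ∅ 1 {cfc (wl 2) c'} ({cfc (wl 29) c} + {y'}) ∧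
      c' = cfc (fun t => √(1 - t)) y * cfc (rp (1 / 64) 31) c * cfc (fun t => √(1 - t)) y := by
  have ys := y0.isSelfAdjoint
  have cs := h.1.isSelfAdjoint
  have sc : Continuous fun t : ℝ => √(1 - t) := by fun_prop
  have fc := rp_cont (1 / 64) 31
  obtain ⟨s, hs⟩ : ∃ s, s = cfc (fun t => √(1 - t)) y := ⟨_, rfl⟩
  obtain ⟨f, hf⟩ : ∃ f, f = cfc (rp (1 / 64) 31) c := ⟨_, rfl⟩
  have s0 : IsSelfAdjoint s := hs ▸ .cfc
  have f0 : 0 ≤ f ∧ f ≤ 1 := hf ▸ rp_unit _ _ _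
  have s1 : s * s = 1 - y := by
    rw [hs, cfc_mul' sc sc, cfc_congr (g := fun t => 1 - t) fun t ht =>
      Real.mul_self_sqrt (sub_nonneg.2 (spec_mem y0 y1 ht).2),
      cfc_sub _ _ _ continuousOn_const continuous_id'.continuousOn, cfc_const_one ℝ y, cfc_id' ℝ y]
  have s2 : ∀ z, y * z = 0 → s * z = z := fun z hz => by
    rw [hs, cfc_mul_eigen (r := 0) ys (by rw [hz, zero_smul]) sc]; simp
  have s3 : ∀ z, y * z = z → s * z = 0 := fun z hz =>
    hs ▸ cfc_mul_eq_zero' ys hz sc (by simp)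
  obtain ⟨w1, w2⟩ := wl_split hy
  have l0 : IsSelfAdjoint (1 - cfc (rp (1 / 64) 2) c₀) := (IsSelfAdjoint.one _).sub .cfc
  have p0 : 0 ≤ s * f * s := by simpa only [s0.star_eq] using star_left_conjugate_nonneg f0.1 s
  have p1 : s * f * s ≤ 1 := by
    have := star_left_conjugate_le_conjugate f0.2 s
    rw [s0.star_eq, mul_one, s1] at this
    exact this.trans (sub_le_self _ y0)
  have ps := p0.isSelfAdjoint
  refine ⟨s * f * s, ⟨p0, p1, ?_, ?_⟩, fun z hz => by rw [mul_assoc, s3 z hz, mul_zero],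
    fun z hz hc => by rw [mul_assoc, s2 z hz, mul_assoc, hf, cfc_mul_eq_zero cs hc fc
      (rp_at_zero _ _), mul_zero], ?_, by rw [hs, hf]⟩
  · have := mul_comm_of_sa s0 l0 l0 (s2 _ (mul_comm_of_sa l0 ys (.zero _) w1))
    rw [cf_eq _ c0, ← sub_eq_zero, ← neg_eq_zero, neg_sub, ← one_sub_mul, ← mul_assoc,
      ← mul_assoc, this, hf, h.lo c0 fc (rp_at_zero _ _), zero_mul]
  · have := s2 _ (mul_comm_of_sa .cfc ys (.zero _) w2)
    rw [cf_eq _ c0, mul_assoc, this, mul_assoc, hf, h.hi c0 fc, rp_one (by norm_num) (by norm_num),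
      one_smul, this]
  have kc : Continuous fun t => √(rp (1 / 64) 31 t - rp (1 / 64) 31 t * rp (1 / 64) 31 t) := by
    fun_prop
  obtain ⟨k, hk⟩ : ∃ k, k = cfc (fun t => √(rp (1 / 64) 31 t - rp (1 / 64) 31 t *
    rp (1 / 64) 31 t)) c := ⟨_, rfl⟩
  have k0 : star k = k := hk ▸ IsSelfAdjoint.cfc.star_eq
  have k1 : k * k = f - f * f := by
    rw [hk, hf, cfc_mul' kc kc, cfc_mul' fc fc, ← cfc_sub _ _ _ fc.continuousOn (by fun_prop)]
    refine congrArg (cfc · c) (funext fun t => Real.mul_self_sqrt ?_)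
    exact sub_nonneg.2 (mul_le_of_le_one_left (cl_nonneg _) (cl_le_one _))
  have k2 : cfc (wl 29) c * k = k := by
    rw [hk, cfc_mul' (wl_cont _) kc]
    exact congrArg (cfc · c) (funext wl_ramp)
  have e : ∑ b : Bool, star (cond b (k * s) (sq y * f * s)) * cond b (k * s) (sq y * f * s) =
      s * f * s - s * f * s * (s * f * s) := by
    simp only [Fintype.sum_bool, cond, star_mul, k0, s0.star_eq, f0.1.star_eq, sq_star]
    calc _ = s * (k * k) * s + s * f * (sq y * sq y) * f * s := by noncomm_ring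
      _ = s * f * s - s * f * (1 - y) * f * s := by rw [k1, sq_mul_sq y0]; noncomm_ring
      _ = _ := by rw [← s1]; noncomm_ring
  obtain ⟨Y, hY⟩ := polarS (fun b : Bool => cond b (k * s) (sq y * f * s))
    (wl_unit 1 (s * f * s)).1 (R := 128) (by norm_num) (by
      rw [e]
      generalize s * f * s = x at ps
      have e1 : x - x * x = cfc (fun t : ℝ => t - t * t) x := by
        rw [cfc_sub (fun t : ℝ => t) (fun t => t * t), ← cfc_mul' continuous_id' continuous_id',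
          cfc_id' ℝ x]
      rw [e1, cfc_mul' (wl_cont _) (wl_cont _), cfc_mul' (wl_cont _) (by fun_prop),
        cfc_mul' (by fun_prop) (wl_cont _), ← cfc_smul (128 : ℝ) _ _ (by fun_prop)]
      exact cfc_mono (fun t _ => wl_le t) (by fun_prop) (by fun_prop))
  simp only [Fintype.sum_bool, cond] at hY
  refine Sub.two (V := k * s * Y) (V' := sq y * f * s * Y) ?_ ?_ ?_
  · rw [hY, mul_assoc, wl_tier one_lt_two, wl_tier one_lt_two]
  · rw [← mul_assoc, ← mul_assoc, k2]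
  · have := mul_cfc_eq_zero (y := 1 - y') ys (by rw [sub_mul, one_mul, hy', sub_self])
      Real.continuous_sqrt Real.sqrt_zero
    rw [sub_mul, one_mul, sub_eq_zero] at this
    rw [← mul_assoc, ← mul_assoc, ← mul_assoc, sq, ← this]

lemma cfc_idem {e : B} (e0 : IsSelfAdjoint e) (he : e - e * e = 0) {g : ℝ → ℝ} (hg : Continuous g)
    (g0 : g 0 = 0) (g1 : g 1 = 0) : cfc g e = 0 := by
  have h1 := cfc_mul_eq_zero' e0 (sub_eq_zero.1 he).symm hg g1
  have h2 := cfc_mul_eq_zero (y := 1 - e) e0 (by rw [mul_sub, mul_one, he]) hg g0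
  rwa [mul_sub, mul_one, h1, sub_zero] at h2

end

variable {J : Type*} {A : Type u} [NonUnitalCStarAlgebra J] [PartialOrder J] [StarOrderedRing J]
  [CStarAlgebra A] [PartialOrder A] [StarOrderedRing A] {j : J →⋆ₙₐ[ℂ] A}

/-- `L` punctures -/
theorem TD.oa (hT : TD j) (hj : Idl j) {c : A} (hc : ∃ b, j b = c) (c0 : 0 ≤ c) (L : ℕ) :
    ∃ (c' : A) (Y : Fin L → A), Btw c c' ∧ (∃ b, j b = c') ∧
      (∀ l, Bub (Y l) ∧ Y l ≤ 1 ∧ cfc (wl 2) c * Y l = Y l ∧ c' * Y l = 0 ∧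
        Gen (c' - c' * c') (Y l)) ∧ ∀ l l', l ≠ l' → Y l * Y l' = 0 := by
  have cs := c0.isSelfAdjoint
  induction L with
  | zero => exact ⟨_, Fin.elim0, .base cs, hj.cfc_mem hc (rp_cont _ _) (rp_at_zero _ _),
      fun l => l.elim0, fun l => l.elim0⟩
  | succ L ih =>
  obtain ⟨c₁, Y, h1, h2, h3, h4⟩ := ih
  have s1 := h1.1.isSelfAdjoint
  obtain ⟨v, v1, v2, v3⟩ := hT (cfc (wl 29) c₁) (hj.cfc_mem h2 (wl_cont _) (wl_zero _))
    (wl_unit _ _).1 1 one_pos
  obtain ⟨Z, z1, z2, z3, z4, -, z5⟩ := v1.her v2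
  have zs := z1.1.isSelfAdjoint
  obtain ⟨t1, t2, -⟩ := z1.tiers (δ := 1 / 4) (m := 2) (by norm_num) (by norm_num)
  have zz : ∀ m z, z * cfc (wl 29) c₁ = 0 → z * cfc (rp (1 / 4) m) Z = 0 := fun m z hz =>
    mul_cfc_eq_zero zs (z5 z hz) (rp_cont _ _) (rp_at_zero _ _)
  have wz : ∀ m, cfc (wl 2) c * cfc (rp (1 / 4) m) Z = cfc (rp (1 / 4) m) Z := fun m => by
    have := zz m (1 - cfc (wl 2) c) (by
      rw [sub_mul, one_mul, h1.wall cs (wl_cont _) (wl_zero _) (wl_one _), sub_self])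
    rw [sub_mul, one_mul, sub_eq_zero] at this
    exact this.symm
  have yz : ∀ m l, Y l * cfc (rp (1 / 4) m) Z = 0 := fun m l => zz m _
    (mul_comm_of_sa .cfc (h3 l).1.1.isSelfAdjoint (.zero _)
      (cfc_mul_eq_zero s1 (h3 l).2.2.2.1 (wl_cont _) (wl_zero _)))
  have zy : ∀ m l, cfc (rp (1 / 4) m) Z * Y l = 0 := fun m l =>
    mul_comm_of_sa (h3 l).1.1.isSelfAdjoint .cfc (.zero _) (yz m l)
  obtain ⟨c', a1, a2, a3, -, a4⟩ := puncture cs h1 (rp_unit (1 / 4) 1 Z).1 (rp_unit _ _ _).2 (wz 1)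
    (rp_tier zero_lt_one Z)
  have key : ∀ p : Pt A, ‖p.π (cfc (wl 29) c₁)‖ < 1 → p.π Z = 0 → p.π (c' - c' * c') = 0 :=
    fun p p1 p2 => by
      have fc := rp_cont (1 / 64) 31
      have e1 : p.π c' = p.π (cfc (rp (1 / 64) 31) c₁) := by
        rw [a4, map_mul, map_mul, hom_cfc _ (by fun_prop) .cfc, hom_cfc _ (rp_cont _ _) zs, p2,
          cfc_apply_zero, rp_at_zero, map_zero, cfc_apply_zero]
        simp
      have e2 : cfc (wl 29) c₁ * (cfc (rp (1 / 64) 31) c₁ - cfc (rp (1 / 64) 31) c₁ *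
          cfc (rp (1 / 64) 31) c₁) = cfc (rp (1 / 64) 31) c₁ - cfc (rp (1 / 64) 31) c₁ *
          cfc (rp (1 / 64) 31) c₁ := by
        rw [cfc_mul' fc fc, ← cfc_sub _ _ _ fc.continuousOn (by fun_prop),
          cfc_mul' (wl_cont _) (by fun_prop)]
        refine congrArg (cfc · c₁) (funext fun t => ?_)
        rw [← Real.mul_self_sqrt
          (x := rp (1 / 64) 31 t - rp (1 / 64) 31 t * rp (1 / 64) 31 t)
          (sub_nonneg.2 (mul_le_of_le_one_left (cl_nonneg _) (cl_le_one _))), ← mul_assoc, wl_ramp]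
      rw [map_sub, map_mul, e1, ← map_mul, ← map_sub]
      have e3 := norm_mul_le (p.π (cfc (wl 29) c₁)) (p.π (cfc (rp (1 / 64) 31) c₁ -
        cfc (rp (1 / 64) 31) c₁ * cfc (rp (1 / 64) 31) c₁))
      rw [← map_mul, e2] at e3
      by_contra e4
      nlinarith [norm_pos_iff.2 e4]
  refine ⟨c', Fin.cons (cfc (rp (1 / 4) 2) Z) Y, a1, ?_, fun l => ?_, fun l l' hl => ?_⟩
  · obtain ⟨b, hb⟩ := hj.cfc_mem h2 (rp_cont (1 / 64) 31) (rp_at_zero _ _)
    rw [a4, ← hb]
    exact hj.both _ _ b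
  · refine l.cases ⟨t1, (rp_unit _ _ _).2, wz 2, a2 _ (rp_tier one_lt_two Z), fun p hp => ?_⟩
      fun l => ⟨(h3 l).1, (h3 l).2.1, (h3 l).2.2.1, a3 _ (zy 1 l) (h3 l).2.2.2.1, fun p hp => ?_⟩
    · exact key p (not_le.1 fun h => v3 p h (z4 p (t2 p hp))) (t2 p hp)
    · have e : p.π (cfc (wl 29) c₁) = 0 := by
        rw [hom_cfc _ (wl_cont _) s1]
        exact cfc_idem (hom_nonneg _ h1.1).isSelfAdjoint
          (by rw [← map_mul, ← map_sub]; exact (h3 l).2.2.2.2 p hp) (wl_cont _) (wl_zero _)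
          (wl_one _)
      exact key p (by rw [e, norm_zero]; exact one_pos) (z3 p (v2 p e))
  · induction l using Fin.cases with
    | zero =>
      induction l' using Fin.cases with
      | zero => exact (hl rfl).elim
      | succ l' => exact zy 2 l'
    | succ l =>
      induction l' using Fin.cases with
      | zero => exact yz 2 l
      | succ l' => exact h4 l l' fun h => hl (congrArg _ h)

end Pool.Agent.Lib.MP_30b5b4_an
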