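import Pool.Agent.Lib.MP_30b5b4_an.C.SB1
import Pool.Agent.Lib.MP_30b5b4_an.C.Cmp

/-! Cuts with thin walls. -/

open scoped CStarAlgebra ComplexOrder Topology
open Filter

set_option linter.unusedSectionVars false
set_option linter.style.haveILetI false
set_option linter.unusedVariables false
set_option linter.unusedSimpArgs false
set_option synthInstance.maxSize 1000000

namespace Pool.Agent.Lib.MP_30b5b4_an

universe u v

section
variable {B : Type u} [CStarAlgebra B] [PartialOrder B] [StarOrderedRing B]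

lemma Btw.hom {B' : Type v} [CStarAlgebra B'] [PartialOrder B'] [StarOrderedRing B']
    (π : B →⋆ₐ[ℂ] B') {c c' : B} (h : Btw c c') (c0 : IsSelfAdjoint c) : Btw (π c) (π c') := by
  obtain ⟨a0, a1, a2, a3⟩ := h
  rw [cf_eq _ c0] at a2 a3
  refine ⟨hom_nonneg π a0, by simpa using hom_mono π a1, ?_, ?_⟩ <;>
    rw [cf_eq _ (c0.map π), ← hom_cfc π (rp_cont _ _) c0, ← map_mul]
  exacts [congrArg π a2, congrArg π a3]

lemma unit_of_kill {w x : B} (h : (1 - w) * x = 0) : w * x = x := by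
  rw [sub_mul, one_mul, sub_eq_zero] at h
  exact h.symm

lemma kill_of_unit {w x : B} (h : w * x = x) : (1 - w) * x = 0 := by
  rw [sub_mul, one_mul, h, sub_self]

lemma rp_orth' {x y : B} (hx : IsSelfAdjoint x) (hy : IsSelfAdjoint y) (h : x * y = 0)
    {f g : ℝ → ℝ} (hf : Continuous f) (hg : Continuous g) (f0 : f 0 = 0) (g0 : g 0 = 0) :
    cfc f x * cfc g y = 0 :=
  cfc_mul_eq_zero hx (mul_cfc_eq_zero hy h hg g0) hf f0

/-- the algebra of one gain -/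
lemma gain_alg {c c₁ : B} (c0 : IsSelfAdjoint c) (h : Btw c c₁) {N m : ℕ} (hm : 0 < m)
    (e : Fin N → Fin m → B) (γ : Fin N → B) (ξ : Fin N → Fin (4 * m) → B)
    (h1 : ∀ i l, star (e i l) * e i l = γ i) (h2 : ∀ i l l', l ≠ l' → star (e i l) * e i l' = 0)
    (h3 : ∀ i t, γ i * ξ i t = ξ i t)
    (h4 : (∑ i, ∑ t, star (ξ i t) * ξ i t) * cfc (wl 28) c₁ = cfc (wl 28) c₁)
    (h5 : ∀ i l, cfc (wl 2) c * e i l = e i l ∧ cfc (wl 2) c * star (e i l) = star (e i l)) :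
    ∃ s c', Btw c c' ∧ c' = s * cfc (rp (1 / 64) 31) c₁ * s ∧
      Sub ∅ 1 ((m + m * (N * (4 * m))) • {cfc (wl 2) c'})
        ((N + m * (N * (4 * m))) • {cfc (wl 2) c}) := by
  have he : ∀ x ∈ Cn (∅ : Set B), Commute x 1 := fun x _ => .one_right x
  have g0 : ∀ i, 0 ≤ γ i := fun i => h1 i ⟨0, hm⟩ ▸ star_mul_self_nonneg _
  obtain ⟨Γ, hΓ⟩ : ∃ Γ, Γ = ∑ i, γ i := ⟨_, rfl⟩
  have G0 : 0 ≤ Γ := hΓ ▸ Finset.sum_nonneg fun i _ => g0 i
  have Gs := G0.isSelfAdjoint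
  have G1 : cfc (wl 2) c * Γ = Γ := by
    rw [hΓ, Finset.mul_sum]
    exact Finset.sum_congr rfl fun i _ => by rw [← h1 i ⟨0, hm⟩, ← mul_assoc, (h5 _ _).2]
  have G2 : ∀ k, cfc (wl 2) c * cfc (rp (1 / 16) k) Γ = cfc (rp (1 / 16) k) Γ := fun k =>
    unit_cfc Gs G1 (rp_cont _ _) (rp_at_zero _ _)
  obtain ⟨c', a1, a2, -, a3, a4⟩ := puncture c0 h (rp_unit (1 / 16) 2 Γ).1 (rp_unit _ _ _).2 (G2 2)
    (rp_tier one_lt_two Γ)
  refine ⟨_, c', a1, a4, ?_⟩
  have nc : Continuous fun t => √(Gf (1 / 16) t) :=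
    Real.continuous_sqrt.comp (Gf_cont (by norm_num))
  have S1 : Sub ∅ 1 (m • {cfc (rp (1 / 16) 1) Γ}) (N • {cfc (wl 2) c}) := by
    have e1 : ∀ l l', ∑ i, star (e i l * cfc (fun t => √(Gf (1 / 16) t)) Γ) *
        (e i l' * cfc (fun t => √(Gf (1 / 16) t)) Γ) = cfc (fun t => √(Gf (1 / 16) t)) Γ *
          (∑ i, star (e i l) * e i l') * cfc (fun t => √(Gf (1 / 16) t)) Γ := fun l l' => by
      simp only [Finset.mul_sum, Finset.sum_mul, star_mul, mul_assoc, IsSelfAdjoint.cfc.star_eq]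
    refine ⟨_, _, _, _, fun _ => _, fun _ => _, fun i l => e i l * cfc (fun t => √(Gf (1 / 16) t)) Γ,
      map_univ_fin _ _, map_univ_fin _ _, fun _ _ => mem_Cn_empty _, fun l => ?_,
      fun l l' hl => ?_, fun i l => by rw [← mul_assoc, (h5 _ _).1]⟩
    · simp only [e1, h1, ← hΓ, one_mul]
      rw [cfc_mul_id nc Gs, cfc_mul' (by fun_prop) nc, cfc_mul' (by fun_prop) (rp_cont _ _)]
      refine congrArg (cfc · Γ) (funext fun t => ?_)
      rcases le_total t (1 / 16) with ht | ht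
      · rw [rp_zero (by norm_num) one_pos ht, mul_zero]
      · rw [mul_right_comm _ t, Real.mul_self_sqrt (Gf_nonneg (by norm_num)), Gf, max_eq_left ht,
          inv_mul_cancel₀ (by linarith), one_mul]
    · simp only [e1, h2 _ l l' hl, Finset.sum_const_zero, mul_zero, zero_mul]
  have kc : Continuous fun t : ℝ => √(max (t - 1 / 2) 0) := by fun_prop
  obtain ⟨k, hk⟩ : ∃ k, k = cfc (fun t : ℝ => √(max (t - 1 / 2) 0)) Γ := ⟨_, rfl⟩
  have k0 : star k = k := hk ▸ IsSelfAdjoint.cfc.star_eq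
  have k1 : Γ ≤ k * k + (1 / 2 : ℝ) • 1 := by
    rw [hk, cfc_mul' kc kc, add_comm, ← Algebra.algebraMap_eq_smul_one,
      ← cfc_const_add _ _ _ (by fun_prop) Gs]
    conv_lhs => rw [← cfc_id' ℝ Γ Gs]
    refine cfc_mono (fun t _ => ?_) (by fun_prop) (by fun_prop)
    rw [Real.mul_self_sqrt (le_max_right _ _)]
    linarith [le_max_left (t - 1 / 2) 0]
  have k2 : cfc (rp (1 / 16) 4) Γ * k = k := by
    rw [hk, cfc_mul' (rp_cont _ _) kc]
    refine congrArg (cfc · Γ) (funext fun t => ?_)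
    rcases le_total t (1 / 2) with ht | ht
    · simp only [max_eq_right (sub_nonpos.2 ht), Real.sqrt_zero, mul_zero]
    · rw [rp_one (by norm_num) (by push_cast; linarith), one_mul]
  have k3 : ∀ i t, star (ξ i t) * ξ i t ≤ (2 : ℝ) • (star (k * ξ i t) * (k * ξ i t)) :=
    fun i t => by
      have := star_left_conjugate_le_conjugate
        ((hΓ ▸ Finset.single_le_sum (fun i _ => g0 i) (Finset.mem_univ i) : γ i ≤ Γ).trans k1)
        (ξ i t)
      rw [mul_assoc, h3, mul_add, add_mul, mul_smul_comm, mul_one, smul_mul_assoc,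
        ← sub_le_iff_le_add] at this
      have := smul_le_smul_of_nonneg_left this (zero_le_two (α := ℝ))
      rw [smul_sub, smul_smul, two_smul ℝ (star _ * _)] at this
      simpa [star_mul, k0, mul_assoc] using this
  have S2 : Sub ∅ 1 {cfc (wl 29) c₁} ((N * (4 * m)) • {cfc (rp (1 / 16) 4) Γ}) := by
    obtain ⟨Y, hY⟩ := polarS (fun p : Fin N × Fin (4 * m) => k * ξ p.1 p.2) (wl_unit 28 c₁).1
      two_pos (by
        rw [← smul_mul_assoc, ← mul_smul_comm, Finset.smul_sum]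
        have := star_left_conjugate_le_conjugate (Finset.sum_le_sum
          fun (p : Fin N × Fin (4 * m)) (_ : p ∈ Finset.univ) => k3 p.1 p.2) (cfc (wl 28) c₁)
        rwa [IsSelfAdjoint.cfc.star_eq, mul_assoc, Fintype.sum_prod_type, h4] at this)
    have := Sub.pieces (S := ∅) (e := 1) (z := cfc (wl 29) c₁) (q := cfc (rp (1 / 16) 4) Γ)
      (fun p : Fin N × Fin (4 * m) => k * ξ p.1 p.2 * Y) (fun _ => mem_Cn_empty _)
      (by rw [hY, one_mul, mul_assoc, wl_tier (by norm_num), wl_tier (by norm_num)])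
      fun p => by rw [← mul_assoc, ← mul_assoc, k2]
    simpa using this
  have S3 : Sub ∅ 1 ({cfc (rp (1 / 16) 4) Γ} + {cfc (wl 2) c'}) {cfc (wl 2) c} := by
    have o1 : cfc (wl 1) c' * cfc (rp (1 / 16) 3) Γ = 0 :=
      cfc_mul_eq_zero a1.1.isSelfAdjoint (a2 _ (rp_tier (by norm_num) Γ)) (wl_cont _) (wl_zero _)
    have o2 := mul_comm_of_sa .cfc .cfc (.zero _) o1
    refine ⟨Bool, Unit, _, _, (cond · (cfc (rp (1 / 16) 4) Γ) (cfc (wl 2) c')), fun _ => _,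
      fun _ b => cond b (cfc (rp (1 / 16) 3) Γ) (cfc (wl 1) c'),
      by rw [map_univ_eq_sum, Fintype.sum_bool]; rfl, map_univ_unit _, fun _ _ => mem_Cn_empty _,
      fun b => ?_, fun b b' hb => ?_, fun _ b => ?_⟩
    · cases b <;> simp only [cond, Finset.univ_unique, Finset.sum_singleton, one_mul, mul_assoc,
        IsSelfAdjoint.cfc.star_eq]
      · rw [wl_tier one_lt_two, wl_tier one_lt_two]
      · rw [rp_tier (by norm_num), rp_tier (by norm_num)]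
    · cases b <;> cases b' <;> simp only [cond, Finset.univ_unique, Finset.sum_singleton,
        IsSelfAdjoint.cfc.star_eq, o1, o2, zero_mul] <;> exact (hb rfl).elim
    · cases b
      exacts [a1.wall c0 (wl_cont _) (wl_zero _) (wl_one _), G2 3]
  have T1 := a3.nsmul m
  rw [smul_add] at T1
  have T2 := T1.trans he ((S2.nsmul m).add S1)
  have T3 := S3.nsmul (m * (N * (4 * m)))
  rw [smul_add] at T3
  rw [smul_smul, add_comm] at T2
  rw [add_smul, add_smul]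
  exact T2.cut he T3

end

variable {J : Type*} {A : Type u} [NonUnitalCStarAlgebra J] [PartialOrder J] [StarOrderedRing J]
  [CStarAlgebra A] [PartialOrder A] [StarOrderedRing A] {j : J →⋆ₙₐ[ℂ] A} {N : ℕ}

lemma gen_wall {c Y : A} (c0 : 0 ≤ c) (hY : Bub Y) (h : Gen (c - c * c) Y) (m : ℕ) :
    Gen (cfc (wl m) c) (cfc (rp (1 / 8) 3) Y) := fun p hp => by
  rw [hom_cfc _ (wl_cont _) c0.isSelfAdjoint]
  exact cfc_idem (hom_nonneg _ c0).isSelfAdjoint (by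
    rw [← map_mul, ← map_sub]
    exact h p ((hY.tiers (δ := 1 / 8) (m := 3) (by norm_num) (by norm_num)).2.1 p hp))
    (wl_cont _) (wl_zero _) (wl_one _)

theorem TD.gain (hT : TD j) (hj : Idl j) (hA : ApA A N) : ∃ b : ℕ,
    ∀ c : A, (∃ b, j b = c) → 0 ≤ c → ∃ c' ∈ Iw j, Btw (dg c) c' ∧
      Sub ∅ 1 ((b + 1) • {cfc (wl 2) c'}) (b • {cfc (wl 2) (dg c)}) := by
  classical
  refine ⟨N + (N + 1) * (N * (4 * (N + 1))), fun c hc c0 => ?_⟩
  have cs := c0.isSelfAdjoint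
  obtain ⟨c₁, Y, h1, h2, h3, h4⟩ := hT.oa hj hc c0 (2 * (N + 1))
  have s1 := h1.1.isSelfAdjoint
  have ys : ∀ l, IsSelfAdjoint (Y l) := fun l => (h3 l).1.1.isSelfAdjoint
  choose K V V1 V2 using fun l => (gen_wall h1.1 (h3 l).1 (h3 l).2.2.2.2 25).sub (wl_unit 26 c₁).1
    (wl_tier (by norm_num) c₁) (wl_tier (show 26 < 27 by norm_num) c₁)
    (rp_tier (show 2 < 3 by norm_num) (Y l))
  have yy : ∀ m m' l l', l ≠ l' → cfc (rp (1 / 8) m) (Y l) * cfc (rp (1 / 8) m') (Y l') = 0 :=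
    fun m m' l l' hl => rp_orth' (ys l) (ys l') (h4 l l' hl) (rp_cont _ _) (rp_cont _ _)
      (rp_at_zero _ _) (rp_at_zero _ _)
  have wy : ∀ m m' l, cfc (wl m) c₁ * cfc (rp (1 / 8) m') (Y l) = 0 := fun m m' l =>
    rp_orth' s1 (ys l) (h3 l).2.2.2.1 (wl_cont _) (rp_cont _ _) (wl_zero _) (rp_at_zero _ _)
  obtain ⟨R, hR⟩ : ∃ R, R = cfc (wl 25) c₁ + ∑ l, cfc (rp (1 / 8) 0) (Y l) := ⟨_, rfl⟩
  have Rs : IsSelfAdjoint R :=
    (hR ▸ add_nonneg (wl_unit _ _).1 (Finset.sum_nonneg fun l _ => (rp_unit _ _ _).1) :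
      0 ≤ R).isSelfAdjoint
  have R1 : R * cfc (wl 27) c₁ = cfc (wl 27) c₁ := by
    rw [hR, add_mul, wl_tier (by norm_num), Finset.sum_mul, Finset.sum_eq_zero fun l _ =>
      mul_comm_of_sa .cfc .cfc (.zero _) (wy 27 0 l), add_zero]
  have R2 : ∀ l, R * cfc (rp (1 / 8) 1) (Y l) = cfc (rp (1 / 8) 1) (Y l) := fun l => by
    rw [hR, add_mul, wy, zero_add, Finset.sum_mul,
      Finset.sum_eq_single l (fun l' _ hl => yy _ _ _ _ hl) (by simp), rp_tier zero_lt_one]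
  have R3 : cfc (wl 2) c * R = R := by
    rw [hR, mul_add, h1.wall cs (wl_cont _) (wl_zero _) (wl_one _), Finset.mul_sum]
    exact congrArg _ (Finset.sum_congr rfl fun l _ =>
      unit_cfc (ys l) (h3 l).2.2.1 (rp_cont _ _) (rp_at_zero _ _))
  have r1 : rp (1 / 2) 1 1 = 1 := rp_one (by norm_num) (by norm_num)
  have u1 : ∀ {a : A}, a ≤ 1 → (dg a : UA A) ≤ 1 := fun h => by simpa using hom_mono dg h
  obtain ⟨e, γ, ξ, -, -, e1, e2, e3, -, e4, e5⟩ := Ap.ndiv hA (fun _ => N + 1) (fun _ => N.succ_pos)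
    (ι := Fin (2 * (N + 1))) (fun _ => by simp) (x := dg (cfc (wl 27) c₁))
    (X := dg (cfc (rp (1 / 2) 1) R)) (hom_nonneg _ (wl_unit _ _).1) (u1 (wl_unit _ _).2)
    (hom_nonneg _ (rp_unit _ _ _).1) (u1 (rp_unit _ _ _).2)
    (by rw [← map_mul, cfc_mul_eq_self Rs R1 (rp_cont _ _) r1])
    (fun l => dg (cfc (rp (1 / 8) 2) (Y l))) (fun l => dg (cfc (rp (1 / 8) 1) (Y l)))
    (fun l => hom_nonneg _ (rp_unit _ _ _).1) (fun l => u1 (rp_unit _ _ _).2)
    (fun l => by rw [← map_star, IsSelfAdjoint.cfc.star_eq])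
    (fun l => by rw [← map_mul, rp_tier one_lt_two])
    (fun l l' hl => by rw [← map_mul, yy _ _ _ _ hl, map_zero])
    (fun l => by rw [← map_mul, cfc_mul_eq_self Rs (R2 l) (rp_cont _ _) r1]) K
    (fun l k => dg (V l k))
    (fun l => by simp only [← map_star, ← map_mul, ← map_sum, V1])
    (fun l k => by rw [← map_mul, V2])
  have e6 := e5 (1 - cfc (wl 2) (dg c)) (kill_of_unit (by
    rw [← hom_cfc dg (wl_cont _) cs, ← map_mul, unit_cfc Rs R3 (rp_cont _ _) (rp_at_zero _ _)]))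
  obtain ⟨s, c', a1, a2, a3⟩ := gain_alg (cs.map dg) (h1.hom dg cs) N.succ_pos e γ ξ e1 e2 e3
    (e4 _ (by rw [← hom_cfc dg (wl_cont _) s1, ← map_mul, wl_tier (by norm_num)]))
    fun i l => ⟨unit_of_kill (e6 i l).1, unit_of_kill (e6 i l).2⟩
  refine ⟨c', ?_, a1, by rwa [add_right_comm]⟩
  obtain ⟨b, hb⟩ := hj.cfc_mem h2 (rp_cont (1 / 64) 31) (rp_at_zero _ _)
  rw [a2, ← hom_cfc dg (rp_cont _ _) s1, ← hb]
  exact hj.Iw_both _ _ (dg_mem_Iw b)

lemma Idl.pos_lift (hj : Idl j) {x : UA A} (hx : x ∈ Iw j) (x0 : 0 ≤ x) :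
    ∃ w ∈ Lf j, 0 ≤ w ∧ Ult.mk w = x := by
  obtain ⟨w, w1, rfl⟩ := mem_Iw.1 hx
  refine ⟨sq (star w * w), sq_mem hj.isClosed_Lf (mul_mem (star_mem w1) w1), sq_nonneg' _, ?_⟩
  rw [hom_sq _ (star_mul_self_nonneg w), map_mul, map_star, x0.star_eq, ← pow_two,
    ← mul_one 2, sq_pow x0, pow_one]

lemma Btw.clo : Clo fun g : UA A × UA A => Btw g.1 g.2 := by
  haveI : Fact (Continuous (rp (1 / 64) 2)) := ⟨rp_cont _ _⟩
  haveI : Fact (Continuous (rp (1 / 64) 61)) := ⟨rp_cont _ _⟩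
  unfold Btw; infer_instance

theorem TD.iter (hT : TD j) (hj : Idl j) (hA : ApA A N) : ∃ b : ℕ, ∀ (s : ℕ) (c : A),
    (∃ b, j b = c) → 0 ≤ c → ∃ c', ‖c'‖ ≤ 1 ∧ Btw (dg c) c' ∧
      Sub ∅ 1 ((b + 1) ^ (s + 1) • {cf (wl 2) c'}) (b ^ (s + 1) • {cf (wl 2) (dg c)}) := by
  obtain ⟨b, hb⟩ := hT.gain hj hA
  refine ⟨b, fun s => ?_⟩
  induction s with
  | zero =>
    intro c hc c0
    obtain ⟨c', -, h1, h2⟩ := hb c hc c0
    exact ⟨c', norm_le_one_of h1.1 h1.2.1, h1, by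
      rwa [zero_add, pow_one, pow_one, cf_eq _ h1.1.isSelfAdjoint,
        cf_eq _ (c0.isSelfAdjoint.map dg)]⟩
  | succ s ih =>
    intro c hc c0
    obtain ⟨c₁, h0, h1, h2⟩ := hb c hc c0
    obtain ⟨w, w1, w2, rfl⟩ := hj.pos_lift h0 h1.1
    haveI : Fact (Continuous (wl 2)) := ⟨wl_cont _⟩
    haveI : Clo fun p : UA A × UA A => Btw p.1 p.2 := Btw.clo
    haveI : Clo fun p : UA A × UA A => Sub ∅ 1 ((b + 1) ^ (s + 1) • {cf (wl 2) p.2})
      (b ^ (s + 1) • {cf (wl 2) p.1}) := Clo.sub _ _ _ _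
    obtain ⟨c', a0, a1, a2⟩ := transfer (fun x : UA A => ∃ c', ‖c'‖ ≤ 1 ∧ Btw x c' ∧
      Sub ∅ 1 ((b + 1) ^ (s + 1) • {cf (wl 2) c'}) (b ^ (s + 1) • {cf (wl 2) x})) (Stage.mk w)
      (Eventually.of_forall fun k => ih _ (w1 k) (hom_nonneg _ w2))
    refine ⟨c', a0, h1.trans a1, ?_⟩
    have t1 := a2.nsmul (b + 1)
    have t2 := h2.nsmul (b ^ (s + 1))
    rw [smul_smul, smul_smul, ← pow_succ'] at t1
    rw [smul_smul, smul_smul, ← pow_succ, mul_comm, ← cf_eq _ h1.1.isSelfAdjoint,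
      ← cf_eq _ (c0.isSelfAdjoint.map dg)] at t2
    exact t1.trans (fun x _ => .one_right x) t2

lemma exists_pow_ge (b K : ℕ) : ∃ s, 2 * (b ^ (s + 1) * K) ≤ (b + 1) ^ (s + 1) := by
  refine ⟨2 * K * b, ?_⟩
  have h : ∀ n : ℕ, b ^ (n + 1) + (n + 1) * b ^ n ≤ (b + 1) ^ (n + 1) := fun n => by
    induction n with
    | zero => simp
    | succ n ih =>
      calc _ ≤ (b ^ (n + 1) + (n + 1) * b ^ n) * (b + 1) := by ring_nf; omega
        _ ≤ _ := by rw [pow_succ (b + 1) (n + 1)]; exact Nat.mul_le_mul_right _ ih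
  refine le_trans ?_ (h _)
  rw [pow_succ]
  generalize b ^ (2 * K * b) = q
  nlinarith [Nat.zero_le (q * b), Nat.zero_le q]

theorem TD.sb0 (hT : TD j) (hj : Idl j) (hA : ApA A N) {c : A} (hc : ∃ b, j b = c) (c0 : 0 ≤ c)
    (M : ℕ) : ∃ (c' : UA A) (V : Fin M → UA A), Btw (dg c) c' ∧ Cop c' (cfc (wl 4) c') V ∧
      ∀ k, ‖V k‖ ≤ 1 ∧ cfc (wl 2) (dg c) * V k = V k ∧ V k * cfc (wl 2) (dg c) = V k := by
  classical
  have cs := c0.isSelfAdjoint
  obtain ⟨b, hb⟩ := hT.iter hj hA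
  obtain ⟨c₁, Y, h1, h2, h3, h4⟩ := hT.oa hj hc c0 (M * N)
  have s1 := h1.1.isSelfAdjoint
  have ys : ∀ l, IsSelfAdjoint (Y l) := fun l => (h3 l).1.1.isSelfAdjoint
  choose K U U1 U2 using fun l => (gen_wall h1.1 (h3 l).1 (h3 l).2.2.2.2 0).sub (wl_unit 1 c₁).1
    (wl_tier zero_lt_one c₁) (wl_tier one_lt_two c₁) (rp_tier (show 2 < 3 by norm_num) (Y l))
  obtain ⟨s, hs⟩ := exists_pow_ge b (∑ l, K l)
  obtain ⟨c', -, a1, a2⟩ := hb s c₁ h2 h1.1
  have a3 := (h1.hom dg cs).trans a1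
  have s' := a1.1.isSelfAdjoint
  rw [cf_eq _ s', cf_eq _ (s1.map dg), ← hom_cfc dg (wl_cont _) s1] at a2
  have u1 : ∀ {a : A}, a ≤ 1 → (dg a : UA A) ≤ 1 := fun h => by simpa using hom_mono dg h
  choose v v1 v2 v3 using fun k : Fin M => hA.cmp2 (wl_unit 2 c').1 (wl_unit 2 c').2
    (fun i => dg (cfc (rp (1 / 8) 2) (Y (finProdFinEquiv (k, i)))))
    (fun i => hom_nonneg _ (rp_unit _ _ _).1) (fun i => u1 (rp_unit _ _ _).2) (by positivity) hs
    fun i => by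
      have := (Sub.pieces (S := ∅) (e := 1) (U (finProdFinEquiv (k, i))) (fun _ => mem_Cn_empty _)
        (by rw [one_mul, U1]) (U2 _)).hom dg
      simp only [Multiset.map_singleton, Multiset.map_nsmul, Fintype.card_fin] at this
      have := (this.mono le_rfl (nsmul_le_nsmul_left (Multiset.zero_le _)
        (Finset.single_le_sum (fun _ _ => Nat.zero_le _) (Finset.mem_univ _)))).nsmul (b ^ (s + 1))
      rw [smul_smul] at this
      exact a2.trans (fun x _ => .one_right x) this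
  obtain ⟨y, hy⟩ : ∃ y : Fin M → Fin N → UA A, ∀ k i,
    y k i = dg (cfc (rp (1 / 8) 1) (Y (finProdFinEquiv (k, i)))) := ⟨_, fun _ _ => rfl⟩
  have y0 : ∀ k i, IsSelfAdjoint (y k i) := fun k i => hy k i ▸ IsSelfAdjoint.cfc.map dg
  have y1 : ∀ k i, y k i * v k i = v k i := fun k i => unit_of_kill (v3 k i _ (kill_of_unit (by
    rw [hy, ← map_mul, rp_tier one_lt_two])))
  have y2 : ∀ k i k' i', (k, i) ≠ (k', i') → y k i * y k' i' = 0 := fun k i k' i' h => by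
    rw [hy, hy, ← map_mul, rp_orth' (ys _) (ys _) (h4 _ _ (finProdFinEquiv.injective.ne h))
      (rp_cont _ _) (rp_cont _ _) (rp_at_zero _ _) (rp_at_zero _ _), map_zero]
  have y3 := fun k => sum_pieces (v k) (y k) (y0 k) (y1 k) fun i i' hi =>
    y2 _ _ _ _ fun h => hi (congrArg Prod.snd h)
  refine ⟨c', fun k => (∑ i, v k i) * cfc (wl 3) c', a3, fun k => ⟨?_, fun k' => ?_⟩,
    fun k => ⟨?_, ?_, ?_⟩⟩
  · rw [← mul_assoc, Finset.mul_sum, Finset.sum_eq_zero fun i _ => ?_, zero_mul]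
    rw [← y1, ← mul_assoc, a1.kill (s1.map dg), zero_mul]
    rw [hy, ← map_mul, mul_cfc_eq_zero (ys _) (h3 _).2.2.2.1 (rp_cont _ _) (rp_at_zero _ _),
      map_zero]
  · rw [star_mul, IsSelfAdjoint.cfc.star_eq, mul_assoc, mul_assoc, mul_assoc,
      wl_tier (by norm_num), ← mul_assoc (star _)]
    split_ifs with hk
    · rw [← hk, y3, v2 _ _ (wl_tier (by norm_num) c'), wl_tier (by norm_num)]
    · rw [star_sum, Finset.sum_mul_sum, Finset.sum_eq_zero fun i _ => Finset.sum_eq_zero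
        fun i' _ => ?_, zero_mul, mul_zero]
      rw [← y1 k i, ← y1 k' i', star_mul, (y0 _ _).star_eq, mul_assoc, ← mul_assoc (y k i),
        y2 _ _ _ _ fun h => hk (congrArg Prod.fst h), zero_mul, mul_zero]
  · exact (norm_mul_le _ _).trans (mul_le_one₀ (norm_le_one_of_star_mul (y3 k ▸ v1 k))
      (norm_nonneg _) (norm_le_one_of (wl_unit _ _).1 (wl_unit _ _).2))
  · rw [← mul_assoc, Finset.mul_sum]
    refine congrArg (· * _) (Finset.sum_congr rfl fun i _ => ?_)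
    rw [← y1, ← mul_assoc, hy, ← hom_cfc dg (wl_cont _) cs, ← map_mul,
      unit_cfc (ys _) (h3 _).2.2.1 (rp_cont _ _) (rp_at_zero _ _)]
  · rw [mul_assoc, mul_comm_of_sa .cfc .cfc .cfc
      (a3.wall (cs.map dg) (wl_cont 3) (wl_zero _) (wl_one _))]

end Pool.Agent.Lib.MP_30b5b4_an
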