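import Pool.Agent.Lib.MP_30b5b4_an.L.Defs

/-! Thin walls and rich corners: internal definitions. -/

open scoped CStarAlgebra ComplexOrder Topology
open Filter

set_option linter.unusedSectionVars false
set_option linter.style.haveILetI false
set_option linter.unusedVariables false
set_option linter.unusedSimpArgs false
set_option synthInstance.maxSize 1000000

namespace Pool.Agent.Lib.MP_30b5b4_an

universe u v

noncomputable def tent (t : ℝ) : ℝ := cl (min (2 * t) (2 - 2 * t))

@[fun_prop] lemma tent_cont : Continuous tent := by unfold tent; fun_prop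

/-- tiers of the wall of a cut -/
noncomputable def wl (m : ℕ) (t : ℝ) : ℝ := rp (1 / 32) m (tent t)

@[fun_prop] lemma wl_cont (m : ℕ) : Continuous (wl m) := by unfold wl; fun_prop

section
variable {B : Type u} [CStarAlgebra B] [PartialOrder B] [StarOrderedRing B]

/-- the cut `c'` lies between the low and the high cut of `c` -/
def Btw (c c' : B) : Prop :=
  0 ≤ c' ∧ c' ≤ 1 ∧ cf (rp (1 / 64) 2) c * c' = c' ∧
    c' * cf (rp (1 / 64) 61) c = cf (rp (1 / 64) 61) c

/-- `L` orthogonal nonzero elements under `u` -/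
def Rich (L : ℕ) (u : B) : Prop :=
  ∃ y : Fin L → B, (∀ l, 0 ≤ y l ∧ y l ≠ 0 ∧ u * y l = y l) ∧ ∀ l l', l ≠ l' → y l * y l' = 0

/-- orthogonal copies of the support of `x`, away from `ζ` -/
def Cop {M : ℕ} (ζ x : B) (V : Fin M → B) : Prop :=
  ∀ k, ζ * V k = 0 ∧ ∀ k', star (V k) * V k' * x = if k = k' then x else 0

end

variable {A : Type u} [CStarAlgebra A] [PartialOrder A] [StarOrderedRing A]

/-- steps of a colour whose walls have `M` central copies -/
def SBQ (δ θ : ℝ) (d : ℕ → CA A) {m M : ℕ} (C : Fin m → UA A) (V : Fin M → UA A) : Prop :=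
  (∀ l : Fin m, 0 ≤ C l ∧ C l ≤ 1 ∧ cf (rp θ (2 * l)) (uφ d 1) * C l = C l ∧
    C l * cf (rp θ (2 * l + 2)) (uφ d 1) = cf (rp θ (2 * l + 2)) (uφ d 1) ∧
    ∀ y, Commute (C l) (cf (Gf δ) (uφ d 1) * uφ d y)) ∧
  (∀ k y, Commute (V k) (cf (Gf δ) (uφ d 1) * uφ d y)) ∧
  Cop (∑ l, cf tent (C l)) (cf (rp (1 / 32) 4) (∑ l, cf tent (C l))) V

end Pool.Agent.Lib.MP_30b5b4_an
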