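import Pool.Agent.Lib.MP_30b5b4_an.C.Step2
import Pool.Agent.Lib.MP_30b5b4_an.C.Room
import Pool.Agent.Lib.MP_30b5b4_an.C.Fine

/-! One step for constant old data. -/

open scoped CStarAlgebra ComplexOrder Topology
open Filter

set_option linter.unusedSectionVars false
set_option linter.style.haveILetI false
set_option linter.unusedVariables false
set_option linter.unusedSimpArgs false
set_option synthInstance.maxSize 1000000

namespace Pool.Agent.Lib.MP_30b5b4_an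

universe u v

variable {I J G : Type*} {A : Type u} {A' : Type v} [NonUnitalCStarAlgebra I] [PartialOrder I]
  [StarOrderedRing I] [NonUnitalCStarAlgebra J] [PartialOrder J] [StarOrderedRing J]
  [NonUnitalCStarAlgebra G] [PartialOrder G] [StarOrderedRing G]
  [CStarAlgebra A] [PartialOrder A] [StarOrderedRing A] [CStarAlgebra A'] [PartialOrder A']
  [StarOrderedRing A'] {j : I →⋆ₙₐ[ℂ] A} {jJ : J →⋆ₙₐ[ℂ] A} {jG : G →⋆ₙₐ[ℂ] A} {N N' : ℕ}

theorem TD.stepP (hT : TD j) (hj : Idl j) (hI : Ap j N False) (hA : ApA A N') (hN : 2 ≤ N)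
    {σ ι : Type} [Finite σ] [Fintype ι] {M : ℕ} (hM : 0 < M) {δ θ : ℝ} (hδ : 0 < δ)
    (hθ : θ ≤ 1 / 2) (S : σ → A) (S0 : ∀ l, IsSelfAdjoint (S l)) (S1 : ∀ l, ‖S l‖ ≤ 1)
    (f : ι → CA A) (hf : Tol δ θ S f) (U : ∀ l, MU (f l).F) :
    ∃ L : ℕ, ∀ (J G : Type u) [NonUnitalCStarAlgebra J] [PartialOrder J] [StarOrderedRing J]
      [NonUnitalCStarAlgebra G] [PartialOrder G] [StarOrderedRing G] (jJ : J →⋆ₙₐ[ℂ] A)
      (jG : G →⋆ₙₐ[ℂ] A), Idl jJ → Idl jG → (∀ c, ∃ b, j b = jJ c) → (∀ c, ∃ b, j b = jG c) →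
      (∀ l b, Poor jJ jG L (cfc (rp δ 1) ((U l).blk (f l).φ b)) ∨
        Plenty jJ jG L (cfc (rp δ 1) ((U l).blk (f l).φ b))) →
      ∀ c : ℝ, 0 < c → ∀ r : A, (∃ x, jJ x = r) → 0 ≤ r →
      ∀ (g : Fin 5 → Fin N → A) (W : Fin N × Fin M × ι → A) (d : Fin N → CA A),
        StepP jG N M θ c (fun l => dg (S l)) (zfam (fun l => dg (S l)) fun l _ => f l)
          (fun l => cf (rp δ 4) (uφ (fun _ => f l) 1))
          (fun l => cf (rp δ 2) (PT (fun _ => f l) δ 1))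
          (fun l (o : Option σ) => PT (fun _ => f l) δ (o.elim 1 fun l => dg (S l)))
          (dg (cfc (rp (1 / 4) 1) r)) (fun i => dg (g 0 i)) (fun i => dg (g 1 i))
          (fun i => dg (g 2 i)) (fun i => dg (g 3 i)) (fun i => dg (g 4 i)) (fun q => dg (W q))
          fun i l => dg ((d i).T (S l)) := by
  classical
  let β := Σ l, Fin (U l).N
  let X := β × Fin N × (Fin M × Fin (M + 1)) × Fin N'
  let D : ℕ → β → A := blkF U (fun l => (f l).φ) δ
  refine ⟨2 * Fintype.card X * Fintype.card (β × β) + 1, ?_⟩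
  intro J G _ _ _ _ _ _ jJ jG hJ hG h1 h2 h3 c hc r r1 r0 g W d
  set L := 2 * Fintype.card X * Fintype.card (β × β) + 1 with hL
  have D0 : ∀ m b, dg (D m b) = blkF U (fun l => cφ (f l)) δ m b := fun m b =>
    hom_cfc dg (rp_cont _ _) (MU.blk_nonneg (f b.1).oz b.2).isSelfAdjoint
  obtain ⟨v, v0, v1, v2⟩ := hT r (by obtain ⟨x, rfl⟩ := r1; exact (h1 x)) r0 (1 / 4) (by norm_num)
  have v3 : ∃ x, jJ x = v := v1.mem hJ r1
  have v4 : ∃ x, j x = v := by obtain ⟨x, rfl⟩ := v3; exact h1 x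
  have v5 : Gen (cfc (rp (1 / 4) 1) r) v := fun p hp =>
    (p.rp_eq_zero (by norm_num) 1 r0).2 (by
      rw [Nat.cast_one, one_mul]; exact (not_le.1 fun h => v2 p h hp).le)
  obtain ⟨Y1, y1, y2, y3⟩ := hT.roomsM hj hG h2 (X := {x : X // ¬ Poor jJ jG L (D 1 x.1)})
    (fun x => D 1 x.1.1) (fun b : β × β => star (piM (f b.1.1).φ δ ((U b.1.1).v b.1.2)) *
      piM (f b.2.1).φ δ ((U b.2.1).v b.2.2)) (L := L) (Nat.lt_succ_of_le (by
        gcongr; exact Fintype.card_subtype_le _)) v0 v4 fun p hp g1 g2 x =>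
      (h3 x.1.1.1 x.1.1.2).resolve_left x.2 p hp g1 (by
        obtain ⟨e, he⟩ := v3; exact ⟨e, he ▸ g2⟩)
  obtain ⟨Y, z1, z2, z3, z4⟩ : ∃ Y : X → BA A, (∀ x k, Bub (Bdd.ev k (Y x)) ∧
      Gen (Bdd.ev k (Y x)) v) ∧ (∀ x k, ¬ Poor jJ jG L (D 1 x.1) → GenM jG v (Bdd.ev k (Y x))) ∧
      (∀ x, dg (D 1 x.1) * Ult.mk (Y x) = Ult.mk (Y x)) ∧ ∀ x x' (b b' : β), x ≠ x' →
        Ult.mk (Y x) * dg (star (piM (f b.1).φ δ ((U b.1).v b.2)) *
          piM (f b'.1).φ δ ((U b'.1).v b'.2)) * Ult.mk (Y x') = 0 := by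
    refine ⟨fun x => if h : ¬ Poor jJ jG L (D 1 x.1) then Y1 ⟨x, h⟩ else 0, fun x k => ?_,
      fun x k h => ?_, fun x => ?_, fun x x' b b' hx => ?_⟩ <;> beta_reduce
    · split_ifs with h
      · exact ⟨by rw [map_zero]; exact Bub.zero, fun p _ => by rw [map_zero, map_zero]⟩
      · exact ⟨(y1 _ k).1, (y1 _ k).2.2.1⟩
    · rw [dif_pos h]; exact (y1 _ k).2.2.2
    · split_ifs with h
      · rw [map_zero, mul_zero]
      · exact y2 ⟨x, h⟩
    · split_ifs with h h'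
      · rw [map_zero, mul_zero]
      · rw [map_zero, zero_mul, zero_mul]
      · rw [map_zero, mul_zero]
      · exact y3 _ _ (b, b') fun e => hx (congrArg Subtype.val e)
  let g' := Sum.elim (fun x : Fin 5 × Fin N => g x.1 x.2) W
  let τ := σ ⊕ (Σ l, Fin (Module.finrank ℂ (f l).F)) ⊕ (Σ i, Fin (Module.finrank ℂ (d i).F)) ⊕
    ((Fin 5 × Fin N) ⊕ (Fin N × Fin M × ι))
  let T0 : τ → A := Sum.elim S (Sum.elim
    (fun p => (f p.1).φ (Module.finBasis ℂ _ p.2)) (Sum.elim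
      (fun p => (d p.1).φ (Module.finBasis ℂ _ p.2)) g'))
  have key : ∀ Q : StarSubalgebra ℂ (UA A), (∀ x, dg (T0 x) ∈ Q) → Base S f d g' Q := fun Q h =>
    ⟨fun l => h (.inl l), fun i => mem_of_basis (cφ (f i)) fun l => h (.inr (.inl ⟨i, l⟩)),
      fun i => mem_of_basis (cφ (d i)) fun l => h (.inr (.inr (.inl ⟨i, l⟩))),
      fun x => h (.inr (.inr (.inr x)))⟩
  obtain ⟨t, t0, t1, t2, t3, t4⟩ := tierG (fun _ => v) (fun x => dg (T0 x))
    (fun o : Option X => o.elim (cst (cfc (rp (1 / 4) 1) r)) Y) fun o k => by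
      cases o
      exacts [v5, (z1 _ k).2]
  obtain ⟨R, hR⟩ : ∃ R : ℕ, (8 + 2 * N) / c ≤ R := exists_nat_ge _
  have R1 : (8 + 2 * N) * ms R ≤ c := by
    rw [ms, mul_one_div, div_le_comm₀ (by positivity) hc]
    linarith [(Nat.cast_nonneg R : (0 : ℝ) ≤ R)]
  have R2 := ms_pos R
  have R3 : (0 : ℝ) ≤ N * (2 * ms R) := by positivity
  let T : Option (τ ⊕ X) → BA A := fun o => o.elim t (Sum.elim (fun x => cst (T0 x)) Y)
  have a0 : ∀ k, Bdd.ev k (cfc (rp (1 / 16) 1) t) = cfc (rp (1 / 16) 1) (Bdd.ev k t) := fun k =>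
    hom_cfc _ (rp_cont _ _) t0.isSelfAdjoint
  have a1 : ∀ k, Gen (Bdd.ev k (cfc (rp (1 / 16) 1) t)) v := fun k => by
    rw [a0]
    exact (Gen.of_cfc (t0.isSelfAdjoint.map _) (rp_cont _ _) (rp_at_zero _ _)).trans (t2 k)
  haveI := Fine.clo (τ := Option (τ ⊕ X)) (β := β) (P := Fin M × Fin (M + 1)) jG N N' R
  have hF := transfer (fun x : ((Option (τ ⊕ X) → UA A) × UA A) × (β → UA A) × (X → UA A) =>
      Fine jG N N' R x.1.1 x.1.2 x.2.1 x.2.2)
    (((Stage.pi fun o => Stage.mk (T o)).prod (Stage.mk (cfc (rp (1 / 16) 1) t))).prod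
      ((Stage.pi fun b => Stage.mk (cst (D 3 b) * cfc (rp (1 / 16) 1) t * cst (D 3 b))).prod
        (Stage.pi fun x => Stage.mk (Y x)))) (Eventually.of_forall fun k =>
      hT.fine hj hI hA hJ hG h1 (fun o => Bdd.ev k (T o)) ((a1 k).mem hj v4)
        (a0 k ▸ norm_le_one_of (rp_unit _ _ _).1 (rp_unit _ _ _).2) (D 1) (D 2) _
        (fun x => Bdd.ev k (Y x)) L R (fun b => by
          simp only [map_mul, ev_cst]
          obtain ⟨e, he⟩ := (a1 k).mem hJ v3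
          refine ⟨he ▸ hJ.both _ _ e, ?_, rp_tier one_lt_two _, (rp_unit _ _ _).1, ?_⟩
          · have e3 : star (D 3 b) = D 3 b := IsSelfAdjoint.cfc.star_eq
            simpa only [e3] using star_left_conjugate_nonneg
              (hom_nonneg (Bdd.ev k) (rp_unit (1 / 16) 1 t).1) (D 3 b)
          · rw [← mul_assoc, ← mul_assoc, show D 2 b * D 3 b = D 3 b from rp_tier (by norm_num) _])
        fun b => or_iff_not_imp_left.2 fun h i q s => ⟨(z1 _ k).1, fun p p1 p2 p3 => by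
          simp only [map_mul]
          rw [a1 k p (z2 (b, i, q, s) k h p p1 p2 p3), mul_zero, zero_mul]⟩)
  simp only [map_mul, ← dg_apply, D0, hom_cfc Ult.mk (rp_cont _ _) t0.isSelfAdjoint] at hF
  exact step_core (Y := fun x => Ult.mk (Y x)) hN hM hδ hθ (by linarith) (by linarith) S1 hf U (hom_nonneg _ t0)
    (by simpa using hom_mono Ult.mk t1) (t4 none)
    (fun x => (hom_nonneg _ (Bdd.nonneg fun k => (z1 x k).1.1)).isSelfAdjoint)
    (fun x => t4 (some x)) (fun x => D0 1 x.1 ▸ z3 x) (fun x x' b b' hx => by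
      simpa only [map_mul, map_star, dg_piM _ hδ] using z4 x x' b b' hx)
    (key _ (Cn_swap t3)) (fun Q h => ⟨h none, fun x => h (some (.inr x)),
      key Q fun x => h (some (.inl x))⟩) hF

end Pool.Agent.Lib.MP_30b5b4_an
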