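import Pool.Agent.Lib.MP_30b5b4_an.C.Merge
import Pool.Agent.Lib.MP_30b5b4_an.C.Step1
import Pool.Agent.Lib.MP_30b5b4_an.C.Tol
import Pool.Agent.Lib.MP_30b5b4_an.C.Pc

/-! The objects of one step, from fine colours and rooms. -/

open scoped CStarAlgebra ComplexOrder Topology
open Filter

set_option linter.unusedSectionVars false
set_option linter.style.haveILetI false
set_option linter.unusedVariables false
set_option linter.unusedSimpArgs false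
set_option synthInstance.maxSize 1000000

namespace Pool.Agent.Lib.MP_30b5b4_an

universe u v

variable {G : Type*} {A : Type u} [NonUnitalCStarAlgebra G] [PartialOrder G] [StarOrderedRing G]
  [CStarAlgebra A] [PartialOrder A] [StarOrderedRing A] {jG : G →⋆ₙₐ[ℂ] A} {N N' : ℕ}

/-- the old data lie in `Q` -/
def Base {σ ι κ : Type} (S : σ → A) (f : ι → CA A) (d : Fin N → CA A) (g : κ → A)
    (Q : StarSubalgebra ℂ (UA A)) : Prop :=
  (∀ l, dg (S l) ∈ Q) ∧ (∀ l y, cφ (f l) y ∈ Q) ∧ (∀ i y, cφ (d i) y ∈ Q) ∧ ∀ x, dg (g x) ∈ Q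

lemma Base.z {σ ι κ : Type} {S : σ → A} {f : ι → CA A} {d : Fin N → CA A} {g : κ → A}
    {Q : StarSubalgebra ℂ (UA A)} (h : Base S f d g Q) (x) :
    zfam (fun l => dg (S l)) (fun l _ => f l) x ∈ Q := by
  obtain ⟨o, _ | l, _ | _⟩ := x
  · cases o
    exacts [one_mem _, h.1 _]
  · cases o
    exacts [one_mem _, h.1 _]
  · change uφ (fun _ => f l) 1 ∈ Q
    rw [uφ_const_one]; exact h.2.1 l 1
  · change uT (fun _ => f l) _ ∈ Q
    cases o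
    · rw [Option.elim, ← map_one dg, uT_const]; exact h.2.1 l _
    · rw [Option.elim, uT_const]; exact h.2.1 l _

lemma Base.pi {σ ι κ : Type} {S : σ → A} {f : ι → CA A} {d : Fin N → CA A} {g : κ → A}
    {Q : StarSubalgebra ℂ (UA A)} (h : Base S f d g Q) (hQ : IsClosed (Q : Set (UA A))) {δ : ℝ}
    (hδ : 0 < δ) (l : ι) : (∀ y, piM (cφ (f l)) δ y ∈ Q) ∧ dg (fd δ (f l)) ∈ Q ∧
      ∀ s, dg (pv δ (f l) s) ∈ Q := by
  have e : ∀ y, piM (cφ (f l)) δ y ∈ Q := fun y =>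
    mul_mem (cfc_mem_cl hQ _ (h.2.1 l 1)) (h.2.1 l y)
  refine ⟨e, by rw [dg_fd _ hδ]; exact cfc_mem_cl hQ _ (e _), fun s => ?_⟩
  rw [pv, map_mul, map_mul, hom_cfc dg (gq_cont hδ) (piM_one_sa _ δ), dg_piM _ hδ, dg_piM _ hδ]
  exact mul_mem (mul_mem (cfc_mem_cl hQ _ (e _)) (e _)) (cfc_mem_cl hQ _ (e _))

/-- the error term of the merged colour -/
lemma err_alg {B : Type u} [CStarAlgebra B] [PartialOrder B] [StarOrderedRing B] {t P k s : B}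
    (t0 : IsSelfAdjoint t) (P0 : 0 ≤ P) (P1 : P ≤ 1) (tP : t * P = P) (ts : Commute t s)
    (tk : Commute t k) (k1 : ‖k‖ ≤ 1) {θ : ℝ} (h : ‖sq (1 - P) * s - s * sq (1 - P)‖ ≤ θ) {y : B}
    (hy : y = sq (cfc (rp (1 / 16) 3) t) * sq (1 - P)) :
    0 ≤ y ∧ cfc (rp (1 / 16) 1) t * y = y ∧ y * y = cfc (rp (1 / 16) 3) t - P ∧
      ‖k * (y * (s * y - y * s))‖ ≤ θ ∧
      cfc (rp (1 / 16) 9) t * (k * (y * (s * y - y * s))) = k * (y * (s * y - y * s)) ∧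
      k * (y * (s * y - y * s)) * cfc (rp (1 / 16) 9) t = k * (y * (s * y - y * s)) := by
  have cP : Commute t P :=
    tP.trans (mul_comm_of_sa t0 P0.isSelfAdjoint P0.isSelfAdjoint tP).symm
  have c1 : ∀ g : ℝ → ℝ, Commute (cfc g t) (sq (1 - P)) := fun g =>
    ((((Commute.one_right t).sub_right cP).cfc_real g).symm.cfc_real _).symm
  have c2 : Commute (sq (cfc (rp (1 / 16) 3) t)) (sq (1 - P)) := (c1 _).cfc_real _
  have c3 : Commute (sq (cfc (rp (1 / 16) 3) t)) s := (ts.cfc_real _).cfc_real _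
  have u : ∀ m : ℕ, (m + 1) * (1 / 16 : ℝ) ≤ 1 → cfc (rp (1 / 16) m) t * P = P := fun m hm =>
    cfc_mul_eq_self t0 tP (rp_cont _ _) (rp_one (by norm_num) hm)
  have n1 := norm_sq_le (rp_unit (1 / 16) 3 t).1 (rp_unit _ _ _).2
  have n2 := norm_sq_le (sub_nonneg.2 P1) (sub_le_self _ P0)
  have e1 : s * y - y * s = sq (cfc (rp (1 / 16) 3) t) * (s * sq (1 - P) - sq (1 - P) * s) := by
    rw [hy, mul_sub, ← mul_assoc, ← mul_assoc, ← mul_assoc, c3.eq]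
  set e := cfc (rp (1 / 16) 9) t with he
  have e2 : (1 - e) * sq (1 - P) = 1 - e :=
    mul_cfc_eq_zero' (sub_nonneg.2 P1).isSelfAdjoint (by
      rw [mul_sub, mul_one, sub_mul, one_mul, u 9 (by norm_num), sub_self, sub_zero])
      Real.continuous_sqrt Real.sqrt_one
  have c4 : Commute e s := ts.cfc_real _
  have e3 : e * (s * sq (1 - P) - sq (1 - P) * s) = s * sq (1 - P) - sq (1 - P) * s := by
    refine unit_of_kill ?_
    rw [mul_sub, ← mul_assoc, ← mul_assoc, e2, ((Commute.one_left s).sub_left c4).eq, mul_assoc, e2,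
      sub_self]
  have c5 : Commute e (sq (cfc (rp (1 / 16) 3) t)) :=
    (((((Commute.refl t).cfc_real _).symm.cfc_real _).symm).cfc_real _).symm
  have c6 : Commute e y := hy ▸ c5.mul_right (c1 _)
  have c7 : Commute e k := tk.cfc_real _
  have e4 : e * (k * (y * (s * y - y * s))) = k * (y * (s * y - y * s)) := by
    rw [← mul_assoc, c7.eq, mul_assoc, ← mul_assoc e, c6.eq, mul_assoc, e1, ← mul_assoc e, c5.eq,
      mul_assoc, e3]
  refine ⟨hy ▸ c2.mul_nonneg (sq_nonneg' _) (sq_nonneg' _), ?_, ?_, ?_, e4, ?_⟩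
  · rw [hy, ← mul_assoc, sq, unit_cfc .cfc (rp_tier (by norm_num) t) Real.continuous_sqrt
      Real.sqrt_zero]
  · rw [hy, c2.symm.mul_mul_mul_comm, sq_mul_sq (rp_unit _ _ _).1, sq_mul_sq (sub_nonneg.2 P1), mul_sub,
      mul_one, u 3 (by norm_num)]
  · rw [norm_sub_rev] at h
    have θ0 := (norm_nonneg _).trans h
    have n3 : ‖y‖ ≤ 1 := hy ▸ (norm_mul_le _ _).trans (mul_le_one₀ n1 (norm_nonneg _) n2)
    have m : ∀ {a x : B}, ‖a‖ ≤ 1 → ‖x‖ ≤ θ → ‖a * x‖ ≤ θ := fun ha hx =>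
      (norm_mul_le _ _).trans ((mul_le_of_le_one_left (norm_nonneg _) ha).trans hx)
    exact m k1 (m n3 (e1 ▸ m n1 h))
  · rw [← (c7.mul_right (c6.mul_right ((c4.mul_right c6).sub_right (c6.mul_right c4)))).eq, e4]

lemma step_core {σ ι τ : Type} [Finite σ] [Fintype ι] {M R : ℕ} (hN : 2 ≤ N) (hM : 0 < M)
    {δ θ c : ℝ} (hδ : 0 < δ) (hθ : θ ≤ 1 / 2) (c1 : 8 * ms R ≤ c) (c2 : N * (2 * ms R) ≤ c)
    {S : σ → A} (S1 : ∀ l, ‖S l‖ ≤ 1) {f : ι → CA A} (hf : Tol δ θ S f) (U : ∀ l, MU (f l).F)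
    {r t : UA A} (t0 : 0 ≤ t) (t1 : t ≤ 1) (tr : t * r = r) {g : Fin 5 → Fin N → A}
    {W : Fin N × Fin M × ι → A} {d : Fin N → CA A} {T : τ → UA A}
    {Y : (Σ l, Fin (U l).N) × Fin N × (Fin M × Fin (M + 1)) × Fin N' → UA A}
    (Y0 : ∀ x, IsSelfAdjoint (Y x)) (Y1 : ∀ x, t * Y x = Y x)
    (Y2 : ∀ x, blkF U (fun l => cφ (f l)) δ 1 x.1 * Y x = Y x)
    (Y3 : ∀ x x' (b b' : Σ l, Fin (U l).N), x ≠ x' →
      Y x * (star (piM (cφ (f b.1)) δ ((U b.1).v b.2)) * piM (cφ (f b'.1)) δ ((U b'.1).v b'.2)) *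
        Y x' = 0)
    (ht : Base S f d (Sum.elim (fun x : Fin 5 × Fin N => g x.1 x.2) W) (Cn {t}))
    (hT : ∀ Q : StarSubalgebra ℂ (UA A), (∀ x, T x ∈ Q) → t ∈ Q ∧ (∀ x, Y x ∈ Q) ∧
      Base S f d (Sum.elim (fun x : Fin 5 × Fin N => g x.1 x.2) W) Q)
    (h : Fine jG N N' R T (cfc (rp (1 / 16) 1) t) (fun b => blkF U (fun l => cφ (f l)) δ 3 b *
      cfc (rp (1 / 16) 1) t * blkF U (fun l => cφ (f l)) δ 3 b) Y) :
    StepP jG N M θ c (fun l => dg (S l)) (zfam (fun l => dg (S l)) fun l _ => f l)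
      (fun l => cf (rp δ 4) (uφ (fun _ => f l) 1)) (fun l => cf (rp δ 2) (PT (fun _ => f l) δ 1))
      (fun l (o : Option σ) => PT (fun _ => f l) δ (o.elim 1 fun l => dg (S l))) r
      (fun i => dg (g 0 i)) (fun i => dg (g 1 i)) (fun i => dg (g 2 i)) (fun i => dg (g 3 i))
      (fun i => dg (g 4 i)) (fun q => dg (W q)) fun i l => dg ((d i).T (S l)) := by
  classical
  obtain ⟨u, u1, v, -, K, K1, K2, u2, u3, u4, v1, v2⟩ := h
  have ts := t0.isSelfAdjoint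
  have φ0 : ∀ l, OZ (cφ (f l)) := fun l => cφ_oz _
  set a := cfc (rp (1 / 16) 1) t with ha
  set aa := cfc (rp (1 / 16) 3) t with haa
  set D := blkF U (fun l => cφ (f l)) δ with hD
  obtain ⟨m, hm⟩ : ∃ m, m = ampF U (fun l => cφ (f l)) δ fun x => cfc (rp (1 / 16) 1) (Y x) :=
    ⟨_, rfl⟩
  obtain ⟨V, hV⟩ : ∃ V, V = ampF U (fun l => cφ (f l)) δ fun x => v x * D 2 x.1 := ⟨_, rfl⟩
  have m1 := rooms_amp φ0 hδ Y Y0 Y2 Y3 hm
  have V1 := movers_amp φ0 hδ Y v Y0 Y2 (fun x => by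
    simpa only [cf_eq _ (Y0 x)] using (v1 x).1) hV
  rw [← hm] at V1
  have tm : ∀ y, t * m y = m y := fun y => by
    rw [hm, ampF, MU.mul_amp fun s => (Cn_comm (ht.2.1 _ s) rfl).symm]
    simp only [unit_cfc (Y0 _) (Y1 _) (rp_cont _ _) (rp_at_zero _ _)]
  have e0 : ∀ l, 0 ≤ dg (fd δ (f l)) ∧ dg (fd δ (f l)) ≤ 1 := fun l => by
    rw [dg_fd _ hδ]; exact rp_unit _ _ _
  have e1 : ∀ {x : UA A} l, (∀ z, Commute x (piM (cφ (f l)) δ z)) → Commute x (dg (fd δ (f l))) :=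
    fun l h => by rw [dg_fd _ hδ]; exact ((h _).symm.cfc_real _).symm
  let mw : (Fin N × (Fin M × Fin (M + 1)) × Fin N' → ℝ) → ι → UA A := fun ν l =>
    ∑ q, ν q • m (l, q)
  let pw : (Fin N × (Fin M × Fin (M + 1)) × Fin N' → ℝ) → UA A := fun ν =>
    ∑ l, mw ν l * dg (fd δ (f l))
  have w1 := fun (ν : Fin N × (Fin M × Fin (M + 1)) × Fin N' → ℝ) (h : ∀ q, 0 ≤ ν q ∧ ν q ≤ 1) =>
    rooms_sum (fun y => (m1 y).1)
    (fun y => (m1 y).2.1) (fun y => (m1 y).2.2.2.2) (fun l => (e0 l).1) (fun l => (e0 l).2)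
    (fun y => e1 _ (m1 y).2.2.1) h
  have w2 : ∀ ν, (∀ q, 0 ≤ ν q ∧ ν q ≤ 1) → ∀ l, Adm δ (f l) (mw ν l) := fun ν h l =>
    ⟨((w1 ν h).1 l).1, ((w1 ν h).1 l).2, fun y => Commute.sum_left _ _ _ fun q _ => by
      rw [dg_piM _ hδ]; exact ((m1 (l, q)).2.2.1 y).smul_left _, by
      rw [hom_cfc dg (rp_cont _ _) (f l).oz.cp.one_nonneg.isSelfAdjoint, Finset.mul_sum]
      exact Finset.sum_congr rfl fun q _ => by
        rw [mul_smul_comm]; exact congrArg _ (m1 (l, q)).2.2.2.1⟩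
  have w3 : ∀ {x : UA A}, (∀ y, x * m y = m y) → ∀ ν l, x * mw ν l = mw ν l := fun h ν l => by
    simp only [mw, Finset.mul_sum, mul_smul_comm, h]
  have w4 : ∀ ν, t * pw ν = pw ν := fun ν => by
    simp only [pw, Finset.mul_sum, ← mul_assoc, w3 tm]
  obtain ⟨μ, μ0, μ1, μ2⟩ := wts hN (Q := Fin N × (Fin M × Fin (M + 1)) × Fin N') Prod.fst
    (fun q => ((q.2.1.2 : ℕ) : ℝ) / M) (fun q => by positivity) fun q =>
      div_le_one_of_le₀ (by exact_mod_cast Nat.lt_succ_iff.1 q.2.1.2.2) (by positivity)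
  have o1 : ∀ q : Fin N × (Fin M × Fin (M + 1)) × Fin N', (0 : ℝ) ≤ 1 ∧ (1 : ℝ) ≤ 1 :=
    fun _ => ⟨zero_le_one, le_rfl⟩
  have hP : ∑ i, pw (μ i) = pw fun _ => 1 := by
    simp only [pw, mw]
    rw [Finset.sum_comm]
    refine Finset.sum_congr rfl fun l _ => ?_
    rw [← Finset.sum_mul, Finset.sum_comm]
    simp only [← Finset.sum_smul, μ1]
  set P := pw fun _ => 1 with hP'
  have P0 : 0 ≤ P := (w1 _ o1).2.1
  have P1 : P ≤ 1 := (w1 _ o1).2.2.1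
  let Q : Fin N → StarSubalgebra ℂ (UA A) := fun i => VS (K i) ⊓ Cn {t}
  have Qc : ∀ i, IsClosed (Q i : Set (UA A)) := fun i => (VS_closed _).inter (Cn_closed _)
  have Q1 : ∀ i, Base S f d (Sum.elim (fun x : Fin 5 × Fin N => g x.1 x.2) W) (Q i) := fun i => by
    obtain ⟨-, -, b1, b2, b3, b4⟩ := hT _ (K1 i)
    exact ⟨fun l => ⟨b1 l, ht.1 l⟩, fun l y => ⟨b2 l y, ht.2.1 l y⟩,
      fun l y => ⟨b3 l y, ht.2.2.1 l y⟩, fun l => ⟨b4 l, ht.2.2.2 l⟩⟩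
  have Q2 : ∀ i (g : ℝ → ℝ), cfc g t ∈ Q i := fun i g =>
    cfc_mem_cl (Qc i) g ⟨(hT _ (K1 i)).1, mem_Cn_sa ts (Commute.refl t)⟩
  have Q2' : ∀ i, t ∈ Q i := fun i => ⟨(hT _ (K1 i)).1, mem_Cn_sa ts (Commute.refl t)⟩
  have Q3 : ∀ i ν l, mw ν l ∈ Q i := fun i ν l => sum_mem fun q _ => rsmul_mem _ (by
    rw [hm]
    exact MU.amp_mem (Qc i) ((Q1 i).2.1 l) fun b => cfc_mem_cl (Qc i) _
      ⟨(hT _ (K1 i)).2.1 _, mem_Cn_sa ts ((Y1 _).trans
        (mul_comm_of_sa ts (Y0 _) (Y0 _) (Y1 _)).symm)⟩)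
  have Q4 : ∀ i ν, pw ν ∈ Q i := fun i ν =>
    sum_mem fun l _ => mul_mem (Q3 i ν l) ((Q1 i).pi (Qc i) hδ l).2.1
  have Q5 : ∀ {i x}, x ∈ Q i → ∀ g : ℝ → ℝ, Commute (cfc g t) x := fun h g =>
    (Cn_comm h.2 rfl).symm.cfc_real g
  have k1 : ∀ {i x}, x ∈ VS (K i) → Commute (uT (K i) 1) x := fun hb =>
    (Vis.of_VS hb).1.symm.trans (Vis.of_VS hb).2
  have k0 : ∀ i, 0 ≤ uT (K i) 1 ∧ uT (K i) 1 ≤ 1 := fun i =>
    ⟨(uT_cp _).one_nonneg, (uT_one_le _).trans (uφ_one _)⟩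
  have wf := fun i => wall_facts R (K i) (rp_unit (1 / 16) 1 t).1 (rp_unit _ _ _).2 (Q2 i _).1
  have n1 : ∀ {i x}, x ∈ Q i → ∀ m : Fin 4, Commute (wall R (10 + 2 * m) (K i) a) x :=
    fun {i x} h m => (wf i _).2.2.2.2.1 (by omega) x h.1 (Q5 h _).symm
  obtain ⟨u5, -, u6⟩ := hT (Cn {u}) (Cn_swap u3)
  have u7 : ∀ {x}, x ∈ Cn {u} → Commute u x := fun h => (Cn_comm h rfl).symm
  have n2 : ∀ i m, Commute (wall R m (K i) a) u := fun i m =>
    (wf i m).2.2.2.1 u (u4 i).1 (u4 i).2 ((u7 u5).symm.cfc_real _).symm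
  obtain ⟨y, hy⟩ : ∃ y, y = sq aa * sq (1 - P) := ⟨_, rfl⟩
  have y1 := fun i l => err_alg ts P0 P1 (w4 _) (Cn_comm (ht.1 l) rfl).symm
    (k1 (Q2' i).1).symm (norm_le_one_of (k0 i).1 (k0 i).2) ((hf _ (w2 _ o1) l).2.2 P1) hy
  have y2 := err_alg ts P0 P1 (w4 _) (Commute.one_right t) (Commute.one_right t) (norm_one_le' _)
    (θ := 0) (by simp) hy
  have y3 : ∀ i, y ∈ Q i := fun i => hy ▸ mul_mem (cfc_mem_cl (Qc i) _ (Q2 i _))
    (cfc_mem_cl (Qc i) _ (sub_mem (one_mem _) (Q4 i _)))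
  have am : ∀ n : ℕ, (n + 1) * (1 / 16 : ℝ) ≤ 1 → ∀ y, cfc (rp (1 / 16) n) t * m y = m y :=
    fun n hn y => cfc_mul_eq_self ts (tm y) (rp_cont _ _) (rp_one (by norm_num) hn)
  have mg : ∀ i, ∃ d' : ℕ → CA A, ∀ s : A, ‖uT d' (dg s) - (1 - wall R 16 (K i) a) *
      (uT (K i) 1 * (y * dg s * y) + ((1 - aa) * dg ((d i).T s) +
        ∑ l, mw (μ i) l * dg (pv δ (f l) s)))‖ ≤ 8 * ms R * ‖s‖ ∨ y * dg s * y ∉ VS (K i) :=
    fun i => by
      obtain ⟨c, p1, p2, p3⟩ := exists_pc (d i) f hδ (e := 1 - aa)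
        (sub_nonneg.2 (rp_unit _ _ _).2) (sub_le_self _ (rp_unit _ _ _).1)
        (fun x => (Commute.one_left _).sub_left (Q5 ((Q1 i).2.2.1 i x) _)) (mw (μ i))
        (w2 _ (μ0 i)) (fun l => by rw [sub_mul, w3 (am 3 (by norm_num)), one_mul, sub_self])
        fun l l' hl => by
          simp only [mw, Finset.sum_mul_sum, smul_mul_smul_comm]
          exact Finset.sum_eq_zero fun q _ => Finset.sum_eq_zero fun q' _ => by
            rw [(m1 _).2.2.2.2 _ fun h => hl (congrArg Prod.fst h), smul_zero]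
      have p4 := p3 (Q i) (sub_mem (one_mem _) (Q2 i _)) (Q3 i _) ((Q1 i).2.2.1 i) fun l x => by
        rw [dg_piM _ hδ]; exact ((Q1 i).pi (Qc i) hδ l).1 x
      obtain ⟨d', hd⟩ := step_merge c (K i) (rp_unit (1 / 16) 1 t).1 (rp_unit _ _ _).2 y2.1 y2.2.1
        (by
          have : pw (μ i) ≤ P := hP ▸ Finset.single_le_sum (f := fun i => pw (μ i))
            (fun i _ => (w1 _ (μ0 i)).2.1) (Finset.mem_univ i)
          rw [y2.2.2.1]
          refine (add_le_add_right (p2.trans (add_le_add_right this _)) _).trans_eq ?_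
          rw [← haa]; abel)
        (fun x => Q5 (p4 x) _) (Q2 i _).1 (y3 i).1 (fun x => (p4 x).1) R
      refine ⟨d', fun s => or_iff_not_imp_right.2 fun hs => ?_⟩
      rw [← (Vis.of_VS (not_not.1 hs)).1, ← p1]
      exact hd s
  choose d' hd using mg
  let V' : (Fin N × Fin M × ι) × Fin (M + 1) → UA A := fun x =>
    ∑ s, V (x.1.2.2, x.1.1, (x.1.2.1, x.2), s)
  have V2 : ∀ y y', y ≠ y' → star (V y) * V y' = 0 := fun y y' h => by
    rw [← (V1 y).1, ← (V1 y').1, star_mul, (m1 y).1.star_eq, mul_assoc, ← mul_assoc (m y),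
      (m1 y).2.2.2.2 _ h, zero_mul, mul_zero]
  have V3 : ∀ x, star (V' x) * V' x = (U x.1.2.2).amp (cφ (f _)) δ fun b => D 2 ⟨_, b⟩ *
      (∑ s, star (v (⟨_, b⟩, x.1.1, (x.1.2.1, x.2), s)) * v (⟨_, b⟩, x.1.1, (x.1.2.1, x.2), s)) *
        D 2 ⟨_, b⟩ := fun x => by
    simp only [V', star_sum, Finset.sum_mul_sum, Finset.mul_sum, Finset.sum_mul, MU.amp_sum]
    refine Finset.sum_congr rfl fun s _ => ?_
    rw [Finset.sum_eq_single s (fun s' _ hs => V2 _ _ fun h => hs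
      (congrArg (·.2.2.2) h)) (by simp), (V1 _).2.2.2]
  have D0 : ∀ n b, 0 ≤ D n b ∧ D n b ≤ 1 := fun n b => rp_unit _ _ _
  have D1 : ∀ {n n'}, n < n' → ∀ b, D n b * D n' b = D n' b := fun h b => rp_tier h _
  have D2 : ∀ {Q : StarSubalgebra ℂ (UA A)}, IsClosed (Q : Set (UA A)) →
      (∀ l y, cφ (f l) y ∈ Q) → ∀ n b, D n b ∈ Q := fun h1 h2 n b => cfc_mem_cl h1 _ (h2 _ _)
  have al : ∀ l, dg (fd δ (f l)) * cf (rp δ 2) (PT (fun _ => f l) δ 1) =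
      cf (rp δ 2) (PT (fun _ => f l) δ 1) := fun l => by
    rw [dg_fd _ hδ, PT_const_one, ← dg_piM _ hδ, cf_eq _ ((piM_one_sa _ δ).map dg),
      rp_tier (by norm_num)]
  have V4 : ∀ ν, (∀ q, 0 ≤ ν q ∧ ν q ≤ 1) → ∀ x (ρ : ℝ), (∀ s, ν (x.1.1, (x.1.2.1, x.2), s) = ρ) →
      (pw ν * V' x - ρ • V' x) * cf (rp δ 2) (PT (fun _ => f x.1.2.2) δ 1) = 0 :=
    fun ν h x ρ hρ => by
      simp only [V', sub_mul, Finset.mul_sum, Finset.sum_mul, Finset.smul_sum]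
      rw [← Finset.sum_sub_distrib]
      refine Finset.sum_eq_zero fun s _ => sub_eq_zero.2 ?_
      rw [smul_mul_assoc, ← hρ s]
      exact (w1 ν h).2.2.2 _ _ _ (V1 _).1 (e1 _ (V1 _).2.1) (al _)
  have E1 : ∀ i l, ‖∑ l', mw (μ i) l' * dg (pv δ (f l') (S l)) - pw (μ i) * dg (S l) +
      uT (K i) 1 * (y * (dg (S l) * y - y * dg (S l)))‖ ≤ 2 * θ := fun i l =>
    (norm_add_le_of_le (hf _ (w2 _ (μ0 i)) l).2.1 (y1 i l).2.2.2.1).trans_eq (two_mul θ).symm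
  refine ⟨t, norm_le_one_of t0 t1, u, u1, fun i => pw (μ i),
    fun i => norm_le_one_of (w1 _ (μ0 i)).2.1 (w1 _ (μ0 i)).2.2.1, fun i => uT (K i) 1,
    fun i => norm_le_one_of (k0 i).1 (k0 i).2, fun i n => wall R (10 + 2 * n) (K i) a,
    fun i n => norm_le_one_of (wf i _).1 (wf i _).2.1, fun i l =>
      ∑ l', mw (μ i) l' * dg (pv δ (f l') (S l)) - pw (μ i) * dg (S l) +
        uT (K i) 1 * (y * (dg (S l) * y - y * dg (S l))), fun i l => (E1 i l).trans (by linarith),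
    V', fun x => ?_, d', u2, ⟨t0, t1, tr, mem_Cn_of ht.z fun x hx => (Cn_comm hx rfl).symm, u7 u5,
      fun q => (Cn_comm (ht.2.2.2 (.inr q)) rfl).symm, hP ▸ P1, ?_, fun l => ?_⟩,
    fun i => ⟨?_, ⟨(w1 _ (μ0 i)).2.1, w4 _⟩, fun o => ?_, fun n n' hn =>
      ((wf i _).2.2.2.2.2 _ (by omega)).1, fun l => ⟨(Cn_comm (ht.2.2.1 i _) rfl).symm,
        (hf _ (w2 _ (μ0 i)) l).1, E1 i l, ?_, ?_, ?_⟩⟩,
    fun x => ⟨?_, ?_, V4 _ (μ0 _) x _ fun s => μ2 (x.1.1, (x.1.2.1, x.2), s), ?_,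
      fun x' hx => ?_, fun o => ?_, ?_⟩⟩
  · refine (mul_self_le_mul_self_iff (norm_nonneg _) zero_le_one).2 ?_
    rw [← CStarRing.norm_star_mul_self, V3, mul_one]
    refine MU.amp_norm (φ0 _) hδ (blkF_loc φ0 hδ fun b => by
      rw [← mul_assoc, ← mul_assoc, ← hD, D1 one_lt_two]) zero_le_one fun b => ?_
    have a1 := norm_le_one_of (D0 2 ⟨_, b⟩).1 (D0 _ _).2
    have a2 := norm_le_one_of (Finset.sum_nonneg fun _ _ => star_mul_self_nonneg _)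
      (v2 ⟨_, b⟩ x.1.1 (x.1.2.1, x.2)).1
    exact norm_mul₃_le.trans (mul_le_one₀ (mul_le_one₀ a1 (norm_nonneg _) a2) (norm_nonneg _) a1)
  · rw [cf_eq _ ts, ← rp_tier (show 1 < 3 by norm_num) t, ← mul_assoc]
    exact (norm_mul_le _ _).trans ((mul_le_of_le_one_right (norm_nonneg _)
      (norm_le_one_of (rp_unit _ _ _).1 (rp_unit _ _ _).2)).trans (K2.trans c2))
  · rw [hP]; exact (hf _ (w2 _ o1) l).1
  · have a1 := fun n => (Cn_comm (ht.2.2.2 (.inl (n, i))) rfl).symm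
    have a2 := fun n => u7 (u6.2.2.2 (.inl (n, i)))
    exact ⟨a1 0, a1 1, a1 2, a1 3, a1 4, a2 2, a2 3, a2 4⟩
  · have a1 : ∀ x ∈ Q i, Commute (o.elim (uT (K i) 1) fun n => wall R (10 + 2 * n) (K i) a) x :=
      fun x hx => by
        cases o
        exacts [k1 hx.1, n1 hx _]
    have a2 := fun n => a1 _ ((Q1 i).2.2.2 (.inl (n, i)))
    refine ⟨?_, ?_, mem_Cn_of (Q1 i).z a1, a1 _ (Q2' i), ?_, a2 0, a2 1, a2 2, a2 3, a2 4,
      a1 _ (Q4 i _), hP ▸ a1 _ (Q4 i _), ?_, fun q => a1 _ ((Q1 i).2.2.2 (.inr q))⟩ <;> cases o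
    exacts [(k0 i).1, (wf i _).1, (k0 i).2, (wf i _).2.1, (u4 i).2.symm, n2 i _, Commute.refl _,
      (wf i _).2.2.1]
  · rw [cf_eq _ ts, mul_add, (y1 i l).2.2.2.2.1, mul_sub, Finset.mul_sum, ← mul_assoc,
      cfc_mul_eq_self ts (w4 _) (rp_cont _ _) (rp_one (by norm_num) (by norm_num))]
    simp only [← mul_assoc, w3 (am 9 (by norm_num))]
  · have a1 : Commute (cfc (rp (1 / 16) 9) t)
        (∑ l', mw (μ i) l' * dg (pv δ (f l') (S l)) - pw (μ i) * dg (S l)) :=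
      Q5 (i := i) (sub_mem (sum_mem fun l' _ => mul_mem (Q3 i _ _)
        (((Q1 i).pi (Qc i) hδ l').2.2 _)) (mul_mem (Q4 i _) ((Q1 i).1 l))) _
    rw [cf_eq _ ts, add_mul, (y1 i l).2.2.2.2.2, ← a1.eq, mul_sub, Finset.mul_sum, ← mul_assoc,
      cfc_mul_eq_self ts (w4 _) (rp_cont _ _) (rp_one (by norm_num) (by norm_num))]
    simp only [← mul_assoc, w3 (am 9 (by norm_num))]
  · have a1 := (hd i (S l)).resolve_right (not_not.2
      (mul_mem (mul_mem (y3 i).1 ((Q1 i).1 l).1) (y3 i).1))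
    have a2 : (aa - P) * uT (K i) 1 = uT (K i) 1 * (y * y) := by
      rw [(k1 (mul_mem (y3 i).1 (y3 i).1)).eq, y2.2.2.1]
    refine le_trans (le_of_eq ?_) (a1.trans ((mul_le_of_le_one_right
      (mul_nonneg (by norm_num) (ms_pos R).le) (S1 l)).trans c1))
    rw [cf_eq _ ts, hP, ← haa, a2]
    congr 3
    noncomm_ring
  · simp only [V', Finset.mul_sum]
    exact Finset.sum_congr rfl fun s _ => by rw [← (V1 _).1, ← mul_assoc, tm]
  · simp only [V', Finset.mul_sum]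
    refine Finset.sum_eq_zero fun s _ => (V1 _).2.2.1 _ (fun z => n1 ((Q1 _).2.1 _ z) 3) fun b => ?_
    change wall R 16 _ _ * _ = 0
    rw [← ((wf x.1.1 15).2.2.2.2.2 16 (by norm_num)).2.1, mul_assoc,
      (v1 (⟨_, b⟩, x.1.1, (x.1.2.1, x.2), s)).2, mul_zero]
  · rw [hP]
    simpa only [one_smul] using V4 _ o1 x 1 fun _ => rfl
  · simp only [V', star_sum, Finset.sum_mul_sum]
    refine Finset.sum_eq_zero fun s _ => Finset.sum_eq_zero fun s' _ => V2 _ _ fun h => hx ?_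
    simp only [Prod.mk.injEq] at h
    exact Prod.ext (Prod.ext h.2.1 (Prod.ext h.2.2.1.1 h.1)) h.2.2.1.2
  · refine Commute.sum_left _ _ _ fun s _ => ?_
    cases o
    · change Commute _ (PT (fun _ => f _) δ 1)
      rw [PT_const_one]; exact (V1 _).2.1 _
    · change Commute _ (PT (fun _ => f _) δ (dg _))
      rw [PT_const]; exact (V1 _).2.1 _
  · obtain ⟨⟨i, k, l⟩, k'⟩ := x
    have b0 : ∀ {z}, z ∈ Q i → Commute (wall R 10 (K i) a) z := fun h => n1 h 0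
    have b1 : ∀ n b, Commute (wall R 10 (K i) a) (D n b) := fun n b =>
      b0 (D2 (Qc i) (Q1 i).2.1 n b)
    have b2 : ∀ n b, Commute u (D n b) := fun n b => u7 (D2 (Cn_closed _) u6.2.1 n b)
    have b3 : ∀ n, n < 4 → ∀ b, D n b * (wall R 10 (K i) a * D 4 b * u) =
        wall R 10 (K i) a * D 4 b * u := fun n hn b => by
      rw [← mul_assoc, ← mul_assoc, ← (b1 n b).eq, mul_assoc _ (D n b), D1 hn]
    change _ * (wall R 10 (K i) a * cf _ (uφ (fun _ => f l) 1) * u) =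
      wall R 10 (K i) a * cf _ (uφ (fun _ => f l) 1) * u
    rw [V3, cf_const, ← blkF_amp (U := U) φ0 hδ (show 0 < 4 by norm_num),
      MU.mul_amp fun z => b0 ((Q1 i).2.1 l z), MU.amp_mul' (φ0 _) fun z => u7 (u6.2.1 l z),
      MU.amp_mul (φ0 _) _ (blkF_loc φ0 hδ fun b => b3 1 (by norm_num) _)]
    refine congrArg _ (funext fun b => ?_)
    have b4 : ∀ n, Commute a (D n ⟨l, b⟩) := fun n => Q5 (D2 (Qc i) (Q1 i).2.1 n _) _
    have b5 : IsSelfAdjoint (D 3 ⟨l, b⟩ * a * D 3 ⟨l, b⟩) := by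
      rw [IsSelfAdjoint, star_mul, star_mul, (D0 _ _).1.star_eq, ha, IsSelfAdjoint.cfc.star_eq,
        mul_assoc]
    have b6 := cfc_semiconj b5 (x' := a) .cfc (y := D 4 ⟨l, b⟩) (by
      rw [mul_assoc, D1 (by norm_num), mul_assoc, (b4 4).eq, ← mul_assoc, D1 (by norm_num)])
      (wt_cont R 9)
    obtain ⟨-, b7, b8⟩ := (wf i 9).2.2.2.2.2 10 (by norm_num)
    have b9 := mul_comm_of_sa (wf i 10).1.isSelfAdjoint
      (wall_facts R (K i) zero_le_one le_rfl (one_mem _) 9).1.isSelfAdjoint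
      (wf i 10).1.isSelfAdjoint b7
    have b10 : wall R 9 (K i) 1 * cf (wt R 9) (D 3 ⟨l, b⟩ * a * D 3 ⟨l, b⟩) * u *
        (D 4 ⟨l, b⟩ * wall R 10 (K i) a) = wall R 10 (K i) a * D 4 ⟨l, b⟩ * u := by
      rw [cf_eq _ b5, mul_assoc, ← mul_assoc u, (b2 4 _).eq, mul_assoc _ u, ← (n2 i 10).eq,
        mul_assoc (wall R 9 _ _), ← mul_assoc (cfc _ _), b6, mul_assoc (D 4 _),
        ← mul_assoc (cfc _ _), b8, ← mul_assoc (D 4 _), ← (b1 4 _).eq, ← mul_assoc, ← mul_assoc, b9]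
    rw [← hD, mul_assoc, b3 2 (by norm_num), mul_assoc, ← b10, ← mul_assoc (∑ _, _),
      (v2 ⟨l, b⟩ i (k, k')).2, b10, b3 2 (by norm_num)]

end Pool.Agent.Lib.MP_30b5b4_an
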