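import Pool.Agent.Lib.MP_30b5b4_an.C.Step
import Pool.Agent.Lib.MP_30b5b4_an.C.Out
import Pool.Agent.Lib.MP_30b5b4_an.C.Alg

/-! The recursion over the strata. -/

open scoped CStarAlgebra ComplexOrder Topology
open Filter

set_option linter.unusedSectionVars false
set_option linter.style.haveILetI false
set_option linter.unusedVariables false
set_option linter.unusedSimpArgs false
set_option synthInstance.maxSize 1000000

namespace Pool.Agent.Lib.MP_30b5b4_an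

universe u v

variable {I J G : Type*} {A : Type u} [NonUnitalCStarAlgebra I] [PartialOrder I]
  [StarOrderedRing I] [NonUnitalCStarAlgebra J] [PartialOrder J] [StarOrderedRing J]
  [NonUnitalCStarAlgebra G] [PartialOrder G] [StarOrderedRing G]
  [CStarAlgebra A] [PartialOrder A] [StarOrderedRing A]
  {j : I →⋆ₙₐ[ℂ] A} {jJ : J →⋆ₙₐ[ℂ] A} {jG : G →⋆ₙₐ[ℂ] A} {N N' : ℕ}

/-- one step, for the data of a state -/
def StepD {σ ι : Type} (jG : G →⋆ₙₐ[ℂ] A) (N M : ℕ) (δ θ c : ℝ) (S : σ → UA A)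
    (f : ι → ℕ → CA A) (r : UA A) (g : Fin 5 → Fin N → UA A) (W : Fin N × Fin M × ι → UA A)
    (d : Fin N → ℕ → CA A) : Prop :=
  StepP jG N M θ c S (zfam S f) (fun l => cf (rp δ 4) (uφ (f l) 1))
    (fun l => cf (rp δ 2) (PT (f l) δ 1)) (fun l (o : Option σ) => PT (f l) δ (o.elim 1 S)) r
    (g 0) (g 1) (g 2) (g 3) (g 4) W fun i l => uT (d i) (S l)

lemma StepD.clo {σ ι : Type} [Finite σ] [Finite ι] (jG : G →⋆ₙₐ[ℂ] A) (N M : ℕ) {δ : ℝ}
    (hδ : 0 < δ) (θ c : ℝ) :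
    Clo fun x : (((σ → UA A) × (ι → ℕ → CA A)) × UA A) × (Fin 5 → Fin N → UA A) ×
        (Fin N × Fin M × ι → UA A) × (Fin N → ℕ → CA A) =>
      StepD jG N M δ θ c x.1.1.1 x.1.1.2 x.1.2 x.2.1 x.2.2.1 x.2.2.2 := by
  haveI : Fact (Continuous (Gf δ)) := ⟨Gf_cont hδ⟩
  unfold StepD StepP StepR; infer_instance

lemma zfam_cn {σ ι : Type} {S : σ → UA A} {f : ι → ℕ → CA A} (δ : ℝ) {x : UA A}
    (hx : x ∈ Cn (Set.range (zfam S f))) : (∀ l, Commute x (S l)) ∧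
      ∀ l, Commute x (cf (rp δ 4) (uφ (f l) 1)) ∧ Commute x (cf (rp δ 2) (PT (f l) δ 1)) ∧
        ∀ o : Option σ, Commute x (PT (f l) δ (o.elim 1 S)) := by
  have h1 : ∀ l, Commute x (uφ (f l) 1) := fun l => Cn_comm hx ⟨(none, some l, false), rfl⟩
  have h2 : ∀ l (o : Option σ), Commute x (PT (f l) δ (o.elim 1 S)) := fun l o => by
    rw [PT, cf_uφ]
    exact ((h1 l).symm.cfc_real _).symm.mul_right (Cn_comm hx ⟨(o, some l, true), rfl⟩)
  refine ⟨fun l => Cn_comm hx ⟨(some l, none, true), rfl⟩, fun l => ⟨?_, ?_, h2 l⟩⟩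
  · rw [cf_uφ]; exact ((h1 l).symm.cfc_real _).symm
  · have h3 : Commute (star x) (PT (f l) δ 1) := by
      have h4 : Commute (star x) (uφ (f l) 1) :=
        Cn_comm (star_mem hx) ⟨(none, some l, false), rfl⟩
      rw [PT, cf_uφ]
      exact (h4.symm.cfc_real _).symm.mul_right (Cn_comm (star_mem hx) ⟨(none, some l, true), rfl⟩)
    have h5 : Commute x (star (PT (f l) δ 1)) := by simpa using h3.star_star
    exact ((((h2 l none).add_right h5).smul_right _).symm.cfc_real _).symm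

theorem Hold.step (hJ : Idl jJ) {σ ι : Type} [Finite σ] [Fintype ι] {M : ℕ} (hM : 0 < M)
    {δ θ c ρ : ℝ} (hδ : 0 < δ) (θ0 : 0 ≤ θ) (hθ : 2 * θ ≤ ρ) (hc : 0 ≤ c) {S : σ → A}
    (S0 : ∀ l, IsSelfAdjoint (S l)) {f : ι → CA A}
    (H : ∀ r : A, (∃ x, jJ x = r) → 0 ≤ r → ∀ (g : Fin 5 → Fin N → A)
      (W : Fin N × Fin M × ι → A) (d : Fin N → CA A),
      StepD jG N M δ θ c (fun l => dg (S l)) (fun l _ => f l) (dg (cfc (rp (1 / 4) 1) r))
        (fun m i => dg (g m i)) (fun q => dg (W q)) fun i _ => d i)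
    (h : Hold jJ N M δ ρ S f) : Hold jG N M δ (ρ + c) S f := by
  obtain ⟨u, u1, u2, g, -, w, -, z, -, a, -, b, -, W, W1, d, h⟩ := h
  obtain ⟨τ, τ1, τ2, τ0, -, τ3⟩ := hJ.tier (ι := Empty) (κ := Unit) Empty.elim
    (fun _ => star (1 - u)) fun _ => star_mem u2
  obtain ⟨y, y2, y0, -, rfl⟩ := hJ.unit_lift τ2 τ0 ((CStarAlgebra.norm_le_one_iff_of_nonneg _ τ0).1 τ1)
  choose g' hg using fun (m : Fin 5) i => Ult.surj (![g, w, z, a, b] m i)
  choose W' hW using fun q => Ult.surj (W q)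
  haveI := StepD.clo (σ := σ) (ι := ι) jG N M hδ θ c
  have key := transfer (fun x : (((σ → UA A) × (ι → ℕ → CA A)) × UA A) × (Fin 5 → Fin N → UA A) ×
        (Fin N × Fin M × ι → UA A) × (Fin N → ℕ → CA A) =>
      StepD jG N M δ θ c x.1.1.1 x.1.1.2 x.1.2 x.2.1 x.2.2.1 x.2.2.2)
    ((((Stage.pi fun l => Stage.mk (cst (S l))).prod (Stage.pi fun l => Stage.col fun _ => f l)).prod
      (Stage.mk (cfc (rp (1 / 4) 1) y))).prod ((Stage.pi fun m => Stage.pi fun i =>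
        Stage.mk (g' m i)).prod ((Stage.pi fun q => Stage.mk (W' q)).prod
          (Stage.pi fun i => Stage.col (d i))))) (Eventually.of_forall fun k => by
      have := H (Bdd.ev k y) (y2 k) (hom_nonneg _ y0) (fun m i => Bdd.ev k (g' m i))
        (fun q => Bdd.ev k (W' q)) fun i => d i k
      rwa [← hom_cfc (Bdd.ev k) (rp_cont _ _) y0.isSelfAdjoint] at this)
  simp only [hg, hW, ← dg_apply] at key
  obtain ⟨t, -, u', v1, p, -, k, -, n, -, Er, -, V, V1, d', v2, key⟩ := key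
  have r1 : (1 - u) * Ult.mk (cfc (rp (1 / 4) 1) y) = 1 - u := by
    have := cfc_mul_eq_self τ0.isSelfAdjoint (τ3 ()) (rp_cont (1 / 4) 1)
      (cl_of_one_le (by norm_num))
    rw [hom_cfc _ (rp_cont _ _) y0.isSelfAdjoint]
    simpa only [star_mul, star_star, IsSelfAdjoint.cfc.star_eq] using congrArg star this
  obtain ⟨g', w', z', a', b', W', W2, h'⟩ := step_alg hM hθ θ0 hc
    (fun l => (S0 l).map dg) (fun x hx => zfam_cn δ hx)
    (fun l => norm_le_one_of (rp_unit _ _ _).1 (rp_unit _ _ _).2)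
    (IsSelfAdjoint.cfc.map Ult.mk) r1 W1 h v1 V1 key
  have e := fun i => (h'.1 i).1
  exact ⟨u', v1, v2, g', fun i => norm_le_one_of ((e i).1.trans (e i).2.1) (e i).2.2.1, w',
    fun i => norm_le_one_of (e i).1 ((e i).2.1.trans (e i).2.2.1), z',
    fun i => norm_le_one_of (e i).2.2.2.2.2.2.1 (e i).2.2.2.2.2.2.2, a',
    fun i => norm_le_one_of (e i).2.2.2.1
      ((le_add_of_nonneg_right (e i).2.2.2.2.1).trans (e i).2.2.2.2.2.1), b',
    fun i => norm_le_one_of (e i).2.2.2.2.1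
      ((le_add_of_nonneg_left (e i).2.2.2.1).trans (e i).2.2.2.2.2.1), W', W2, d', h'⟩

/-- splitting a stratum at one block -/
lemma split (hJ : Idl jJ) (hG : Idl jG) (L : ℕ) (D : A) :
    ∃ (K : Type u) (_ : NonUnitalCStarAlgebra K) (_ : PartialOrder K) (_ : StarOrderedRing K)
      (i : K →⋆ₙₐ[ℂ] A), Idl i ∧ (∀ c, ∃ b, jJ b = i c) ∧ Poor jJ i L D ∧ Plenty i jG L D ∧
      ∀ D', Poor jJ jG L D' ∨ Plenty jJ jG L D' →
        (Poor jJ i L D' ∨ Plenty jJ i L D') ∧ (Poor i jG L D' ∨ Plenty i jG L D') := by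
  obtain ⟨M, M1, M2⟩ := exists_ker fun p : Pt A => (∀ c, p.π (jJ c) = 0) ∨
    ((∀ c, p.π (jG c) = 0) ∧ ∀ w, (∃ c, jJ c = w) → RichEl L D w → p.π w = 0)
  obtain ⟨K, _, _, _, i, hi, h⟩ := exists_idl M M1
  have k1 : ∀ c, ∃ b, jJ b = i c := fun c => by
    obtain ⟨p, hp⟩ := hJ.exists_pt
    exact (hp _).1 ((M2 _).1 ((h _).1 ⟨c, rfl⟩) p (.inl fun c => (hp _).2 ⟨c, rfl⟩))
  have k2 : ∀ w, (∃ c, jJ c = w) → (∃ c, jG c = w) → ∃ c, i c = w := by
    rintro w ⟨c, hc⟩ ⟨c', hc'⟩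
    refine (h _).2 ((M2 _).2 ?_)
    rintro p (hp | hp)
    exacts [hc ▸ hp c, hc' ▸ hp.1 c']
  refine ⟨K, inferInstance, inferInstance, inferInstance, i, hi, k1, fun w hw hr => (h _).2
    ((M2 _).2 ?_), fun p hp h1 ⟨c, hc⟩ => ?_, fun D' => ?_⟩
  · rintro p (hp | hp)
    · obtain ⟨c, rfl⟩ := hw
      exact hp c
    · exact hp.2 w hw hr
  · by_contra h0
    refine hc ((M2 _).1 ((h _).1 ⟨c, rfl⟩) p (.inr ⟨h1, fun w _ ⟨y, y1, y2⟩ => ?_⟩))
    by_contra h2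
    exact h0 ⟨fun l => p.π (y l), fun l => ⟨hom_nonneg _ (y1 l).1, fun h => h2 ((y1 l).2.2 p h),
      by rw [← map_mul, (y1 l).2.1]⟩, fun l l' hl => by rw [← map_mul, y2 l l' hl, map_zero]⟩
  · rintro (h0 | h0)
    · exact ⟨.inl fun w hw hr => k2 w hw (h0 w hw hr), .inl fun w ⟨c, hc⟩ hr =>
        h0 w (hc ▸ k1 c) hr⟩
    · refine ⟨.inr fun p hp h1 ⟨c, hc⟩ => h0 p hp (fun c' => ?_) ⟨c, hc⟩,
        .inr fun p hp h1 ⟨c, hc⟩ => h0 p hp h1 ?_⟩
      · refine (hp (jJ c) (jG c') fun x => ?_).resolve_left hc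
        obtain ⟨e, he⟩ := k2 (jJ c * x * jG c') (by rw [mul_assoc]; exact hJ.right _ c)
          (hG.left _ c')
        rw [← he, h1]
      · obtain ⟨b, hb⟩ := k1 c
        exact ⟨b, hb ▸ hc⟩

lemma strata {β : Type} [Fintype β] (j : I →⋆ₙₐ[ℂ] A) (L : ℕ) (D : β → A) {ρ₀ c : ℝ} (hc : 0 ≤ c)
    (P : Set A → ℝ → Prop)
    (H : ∀ (J G : Type u) [NonUnitalCStarAlgebra J] [PartialOrder J] [StarOrderedRing J]
      [NonUnitalCStarAlgebra G] [PartialOrder G] [StarOrderedRing G] (jJ : J →⋆ₙₐ[ℂ] A)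
      (jG : G →⋆ₙₐ[ℂ] A), Idl jJ → Idl jG → (∀ c, ∃ b, j b = jJ c) → (∀ c, ∃ b, j b = jG c) →
      (∀ b, Poor jJ jG L (D b) ∨ Plenty jJ jG L (D b)) → ∀ ρ, ρ₀ ≤ ρ →
      P (Set.range jJ) ρ → P (Set.range jG) (ρ + c)) (s : Finset β) :
    ∀ (J G : Type u) [NonUnitalCStarAlgebra J] [PartialOrder J] [StarOrderedRing J]
      [NonUnitalCStarAlgebra G] [PartialOrder G] [StarOrderedRing G] (jJ : J →⋆ₙₐ[ℂ] A)
      (jG : G →⋆ₙₐ[ℂ] A), Idl jJ → Idl jG → (∀ c, ∃ b, j b = jJ c) → (∀ c, ∃ b, j b = jG c) →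
      (∀ b ∉ s, Poor jJ jG L (D b) ∨ Plenty jJ jG L (D b)) → ∀ ρ, ρ₀ ≤ ρ →
      P (Set.range jJ) ρ → P (Set.range jG) (ρ + 2 ^ s.card * c) := by
  classical
  induction s using Finset.induction_on with
  | empty =>
    intro J G _ _ _ _ _ _ jJ jG hJ hG h1 h2 h3 ρ hρ h
    simpa using H J G jJ jG hJ hG h1 h2 (fun b => h3 b (by simp)) ρ hρ h
  | insert b s hb ih =>
    intro J G _ _ _ _ _ _ jJ jG hJ hG h1 h2 h3 ρ hρ h
    obtain ⟨K, _, _, _, i, hi, k1, k2, k3, k4⟩ := split hJ hG L (D b)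
    have k5 : ∀ c, ∃ b, j b = i c := fun c => by
      obtain ⟨e, he⟩ := k1 c
      exact he ▸ h1 e
    have k6 : ∀ b' ∉ s, (Poor jJ i L (D b') ∨ Plenty jJ i L (D b')) ∧
        (Poor i jG L (D b') ∨ Plenty i jG L (D b')) := fun b' h' => by
      by_cases e : b' = b
      · exact e ▸ ⟨.inl k2, .inr k3⟩
      · exact k4 _ (h3 b' (by simp [e, h']))
    have := ih K G i jG hi hG k5 h2 (fun b' h' => (k6 b' h').2) _
      (hρ.trans (le_add_of_nonneg_right (by positivity)))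
      (ih J K jJ i hJ hi h1 k5 (fun b' h' => (k6 b' h').1) ρ hρ h)
    rw [Finset.card_insert_of_notMem hb, pow_succ]
    convert this using 1
    ring

lemma Hold.congr (h : Set.range jJ = Set.range jG) {σ ι : Type} {M : ℕ} {δ ρ : ℝ} {S : σ → A}
    {f : ι → CA A} (H : Hold jJ N M δ ρ S f) : Hold jG N M δ ρ S f := by
  obtain ⟨u, u1, ⟨w, w1, w2⟩, u3⟩ := H
  exact ⟨u, u1, ⟨w, fun k => (Set.ext_iff.1 h _).1 (w1 k), w2⟩, u3⟩

theorem TD.goodC (hT : TD j) (hj : Idl j) : Good j := by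
  intro A' _ _ _ π hπ hk n hI hD
  have h := (idl_self A).main_sum hj (fun x => ⟨j x, rfl⟩) (idl_self A') π (fun a => (hk a).1) hπ
    (fun a => ⟨π a, rfl⟩) hI hD
  rcases n with _ | n
  · exact h
  rw [Nat.add_right_comm] at h
  refine outerC h (by omega) fun {σ} _ M hM δ θ hδ hθ hθ' S S0 S1 f hf => ?_
  have U : ∀ i, MU (f i).F := fun i => (exists_MU _).some
  obtain ⟨L, hL⟩ := hT.stepP hj hI h (by omega) hM hδ hθ' S S0 S1 f hf U
  obtain ⟨p, hp⟩ := hj.exists_pt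
  obtain ⟨M1, m1, m2⟩ := exists_ker fun q : Pt A => q = p
  obtain ⟨J, _, _, _, jJ, hJ, m3⟩ := exists_idl M1 m1
  have m4 : ∀ x, (∃ c, jJ c = x) ↔ ∃ c, j c = x := fun x => by
    rw [m3, m2, ← hp]; simp
  obtain ⟨G, _, _, _, jG, hG, m5⟩ := exists_idl (⊥ : TwoSidedIdeal A) isClosed_singleton
  have m6 : ∀ c, jG c = 0 := fun c => (m5 _).1 ⟨c, rfl⟩
  let β := Σ l, Fin (U l).N
  have c0 : 0 < θ / 2 ^ Fintype.card β := by positivity
  obtain ⟨K, _, _, _, i, hi, u, -, ⟨w, w1, w2⟩, u3⟩ := strata j L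
    (fun b : β => cfc (rp δ 1) ((U b.1).blk (f b.1).φ b.2)) (ρ₀ := 2 * θ) c0.le
    (fun X ρ => ∃ (K : Type u) (_ : NonUnitalCStarAlgebra K) (_ : PartialOrder K)
      (_ : StarOrderedRing K) (i : K →⋆ₙₐ[ℂ] A), Set.range i = X ∧ Hold i (n + 1 + 1) M δ ρ S f)
    (fun J G _ _ _ _ _ _ jJ jG hJ hG h1 h2 h3 ρ hρ ⟨K, _, _, _, i, hi, H⟩ =>
      ⟨G, inferInstance, inferInstance, inferInstance, jG, rfl, (H.congr hi).step hJ hM hδ hθ.le hρ
        c0.le S0 fun r r1 r0 g W d => by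
          simpa only [StepD, uT_const] using
            hL J G jJ jG hJ hG h1 h2 (fun l b => h3 ⟨l, b⟩) _ c0 r r1 r0 g W d⟩)
    Finset.univ J G jJ jG hJ hG (fun c => (m4 _).1 ⟨c, rfl⟩) (fun c => ⟨0, by rw [m6, map_zero]⟩)
    (by simp) _ le_rfl ⟨J, inferInstance, inferInstance, inferInstance, jJ, rfl,
      hJ.base π (fun a ha => (m4 a).2 ((hk a).1 ha)) hπ hD M δ _ S f⟩
  have w3 : w = 0 := Bdd.ext fun k => by
    obtain ⟨c, hc⟩ := (Set.ext_iff.1 hi _).1 (w1 k)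
    rw [← hc, m6, map_zero]
  have u4 : u = 1 := by
    change Ult.mk w = _ at w2
    rw [w3, map_zero, eq_comm, sub_eq_zero] at w2
    exact w2.symm
  rw [u4, Finset.card_univ, mul_div_cancel₀ _ (by positivity)] at u3
  convert u3 using 3
  ring

theorem Ext.tdz {I E D : Type*} [NonUnitalCStarAlgebra I] [PartialOrder I]
    [StarOrderedRing I] [NonUnitalCStarAlgebra E] [PartialOrder E] [StarOrderedRing E]
    [NonUnitalCStarAlgebra D] [PartialOrder D] [StarOrderedRing D]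
    {ι : I →⋆ₙₐ[ℂ] E} {π : E →⋆ₙₐ[ℂ] D} (h : Ext ι π) (hI : TopDimZero I) :
    nucDim E = Max.max (nucDim I) (nucDim D) :=
  h.eq_of_good ((hI.td h.idl).goodC h.idl)

end Pool.Agent.Lib.MP_30b5b4_an
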